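import Mathlib

open Finset

namespace Pool.Agent.Helper916

section ZM

variable {N : ℕ} [NeZero N]

/-- centred sawtooth on `ZMod N` -/
noncomputable def saw (z : ZMod N) : ℝ := ((z.val : ℝ) - ((N : ℝ) - 1) / 2) / N

/-- Fourier coefficient of the sawtooth -/
noncomputable def cs (h : ZMod N) : ℂ :=
  (N : ℂ)⁻¹ * ∑ z : ZMod N, (saw z : ℂ) * ZMod.stdAddChar (-(h * z))

theorem saw_expand (y : ZMod N) :
    (saw y : ℂ) = ∑ h : ZMod N, cs h * ZMod.stdAddChar (h * y) := by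
  have hN : (N : ℂ) ≠ 0 := by exact_mod_cast NeZero.ne N
  have h1 : ∑ h : ZMod N, cs h * ZMod.stdAddChar (h * y)
      = ∑ h : ZMod N, ∑ z : ZMod N, (N : ℂ)⁻¹ * (saw z : ℂ) * ZMod.stdAddChar (h * (y - z)) := by
    refine Finset.sum_congr rfl fun h _ => ?_
    rw [cs, Finset.mul_sum, Finset.sum_mul]
    refine Finset.sum_congr rfl fun z _ => ?_
    have : h * (y - z) = -(h * z) + h * y := by ring
    rw [this, AddChar.map_add_eq_mul]
    ring
  rw [h1, Finset.sum_comm]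
  simp_rw [← Finset.mul_sum, AddChar.sum_mulShift _ (ZMod.isPrimitive_stdAddChar N)]
  rw [Finset.sum_eq_single y]
  · rw [sub_self, if_pos rfl, ZMod.card]
    field_simp
  · intro z _ hz
    rw [if_neg (sub_ne_zero.mpr (Ne.symm hz))]
    simp
  · simp

theorem sum_val : ∑ z : ZMod N, (z.val : ℝ) = (N : ℝ) * ((N : ℝ) - 1) / 2 := by
  have h1 : ∑ z : ZMod N, (z.val : ℝ) = ∑ k ∈ Finset.range N, (k : ℝ) := by
    refine Finset.sum_bij (fun z _ => z.val) ?_ ?_ ?_ ?_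
    · intro z _; exact Finset.mem_range.mpr (ZMod.val_lt z)
    · intro a _ b _ h; exact ZMod.val_injective N h
    · intro k hk
      exact ⟨(k : ZMod N), Finset.mem_univ _, ZMod.val_cast_of_lt (Finset.mem_range.mp hk)⟩
    · intro _ _; rfl
  rw [h1]
  have : ∀ n : ℕ, ∑ k ∈ Finset.range n, (k : ℝ) = (n : ℝ) * ((n : ℝ) - 1) / 2 := by
    intro n
    induction n with
    | zero => simp
    | succ n ih => rw [Finset.sum_range_succ, ih]; push_cast; ring
  exact this N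

theorem sum_saw : ∑ z : ZMod N, saw z = 0 := by
  unfold saw
  rw [← Finset.sum_div, Finset.sum_sub_distrib, sum_val, Finset.sum_const, Finset.card_univ,
    ZMod.card, nsmul_eq_mul]
  have : (N : ℝ) * ((N : ℝ) - 1) / 2 - (N : ℝ) * (((N : ℝ) - 1) / 2) = 0 := by ring
  rw [this, zero_div]

theorem cs_zero : cs (0 : ZMod N) = 0 := by
  unfold cs
  have : ∑ z : ZMod N, (saw z : ℂ) * ZMod.stdAddChar (-(0 * z)) = ((∑ z : ZMod N, saw z : ℝ) : ℂ) := by
    push_cast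
    refine Finset.sum_congr rfl fun z _ => ?_
    simp
  rw [this, sum_saw]
  simp

theorem geom_aux (w : ℂ) (n : ℕ) :
    (w - 1) * ∑ k ∈ Finset.range n, (k : ℂ) * w ^ k
      = n * w ^ n - w * ∑ k ∈ Finset.range n, w ^ k := by
  induction n with
  | zero => simp
  | succ n ih =>
    rw [Finset.sum_range_succ, mul_add, ih, Finset.sum_range_succ]
    push_cast
    ring

theorem std_ne_one {h : ZMod N} (hh : h ≠ 0) : (ZMod.stdAddChar h : ℂ) ≠ 1 := by
  intro h1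
  apply hh
  apply ZMod.injective_stdAddChar
  rw [h1, AddChar.map_zero_eq_one]

theorem cs_eq {h : ZMod N} (hh : h ≠ 0) :
    cs h = 1 / ((N : ℂ) * (ZMod.stdAddChar (-h) - 1)) := by
  have hN : (N : ℂ) ≠ 0 := by exact_mod_cast NeZero.ne N
  set w : ℂ := ZMod.stdAddChar (-h) with hw
  have hw1 : w ≠ 1 := std_ne_one (neg_ne_zero.mpr hh)
  have hw1' : w - 1 ≠ 0 := sub_ne_zero.mpr hw1
  have hwN : w ^ N = 1 := by
    rw [hw, ← AddChar.map_nsmul_eq_pow]
    simp
  have hpow : ∀ z : ZMod N, (ZMod.stdAddChar (-(h * z)) : ℂ) = w ^ z.val := by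
    intro z
    rw [hw, ← AddChar.map_nsmul_eq_pow]
    congr 1
    rw [nsmul_eq_mul, ZMod.natCast_val, ZMod.cast_id', id]
    ring
  have hgeo : ∑ k ∈ Finset.range N, w ^ k = 0 := by
    have := geom_sum_mul w N
    rw [hwN, sub_self] at this
    rcases mul_eq_zero.mp this with h | h
    · exact h
    · exact absurd h hw1'
  have htr : ∀ f : ℕ → ℂ, ∑ z : ZMod N, f z.val = ∑ k ∈ Finset.range N, f k := by
    intro f
    refine Finset.sum_bij (fun z _ => z.val) ?_ ?_ ?_ ?_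
    · intro z _; exact Finset.mem_range.mpr (ZMod.val_lt z)
    · intro a _ b _ h; exact ZMod.val_injective N h
    · intro k hk
      exact ⟨(k : ZMod N), Finset.mem_univ _, ZMod.val_cast_of_lt (Finset.mem_range.mp hk)⟩
    · intro _ _; rfl
  have h1 : ∑ z : ZMod N, (saw z : ℂ) * ZMod.stdAddChar (-(h * z))
      = (N : ℂ)⁻¹ * ∑ k ∈ Finset.range N, (k : ℂ) * w ^ k := by
    have e1 : ∑ z : ZMod N, (saw z : ℂ) * ZMod.stdAddChar (-(h * z))
        = ∑ z : ZMod N, ((((z.val : ℂ) - ((N : ℂ) - 1) / 2) / N) * w ^ z.val) := by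
      refine Finset.sum_congr rfl fun z _ => ?_
      rw [hpow z]
      unfold saw
      push_cast
      ring
    rw [e1, htr (fun k => (((k : ℂ) - ((N : ℂ) - 1) / 2) / N) * w ^ k)]
    have e2 : ∀ k ∈ Finset.range N, (((k : ℂ) - ((N : ℂ) - 1) / 2) / N) * w ^ k
        = (N : ℂ)⁻¹ * ((k : ℂ) * w ^ k) - (((N : ℂ) - 1) / 2 / N) * w ^ k := by
      intro k _
      field_simp
    rw [Finset.sum_congr rfl e2, Finset.sum_sub_distrib, ← Finset.mul_sum, ← Finset.mul_sum, hgeo]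
    ring
  have h2 := geom_aux w N
  rw [hwN, hgeo] at h2
  have h3 : ∑ k ∈ Finset.range N, (k : ℂ) * w ^ k = N / (w - 1) := by
    rw [eq_div_iff hw1']
    linear_combination h2
  unfold cs
  rw [h1, h3]
  field_simp

theorem std_sub_one_norm {h : ZMod N} :
    4 * min (h.val : ℝ) ((N : ℝ) - h.val) / N ≤ ‖(ZMod.stdAddChar (-h) : ℂ) - 1‖ := by
  have hNpos : (0 : ℝ) < N := by
    have := NeZero.pos N
    exact_mod_cast this
  have hval : (h.val : ℝ) < N := by exact_mod_cast ZMod.val_lt h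
  have hval0 : (0 : ℝ) ≤ h.val := Nat.cast_nonneg _
  have h1 : (ZMod.stdAddChar (-h) : ℂ) = Complex.exp (Complex.I * ((-(2 * Real.pi * h.val / N) : ℝ) : ℂ)) := by
    have : (-h) = ((-(h.val : ℤ) : ℤ) : ZMod N) := by
      push_cast
      rw [ZMod.natCast_val, ZMod.cast_id', id]
    rw [this, ZMod.stdAddChar_coe]
    congr 1
    push_cast
    ring
  rw [h1, Complex.norm_exp_I_mul_ofReal_sub_one]
  have h2 : -(2 * Real.pi * (h.val : ℝ) / N) / 2 = -(Real.pi * (h.val : ℝ) / N) := by ring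
  rw [h2, Real.sin_neg, mul_neg, norm_neg, Real.norm_eq_abs]
  have hpi := Real.pi_pos
  have h3 : 2 * min (h.val : ℝ) ((N : ℝ) - h.val) / N ≤ Real.sin (Real.pi * (h.val : ℝ) / N) := by
    rcases le_total (h.val : ℝ) ((N : ℝ) / 2) with hc | hc
    · have e1 : min (h.val : ℝ) ((N : ℝ) - h.val) = h.val := min_eq_left (by linarith)
      rw [e1]
      have e2 := Real.mul_le_sin (x := Real.pi * (h.val : ℝ) / N) (by positivity)
        (by rw [div_le_iff₀ hNpos]; nlinarith)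
      refine le_trans (le_of_eq ?_) e2
      field_simp
    · have e1 : min (h.val : ℝ) ((N : ℝ) - h.val) = (N : ℝ) - h.val := min_eq_right (by linarith)
      rw [e1]
      have e3 : Real.sin (Real.pi * (h.val : ℝ) / N) = Real.sin (Real.pi * ((N : ℝ) - h.val) / N) := by
        rw [← Real.sin_pi_sub]
        congr 1
        field_simp
      rw [e3]
      have e2 := Real.mul_le_sin (x := Real.pi * ((N : ℝ) - h.val) / N)
        (by apply div_nonneg (mul_nonneg hpi.le (by linarith)) hNpos.le)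
        (by rw [div_le_iff₀ hNpos]; nlinarith)
      refine le_trans (le_of_eq ?_) e2
      field_simp
  have h4 : 2 * Real.sin (Real.pi * (h.val : ℝ) / N) ≤ |2 * Real.sin (Real.pi * (h.val : ℝ) / N)| :=
    le_abs_self _
  refine le_trans ?_ h4
  calc 4 * min (h.val : ℝ) ((N : ℝ) - h.val) / N = 2 * (2 * min (h.val : ℝ) ((N : ℝ) - h.val) / N) := by ring
    _ ≤ _ := by linarith

/-- the l1 bound -/
theorem sum_cs_le : ∑ h : ZMod N, ‖cs h‖ ≤ 1 + Real.log N := by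
  have hNpos : (0 : ℝ) < N := by
    have := NeZero.pos N
    exact_mod_cast this
  have h1 : ∀ h : ZMod N, h ≠ 0 → ‖cs h‖ ≤ (1 / 2) * ((h.val : ℝ)⁻¹ / 2 + ((N : ℝ) - h.val)⁻¹ / 2) := by
    intro h hh
    have hv1 : (0 : ℝ) < h.val := by
      have : h.val ≠ 0 := by rwa [Ne, ZMod.val_eq_zero]
      exact_mod_cast Nat.pos_of_ne_zero this
    have hv2 : (0 : ℝ) < (N : ℝ) - h.val := by
      have : (h.val : ℝ) < N := by exact_mod_cast ZMod.val_lt h
      linarith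
    have hmin : 0 < min (h.val : ℝ) ((N : ℝ) - h.val) := lt_min hv1 hv2
    rw [cs_eq hh, norm_div, norm_mul, norm_one, Complex.norm_natCast]
    have h2 := std_sub_one_norm (h := h)
    have h3 : 4 * min (h.val : ℝ) ((N : ℝ) - h.val) ≤ (N : ℝ) * ‖(ZMod.stdAddChar (-h) : ℂ) - 1‖ := by
      rw [div_le_iff₀ hNpos] at h2
      linarith
    have h4 : 1 / ((N : ℝ) * ‖(ZMod.stdAddChar (-h) : ℂ) - 1‖) ≤ 1 / (4 * min (h.val : ℝ) ((N : ℝ) - h.val)) :=
      one_div_le_one_div_of_le (by positivity) h3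
    refine h4.trans ?_
    have h5 : (min (h.val : ℝ) ((N : ℝ) - h.val))⁻¹ ≤ (h.val : ℝ)⁻¹ + ((N : ℝ) - h.val)⁻¹ := by
      rcases min_choice (h.val : ℝ) ((N : ℝ) - h.val) with e | e
      · rw [e]; have := inv_pos.mpr hv2; linarith
      · rw [e]; have := inv_pos.mpr hv1; linarith
    rw [one_div, mul_inv]
    linarith
  have htr : ∀ f : ℕ → ℝ, ∑ z ∈ (Finset.univ : Finset (ZMod N)).erase 0, f z.val
      = ∑ k ∈ Finset.Ico 1 N, f k := by
    intro f
    refine Finset.sum_bij (fun z _ => z.val) ?_ ?_ ?_ ?_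
    · intro z hz
      rw [Finset.mem_erase] at hz
      rw [Finset.mem_Ico]
      refine ⟨?_, ZMod.val_lt z⟩
      have : z.val ≠ 0 := by rw [Ne, ZMod.val_eq_zero]; exact hz.1
      omega
    · intro a _ b _ h; exact ZMod.val_injective N h
    · intro k hk
      rw [Finset.mem_Ico] at hk
      refine ⟨(k : ZMod N), ?_, ZMod.val_cast_of_lt hk.2⟩
      rw [Finset.mem_erase]
      refine ⟨?_, Finset.mem_univ _⟩
      intro h0
      have := ZMod.val_cast_of_lt hk.2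
      rw [h0, ZMod.val_zero] at this
      omega
    · intro _ _; rfl
  have hharm : ∑ k ∈ Finset.Ico 1 N, ((k : ℝ))⁻¹ ≤ 1 + Real.log N := by
    have e0 : N - 1 + 1 = N := by have := NeZero.pos N; omega
    have e1 : ∑ k ∈ Finset.Ico 1 N, ((k : ℝ))⁻¹ = ((harmonic (N - 1) : ℚ) : ℝ) := by
      rw [harmonic_eq_sum_Icc, ← e0, Nat.add_sub_cancel]
      push_cast
      rfl
    rw [e1]
    refine (harmonic_le_one_add_log (N - 1)).trans ?_
    have : Real.log ((N - 1 : ℕ) : ℝ) ≤ Real.log N := by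
      by_cases hN1 : N - 1 = 0
      · rw [hN1]; simp
        exact Real.log_natCast_nonneg N
      · apply Real.log_le_log
        · exact_mod_cast Nat.pos_of_ne_zero hN1
        · exact_mod_cast Nat.sub_le N 1
    linarith
  have hrefl : ∑ k ∈ Finset.Ico 1 N, ((N : ℝ) - k)⁻¹ = ∑ k ∈ Finset.Ico 1 N, ((k : ℝ))⁻¹ := by
    refine Finset.sum_bij (fun k _ => N - k) ?_ ?_ ?_ ?_
    · intro k hk
      rw [Finset.mem_Ico] at hk ⊢
      omega
    · intro a ha b hb h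
      rw [Finset.mem_Ico] at ha hb
      omega
    · intro k hk
      rw [Finset.mem_Ico] at hk
      refine ⟨N - k, ?_, ?_⟩
      · rw [Finset.mem_Ico]; omega
      · omega
    · intro k hk
      rw [Finset.mem_Ico] at hk
      rw [Nat.cast_sub hk.2.le]
  rw [← Finset.add_sum_erase Finset.univ _ (Finset.mem_univ (0 : ZMod N)), cs_zero, norm_zero, zero_add]
  calc ∑ h ∈ Finset.univ.erase (0 : ZMod N), ‖cs h‖
      ≤ ∑ h ∈ Finset.univ.erase (0 : ZMod N), (1 / 2) * ((h.val : ℝ)⁻¹ / 2 + ((N : ℝ) - h.val)⁻¹ / 2) :=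
        Finset.sum_le_sum fun h hh => h1 h (Finset.ne_of_mem_erase hh)
    _ = ∑ k ∈ Finset.Ico 1 N, (1 / 2) * ((k : ℝ)⁻¹ / 2 + ((N : ℝ) - k)⁻¹ / 2) :=
        htr (fun k => (1 / 2) * ((k : ℝ)⁻¹ / 2 + ((N : ℝ) - k)⁻¹ / 2))
    _ = (1 / 2) * (∑ k ∈ Finset.Ico 1 N, ((k : ℝ))⁻¹) := by
        rw [← Finset.mul_sum, Finset.sum_add_distrib, ← Finset.sum_div, ← Finset.sum_div, hrefl]
        ring
    _ ≤ 1 + Real.log N := by
        have : 0 ≤ ∑ k ∈ Finset.Ico 1 N, ((k : ℝ))⁻¹ := Finset.sum_nonneg fun _ _ => by positivity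
        linarith

end ZM

/-- uniform mean square of the sawtooth -/
noncomputable def VV (N : ℕ) : ℝ := ((N : ℝ) ^ 2 - 1) / (12 * (N : ℝ) ^ 2)

theorem sum_val_sq {N : ℕ} [NeZero N] :
    ∑ z : ZMod N, (z.val : ℝ) ^ 2 = (N : ℝ) * ((N : ℝ) - 1) * (2 * (N : ℝ) - 1) / 6 := by
  have h1 : ∑ z : ZMod N, (z.val : ℝ) ^ 2 = ∑ k ∈ Finset.range N, (k : ℝ) ^ 2 := by
    refine Finset.sum_bij (fun z _ => z.val) ?_ ?_ ?_ ?_
    · intro z _; exact Finset.mem_range.mpr (ZMod.val_lt z)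
    · intro a _ b _ h; exact ZMod.val_injective N h
    · intro k hk
      exact ⟨(k : ZMod N), Finset.mem_univ _, ZMod.val_cast_of_lt (Finset.mem_range.mp hk)⟩
    · intro _ _; rfl
  rw [h1]
  have : ∀ n : ℕ, ∑ k ∈ Finset.range n, (k : ℝ) ^ 2
      = (n : ℝ) * ((n : ℝ) - 1) * (2 * (n : ℝ) - 1) / 6 := by
    intro n
    induction n with
    | zero => simp
    | succ n ih => rw [Finset.sum_range_succ, ih]; push_cast; ring
  exact this N

theorem sum_saw_sq {N : ℕ} [NeZero N] : ∑ z : ZMod N, (saw z) ^ 2 = (N : ℝ) * VV N := by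
  have hN : (N : ℝ) ≠ 0 := by exact_mod_cast NeZero.ne N
  have h1 : ∀ z : ZMod N, (saw z) ^ 2
      = ((z.val : ℝ) ^ 2 - ((N : ℝ) - 1) * z.val + (((N : ℝ) - 1) / 2) ^ 2) / (N : ℝ) ^ 2 := by
    intro z
    unfold saw
    rw [div_pow]
    congr 1
    ring
  rw [Finset.sum_congr rfl fun z _ => h1 z, ← Finset.sum_div, Finset.sum_add_distrib,
    Finset.sum_sub_distrib, ← Finset.mul_sum, sum_val, sum_val_sq, Finset.sum_const,
    Finset.card_univ, ZMod.card, nsmul_eq_mul]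
  unfold VV
  field_simp
  ring

theorem saw_abs_le {N : ℕ} [NeZero N] (z : ZMod N) : |saw z| ≤ 1 / 2 := by
  have hNpos : (0 : ℝ) < N := by
    have := NeZero.pos N
    exact_mod_cast this
  have h1 : (z.val : ℝ) + 1 ≤ N := by exact_mod_cast ZMod.val_lt z
  have h0 : (0 : ℝ) ≤ z.val := Nat.cast_nonneg _
  unfold saw
  rw [abs_le]
  constructor
  · rw [le_div_iff₀ hNpos]; linarith
  · rw [div_le_iff₀ hNpos]; linarith

section Cov

variable {ι : Type*} (Ω : Finset ι) {N M : ℕ} [NeZero N] [NeZero M]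

theorem norm_std {N : ℕ} [NeZero N] (z : ZMod N) : ‖(ZMod.stdAddChar z : ℂ)‖ = 1 :=
  AddChar.norm_apply _ _

/-- first moment -/
theorem cov_one (a : ι → ZMod N) (s : ZMod N) (B : ℝ) (hB0 : 0 ≤ B)
    (hB : ∀ h : ZMod N, h ≠ 0 → ‖∑ ω ∈ Ω, (ZMod.stdAddChar (h * a ω) : ℂ)‖ ≤ B) :
    |∑ ω ∈ Ω, saw (a ω + s)| ≤ B * (1 + Real.log N) := by
  have h1 : ((∑ ω ∈ Ω, saw (a ω + s) : ℝ) : ℂ)
      = ∑ h : ZMod N, cs h * ZMod.stdAddChar (h * s) * ∑ ω ∈ Ω, ZMod.stdAddChar (h * a ω) := by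
    push_cast
    simp_rw [saw_expand]
    rw [Finset.sum_comm]
    refine Finset.sum_congr rfl fun h _ => ?_
    rw [Finset.mul_sum]
    refine Finset.sum_congr rfl fun ω _ => ?_
    rw [mul_add, AddChar.map_add_eq_mul]
    ring
  have h2 : |∑ ω ∈ Ω, saw (a ω + s)| = ‖((∑ ω ∈ Ω, saw (a ω + s) : ℝ) : ℂ)‖ := by
    rw [Complex.norm_real, Real.norm_eq_abs]
  rw [h2, h1]
  refine (norm_sum_le _ _).trans ?_
  calc ∑ h : ZMod N, ‖cs h * ZMod.stdAddChar (h * s) * ∑ ω ∈ Ω, (ZMod.stdAddChar (h * a ω) : ℂ)‖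
      ≤ ∑ h : ZMod N, ‖cs h‖ * B := by
        refine Finset.sum_le_sum fun h _ => ?_
        rw [norm_mul, norm_mul, norm_std, mul_one]
        by_cases hh : h = 0
        · rw [hh, cs_zero]; simp
        · exact mul_le_mul_of_nonneg_left (hB h hh) (norm_nonneg _)
    _ = B * ∑ h : ZMod N, ‖cs h‖ := by rw [← Finset.sum_mul, mul_comm]
    _ ≤ _ := mul_le_mul_of_nonneg_left sum_cs_le hB0

/-- cross moment -/
theorem cov_two (a : ι → ZMod N) (b : ι → ZMod M) (s : ZMod N) (t : ZMod M) (B : ℝ) (hB0 : 0 ≤ B)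
    (hB : ∀ h : ZMod N, ∀ k : ZMod M, h ≠ 0 → k ≠ 0 →
      ‖∑ ω ∈ Ω, (ZMod.stdAddChar (h * a ω) : ℂ) * ZMod.stdAddChar (k * b ω)‖ ≤ B) :
    |∑ ω ∈ Ω, saw (a ω + s) * saw (b ω + t)| ≤ B * ((1 + Real.log N) * (1 + Real.log M)) := by
  have h1 : ((∑ ω ∈ Ω, saw (a ω + s) * saw (b ω + t) : ℝ) : ℂ)
      = ∑ h : ZMod N, ∑ k : ZMod M, (cs h * ZMod.stdAddChar (h * s)) *
          (cs k * ZMod.stdAddChar (k * t)) *
          ∑ ω ∈ Ω, ZMod.stdAddChar (h * a ω) * ZMod.stdAddChar (k * b ω) := by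
    push_cast
    simp_rw [saw_expand, Finset.sum_mul_sum]
    rw [Finset.sum_comm]
    refine Finset.sum_congr rfl fun h _ => ?_
    rw [Finset.sum_comm]
    refine Finset.sum_congr rfl fun k _ => ?_
    rw [Finset.mul_sum]
    refine Finset.sum_congr rfl fun ω _ => ?_
    rw [mul_add, mul_add, AddChar.map_add_eq_mul, AddChar.map_add_eq_mul]
    ring
  have h2 : |∑ ω ∈ Ω, saw (a ω + s) * saw (b ω + t)|
      = ‖((∑ ω ∈ Ω, saw (a ω + s) * saw (b ω + t) : ℝ) : ℂ)‖ := by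
    rw [Complex.norm_real, Real.norm_eq_abs]
  rw [h2, h1]
  refine (norm_sum_le _ _).trans ?_
  have hlog : ∀ K : ℕ, 0 ≤ 1 + Real.log K := fun K => by
    have := Real.log_natCast_nonneg K; linarith
  calc ∑ h : ZMod N, ‖∑ k : ZMod M, (cs h * ZMod.stdAddChar (h * s)) *
          (cs k * ZMod.stdAddChar (k * t)) *
          ∑ ω ∈ Ω, (ZMod.stdAddChar (h * a ω) : ℂ) * ZMod.stdAddChar (k * b ω)‖
      ≤ ∑ h : ZMod N, ∑ k : ZMod M, ‖cs h‖ * ‖cs k‖ * B := by
        refine Finset.sum_le_sum fun h _ => (norm_sum_le _ _).trans ?_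
        refine Finset.sum_le_sum fun k _ => ?_
        rw [norm_mul, norm_mul, norm_mul, norm_mul, norm_std, norm_std, mul_one, mul_one]
        by_cases hh : h = 0
        · rw [hh, cs_zero]; simp
        · by_cases hk : k = 0
          · rw [hk, cs_zero]; simp
          · exact mul_le_mul_of_nonneg_left (hB h k hh hk) (by positivity)
    _ = B * ((∑ h : ZMod N, ‖cs h‖) * (∑ k : ZMod M, ‖cs k‖)) := by
        rw [Finset.sum_mul_sum, Finset.mul_sum]
        refine Finset.sum_congr rfl fun h _ => ?_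
        rw [Finset.mul_sum]
        refine Finset.sum_congr rfl fun k _ => ?_
        ring
    _ ≤ _ := by
        refine mul_le_mul_of_nonneg_left ?_ hB0
        exact mul_le_mul sum_cs_le sum_cs_le (Finset.sum_nonneg fun _ _ => norm_nonneg _) (hlog N)

/-- second moment -/
theorem cov_sq (a : ι → ZMod N) (s : ZMod N) (B : ℝ) (hB0 : 0 ≤ B)
    (hB : ∀ h : ZMod N, h ≠ 0 → ‖∑ ω ∈ Ω, (ZMod.stdAddChar (h * a ω) : ℂ)‖ ≤ B) :
    |∑ ω ∈ Ω, saw (a ω + s) ^ 2 - (Ω.card : ℝ) * VV N| ≤ B * (1 + Real.log N) ^ 2 := by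
  have hN : (N : ℝ) ≠ 0 := by exact_mod_cast NeZero.ne N
  have hNC : (N : ℂ) ≠ 0 := by exact_mod_cast NeZero.ne N
  -- the linear functional
  have h0 : (Ω.card : ℝ) * VV N = (Ω.card : ℝ) * ((N : ℝ)⁻¹ * ∑ z : ZMod N, saw (z + s) ^ 2) := by
    have : ∑ z : ZMod N, saw (z + s) ^ 2 = ∑ z : ZMod N, saw z ^ 2 :=
      Equiv.sum_comp (Equiv.addRight s) (fun z => saw z ^ 2)
    rw [this, sum_saw_sq]
    field_simp
  have hexp : ∀ z : ZMod N, ((saw (z + s) ^ 2 : ℝ) : ℂ)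
      = ∑ h : ZMod N, ∑ k : ZMod N, (cs h * ZMod.stdAddChar (h * s)) *
          (cs k * ZMod.stdAddChar (k * s)) * ZMod.stdAddChar ((h + k) * z) := by
    intro z
    push_cast
    rw [saw_expand, sq, Finset.sum_mul_sum]
    refine Finset.sum_congr rfl fun h _ => Finset.sum_congr rfl fun k _ => ?_
    rw [mul_add, mul_add, AddChar.map_add_eq_mul, AddChar.map_add_eq_mul, add_mul,
      AddChar.map_add_eq_mul]
    ring
  have h1 : ((∑ ω ∈ Ω, saw (a ω + s) ^ 2 - (Ω.card : ℝ) * VV N : ℝ) : ℂ)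
      = ∑ h : ZMod N, ∑ k : ZMod N, (cs h * ZMod.stdAddChar (h * s)) *
          (cs k * ZMod.stdAddChar (k * s)) *
          ((∑ ω ∈ Ω, ZMod.stdAddChar ((h + k) * a ω)) -
            (Ω.card : ℂ) * ((N : ℂ)⁻¹ * ∑ z : ZMod N, ZMod.stdAddChar ((h + k) * z))) := by
    rw [h0, Complex.ofReal_sub, Complex.ofReal_sum, Finset.sum_congr rfl fun ω _ => hexp (a ω)]
    have e1 : (((Ω.card : ℝ) * ((N : ℝ)⁻¹ * ∑ z : ZMod N, saw (z + s) ^ 2) : ℝ) : ℂ)
        = (Ω.card : ℂ) * ((N : ℂ)⁻¹ * ∑ z : ZMod N, ∑ h : ZMod N, ∑ k : ZMod N,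
          (cs h * ZMod.stdAddChar (h * s)) *
          (cs k * ZMod.stdAddChar (k * s)) * ZMod.stdAddChar ((h + k) * z)) := by
      rw [← Finset.sum_congr rfl fun z _ => hexp z]
      push_cast
      rfl
    rw [e1]
    have e2 : ∑ ω ∈ Ω, ∑ h : ZMod N, ∑ k : ZMod N, (cs h * ZMod.stdAddChar (h * s)) *
          (cs k * ZMod.stdAddChar (k * s)) * (ZMod.stdAddChar ((h + k) * a ω) : ℂ)
        = ∑ h : ZMod N, ∑ k : ZMod N, (cs h * ZMod.stdAddChar (h * s)) *
          (cs k * ZMod.stdAddChar (k * s)) * ∑ ω ∈ Ω, ZMod.stdAddChar ((h + k) * a ω) := by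
      rw [Finset.sum_comm]
      refine Finset.sum_congr rfl fun h _ => ?_
      rw [Finset.sum_comm]
      refine Finset.sum_congr rfl fun k _ => ?_
      rw [Finset.mul_sum]
    have e3 : ∑ z : ZMod N, ∑ h : ZMod N, ∑ k : ZMod N, (cs h * ZMod.stdAddChar (h * s)) *
          (cs k * ZMod.stdAddChar (k * s)) * (ZMod.stdAddChar ((h + k) * z) : ℂ)
        = ∑ h : ZMod N, ∑ k : ZMod N, (cs h * ZMod.stdAddChar (h * s)) *
          (cs k * ZMod.stdAddChar (k * s)) * ∑ z : ZMod N, ZMod.stdAddChar ((h + k) * z) := by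
      rw [Finset.sum_comm]
      refine Finset.sum_congr rfl fun h _ => ?_
      rw [Finset.sum_comm]
      refine Finset.sum_congr rfl fun k _ => ?_
      rw [Finset.mul_sum]
    rw [e2, e3]
    rw [Finset.mul_sum, Finset.mul_sum, ← Finset.sum_sub_distrib]
    refine Finset.sum_congr rfl fun h _ => ?_
    rw [Finset.mul_sum, Finset.mul_sum, ← Finset.sum_sub_distrib]
    refine Finset.sum_congr rfl fun k _ => ?_
    ring
  have h2 : |∑ ω ∈ Ω, saw (a ω + s) ^ 2 - (Ω.card : ℝ) * VV N|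
      = ‖((∑ ω ∈ Ω, saw (a ω + s) ^ 2 - (Ω.card : ℝ) * VV N : ℝ) : ℂ)‖ := by
    rw [Complex.norm_real, Real.norm_eq_abs]
  have hT : ∀ m : ZMod N, ‖(∑ ω ∈ Ω, (ZMod.stdAddChar (m * a ω) : ℂ)) -
            (Ω.card : ℂ) * ((N : ℂ)⁻¹ * ∑ z : ZMod N, ZMod.stdAddChar (m * z))‖ ≤ B := by
    intro m
    by_cases hm : m = 0
    · rw [hm]
      simp
      exact hB0
    · have e1 : ∑ z : ZMod N, (ZMod.stdAddChar (m * z) : ℂ) = 0 := by
        have := AddChar.sum_mulShift m (ZMod.isPrimitive_stdAddChar N)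
        rw [if_neg hm, Nat.cast_zero] at this
        rw [← this]
        refine Finset.sum_congr rfl fun z _ => ?_
        rw [mul_comm]
      rw [e1, mul_zero, mul_zero, sub_zero]
      exact hB m hm
  rw [h2, h1]
  refine (norm_sum_le _ _).trans ?_
  have hlog : ∀ K : ℕ, 0 ≤ 1 + Real.log K := fun K => by
    have := Real.log_natCast_nonneg K; linarith
  calc ∑ h : ZMod N, ‖∑ k : ZMod N, (cs h * ZMod.stdAddChar (h * s)) *
          (cs k * ZMod.stdAddChar (k * s)) *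
          ((∑ ω ∈ Ω, ZMod.stdAddChar ((h + k) * a ω)) -
            (Ω.card : ℂ) * ((N : ℂ)⁻¹ * ∑ z : ZMod N, ZMod.stdAddChar ((h + k) * z)))‖
      ≤ ∑ h : ZMod N, ∑ k : ZMod N, ‖cs h‖ * ‖cs k‖ * B := by
        refine Finset.sum_le_sum fun h _ => (norm_sum_le _ _).trans ?_
        refine Finset.sum_le_sum fun k _ => ?_
        rw [norm_mul, norm_mul, norm_mul, norm_mul, norm_std, norm_std, mul_one, mul_one]
        exact mul_le_mul_of_nonneg_left (hT (h + k)) (by positivity)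
    _ = B * ((∑ h : ZMod N, ‖cs h‖) * (∑ k : ZMod N, ‖cs k‖)) := by
        rw [Finset.sum_mul_sum, Finset.mul_sum]
        refine Finset.sum_congr rfl fun h _ => ?_
        rw [Finset.mul_sum]
        refine Finset.sum_congr rfl fun k _ => ?_
        ring
    _ ≤ _ := by
        rw [sq]
        refine mul_le_mul_of_nonneg_left ?_ hB0
        exact mul_le_mul sum_cs_le sum_cs_le (Finset.sum_nonneg fun _ _ => norm_nonneg _) (hlog N)

end Cov

end Pool.Agent.Helper916
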