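import Mathlib

open Finset

namespace Pool.Agent.Helper916

section General

variable {F : Type*} [Field F] [Fintype F] [DecidableEq F]

/-- Parseval for a primitive additive character of a finite field. -/
theorem parseval (ψ : AddChar F ℂ) (hψ : ψ.IsPrimitive) (φ : F → ℂ) :
    ∑ c : F, ‖∑ z : F, φ z * ψ (z * c)‖ ^ 2 = (Fintype.card F : ℝ) * ∑ z : F, ‖φ z‖ ^ 2 := by
  have key : ((∑ c : F, ‖∑ z : F, φ z * ψ (z * c)‖ ^ 2 : ℝ) : ℂ)
      = (((Fintype.card F : ℝ) * ∑ z : F, ‖φ z‖ ^ 2 : ℝ) : ℂ) := by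
    push_cast
    have h1 : ∀ c : F, ((‖∑ z : F, φ z * ψ (z * c)‖ : ℂ)) ^ 2
        = ∑ z : F, ∑ w : F, (φ z * (starRingEnd ℂ) (φ w)) * ψ (c * (z - w)) := by
      intro c
      rw [← Complex.mul_conj', map_sum, Finset.sum_mul_sum]
      refine Finset.sum_congr rfl fun z _ => Finset.sum_congr rfl fun w _ => ?_
      have : ψ (c * (z - w)) = ψ (z * c) * (starRingEnd ℂ) (ψ (w * c)) := by
        have h2 : c * (z - w) = z * c + -(w * c) := by ring
        rw [h2, AddChar.map_add_eq_mul, AddChar.map_neg_eq_conj]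
      rw [this, map_mul (starRingEnd ℂ)]
      ring
    simp_rw [h1]
    rw [Finset.sum_comm]
    rw [Finset.mul_sum]
    refine Finset.sum_congr rfl fun z _ => ?_
    rw [Finset.sum_comm]
    simp_rw [← Finset.mul_sum, AddChar.sum_mulShift _ hψ]
    rw [Finset.sum_eq_single z]
    · simp only [sub_self, if_true]
      rw [Complex.mul_conj']
      ring
    · intro w _ hw
      rw [if_neg (sub_ne_zero.mpr (Ne.symm hw))]
      simp
    · simp
  exact_mod_cast key

theorem mc_norm (χ : MulChar F ℂ) {x : F} (hx : x ≠ 0) : ‖χ x‖ = 1 := by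
  have h1 : x ^ (Fintype.card F - 1) = 1 := FiniteField.pow_card_sub_one_eq_one x hx
  have h2 : (χ x) ^ (Fintype.card F - 1) = 1 := by
    rw [← map_pow, h1, map_one]
  have h3 : Fintype.card F - 1 ≠ 0 := by
    have := Fintype.one_lt_card (α := F)
    omega
  exact Complex.norm_eq_one_of_pow_eq_one h2 h3

theorem mc_norm_le (χ : MulChar F ℂ) (x : F) : ‖χ x‖ ≤ 1 := by
  by_cases hx : x = 0
  · rw [hx, MulChar.map_zero]; simp
  · exact (mc_norm χ hx).le

theorem mc_conj (χ : MulChar F ℂ) {x : F} (hx : x ≠ 0) : χ x * (starRingEnd ℂ) (χ x) = 1 := by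
  rw [Complex.mul_conj', mc_norm χ hx]; norm_num

/-- Cauchy-Schwarz in the form used below. -/
theorem cs_double {S T : Type*} [Fintype S] (A : Finset T) (f : S → ℂ) (H : T → S → ℂ) :
    ‖∑ s : S, f s * ∑ t ∈ A, H t s‖ ^ 2
      ≤ (∑ s : S, ‖f s‖ ^ 2) * ∑ t ∈ A, ∑ t' ∈ A, ‖∑ s : S, H t s * (starRingEnd ℂ) (H t' s)‖ := by
  have h1 : ‖∑ s : S, f s * ∑ t ∈ A, H t s‖ ^ 2
      ≤ (∑ s : S, ‖f s‖ ^ 2) * ∑ s : S, ‖∑ t ∈ A, H t s‖ ^ 2 := by
    have h2 : ‖∑ s : S, f s * ∑ t ∈ A, H t s‖ ≤ ∑ s : S, ‖f s‖ * ‖∑ t ∈ A, H t s‖ := by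
      refine (norm_sum_le _ _).trans (le_of_eq ?_)
      exact Finset.sum_congr rfl fun s _ => norm_mul _ _
    calc ‖∑ s : S, f s * ∑ t ∈ A, H t s‖ ^ 2 ≤ (∑ s : S, ‖f s‖ * ‖∑ t ∈ A, H t s‖) ^ 2 := by
          gcongr
      _ ≤ _ := Finset.sum_mul_sq_le_sq_mul_sq _ _ _
  refine h1.trans ?_
  have hnn : 0 ≤ ∑ s : S, ‖f s‖ ^ 2 := Finset.sum_nonneg fun s _ => by positivity
  refine mul_le_mul_of_nonneg_left ?_ hnn
  have h3 : ((∑ s : S, ‖∑ t ∈ A, H t s‖ ^ 2 : ℝ) : ℂ)
      = ∑ t ∈ A, ∑ t' ∈ A, ∑ s : S, H t s * (starRingEnd ℂ) (H t' s) := by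
    push_cast
    have : ∀ s : S, ((‖∑ t ∈ A, H t s‖ : ℂ)) ^ 2
        = ∑ t ∈ A, ∑ t' ∈ A, H t s * (starRingEnd ℂ) (H t' s) := by
      intro s
      rw [← Complex.mul_conj', map_sum, Finset.sum_mul_sum]
    simp_rw [this]
    rw [Finset.sum_comm]
    refine Finset.sum_congr rfl fun t _ => ?_
    rw [Finset.sum_comm]
  have h4 : ∑ s : S, ‖∑ t ∈ A, H t s‖ ^ 2
      = ‖∑ t ∈ A, ∑ t' ∈ A, ∑ s : S, H t s * (starRingEnd ℂ) (H t' s)‖ := by
    rw [← h3, Complex.norm_real, Real.norm_of_nonneg]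
    exact Finset.sum_nonneg fun s _ => by positivity
  rw [h4]
  refine (norm_sum_le _ _).trans ?_
  refine Finset.sum_le_sum fun t _ => ?_
  exact norm_sum_le _ _

/-- The auxiliary correlation sum. -/
noncomputable def KK (ψ : AddChar F ℂ) (g : MulChar F ℂ) (c : F) : ℝ :=
  ‖∑ z : F, g z * (starRingEnd ℂ) (g (z - 1)) * ψ (z * c)‖

theorem KK_nonneg (ψ : AddChar F ℂ) (g : MulChar F ℂ) (c : F) : 0 ≤ KK ψ g c := norm_nonneg _

theorem sum_KK_le (ψ : AddChar F ℂ) (hψ : ψ.IsPrimitive) (g : MulChar F ℂ) :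
    ∑ c : F, KK ψ g c ≤ (Fintype.card F : ℝ) * Real.sqrt (Fintype.card F) := by
  have hq : (0 : ℝ) ≤ (Fintype.card F : ℝ) := Nat.cast_nonneg _
  have h1 : ∑ c : F, KK ψ g c ^ 2 ≤ (Fintype.card F : ℝ) * (Fintype.card F : ℝ) := by
    have := parseval ψ hψ (fun z => g z * (starRingEnd ℂ) (g (z - 1)))
    unfold KK
    rw [this]
    refine mul_le_mul_of_nonneg_left ?_ hq
    calc ∑ z : F, ‖g z * (starRingEnd ℂ) (g (z - 1))‖ ^ 2 ≤ ∑ z : F, (1 : ℝ) := by
          refine Finset.sum_le_sum fun z _ => ?_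
          rw [norm_mul, Complex.norm_conj]
          have a1 := mc_norm_le g z
          have a2 := mc_norm_le g (z - 1)
          have : ‖g z‖ * ‖g (z - 1)‖ ≤ 1 := mul_le_one₀ a1 (norm_nonneg _) a2
          exact pow_le_one₀ (by positivity) this
      _ = (Fintype.card F : ℝ) := by simp
  have h2 : (∑ c : F, KK ψ g c) ^ 2 ≤ (Fintype.card F : ℝ) * ∑ c : F, KK ψ g c ^ 2 := by
    have := sq_sum_le_card_mul_sum_sq (s := (Finset.univ : Finset F)) (f := fun c => KK ψ g c)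
    simpa using this
  have h3 : (∑ c : F, KK ψ g c) ^ 2
      ≤ ((Fintype.card F : ℝ) * Real.sqrt (Fintype.card F)) ^ 2 := by
    rw [mul_pow, Real.sq_sqrt hq]
    nlinarith [h1, h2, hq]
  have h4 : 0 ≤ (Fintype.card F : ℝ) * Real.sqrt (Fintype.card F) := by positivity
  exact abs_le_of_sq_le_sq' h3 h4 |>.2

theorem fiber_card (e : F) (ξ : F) (hξ : ξ ≠ 0) :
    (((Finset.univ : Finset F).filter (fun r => r ≠ 0 ∧ -(ξ * (r - 1) ^ 2 / r) = e))).card ≤ 2 := by
  by_cases hne : (((Finset.univ : Finset F).filter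
      (fun r => r ≠ 0 ∧ -(ξ * (r - 1) ^ 2 / r) = e))).Nonempty
  · obtain ⟨r₀, hr₀⟩ := hne
    rw [Finset.mem_filter] at hr₀
    obtain ⟨-, hr0, hre⟩ := hr₀
    have hsub : ((Finset.univ : Finset F).filter (fun r => r ≠ 0 ∧ -(ξ * (r - 1) ^ 2 / r) = e))
        ⊆ {r₀, r₀⁻¹} := by
      intro r hr
      rw [Finset.mem_filter] at hr
      obtain ⟨-, hr1, hr2⟩ := hr
      rw [Finset.mem_insert, Finset.mem_singleton]
      have h : ξ * (r - 1) ^ 2 / r = ξ * (r₀ - 1) ^ 2 / r₀ := by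
        have := hr2.trans hre.symm
        exact neg_injective this
      rw [div_eq_div_iff hr1 hr0] at h
      have h' : (r - 1) ^ 2 * r₀ = (r₀ - 1) ^ 2 * r := by
        have : ξ * ((r - 1) ^ 2 * r₀) = ξ * ((r₀ - 1) ^ 2 * r) := by linear_combination h
        exact mul_left_cancel₀ hξ this
      have h'' : (r - r₀) * (r * r₀ - 1) = 0 := by linear_combination h'
      rcases mul_eq_zero.mp h'' with h3 | h3
      · left; exact sub_eq_zero.mp h3
      · right
        have : r * r₀ = 1 := sub_eq_zero.mp h3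
        exact eq_inv_of_mul_eq_one_left this
    exact (Finset.card_le_card hsub).trans Finset.card_le_two
  · rw [Finset.not_nonempty_iff_eq_empty] at hne
    rw [hne]; simp

theorem sum_KK_comp_le (ψ : AddChar F ℂ) (hψ : ψ.IsPrimitive) (g : MulChar F ℂ) (ξ : F)
    (hξ : ξ ≠ 0) :
    ∑ r ∈ (Finset.univ : Finset F).filter (fun r => r ≠ 0), KK ψ g (-(ξ * (r - 1) ^ 2 / r))
      ≤ 2 * ((Fintype.card F : ℝ) * Real.sqrt (Fintype.card F)) := by
  have h1 : ∑ r ∈ (Finset.univ : Finset F).filter (fun r => r ≠ 0),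
        KK ψ g (-(ξ * (r - 1) ^ 2 / r))
      = ∑ e : F, ∑ r ∈ ((Finset.univ : Finset F).filter (fun r => r ≠ 0)).filter
          (fun r => -(ξ * (r - 1) ^ 2 / r) = e), KK ψ g (-(ξ * (r - 1) ^ 2 / r)) :=
    (Finset.sum_fiberwise_of_maps_to (fun _ _ => Finset.mem_univ _) _).symm
  rw [h1]
  calc ∑ e : F, ∑ r ∈ ((Finset.univ : Finset F).filter (fun r => r ≠ 0)).filter
          (fun r => -(ξ * (r - 1) ^ 2 / r) = e), KK ψ g (-(ξ * (r - 1) ^ 2 / r))
      ≤ ∑ e : F, 2 * KK ψ g e := by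
        refine Finset.sum_le_sum fun e _ => ?_
        rw [Finset.filter_filter]
        have : ∑ r ∈ (Finset.univ : Finset F).filter
            (fun r => r ≠ 0 ∧ -(ξ * (r - 1) ^ 2 / r) = e), KK ψ g (-(ξ * (r - 1) ^ 2 / r))
            = ∑ r ∈ (Finset.univ : Finset F).filter
            (fun r => r ≠ 0 ∧ -(ξ * (r - 1) ^ 2 / r) = e), KK ψ g e := by
          refine Finset.sum_congr rfl fun r hr => ?_
          rw [Finset.mem_filter] at hr
          rw [hr.2.2]
        rw [this, Finset.sum_const, nsmul_eq_mul]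
        refine mul_le_mul_of_nonneg_right ?_ (KK_nonneg _ _ _)
        exact_mod_cast fiber_card e ξ hξ
    _ = 2 * ∑ e : F, KK ψ g e := by rw [Finset.mul_sum]
    _ ≤ _ := by
        have := sum_KK_le ψ hψ g
        linarith

/-- dilation identity -/
theorem dil (ψ : AddChar F ℂ) (f g : MulChar F ℂ) (ξ : F) {t : F} (ht : t ≠ 0) :
    (f t)⁻¹ * (g t)⁻¹ * ∑ s : F, f s * g (s + t) * ψ (s * (ξ / t))
      = ∑ s : F, f s * g (s + 1) * ψ (s * ξ) := by
  have hft : f t ≠ 0 := by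
    intro h; have := mc_norm f ht; rw [h] at this; simp at this
  have hgt : g t ≠ 0 := by
    intro h; have := mc_norm g ht; rw [h] at this; simp at this
  have h1 : ∑ s : F, f s * g (s + t) * ψ (s * (ξ / t))
      = ∑ s : F, f (t * s) * g (t * s + t) * ψ (t * s * (ξ / t)) :=
    (Equiv.sum_comp (Equiv.mulLeft₀ t ht)
      (fun s => f s * g (s + t) * ψ (s * (ξ / t)))).symm
  rw [h1, Finset.mul_sum]
  refine Finset.sum_congr rfl fun s _ => ?_
  have e1 : t * s + t = t * (s + 1) := by ring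
  have e2 : t * s * (ξ / t) = s * ξ := by field_simp
  rw [e1, e2, map_mul f, map_mul g]
  field_simp

theorem inner_eq (ψ : AddChar F ℂ) (g : MulChar F ℂ) (ξ : F) {t t' : F} (ht : t ≠ 0)
    (ht' : t' ≠ 0) (hne : t ≠ t') :
    ‖∑ s : F, (g (s + t) * ψ (s * (ξ / t))) *
        (starRingEnd ℂ) (g (s + t') * ψ (s * (ξ / t')))‖
      = KK ψ g (-(ξ * (t / t' - 1) ^ 2 / (t / t'))) := by
  have hd : t - t' ≠ 0 := sub_ne_zero.mpr hne
  have hr : t / t' ≠ 0 := div_ne_zero ht ht'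
  unfold KK
  have h1 : ∑ s : F, (g (s + t) * ψ (s * (ξ / t))) *
        (starRingEnd ℂ) (g (s + t') * ψ (s * (ξ / t')))
      = ∑ z : F, ψ (ξ * (t - t') / t') *
        (g z * (starRingEnd ℂ) (g (z - 1)) * ψ (z * -(ξ * (t / t' - 1) ^ 2 / (t / t')))) := by
    have e0 : ∑ s : F, (g (s + t) * ψ (s * (ξ / t))) *
        (starRingEnd ℂ) (g (s + t') * ψ (s * (ξ / t')))
        = ∑ z : F, (g (((t - t') * z - t) + t) * ψ (((t - t') * z - t) * (ξ / t))) *
        (starRingEnd ℂ) (g (((t - t') * z - t) + t') * ψ (((t - t') * z - t) * (ξ / t'))) :=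
      (Equiv.sum_comp ((Equiv.mulLeft₀ (t - t') hd).trans (Equiv.subRight t))
        (fun s => (g (s + t) * ψ (s * (ξ / t))) *
        (starRingEnd ℂ) (g (s + t') * ψ (s * (ξ / t'))))).symm
    rw [e0]
    refine Finset.sum_congr rfl fun z _ => ?_
    have e1 : (t - t') * z - t + t = (t - t') * z := by ring
    have e2 : (t - t') * z - t + t' = (t - t') * (z - 1) := by ring
    rw [e1, e2, map_mul g, map_mul g, map_mul (starRingEnd ℂ), map_mul (starRingEnd ℂ)]
    have e3 : (starRingEnd ℂ) (ψ (((t - t') * z - t) * (ξ / t')))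
        = ψ (-(((t - t') * z - t) * (ξ / t'))) := by
      rw [AddChar.map_neg_eq_conj]
    rw [e3]
    have e4 : ψ (((t - t') * z - t) * (ξ / t)) * ψ (-(((t - t') * z - t) * (ξ / t')))
        = ψ (ξ * (t - t') / t') * ψ (z * -(ξ * (t / t' - 1) ^ 2 / (t / t'))) := by
      rw [← AddChar.map_add_eq_mul, ← AddChar.map_add_eq_mul]
      congr 1
      field_simp
      ring
    have e5 := mc_conj g hd
    calc g (t - t') * g z * ψ (((t - t') * z - t) * (ξ / t)) *
        ((starRingEnd ℂ) (g (t - t')) * (starRingEnd ℂ) (g (z - 1)) *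
          ψ (-(((t - t') * z - t) * (ξ / t'))))
        = (g (t - t') * (starRingEnd ℂ) (g (t - t'))) * (g z * (starRingEnd ℂ) (g (z - 1))) *
          (ψ (((t - t') * z - t) * (ξ / t)) * ψ (-(((t - t') * z - t) * (ξ / t')))) := by ring
      _ = _ := by rw [e5, e4]; ring
  rw [h1, ← Finset.mul_sum, norm_mul, AddChar.norm_apply, one_mul]

/-- Master inequality for the confluent sums. -/
theorem conf_master (ψ : AddChar F ℂ) (f g : MulChar F ℂ) (ξ : F) (R : ℝ)
    (hR : ∑ r ∈ (Finset.univ : Finset F).filter (fun r => r ≠ 0 ∧ r ≠ 1),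
        KK ψ g (-(ξ * (r - 1) ^ 2 / r)) ≤ R) :
    ((Fintype.card F : ℝ) - 1) * ‖∑ s : F, f s * g (s + 1) * ψ (s * ξ)‖ ^ 2
      ≤ (Fintype.card F : ℝ) * ((Fintype.card F : ℝ) + R) := by
  set q : ℝ := (Fintype.card F : ℝ) with hq
  set S : ℂ := ∑ s : F, f s * g (s + 1) * ψ (s * ξ) with hS
  set A : Finset F := (Finset.univ : Finset F).filter (fun t => t ≠ 0) with hA
  have hq1 : (1 : ℝ) < q := by
    have := Fintype.one_lt_card (α := F)
    rw [hq]; exact_mod_cast this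
  have hAcard : (A.card : ℝ) = q - 1 := by
    have h1 : A = Finset.univ.erase 0 := by
      ext t; simp [hA]
    rw [h1, Finset.card_erase_of_mem (Finset.mem_univ _), Finset.card_univ,
      Nat.cast_sub Fintype.card_pos]
    simp [hq]
  set w : F → ℂ := fun t => (f t)⁻¹ * (g t)⁻¹ with hw
  have hwn : ∀ t ∈ A, ‖w t‖ = 1 := by
    intro t ht
    have ht0 : t ≠ 0 := (Finset.mem_filter.mp ht).2
    simp only [hw, norm_mul, norm_inv, mc_norm f ht0, mc_norm g ht0]
    norm_num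
  set H : F → F → ℂ := fun t s => w t * (g (s + t) * ψ (s * (ξ / t))) with hH
  have h1 : ∑ s : F, f s * ∑ t ∈ A, H t s = ((q - 1 : ℝ) : ℂ) * S := by
    simp_rw [Finset.mul_sum]
    rw [Finset.sum_comm]
    have : ∀ t ∈ A, ∑ s : F, f s * H t s = S := by
      intro t ht
      have ht0 : t ≠ 0 := (Finset.mem_filter.mp ht).2
      rw [hS, ← dil ψ f g ξ ht0, Finset.mul_sum]
      refine Finset.sum_congr rfl fun s _ => ?_
      simp only [hH, hw]
      ring
    rw [Finset.sum_congr rfl this, Finset.sum_const, nsmul_eq_mul]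
    rw [← hAcard]
    push_cast
    rfl
  have h2 := cs_double A (fun s => f s) H
  rw [h1] at h2
  have h3 : ∑ s : F, ‖f s‖ ^ 2 ≤ q := by
    calc ∑ s : F, ‖f s‖ ^ 2 ≤ ∑ s : F, (1 : ℝ) := by
          refine Finset.sum_le_sum fun s _ => ?_
          exact pow_le_one₀ (norm_nonneg _) (mc_norm_le f s)
      _ = q := by simp [hq]
  have h4 : ∀ t ∈ A, ∀ t' ∈ A, ‖∑ s : F, H t s * (starRingEnd ℂ) (H t' s)‖
      = ‖∑ s : F, (g (s + t) * ψ (s * (ξ / t))) *
        (starRingEnd ℂ) (g (s + t') * ψ (s * (ξ / t')))‖ := by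
    intro t ht t' ht'
    have : ∑ s : F, H t s * (starRingEnd ℂ) (H t' s)
        = (w t * (starRingEnd ℂ) (w t')) * ∑ s : F, (g (s + t) * ψ (s * (ξ / t))) *
        (starRingEnd ℂ) (g (s + t') * ψ (s * (ξ / t'))) := by
      rw [Finset.mul_sum]
      refine Finset.sum_congr rfl fun s _ => ?_
      simp only [hH]
      rw [map_mul (starRingEnd ℂ) (w t')]
      ring
    rw [this, norm_mul, norm_mul, Complex.norm_conj, hwn t ht, hwn t' ht']
    norm_num
  have h5 : ∑ t ∈ A, ∑ t' ∈ A, ‖∑ s : F, H t s * (starRingEnd ℂ) (H t' s)‖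
      ≤ (q - 1) * (q + R) := by
    rw [Finset.sum_comm]
    have h6 : ∀ t' ∈ A, ∑ t ∈ A, ‖∑ s : F, H t s * (starRingEnd ℂ) (H t' s)‖ ≤ q + R := by
      intro t' ht'
      have ht0' : t' ≠ 0 := (Finset.mem_filter.mp ht').2
      rw [Finset.sum_congr rfl (fun t ht => h4 t ht t' ht')]
      rw [← Finset.add_sum_erase A _ ht']
      refine add_le_add ?_ ?_
      · refine (norm_sum_le _ _).trans ?_
        calc ∑ s : F, ‖(g (s + t') * ψ (s * (ξ / t'))) *
            (starRingEnd ℂ) (g (s + t') * ψ (s * (ξ / t')))‖ ≤ ∑ s : F, (1 : ℝ) := by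
              refine Finset.sum_le_sum fun s _ => ?_
              rw [norm_mul, Complex.norm_conj, norm_mul, AddChar.norm_apply, mul_one]
              exact mul_le_one₀ (mc_norm_le g _) (norm_nonneg _) (mc_norm_le g _)
          _ = q := by simp [hq]
      · refine le_trans (le_of_eq ?_) hR
        have h7 : ∀ t ∈ A.erase t', ‖∑ s : F, (g (s + t) * ψ (s * (ξ / t))) *
            (starRingEnd ℂ) (g (s + t') * ψ (s * (ξ / t')))‖
            = KK ψ g (-(ξ * (t / t' - 1) ^ 2 / (t / t'))) := by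
          intro t ht
          rw [Finset.mem_erase] at ht
          exact inner_eq ψ g ξ (Finset.mem_filter.mp ht.2).2 ht0' ht.1
        rw [Finset.sum_congr rfl h7]
        refine Finset.sum_bij (fun t _ => t / t') ?_ ?_ ?_ ?_
        · intro t ht
          rw [Finset.mem_erase] at ht
          have ht0 : t ≠ 0 := (Finset.mem_filter.mp ht.2).2
          refine Finset.mem_filter.mpr ⟨Finset.mem_univ _, div_ne_zero ht0 ht0', ?_⟩
          intro h
          exact ht.1 ((div_eq_one_iff_eq ht0').mp h)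
        · intro a _ b _ hab
          have := (div_left_inj' ht0').mp hab
          exact this
        · intro r hr
          rw [Finset.mem_filter] at hr
          refine ⟨r * t', ?_, ?_⟩
          · rw [Finset.mem_erase]
            refine ⟨?_, Finset.mem_filter.mpr ⟨Finset.mem_univ _, mul_ne_zero hr.2.1 ht0'⟩⟩
            intro h
            apply hr.2.2
            have : r * t' = 1 * t' := by rw [h, one_mul]
            exact mul_right_cancel₀ ht0' this
          · exact mul_div_cancel_right₀ r ht0'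
        · intro t _
          rfl
    calc ∑ t' ∈ A, ∑ t ∈ A, ‖∑ s : F, H t s * (starRingEnd ℂ) (H t' s)‖
        ≤ ∑ t' ∈ A, (q + R) := Finset.sum_le_sum h6
      _ = (q - 1) * (q + R) := by rw [Finset.sum_const, nsmul_eq_mul, hAcard]
  rw [norm_mul, Complex.norm_real, Real.norm_of_nonneg (by linarith : (0 : ℝ) ≤ q - 1)] at h2
  have h8 : 0 ≤ ∑ t ∈ A, ∑ t' ∈ A, ‖∑ s : F, H t s * (starRingEnd ℂ) (H t' s)‖ :=
    Finset.sum_nonneg fun t _ => Finset.sum_nonneg fun t' _ => norm_nonneg _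
  have h9 : ((q - 1) * ‖S‖) ^ 2 ≤ q * ((q - 1) * (q + R)) := by
    refine h2.trans ?_
    exact mul_le_mul h3 h5 h8 (by linarith)
  have h10 : (q - 1) * ((q - 1) * ‖S‖ ^ 2) ≤ (q - 1) * (q * (q + R)) := by nlinarith [h9]
  exact le_of_mul_le_mul_left h10 (by linarith)

theorem conj_mc (g : MulChar F ℂ) (x : F) : (starRingEnd ℂ) (g x) = g⁻¹ x := by
  by_cases hx : x = 0
  · rw [hx, MulChar.map_zero, MulChar.map_zero, map_zero]
  · rw [MulChar.inv_apply_eq_inv']
    exact eq_inv_of_mul_eq_one_right (mc_conj g hx)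

theorem corr_zero (g : MulChar F ℂ) (hg : g ≠ 1) :
    ∑ z : F, g z * (starRingEnd ℂ) (g (z - 1)) = -1 := by
  have h1 : ∑ z : F, g z * (starRingEnd ℂ) (g (z - 1))
      = ∑ y : F, g (y + 1) * (starRingEnd ℂ) (g (y + 1 - 1)) :=
    (Equiv.sum_comp (Equiv.addRight (1 : F))
      (fun z => g z * (starRingEnd ℂ) (g (z - 1)))).symm
  rw [h1]
  have h2 : ∑ y : F, g (y + 1) * (starRingEnd ℂ) (g (y + 1 - 1))
      = ∑ y : F, g (y⁻¹ + 1) * (starRingEnd ℂ) (g (y⁻¹ + 1 - 1)) :=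
    (Equiv.sum_comp (Function.Involutive.toPerm (fun x : F => x⁻¹) inv_involutive)
      (fun y => g (y + 1) * (starRingEnd ℂ) (g (y + 1 - 1)))).symm
  rw [h2]
  have h3 : ∀ y : F, g (y⁻¹ + 1) * (starRingEnd ℂ) (g (y⁻¹ + 1 - 1))
      = g (y + 1) - if y = 0 then 1 else 0 := by
    intro y
    rw [add_sub_cancel_right, conj_mc, MulChar.inv_apply', inv_inv, ← map_mul g]
    by_cases hy : y = 0
    · rw [if_pos hy, hy]; simp [MulChar.map_zero]
    · rw [if_neg hy, sub_zero]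
      congr 1
      field_simp
      ring
  rw [Finset.sum_congr rfl fun y _ => h3 y, Finset.sum_sub_distrib,
    Finset.sum_ite_eq' Finset.univ (0 : F) (fun _ => (1 : ℂ))]
  have h4 : ∑ y : F, g (y + 1) = ∑ y : F, g y :=
    Equiv.sum_comp (Equiv.addRight (1 : F)) (fun z => g z)
  rw [h4, MulChar.sum_eq_zero_of_ne_one hg]
  simp

/-- Bound for all nondegenerate confluent sums (norm squared at most `6 q sqrt q`). -/
noncomputable def mB (q : ℝ) : ℝ := Real.sqrt (6 * (q * Real.sqrt q))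

theorem conf_bound (ψ : AddChar F ℂ) (hψ : ψ.IsPrimitive) (f g : MulChar F ℂ) (ξ : F)
    (h : ξ ≠ 0 ∨ f ≠ 1 ∨ g ≠ 1) :
    ‖∑ s : F, f s * g (s + 1) * ψ (s * ξ)‖ ≤ mB (Fintype.card F) := by
  set q : ℝ := (Fintype.card F : ℝ) with hq
  have hq2 : (2 : ℝ) ≤ q := by
    have := Fintype.one_lt_card (α := F)
    rw [hq]; exact_mod_cast this
  have hsq : (1 : ℝ) ≤ Real.sqrt q := by
    rw [Real.one_le_sqrt]; linarith
  have hqs : q ≤ q * Real.sqrt q := by nlinarith
  apply Real.le_sqrt_of_sq_le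
  by_cases hξ : ξ = 0
  · by_cases hg : g = 1
    · have hf : f ≠ 1 := by
        rcases h with h | h | h
        · exact absurd hξ h
        · exact h
        · exact absurd hg h
      have h1 : ∑ s : F, f s * g (s + 1) * ψ (s * ξ) = - f (-1) := by
        have h2 : ∀ s : F, f s * g (s + 1) * ψ (s * ξ) = f s - if s = -1 then f (-1) else 0 := by
          intro s
          rw [hξ, mul_zero, AddChar.map_zero_eq_one, mul_one, hg]
          by_cases hs : s = -1
          · rw [if_pos hs, hs]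
            rw [neg_add_cancel, MulChar.map_zero]; ring
          · rw [if_neg hs]
            have : s + 1 ≠ 0 := fun h => hs (eq_neg_of_add_eq_zero_left h)
            rw [MulChar.one_apply (isUnit_iff_ne_zero.mpr this)]
            ring
        rw [Finset.sum_congr rfl fun s _ => h2 s, Finset.sum_sub_distrib,
          MulChar.sum_eq_zero_of_ne_one hf, Finset.sum_ite_eq' Finset.univ (-1 : F) (fun _ => f (-1))]
        simp
      rw [h1, norm_neg]
      have h3 : ‖f (-1)‖ ≤ 1 := mc_norm_le f _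
      have h4 : ‖f (-1)‖ ^ 2 ≤ 1 := pow_le_one₀ (norm_nonneg _) h3
      nlinarith
    · have hR : ∑ r ∈ (Finset.univ : Finset F).filter (fun r => r ≠ 0 ∧ r ≠ 1),
          KK ψ g (-(ξ * (r - 1) ^ 2 / r)) ≤ q := by
        have h1 : ∀ r ∈ (Finset.univ : Finset F).filter (fun r => r ≠ 0 ∧ r ≠ 1),
            KK ψ g (-(ξ * (r - 1) ^ 2 / r)) ≤ 1 := by
          intro r _
          have h0 : -(ξ * (r - 1) ^ 2 / r) = 0 := by rw [hξ]; simp
          rw [h0]
          unfold KK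
          have h2 : ∑ z : F, g z * (starRingEnd ℂ) (g (z - 1)) * ψ (z * 0) = -1 := by
            rw [← corr_zero g hg]
            refine Finset.sum_congr rfl fun z _ => ?_
            rw [mul_zero, AddChar.map_zero_eq_one, mul_one]
          rw [h2]; simp
        refine (Finset.sum_le_sum h1).trans ?_
        refine (Finset.sum_le_sum_of_subset_of_nonneg (Finset.filter_subset _ _)
                (fun _ _ _ => zero_le_one)).trans ?_
        simp [hq]
      have := conf_master ψ f g ξ q hR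
      rw [← hq] at this
      have h5 : (q - 1) * ‖∑ s : F, f s * g (s + 1) * ψ (s * ξ)‖ ^ 2 ≤
          (q - 1) * (4 * q) := by nlinarith
      have h6 := le_of_mul_le_mul_left h5 (by linarith)
      nlinarith
  · have hR : ∑ r ∈ (Finset.univ : Finset F).filter (fun r => r ≠ 0 ∧ r ≠ 1),
          KK ψ g (-(ξ * (r - 1) ^ 2 / r)) ≤ 2 * (q * Real.sqrt q) := by
      refine le_trans ?_ (sum_KK_comp_le ψ hψ g ξ hξ)
      refine Finset.sum_le_sum_of_subset_of_nonneg ?_ (fun _ _ _ => KK_nonneg _ _ _)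
      intro r hr
      rw [Finset.mem_filter] at hr ⊢
      exact ⟨hr.1, hr.2.1⟩
    have := conf_master ψ f g ξ _ hR
    rw [← hq] at this
    have h5 : (q - 1) * ‖∑ s : F, f s * g (s + 1) * ψ (s * ξ)‖ ^ 2 ≤
          (q - 1) * (6 * (q * Real.sqrt q)) := by
      have e1 : q * (q + 2 * (q * Real.sqrt q)) ≤ (q - 1) * (6 * (q * Real.sqrt q)) := by
        have : q ≤ 2 * (q - 1) := by linarith
        nlinarith [mul_le_mul_of_nonneg_right this (by positivity : 0 ≤ q + 2 * (q * Real.sqrt q))]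
      linarith
    exact le_of_mul_le_mul_left h5 (by linarith)

theorem inversion (ψ : AddChar F ℂ) (hψ : ψ.IsPrimitive) (A : F → ℂ) (y : F) :
    ∑ ξ : F, (∑ x : F, A x * ψ (x * -ξ)) * ψ (y * ξ) = (Fintype.card F : ℂ) * A y := by
  have h1 : ∀ ξ : F, (∑ x : F, A x * ψ (x * -ξ)) * ψ (y * ξ)
      = ∑ x : F, A x * ψ (ξ * (y - x)) := by
    intro ξ
    rw [Finset.sum_mul]
    refine Finset.sum_congr rfl fun x _ => ?_
    rw [mul_assoc, ← AddChar.map_add_eq_mul]
    congr 2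
    ring
  simp_rw [h1]
  rw [Finset.sum_comm]
  simp_rw [← Finset.mul_sum, AddChar.sum_mulShift _ hψ]
  rw [Finset.sum_eq_single y]
  · rw [sub_self, if_pos rfl]; ring
  · intro x _ hx
    rw [if_neg (sub_ne_zero.mpr (Ne.symm hx))]; simp
  · simp

/-- trilinear identity -/
theorem tri_id (ψ : AddChar F ℂ) (hψ : ψ.IsPrimitive) (A B C : F → ℂ) :
    (Fintype.card F : ℂ) * ∑ m : F, ∑ n : F, A (m + n) * B m * C n
      = ∑ ξ : F, (∑ x : F, A x * ψ (x * -ξ)) * (∑ m : F, B m * ψ (m * ξ)) *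
          (∑ n : F, C n * ψ (n * ξ)) := by
  have h1 : ∀ ξ : F, (∑ x : F, A x * ψ (x * -ξ)) * (∑ m : F, B m * ψ (m * ξ)) *
          (∑ n : F, C n * ψ (n * ξ))
      = ∑ m : F, ∑ n : F, (B m * C n) * ((∑ x : F, A x * ψ (x * -ξ)) * ψ ((m + n) * ξ)) := by
    intro ξ
    rw [mul_assoc, Finset.sum_mul_sum, Finset.mul_sum]
    refine Finset.sum_congr rfl fun m _ => ?_
    rw [Finset.mul_sum]
    refine Finset.sum_congr rfl fun n _ => ?_
    rw [add_mul, AddChar.map_add_eq_mul]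
    ring
  rw [Finset.sum_congr rfl fun ξ _ => h1 ξ]
  refine Eq.trans ?_ (Finset.sum_comm.trans
    (Finset.sum_congr rfl fun m _ => Finset.sum_comm)).symm
  rw [Finset.mul_sum]
  refine Finset.sum_congr rfl fun m _ => ?_
  rw [Finset.mul_sum]
  refine Finset.sum_congr rfl fun n _ => ?_
  rw [← Finset.mul_sum, inversion ψ hψ A (m + n)]
  ring

theorem sum_prod_le {T : Type*} [Fintype T] (a b c : T → ℂ) (M Q : ℝ) (hM : 0 ≤ M)
    (ha : ∀ x, ‖a x‖ ≤ M) (hb : ∑ x, ‖b x‖ ^ 2 ≤ Q) (hc : ∑ x, ‖c x‖ ^ 2 ≤ Q) :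
    ‖∑ x, a x * b x * c x‖ ≤ M * Q := by
  have h1 : ‖∑ x, a x * b x * c x‖ ≤ ∑ x, M * (‖b x‖ * ‖c x‖) := by
    refine (norm_sum_le _ _).trans (Finset.sum_le_sum fun x _ => ?_)
    rw [norm_mul, norm_mul, mul_assoc]
    exact mul_le_mul_of_nonneg_right (ha x) (by positivity)
  refine h1.trans ?_
  rw [← Finset.mul_sum]
  refine mul_le_mul_of_nonneg_left ?_ hM
  have h2 : ∑ x, ‖b x‖ * ‖c x‖ ≤ ∑ x, (‖b x‖ ^ 2 + ‖c x‖ ^ 2) / 2 := by
    refine Finset.sum_le_sum fun x _ => ?_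
    nlinarith [sq_nonneg (‖b x‖ - ‖c x‖)]
  refine h2.trans ?_
  rw [← Finset.sum_div, Finset.sum_add_distrib]
  linarith

/-- trilinear bound: the Fourier transform of one of the three functions is bounded by `M` -/
theorem tri_bound (ψ : AddChar F ℂ) (hψ : ψ.IsPrimitive) (A B C : F → ℂ) (M : ℝ) (hM : 0 ≤ M)
    (hA : ∀ x, ‖A x‖ ≤ 1) (hB : ∀ x, ‖B x‖ ≤ 1) (hC : ∀ x, ‖C x‖ ≤ 1)
    (h : (∀ ξ, ‖∑ x : F, A x * ψ (x * ξ)‖ ≤ M) ∨ (∀ ξ, ‖∑ x : F, B x * ψ (x * ξ)‖ ≤ M) ∨
      (∀ ξ, ‖∑ x : F, C x * ψ (x * ξ)‖ ≤ M)) :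
    ‖∑ m : F, ∑ n : F, A (m + n) * B m * C n‖ ≤ (Fintype.card F : ℝ) * M := by
  set q : ℝ := (Fintype.card F : ℝ) with hq
  have hqpos : 0 < q := by rw [hq]; exact_mod_cast Fintype.card_pos
  have hpars : ∀ D : F → ℂ, (∀ x, ‖D x‖ ≤ 1) → ∑ ξ : F, ‖∑ x : F, D x * ψ (x * ξ)‖ ^ 2 ≤ q * q := by
    intro D hD
    rw [parseval ψ hψ D, ← hq]
    refine mul_le_mul_of_nonneg_left ?_ hqpos.le
    calc ∑ z : F, ‖D z‖ ^ 2 ≤ ∑ z : F, (1 : ℝ) :=
          Finset.sum_le_sum fun z _ => pow_le_one₀ (norm_nonneg _) (hD z)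
      _ = q := by simp [hq]
  have hparsneg : ∀ D : F → ℂ, (∀ x, ‖D x‖ ≤ 1) →
      ∑ ξ : F, ‖∑ x : F, D x * ψ (x * -ξ)‖ ^ 2 ≤ q * q := by
    intro D hD
    have : ∑ ξ : F, ‖∑ x : F, D x * ψ (x * -ξ)‖ ^ 2 = ∑ ξ : F, ‖∑ x : F, D x * ψ (x * ξ)‖ ^ 2 :=
      Equiv.sum_comp (Equiv.neg F) (fun ξ => ‖∑ x : F, D x * ψ (x * ξ)‖ ^ 2)
    rw [this]
    exact hpars D hD
  have h0 := tri_id ψ hψ A B C
  have key : ‖∑ ξ : F, (∑ x : F, A x * ψ (x * -ξ)) * (∑ m : F, B m * ψ (m * ξ)) *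
          (∑ n : F, C n * ψ (n * ξ))‖ ≤ M * (q * q) := by
    rcases h with h | h | h
    · exact sum_prod_le _ _ _ M (q * q) hM (fun ξ => h (-ξ)) (hpars B hB) (hpars C hC)
    · have := sum_prod_le (fun ξ => ∑ m : F, B m * ψ (m * ξ)) (fun ξ => ∑ x : F, A x * ψ (x * -ξ))
        (fun ξ => ∑ n : F, C n * ψ (n * ξ)) M (q * q) hM h (hparsneg A hA) (hpars C hC)
      refine le_trans (le_of_eq ?_) this
      congr 1
      refine Finset.sum_congr rfl fun ξ _ => ?_
      ring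
    · have := sum_prod_le (fun ξ => ∑ n : F, C n * ψ (n * ξ)) (fun ξ => ∑ x : F, A x * ψ (x * -ξ))
        (fun ξ => ∑ m : F, B m * ψ (m * ξ)) M (q * q) hM h (hparsneg A hA) (hpars B hB)
      refine le_trans (le_of_eq ?_) this
      congr 1
      refine Finset.sum_congr rfl fun ξ _ => ?_
      ring
  rw [← h0, norm_mul] at key
  have h1 : ‖(Fintype.card F : ℂ)‖ = q := by
    rw [hq]; simp
  rw [h1] at key
  have h2 : q * ‖∑ m : F, ∑ n : F, A (m + n) * B m * C n‖ ≤ q * (q * M) := by linarith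
  exact le_of_mul_le_mul_left h2 hqpos

/-- The correlation function of a multiplicative character and its Fourier transform. -/
theorem corr_fourier (ψ : AddChar F ℂ) (hψ : ψ.IsPrimitive) (a : MulChar F ℂ) (ha : a ≠ 1)
    {d : F} (hd : d ≠ 0) (ξ : F) :
    ‖∑ x : F, (a x * (starRingEnd ℂ) (a (x + d))) * ψ (x * ξ)‖ ≤ mB (Fintype.card F) := by
  have h1 : ∑ x : F, (a x * (starRingEnd ℂ) (a (x + d))) * ψ (x * ξ)
      = ∑ x : F, (a (d * x) * (starRingEnd ℂ) (a (d * x + d))) * ψ (d * x * ξ) :=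
    (Equiv.sum_comp (Equiv.mulLeft₀ d hd)
      (fun x => (a x * (starRingEnd ℂ) (a (x + d))) * ψ (x * ξ))).symm
  have h2 : ∑ x : F, (a (d * x) * (starRingEnd ℂ) (a (d * x + d))) * ψ (d * x * ξ)
      = ∑ x : F, a x * a⁻¹ (x + 1) * ψ (x * (d * ξ)) := by
    refine Finset.sum_congr rfl fun x _ => ?_
    have e1 : d * x + d = d * (x + 1) := by ring
    have e2 : d * x * ξ = x * (d * ξ) := by ring
    rw [e1, e2, map_mul a, map_mul a, map_mul (starRingEnd ℂ), ← conj_mc a (x + 1)]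
    have e3 := mc_conj a hd
    calc a d * a x * ((starRingEnd ℂ) (a d) * (starRingEnd ℂ) (a (x + 1))) * ψ (x * (d * ξ))
        = (a d * (starRingEnd ℂ) (a d)) * (a x * (starRingEnd ℂ) (a (x + 1)) * ψ (x * (d * ξ))) := by
          ring
      _ = _ := by rw [e3, one_mul]
  rw [h1, h2]
  exact conf_bound ψ hψ a a⁻¹ (d * ξ) (Or.inr (Or.inl ha))

theorem t1_master (ψ : AddChar F ℂ) (hψ : ψ.IsPrimitive) (h2 : (2 : F) ≠ 0)
    (a b c : MulChar F ℂ) (h : a ≠ 1 ∨ b ≠ 1 ∨ c ≠ 1) :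
    ((Fintype.card F : ℝ) - 1) * ‖∑ s : F, a s * b (s + 1) * c (s - 1)‖ ^ 2
      ≤ (Fintype.card F : ℝ) * (Fintype.card F : ℝ) +
        (Fintype.card F : ℝ) * ((Fintype.card F : ℝ) * mB (Fintype.card F)) := by
  set q : ℝ := (Fintype.card F : ℝ) with hq
  have hq1 : (1 : ℝ) < q := by
    have := Fintype.one_lt_card (α := F)
    rw [hq]; exact_mod_cast this
  have hmB : 0 ≤ mB q := Real.sqrt_nonneg _
  set S : F → ℂ := fun t => ∑ s : F, a s * b (s + t) * c (s - t) with hS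
  -- dilation
  have hdil : ∀ t : F, t ≠ 0 → ‖S t‖ = ‖S 1‖ := by
    intro t ht
    have e1 : S t = ∑ s : F, a (t * s) * b (t * s + t) * c (t * s - t) :=
      (Equiv.sum_comp (Equiv.mulLeft₀ t ht) (fun s => a s * b (s + t) * c (s - t))).symm
    have e2 : S t = (a t * b t * c t) * S 1 := by
      rw [e1, hS, Finset.mul_sum]
      refine Finset.sum_congr rfl fun s _ => ?_
      have e3 : t * s + t = t * (s + 1) := by ring
      have e4 : t * s - t = t * (s - 1) := by ring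
      rw [e3, e4, map_mul a, map_mul b, map_mul c]
      ring
    rw [e2, norm_mul, norm_mul, norm_mul, mc_norm a ht, mc_norm b ht, mc_norm c ht]
    norm_num
  -- lower bound
  have hlow : (q - 1) * ‖S 1‖ ^ 2 ≤ ∑ t : F, ‖S t‖ ^ 2 := by
    have e1 : ∑ t ∈ Finset.univ.erase (0 : F), ‖S t‖ ^ 2 = (q - 1) * ‖S 1‖ ^ 2 := by
      rw [Finset.sum_congr rfl (fun t ht => by
        rw [hdil t (Finset.ne_of_mem_erase ht)] : ∀ t ∈ Finset.univ.erase (0 : F),
          ‖S t‖ ^ 2 = ‖S 1‖ ^ 2)]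
      rw [Finset.sum_const, nsmul_eq_mul, Finset.card_erase_of_mem (Finset.mem_univ _),
        Finset.card_univ, Nat.cast_sub Fintype.card_pos]
      simp [hq]
    rw [← e1]
    exact Finset.sum_le_sum_of_subset_of_nonneg (Finset.erase_subset _ _)
      (fun _ _ _ => by positivity)
  -- the differenced functions
  set G : F → F → F → ℂ := fun d t s => (a s * (starRingEnd ℂ) (a (s + d))) *
    (b (s + t) * (starRingEnd ℂ) (b (s + t + d))) *
    (c (s - t) * (starRingEnd ℂ) (c (s - t + d))) with hG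
  have hexp : ((∑ t : F, ‖S t‖ ^ 2 : ℝ) : ℂ) = ∑ d : F, ∑ t : F, ∑ s : F, G d t s := by
    push_cast
    have e1 : ∀ t : F, ((‖S t‖ : ℂ)) ^ 2 = ∑ d : F, ∑ s : F, G d t s := by
      intro t
      rw [← Complex.mul_conj', hS, map_sum, Finset.sum_mul_sum]
      have e2 : ∀ s : F, ∑ s' : F, a s * b (s + t) * c (s - t) *
          (starRingEnd ℂ) (a s' * b (s' + t) * c (s' - t)) = ∑ d : F, G d t s := by
        intro s
        rw [← Equiv.sum_comp (Equiv.addLeft s) (fun s' => a s * b (s + t) * c (s - t) *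
          (starRingEnd ℂ) (a s' * b (s' + t) * c (s' - t)))]
        refine Finset.sum_congr rfl fun d _ => ?_
        simp only [hG, Equiv.coe_addLeft]
        have e3 : s + d + t = s + t + d := by ring
        have e4 : s + d - t = s - t + d := by ring
        rw [e3, e4, map_mul (starRingEnd ℂ), map_mul (starRingEnd ℂ)]
        ring
      rw [Finset.sum_congr rfl fun s _ => e2 s]
      exact Finset.sum_comm
    rw [Finset.sum_congr rfl fun t _ => e1 t]
    exact Finset.sum_comm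
  -- change of variables to the trilinear form
  have htri : ∀ d : F, ∑ t : F, ∑ s : F, G d t s = ∑ n : F, ∑ m : F,
      (fun x => a (x / 2) * (starRingEnd ℂ) (a (x / 2 + d))) (m + n) *
      (fun x => b x * (starRingEnd ℂ) (b (x + d))) m *
      (fun x => c x * (starRingEnd ℂ) (c (x + d))) n := by
    intro d
    have e1 : ∀ t : F, ∑ s : F, G d t s = ∑ n : F, G d t (n + t) := fun t =>
      (Equiv.sum_comp (Equiv.addRight t) (fun s => G d t s)).symm
    rw [Finset.sum_congr rfl fun t _ => e1 t, Finset.sum_comm]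
    refine Finset.sum_congr rfl fun n _ => ?_
    rw [← Equiv.sum_comp ((Equiv.subRight n).trans (Equiv.divRight₀ (2 : F) h2))
      (fun t => G d t (n + t))]
    refine Finset.sum_congr rfl fun m _ => ?_
    simp only [hG, Equiv.trans_apply, Equiv.subRight_apply, Equiv.divRight₀_apply]
    have e2 : n + (m - n) / 2 = (m + n) / 2 := by field_simp; ring
    have e3 : (m + n) / 2 + (m - n) / 2 = m := by field_simp; ring
    have e4 : (m + n) / 2 - (m - n) / 2 = n := by field_simp; ring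
    rw [e2, e3, e4]
  have hbd : ∀ d : F, d ≠ 0 → ‖∑ t : F, ∑ s : F, G d t s‖ ≤ q * mB q := by
    intro d hd
    rw [htri d, Finset.sum_comm]
    have hle : ∀ (χ : MulChar F ℂ) (x y : F), ‖χ x * (starRingEnd ℂ) (χ y)‖ ≤ 1 := by
      intro χ x y
      rw [norm_mul, Complex.norm_conj]
      exact mul_le_one₀ (mc_norm_le χ x) (norm_nonneg _) (mc_norm_le χ y)
    refine tri_bound ψ hψ (fun x => a (x / 2) * (starRingEnd ℂ) (a (x / 2 + d)))
      (fun x => b x * (starRingEnd ℂ) (b (x + d))) (fun x => c x * (starRingEnd ℂ) (c (x + d)))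
      (mB q) hmB (fun x => hle a _ _) (fun x => hle b _ _) (fun x => hle c _ _) ?_
    rcases h with h | h | h
    · left
      intro ξ
      have e1 : ∑ x : F, (a (x / 2) * (starRingEnd ℂ) (a (x / 2 + d))) * ψ (x * ξ)
          = ∑ x : F, (a x * (starRingEnd ℂ) (a (x + d))) * ψ (x * (2 * ξ)) := by
        rw [← Equiv.sum_comp (Equiv.divRight₀ (2 : F) h2)
          (fun x => (a x * (starRingEnd ℂ) (a (x + d))) * ψ (x * (2 * ξ)))]
        refine Finset.sum_congr rfl fun x _ => ?_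
        simp only [Equiv.divRight₀_apply]
        congr 2
        field_simp
      rw [e1]
      exact corr_fourier ψ hψ a h hd _
    · right; left
      intro ξ
      exact corr_fourier ψ hψ b h hd ξ
    · right; right
      intro ξ
      exact corr_fourier ψ hψ c h hd ξ
  have hbd0 : ‖∑ t : F, ∑ s : F, G 0 t s‖ ≤ q * q := by
    refine (norm_sum_le _ _).trans ?_
    have e1 : ∀ t ∈ (Finset.univ : Finset F), ‖∑ s : F, G 0 t s‖ ≤ q := by
      intro t _
      refine (norm_sum_le _ _).trans ?_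
      have e2 : ∀ s ∈ (Finset.univ : Finset F), ‖G 0 t s‖ ≤ 1 := by
        intro s _
        have hle : ∀ (χ : MulChar F ℂ) (x y : F), ‖χ x * (starRingEnd ℂ) (χ y)‖ ≤ 1 := by
          intro χ x y
          rw [norm_mul, Complex.norm_conj]
          exact mul_le_one₀ (mc_norm_le χ x) (norm_nonneg _) (mc_norm_le χ y)
        simp only [hG]
        rw [norm_mul, norm_mul]
        exact mul_le_one₀ (mul_le_one₀ (hle a _ _) (norm_nonneg _) (hle b _ _))
          (norm_nonneg _) (hle c _ _)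
      refine (Finset.sum_le_sum e2).trans (le_of_eq ?_)
      simp [hq]
    refine (Finset.sum_le_sum e1).trans (le_of_eq ?_)
    simp [hq]
  have hup : ∑ t : F, ‖S t‖ ^ 2 ≤ q * q + q * (q * mB q) := by
    have e1 : ∑ t : F, ‖S t‖ ^ 2 = ‖∑ d : F, ∑ t : F, ∑ s : F, G d t s‖ := by
      rw [← hexp, Complex.norm_real, Real.norm_of_nonneg]
      exact Finset.sum_nonneg fun t _ => by positivity
    rw [e1]
    refine (norm_sum_le _ _).trans ?_
    rw [← Finset.add_sum_erase Finset.univ _ (Finset.mem_univ (0 : F))]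
    refine add_le_add hbd0 ?_
    calc ∑ d ∈ Finset.univ.erase (0 : F), ‖∑ t : F, ∑ s : F, G d t s‖
        ≤ ∑ d ∈ Finset.univ.erase (0 : F), q * mB q :=
          Finset.sum_le_sum fun d hd => hbd d (Finset.ne_of_mem_erase hd)
      _ ≤ ∑ d : F, q * mB q :=
          Finset.sum_le_sum_of_subset_of_nonneg (Finset.erase_subset _ _)
            (fun _ _ _ => by positivity)
      _ = q * (q * mB q) := by simp [hq]
  have hS1 : S 1 = ∑ s : F, a s * b (s + 1) * c (s - 1) := rfl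
  rw [← hS1]
  exact hlow.trans hup

end General

end Pool.Agent.Helper916
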