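import Mathlib
import Pool.Agent.Helper916.T1
import Pool.Agent.Helper916.Saw

open Finset

namespace Pool.Agent.Helper916

/-- representative of a class mod `N` in the window `[1-t, N-t]` -/
def rep {N : ℕ} (t : ℕ) (z : ZMod N) : ℤ := ((z + (t : ZMod N) - 1).val : ℤ) + 1 - t

section Rep

variable {N : ℕ} [NeZero N]

theorem rep_lb (t : ℕ) (z : ZMod N) : 1 - (t : ℤ) ≤ rep t z := by
  unfold rep
  have : (0 : ℤ) ≤ ((z + (t : ZMod N) - 1).val : ℤ) := Int.natCast_nonneg _
  linarith

theorem rep_ub (t : ℕ) (z : ZMod N) : rep t z ≤ N - (t : ℤ) := by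
  unfold rep
  have : ((z + (t : ZMod N) - 1).val : ℤ) < N := by exact_mod_cast ZMod.val_lt _
  linarith

theorem rep_cast (t : ℕ) (z : ZMod N) : ((rep t z : ℤ) : ZMod N) = z := by
  unfold rep
  push_cast
  rw [ZMod.natCast_val, ZMod.cast_id', id]
  ring

theorem rep_unique (t : ℕ) (z : ZMod N) (I : ℤ) (h1 : 1 - (t : ℤ) ≤ I) (h2 : I ≤ N - (t : ℤ))
    (h3 : (I : ZMod N) = z) : I = rep t z := by
  have h4 : ((I : ℤ) : ZMod N) = ((rep t z : ℤ) : ZMod N) := by rw [h3, rep_cast]
  rw [ZMod.intCast_eq_intCast_iff] at h4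
  have h5 := (Int.emod_emod_of_dvd (I - rep t z) (dvd_refl (N : ℤ)))
  have h6 : (N : ℤ) ∣ rep t z - I := h4.dvd
  have l1 := rep_lb t z
  have l2 := rep_ub t z
  obtain ⟨k, hk⟩ := h6
  have hN : (0 : ℤ) < N := by exact_mod_cast NeZero.pos N
  have k1 : k < 1 := by
    by_contra hcon
    push Not at hcon
    nlinarith
  have k2 : -1 < k := by
    by_contra hcon
    push Not at hcon
    nlinarith
  have : k = 0 := by omega
  rw [this] at hk
  linarith

/-- the centred shift -/
noncomputable def muu (N t : ℕ) : ℝ := (((N : ℝ) + 1) / 2 - t) / N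

theorem rep_saw (t : ℕ) (z : ZMod N) :
    (rep t z : ℝ) = N * saw (z + ((t : ZMod N) - 1)) + N * muu N t := by
  have hN : (N : ℝ) ≠ 0 := by exact_mod_cast NeZero.ne N
  unfold rep saw muu
  push_cast
  rw [add_sub_assoc]
  field_simp
  ring

theorem D_values (t : ℕ) (ht : t ≤ N + 1) (a b c : ZMod N) (habc : a + b = c) :
    (rep t a + rep t b - rep t c = -N ∨ rep t a + rep t b - rep t c = 0 ∨
      rep t a + rep t b - rep t c = N) := by
  have h1 : (N : ℤ) ∣ rep t a + rep t b - rep t c := by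
    rw [← ZMod.intCast_zmod_eq_zero_iff_dvd]
    push_cast
    rw [rep_cast, rep_cast, rep_cast, habc, sub_self]
  have a1 := rep_lb t a
  have a2 := rep_ub t a
  have b1 := rep_lb t b
  have b2 := rep_ub t b
  have c1 := rep_lb t c
  have c2 := rep_ub t c
  obtain ⟨k, hk⟩ := h1
  have hN : (0 : ℤ) < N := by exact_mod_cast NeZero.pos N
  have htt : (t : ℤ) ≤ N + 1 := by exact_mod_cast ht
  have htt0 : (0 : ℤ) ≤ t := Int.natCast_nonneg _
  have k1 : k < 2 := by
    by_contra hcon
    push Not at hcon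
    nlinarith
  have k2 : -2 < k := by
    by_contra hcon
    push Not at hcon
    nlinarith
  have : k = -1 ∨ k = 0 ∨ k = 1 := by omega
  rcases this with h | h | h
  · left; rw [hk, h]; ring
  · right; left; rw [hk, h]; ring
  · right; right; rw [hk, h]; ring

theorem D_real (t : ℕ) (a b c : ZMod N) :
    saw (a + ((t : ZMod N) - 1)) + saw (b + ((t : ZMod N) - 1)) - saw (c + ((t : ZMod N) - 1))
      + muu N t = ((rep t a + rep t b - rep t c : ℤ) : ℝ) / N := by
  have hN : (N : ℝ) ≠ 0 := by exact_mod_cast NeZero.ne N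
  push_cast
  rw [rep_saw, rep_saw, rep_saw]
  field_simp
  ring

theorem D_real_values (t : ℕ) (ht : t ≤ N + 1) (a b c : ZMod N) (habc : a + b = c) :
    saw (a + ((t : ZMod N) - 1)) + saw (b + ((t : ZMod N) - 1)) - saw (c + ((t : ZMod N) - 1))
      + muu N t = -1 ∨
    saw (a + ((t : ZMod N) - 1)) + saw (b + ((t : ZMod N) - 1)) - saw (c + ((t : ZMod N) - 1))
      + muu N t = 0 ∨
    saw (a + ((t : ZMod N) - 1)) + saw (b + ((t : ZMod N) - 1)) - saw (c + ((t : ZMod N) - 1))
      + muu N t = 1 := by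
  have hN : (N : ℝ) ≠ 0 := by exact_mod_cast NeZero.ne N
  rw [D_real]
  rcases D_values t ht a b c habc with h | h | h
  · left; rw [h]; push_cast; field_simp
  · right; left; rw [h]; simp
  · right; right; rw [h]; push_cast; field_simp

theorem D_zero (t : ℕ) (a b c : ZMod N)
    (h : saw (a + ((t : ZMod N) - 1)) + saw (b + ((t : ZMod N) - 1))
      - saw (c + ((t : ZMod N) - 1)) + muu N t = 0) : rep t a + rep t b = rep t c := by
  have hN : (N : ℝ) ≠ 0 := by exact_mod_cast NeZero.ne N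
  rw [D_real, div_eq_zero_iff] at h
  rcases h with h | h
  · have : rep t a + rep t b - rep t c = 0 := by exact_mod_cast h
    linarith
  · exact absurd h hN

theorem muu_le (t : ℕ) (ht : t ≤ N + 1) : |muu N t| ≤ 1 / 2 + 1 / (2 * N) := by
  have hN : (0 : ℝ) < N := by exact_mod_cast NeZero.pos N
  have htt : (t : ℝ) ≤ N + 1 := by exact_mod_cast ht
  have htt0 : (0 : ℝ) ≤ t := Nat.cast_nonneg _
  have e : (1 : ℝ) / 2 + 1 / (2 * N) = ((N + 1) / 2) / N := by field_simp
  rw [e]
  unfold muu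
  rw [abs_div, abs_of_pos hN]
  apply div_le_div_of_nonneg_right _ hN.le
  rw [abs_le]
  constructor <;> linarith

end Rep

section DLog

variable {F : Type*} [Field F] [Fintype F] [DecidableEq F] {N : ℕ} [NeZero N]

open Classical in
/-- discrete logarithm to base `α` -/
noncomputable def dl (N : ℕ) (α x : F) : ZMod N :=
  if h : ∃ i : ℕ, α ^ i = x then ((Classical.choose h : ℕ) : ZMod N) else 0

theorem dl_pow {α : F} (hα : orderOf α = N) (i : ℕ) : dl N α (α ^ i) = (i : ZMod N) := by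
  have h : ∃ j : ℕ, α ^ j = α ^ i := ⟨i, rfl⟩
  unfold dl
  rw [dif_pos h]
  have h1 := Classical.choose_spec h
  rw [ZMod.natCast_eq_natCast_iff, ← hα]
  have hα0 : α ≠ 0 := by
    intro h0
    rw [h0, orderOf_zero] at hα
    exact NeZero.ne N hα.symm
  have h2 : (Units.mk0 α hα0) ^ (Classical.choose h) = (Units.mk0 α hα0) ^ i := by
    apply Units.ext
    simpa using h1
  have h3 := (pow_eq_pow_iff_modEq).mp h2
  have h4 : orderOf (Units.mk0 α hα0) = orderOf α := by
    rw [← orderOf_units, Units.val_mk0]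
  rwa [h4] at h3

theorem exists_pow (hN : Fintype.card F = N + 1) {α : F} (hα : orderOf α = N) {x : F} (hx : x ≠ 0) :
    ∃ i : ℕ, α ^ i = x := by
  have hα0 : α ≠ 0 := by
    intro h0
    rw [h0, orderOf_zero] at hα
    exact NeZero.ne N hα.symm
  set a : Fˣ := Units.mk0 α hα0 with ha
  have h1 : orderOf a = N := by
    rw [← hα, ← orderOf_units, ha, Units.val_mk0]
  have hcard : Nat.card Fˣ = N := by
    rw [Nat.card_eq_fintype_card, Fintype.card_units, hN]
    simp
  have h2 : Subgroup.zpowers a = ⊤ := by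
    apply Subgroup.eq_top_of_card_eq
    rw [Nat.card_zpowers, h1, hcard]
  have h3 : Units.mk0 x hx ∈ Subgroup.zpowers a := by rw [h2]; exact Subgroup.mem_top _
  rw [← mem_powers_iff_mem_zpowers] at h3
  obtain ⟨i, hi⟩ := h3
  refine ⟨i, ?_⟩
  have := congrArg Units.val hi
  simpa [ha] using this

theorem dl_mul (hN : Fintype.card F = N + 1) {α : F} (hα : orderOf α = N) {x y : F} (hx : x ≠ 0)
    (hy : y ≠ 0) : dl N α (x * y) = dl N α x + dl N α y := by
  obtain ⟨i, hi⟩ := exists_pow hN hα hx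
  obtain ⟨j, hj⟩ := exists_pow hN hα hy
  rw [← hi, ← hj, ← pow_add, dl_pow hα, dl_pow hα, dl_pow hα]
  push_cast
  rfl

theorem dl_one {α : F} (hα : orderOf α = N) : dl N α (1 : F) = 0 := by
  have := dl_pow hα 0
  rw [pow_zero] at this
  rw [this]; simp

theorem dl_self {α : F} (hα : orderOf α = N) : dl N α α = 1 := by
  have := dl_pow hα 1
  rw [pow_one] at this
  rw [this]; simp

theorem pow_of_dl (hN : Fintype.card F = N + 1) {α : F} (hα : orderOf α = N) {x : F} (hx : x ≠ 0)
    {i : ℤ} (hi : (i : ZMod N) = dl N α x) : α ^ i = x := by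
  obtain ⟨j, hj⟩ := exists_pow hN hα hx
  rw [← hj, dl_pow hα] at hi
  have hα0 : α ≠ 0 := by
    intro h0
    rw [h0, orderOf_zero] at hα
    exact NeZero.ne N hα.symm
  have h1 : ((i : ℤ) : ZMod N) = ((j : ℤ) : ZMod N) := by rw [hi]; simp
  rw [ZMod.intCast_eq_intCast_iff] at h1
  have h2 : (N : ℤ) ∣ (j : ℤ) - i := h1.dvd
  obtain ⟨k, hk⟩ := h2
  have h3 : i = (j : ℤ) - N * k := by linarith
  rw [h3, zpow_sub₀ hα0, zpow_mul, zpow_natCast, zpow_natCast, ← hα, pow_orderOf_eq_one, one_zpow,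
    div_one, hj]

theorem dl_of_pow {α : F} (hα : orderOf α = N) {x : F}
    {i : ℤ} (hi : α ^ i = x) : (i : ZMod N) = dl N α x := by
  have hα0 : α ≠ 0 := by
    intro h0
    rw [h0, orderOf_zero] at hα
    exact NeZero.ne N hα.symm
  have hN : (0 : ℤ) < N := by exact_mod_cast NeZero.pos N
  have h1 : α ^ (i % N) = x := by
    rw [← hi]
    conv_rhs => rw [← Int.emod_add_mul_ediv i N]
    rw [zpow_add₀ hα0, zpow_mul, zpow_natCast, ← hα, pow_orderOf_eq_one, one_zpow, mul_one]
  have h2 : 0 ≤ i % N := Int.emod_nonneg _ hN.ne'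
  obtain ⟨j, hj⟩ := Int.eq_ofNat_of_zero_le h2
  rw [hj, zpow_natCast] at h1
  rw [← h1, dl_pow hα]
  have : ((i % N : ℤ) : ZMod N) = (i : ZMod N) := by simp
  rw [← this, hj]
  simp

/-- the multiplicative characters attached to the discrete logarithm -/
noncomputable def chi (hN : Fintype.card F = N + 1) {α : F} (hα : orderOf α = N) (h : ZMod N) :
    MulChar F ℂ where
  toFun x := if x = 0 then 0 else ZMod.stdAddChar (h * dl N α x)
  map_one' := by
    simp [dl_one hα]
  map_mul' x y := by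
    by_cases hx : x = 0
    · simp [hx]
    · by_cases hy : y = 0
      · simp [hy]
      · rw [if_neg hx, if_neg hy, if_neg (mul_ne_zero hx hy), dl_mul hN hα hx hy, mul_add,
          AddChar.map_add_eq_mul]
  map_nonunit' x hx := by
    have : x = 0 := by
      by_contra h0
      exact hx (isUnit_iff_ne_zero.mpr h0)
    simp [this]

theorem chi_apply (hN : Fintype.card F = N + 1) {α : F} (hα : orderOf α = N) (h : ZMod N) {x : F}
    (hx : x ≠ 0) : chi hN hα h x = ZMod.stdAddChar (h * dl N α x) := by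
  change (if x = 0 then (0 : ℂ) else ZMod.stdAddChar (h * dl N α x)) = _
  rw [if_neg hx]

theorem chi_ne_one (hN : Fintype.card F = N + 1) {α : F} (hα : orderOf α = N) {h : ZMod N}
    (hh : h ≠ 0) : chi hN hα h ≠ 1 := by
  intro h1
  have hα0 : α ≠ 0 := by
    intro h0
    rw [h0, orderOf_zero] at hα
    exact NeZero.ne N hα.symm
  have h2 : chi hN hα h α = 1 := by
    rw [h1]; exact MulChar.one_apply (isUnit_iff_ne_zero.mpr hα0)
  rw [chi_apply hN hα h hα0, dl_self hα, mul_one] at h2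
  exact std_ne_one hh h2

end DLog

end Pool.Agent.Helper916
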