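import Mathlib

open Finset

namespace Pool.Agent.Helper916

/-- consequences of the moment bounds for one triple -/
structure Mom {ι : Type*} (Ω : Finset ι) (ε : ℝ) (u v w : ι → ℝ) : Prop where
  u1 : |∑ ω ∈ Ω, u ω| ≤ ε * Ω.card
  v1 : |∑ ω ∈ Ω, v ω| ≤ ε * Ω.card
  w1 : |∑ ω ∈ Ω, w ω| ≤ ε * Ω.card
  u2 : |∑ ω ∈ Ω, u ω ^ 2 - (1 / 12) * Ω.card| ≤ ε * Ω.card
  v2 : |∑ ω ∈ Ω, v ω ^ 2 - (1 / 12) * Ω.card| ≤ ε * Ω.card
  w2 : |∑ ω ∈ Ω, w ω ^ 2 - (1 / 12) * Ω.card| ≤ ε * Ω.card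
  uv : |∑ ω ∈ Ω, u ω * v ω| ≤ ε * Ω.card
  uw : |∑ ω ∈ Ω, u ω * w ω| ≤ ε * Ω.card
  vw : |∑ ω ∈ Ω, v ω * w ω| ≤ ε * Ω.card

section

variable {ι : Type*} {Ω : Finset ι} {ε : ℝ} {u v w : ι → ℝ}

theorem Mom.a (h : Mom Ω ε u v w) :
    ∑ ω ∈ Ω, (u ω + v ω - w ω) ^ 2 ≤ (1 / 4 + 9 * ε) * Ω.card := by
  have e : ∀ ω ∈ Ω, (u ω + v ω - w ω) ^ 2 = u ω ^ 2 + v ω ^ 2 + w ω ^ 2 + 2 * (u ω * v ω)
      - 2 * (u ω * w ω) - 2 * (v ω * w ω) := by intro ω _; ring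
  rw [Finset.sum_congr rfl e]
  simp only [Finset.sum_add_distrib, Finset.sum_sub_distrib, ← Finset.mul_sum]
  have h1 := abs_le.mp h.u2
  have h2 := abs_le.mp h.v2
  have h3 := abs_le.mp h.w2
  have h4 := abs_le.mp h.uv
  have h5 := abs_le.mp h.uw
  have h6 := abs_le.mp h.vw
  linarith [h1.1, h1.2, h2.1, h2.2, h3.1, h3.2, h4.1, h4.2, h5.1, h5.2, h6.1, h6.2]

theorem Mom.b (h : Mom Ω ε u v w) :
    |∑ ω ∈ Ω, (u ω + v ω - w ω)| ≤ 3 * ε * Ω.card := by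
  simp only [Finset.sum_add_distrib, Finset.sum_sub_distrib]
  have h1 := abs_le.mp h.u1
  have h2 := abs_le.mp h.v1
  have h3 := abs_le.mp h.w1
  rw [abs_le]
  constructor <;> linarith [h1.1, h1.2, h2.1, h2.2, h3.1, h3.2]

theorem Mom.c (h : Mom Ω ε u v w) {μ : ℝ} (hε0 : 0 ≤ ε) (hε : ε ≤ 1 / 10000)
    (hμ : |μ| ≤ 1 / 2 + ε) :
    ∑ ω ∈ Ω, (u ω + v ω - w ω + μ) ^ 2 ≤ (1 / 4 + μ ^ 2 + 13 * ε) * Ω.card := by
  have hn : (0 : ℝ) ≤ Ω.card := Nat.cast_nonneg _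
  have e : ∀ ω ∈ Ω, (u ω + v ω - w ω + μ) ^ 2 = (u ω + v ω - w ω) ^ 2
      + 2 * μ * (u ω + v ω - w ω) + μ ^ 2 := by intro ω _; ring
  rw [Finset.sum_congr rfl e]
  rw [Finset.sum_add_distrib, Finset.sum_add_distrib, ← Finset.mul_sum, Finset.sum_const,
    nsmul_eq_mul]
  have h1 := h.a
  have h2 := h.b
  have h3 : 2 * μ * ∑ ω ∈ Ω, (u ω + v ω - w ω) ≤ 2 * (1 / 2 + ε) * (3 * ε * Ω.card) := by
    calc 2 * μ * ∑ ω ∈ Ω, (u ω + v ω - w ω) ≤ |2 * μ * ∑ ω ∈ Ω, (u ω + v ω - w ω)| := le_abs_self _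
      _ = 2 * |μ| * |∑ ω ∈ Ω, (u ω + v ω - w ω)| := by
          rw [abs_mul, abs_mul]; norm_num
      _ ≤ 2 * (1 / 2 + ε) * (3 * ε * Ω.card) := by
          apply mul_le_mul _ h2 (abs_nonneg _) (by linarith)
          linarith
  have h4 : 2 * (1 / 2 + ε) * (3 * ε * Ω.card) ≤ 4 * ε * Ω.card := by
    have h5 : 2 * (1 / 2 + ε) * (3 * ε) ≤ 4 * ε := by
      have : ε * ε ≤ ε * (1 / 10000) := mul_le_mul_of_nonneg_left hε hε0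
      linarith
    have := mul_le_mul_of_nonneg_right h5 hn
    linarith
  linarith

theorem Mom.d (h : Mom Ω ε u v w) {μ : ℝ} (hε0 : 0 ≤ ε) (hε : ε ≤ 1 / 10000)
    (hμ : |μ| ≤ 1 / 2 + ε) :
    (1 / 6 - 8 * ε) * Ω.card ≤ ∑ ω ∈ Ω, (u ω + v ω - w ω + μ) * (u ω + v ω) := by
  have hn : (0 : ℝ) ≤ Ω.card := Nat.cast_nonneg _
  have e : ∀ ω ∈ Ω, (u ω + v ω - w ω + μ) * (u ω + v ω) = u ω ^ 2 + v ω ^ 2 + 2 * (u ω * v ω)
      - (u ω * w ω) - (v ω * w ω) + μ * (u ω + v ω) := by intro ω _; ring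
  rw [Finset.sum_congr rfl e]
  simp only [Finset.sum_add_distrib, Finset.sum_sub_distrib, ← Finset.mul_sum]
  have h1 := abs_le.mp h.u2
  have h2 := abs_le.mp h.v2
  have h4 := abs_le.mp h.uv
  have h5 := abs_le.mp h.uw
  have h6 := abs_le.mp h.vw
  have h7 : |μ * (∑ ω ∈ Ω, u ω + ∑ ω ∈ Ω, v ω)| ≤ (1 / 2 + ε) * (2 * ε * Ω.card) := by
    rw [abs_mul]
    apply mul_le_mul hμ _ (abs_nonneg _) (by linarith)
    refine (abs_add_le _ _).trans ?_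
    linarith [h.u1, h.v1]
  have h8 := abs_le.mp h7
  have h9 : (1 / 2 + ε) * (2 * ε * Ω.card) ≤ 2 * ε * Ω.card := by
    have h5 : (1 / 2 + ε) * (2 * ε) ≤ 2 * ε := by
      have : ε * ε ≤ ε * (1 / 10000) := mul_le_mul_of_nonneg_left hε hε0
      linarith
    have := mul_le_mul_of_nonneg_right h5 hn
    linarith
  linarith [h1.1, h1.2, h2.1, h2.2, h4.1, h4.2, h5.1, h5.2, h6.1, h6.2, h8.1, h8.2]

theorem Mom.e (h : Mom Ω ε u v w) :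
    ∑ ω ∈ Ω, (u ω + v ω) ^ 2 ≤ (1 / 6 + 4 * ε) * Ω.card := by
  have e : ∀ ω ∈ Ω, (u ω + v ω) ^ 2 = u ω ^ 2 + v ω ^ 2 + 2 * (u ω * v ω) := by intro ω _; ring
  rw [Finset.sum_congr rfl e]
  simp only [Finset.sum_add_distrib, ← Finset.mul_sum]
  have h1 := abs_le.mp h.u2
  have h2 := abs_le.mp h.v2
  have h4 := abs_le.mp h.uv
  linarith [h1.1, h1.2, h2.1, h2.2, h4.1, h4.2]

/-- sign choice -/
theorem exists_sign (μ : ℝ) : ∃ σ : ℝ, σ ^ 2 = 1 ∧ |σ| = 1 ∧ σ * μ = |μ| ∧ (σ = 1 ∨ σ = -1) := by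
  rcases le_total 0 μ with h | h
  · exact ⟨1, by norm_num, by norm_num, by rw [abs_of_nonneg h, one_mul], Or.inl rfl⟩
  · exact ⟨-1, by norm_num, by norm_num, by rw [abs_of_nonpos h]; ring, Or.inr rfl⟩

theorem m_lower {m ε : ℝ} (hm : 0 ≤ m) (hε0 : 0 ≤ ε) (hε : ε ≤ 1 / 10000)
    (h : 1 / 4 - 28 * ε ≤ m ^ 2) : 1 / 2 - 56 * ε ≤ m := by
  by_contra hlt
  push Not at hlt
  have : m ^ 2 < (1 / 2 - 56 * ε) ^ 2 := by
    apply pow_lt_pow_left₀ hlt hm (by norm_num)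
  nlinarith

theorem m_upper {m ε : ℝ} (hm : 0 ≤ m) (hε0 : 0 ≤ ε) (hε : ε ≤ 1 / 10000)
    (h : m ≤ 1 / 2 + ε) : m ^ 2 ≤ 1 / 4 + 2 * ε := by
  have : m ^ 2 ≤ (1 / 2 + ε) ^ 2 := pow_le_pow_left₀ hm h 2
  nlinarith

theorem sq_small {m ε : ℝ} (hε0 : 0 ≤ ε) (hε : ε ≤ 1 / 10000)
    (h1 : 1 / 2 - 56 * ε ≤ m) (h2 : m ≤ 1 / 2 + ε) : (1 / 2 - m) ^ 2 ≤ ε := by
  have h3 : |1 / 2 - m| ≤ 56 * ε := by rw [abs_le]; constructor <;> linarith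
  have h4 : (1 / 2 - m) ^ 2 ≤ (56 * ε) ^ 2 := by
    rw [← sq_abs]; exact pow_le_pow_left₀ (abs_nonneg _) h3 2
  have h5 : (56 * ε) ^ 2 ≤ ε := by
    have : ε * ε ≤ ε * (1 / 10000) := mul_le_mul_of_nonneg_left hε hε0
    nlinarith
  linarith

theorem num_c {m ε n : ℝ} (hn : 0 ≤ n) (h : (1 / 2 - m) ^ 2 ≤ ε) :
    (1 / 4 + m ^ 2 + 13 * ε) * n - m * n + 3 * ε * n ≤ 17 * ε * n := by
  have : (1 / 4 + m ^ 2 + 13 * ε) - m + 3 * ε ≤ 17 * ε := by linarith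
  have := mul_le_mul_of_nonneg_right this hn
  linarith

theorem num_q {m m' ε n : ℝ} (hn : 0 ≤ n) (h : m ^ 2 ≤ 1 / 4 + 2 * ε) (h' : m' ^ 2 ≤ 1 / 4 + 2 * ε) :
    (1 / 4 + m ^ 2 + 13 * ε) * n + (1 / 4 + m' ^ 2 + 13 * ε) * n - n ≤ 30 * ε * n := by
  have : (1 / 4 + m ^ 2 + 13 * ε) + (1 / 4 + m' ^ 2 + 13 * ε) - 1 ≤ 30 * ε := by linarith
  have := mul_le_mul_of_nonneg_right this hn
  linarith

theorem num_y {ε n : ℝ} (hn : 0 ≤ n) (hε0 : 0 ≤ ε) (hε : ε ≤ 1 / 10000) :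
    (1 / 2 + ε) * (4 * ε * n) ≤ 3 * ε * n := by
  have h1 : (1 / 2 + ε) * (4 * ε) ≤ 3 * ε := by nlinarith
  have := mul_le_mul_of_nonneg_right h1 hn
  linarith

theorem num_final {ε : ℝ} (hε0 : 0 ≤ ε) (hε : ε ≤ 1 / 10000)
    (h : (1 / 3 - 85 * ε) ^ 2 ≤ (1 / 4 + 9 * ε) * (1 / 3 + 16 * ε)) : False := by
  have : ε * ε ≤ ε * (1 / 10000) := mul_le_mul_of_nonneg_left hε hε0
  nlinarith

theorem l2_lemma {u' v' w' : ι → ℝ} {μ μ' : ℝ} (hne : 0 < Ω.card)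
    (hε0 : 0 ≤ ε) (hε : ε ≤ 1 / 10000)
    (h : Mom Ω ε u v w) (h' : Mom Ω ε u' v' w')
    (hμ : |μ| ≤ 1 / 2 + ε) (hμ' : |μ'| ≤ 1 / 2 + ε)
    (hD : ∀ ω ∈ Ω, u ω + v ω - w ω + μ = -1 ∨ u ω + v ω - w ω + μ = 0 ∨
      u ω + v ω - w ω + μ = 1)
    (hD' : ∀ ω ∈ Ω, u' ω + v' ω - w' ω + μ' = -1 ∨ u' ω + v' ω - w' ω + μ' = 0 ∨
      u' ω + v' ω - w' ω + μ' = 1)
    (hu' : ∀ ω ∈ Ω, |u' ω| ≤ 1 / 2) (hv' : ∀ ω ∈ Ω, |v' ω| ≤ 1 / 2)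
    (huu : |∑ ω ∈ Ω, u ω * u' ω| ≤ ε * Ω.card) (huv : |∑ ω ∈ Ω, u ω * v' ω| ≤ ε * Ω.card)
    (hvu : |∑ ω ∈ Ω, v ω * u' ω| ≤ ε * Ω.card) (hvv : |∑ ω ∈ Ω, v ω * v' ω| ≤ ε * Ω.card) :
    ∃ ω ∈ Ω, u ω + v ω - w ω + μ = 0 ∧ u' ω + v' ω - w' ω + μ' = 0 := by
  by_contra hcon
  push Not at hcon
  have hn : (0 : ℝ) < Ω.card := by exact_mod_cast hne
  set n : ℝ := (Ω.card : ℝ) with hnn
  obtain ⟨σ, hσ2, hσa, hσμ, hσc⟩ := exists_sign μ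
  obtain ⟨σ', hσ2', hσa', hσμ', hσc'⟩ := exists_sign μ'
  set m := |μ| with hm
  set m' := |μ'| with hm'
  have hmsq : μ ^ 2 = m ^ 2 := by rw [hm, sq_abs]
  have hmsq' : μ' ^ 2 = m' ^ 2 := by rw [hm', sq_abs]
  have hm0 : 0 ≤ m := abs_nonneg _
  have hm0' : 0 ≤ m' := abs_nonneg _
  set D : ι → ℝ := fun ω => u ω + v ω - w ω + μ with hDdef
  set D' : ι → ℝ := fun ω => u' ω + v' ω - w' ω + μ' with hDdef'
  have hc := h.c hε0 hε hμ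
  have hc' := h'.c hε0 hε hμ'
  rw [hmsq] at hc
  rw [hmsq'] at hc'
  -- pointwise facts
  have hpt : ∀ ω ∈ Ω, 1 ≤ D ω ^ 2 + D' ω ^ 2 := by
    intro ω hω
    have h1 := hD ω hω
    have h2 := hD' ω hω
    have h3 := hcon ω hω
    simp only [hDdef, hDdef']
    rcases h1 with h1 | h1 | h1
    · rw [h1]; have := sq_nonneg (u' ω + v' ω - w' ω + μ'); norm_num; exact this
    · have h4 := h3 h1
      rcases h2 with h2 | h2 | h2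
      · rw [h2]; have := sq_nonneg (u ω + v ω - w ω + μ); norm_num; exact this
      · exact absurd h2 h4
      · rw [h2]; have := sq_nonneg (u ω + v ω - w ω + μ); norm_num; exact this
    · rw [h1]; have := sq_nonneg (u' ω + v' ω - w' ω + μ'); norm_num; exact this
  have hposD : ∀ ω ∈ Ω, 0 ≤ D ω ^ 2 - σ * D ω := by
    intro ω hω
    have h1 := hD ω hω
    simp only [hDdef]
    rcases h1 with h1 | h1 | h1 <;> rw [h1] <;> rcases hσc with hs | hs <;> rw [hs] <;> norm_num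
  have hposD' : ∀ ω ∈ Ω, 0 ≤ D' ω ^ 2 - σ' * D' ω := by
    intro ω hω
    have h1 := hD' ω hω
    simp only [hDdef']
    rcases h1 with h1 | h1 | h1 <;> rw [h1] <;> rcases hσc' with hs | hs <;> rw [hs] <;> norm_num
  -- total
  have hsum : n ≤ ∑ ω ∈ Ω, D ω ^ 2 + ∑ ω ∈ Ω, D' ω ^ 2 := by
    rw [← Finset.sum_add_distrib]
    calc n = ∑ ω ∈ Ω, (1 : ℝ) := by simp [hnn]
      _ ≤ _ := Finset.sum_le_sum hpt
  have hmm : 1 / 2 - 26 * ε ≤ m ^ 2 + m' ^ 2 := by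
    have : n * 1 ≤ n * (1 / 2 + m ^ 2 + m' ^ 2 + 26 * ε) := by
      simp only [hDdef, hDdef'] at hsum
      linarith
    have := le_of_mul_le_mul_left this hn
    linarith
  have hup : m ^ 2 ≤ 1 / 4 + 2 * ε := m_upper hm0 hε0 hε hμ
  have hup' : m' ^ 2 ≤ 1 / 4 + 2 * ε := m_upper hm0' hε0 hε hμ'
  have hml : 1 / 2 - 56 * ε ≤ m := m_lower hm0 hε0 hε (by linarith)
  have hml' : 1 / 2 - 56 * ε ≤ m' := m_lower hm0' hε0 hε (by linarith)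
  have hsq : (1 / 2 - m) ^ 2 ≤ ε := sq_small hε0 hε hml hμ
  have hsq' : (1 / 2 - m') ^ 2 ≤ ε := sq_small hε0 hε hml' hμ'
  -- sums of D
  have hsD : ∑ ω ∈ Ω, σ * D ω = σ * ∑ ω ∈ Ω, (u ω + v ω - w ω) + m * n := by
    simp only [hDdef]
    rw [← Finset.mul_sum, Finset.sum_add_distrib, Finset.sum_const, nsmul_eq_mul, mul_add]
    rw [← hσμ]
    ring
  have hsD' : ∑ ω ∈ Ω, σ' * D' ω = σ' * ∑ ω ∈ Ω, (u' ω + v' ω - w' ω) + m' * n := by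
    simp only [hDdef']
    rw [← Finset.mul_sum, Finset.sum_add_distrib, Finset.sum_const, nsmul_eq_mul, mul_add]
    rw [← hσμ']
    ring
  have hb : |σ * ∑ ω ∈ Ω, (u ω + v ω - w ω)| ≤ 3 * ε * n := by
    rw [abs_mul, hσa, one_mul]; exact h.b
  have hb' : |σ' * ∑ ω ∈ Ω, (u' ω + v' ω - w' ω)| ≤ 3 * ε * n := by
    rw [abs_mul, hσa', one_mul]; exact h'.b
  have hP : ∑ ω ∈ Ω, (D ω ^ 2 - σ * D ω) ≤ 17 * ε * n := by
    rw [Finset.sum_sub_distrib, hsD]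
    have := (abs_le.mp hb).1
    have e1 := num_c (m := m) hn.le hsq
    linarith
  have hP' : ∑ ω ∈ Ω, (D' ω ^ 2 - σ' * D' ω) ≤ 17 * ε * n := by
    rw [Finset.sum_sub_distrib, hsD']
    have := (abs_le.mp hb').1
    have e1 := num_c (m := m') hn.le hsq'
    linarith
  have hQ : ∑ ω ∈ Ω, (D ω ^ 2 + D' ω ^ 2 - 1) ≤ 30 * ε * n := by
    rw [Finset.sum_sub_distrib, Finset.sum_add_distrib, Finset.sum_const, nsmul_eq_mul, mul_one,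
      ← hnn]
    have e1 := num_q (m := m) (m' := m') hn.le hup hup'
    linarith
  -- the remainder R
  set R : ι → ℝ := fun ω => σ * D ω + σ' * D' ω - 1 with hR
  have hRabs : ∀ ω ∈ Ω, |R ω| ≤ (D ω ^ 2 + D' ω ^ 2 - 1) + (D ω ^ 2 - σ * D ω) +
      (D' ω ^ 2 - σ' * D' ω) := by
    intro ω hω
    have h1 := hpt ω hω
    have h2 := hposD ω hω
    have h3 := hposD' ω hω
    rw [abs_le]
    simp only [hR]
    constructor <;> linarith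
  have hRsum : ∑ ω ∈ Ω, |R ω| ≤ 64 * ε * n := by
    refine (Finset.sum_le_sum hRabs).trans ?_
    rw [Finset.sum_add_distrib, Finset.sum_add_distrib]
    linarith
  -- test functions
  have hRP : |∑ ω ∈ Ω, R ω * (σ' * (u' ω + v' ω))| ≤ 64 * ε * n := by
    refine (Finset.abs_sum_le_sum_abs _ _).trans (le_trans ?_ hRsum)
    refine Finset.sum_le_sum fun ω hω => ?_
    rw [abs_mul, abs_mul, hσa', one_mul]
    have : |u' ω + v' ω| ≤ 1 := by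
      refine (abs_add_le _ _).trans ?_
      linarith [hu' ω hω, hv' ω hω]
    calc |R ω| * |u' ω + v' ω| ≤ |R ω| * 1 := mul_le_mul_of_nonneg_left this (abs_nonneg _)
      _ = |R ω| := mul_one _
  have hd := h.d hε0 hε hμ
  have hd' := h'.d hε0 hε hμ'
  have hDY : (1 / 3 - 82 * ε) * n ≤ ∑ ω ∈ Ω, (σ * D ω) * (σ * (u ω + v ω) - σ' * (u' ω + v' ω)) := by
    have e : ∀ ω ∈ Ω, (σ * D ω) * (σ * (u ω + v ω) - σ' * (u' ω + v' ω))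
        = D ω * (u ω + v ω) + D' ω * (u' ω + v' ω) - σ' * (u' ω + v' ω)
          - R ω * (σ' * (u' ω + v' ω)) := by
      intro ω _
      simp only [hR]
      have e1 : σ * D ω * (σ * (u ω + v ω)) = σ ^ 2 * (D ω * (u ω + v ω)) := by ring
      have e2 : σ' * D' ω * (σ' * (u' ω + v' ω)) = σ' ^ 2 * (D' ω * (u' ω + v' ω)) := by ring
      rw [hσ2, one_mul] at e1
      rw [hσ2', one_mul] at e2
      calc (σ * D ω) * (σ * (u ω + v ω) - σ' * (u' ω + v' ω))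
          = σ * D ω * (σ * (u ω + v ω)) - σ * D ω * (σ' * (u' ω + v' ω)) := by ring
        _ = D ω * (u ω + v ω) - σ * D ω * (σ' * (u' ω + v' ω)) := by rw [e1]
        _ = D ω * (u ω + v ω) + σ' * D' ω * (σ' * (u' ω + v' ω)) - σ' * (u' ω + v' ω) -
            (σ * D ω + σ' * D' ω - 1) * (σ' * (u' ω + v' ω)) := by ring
        _ = _ := by rw [e2]
    rw [Finset.sum_congr rfl e, Finset.sum_sub_distrib, Finset.sum_sub_distrib,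
      Finset.sum_add_distrib, ← Finset.mul_sum, Finset.sum_add_distrib (f := u')]
    have h1 := (abs_le.mp hRP).2
    have h2 : |σ' * (∑ ω ∈ Ω, u' ω + ∑ ω ∈ Ω, v' ω)| ≤ 2 * ε * n := by
      rw [abs_mul, hσa', one_mul]
      refine (abs_add_le _ _).trans ?_
      linarith [h'.u1, h'.v1]
    have h3 := (abs_le.mp h2).2
    simp only [hDdef, hDdef'] at *
    linarith
  set Y : ι → ℝ := fun ω => σ * (u ω + v ω) - σ' * (u' ω + v' ω) with hY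
  have hYsum : |∑ ω ∈ Ω, Y ω| ≤ 4 * ε * n := by
    simp only [hY]
    rw [Finset.sum_sub_distrib, ← Finset.mul_sum, ← Finset.mul_sum, Finset.sum_add_distrib,
      Finset.sum_add_distrib]
    refine (abs_sub _ _).trans ?_
    rw [abs_mul, abs_mul, hσa, hσa', one_mul, one_mul]
    have h1 := abs_add_le (∑ ω ∈ Ω, u ω) (∑ ω ∈ Ω, v ω)
    have h2 := abs_add_le (∑ ω ∈ Ω, u' ω) (∑ ω ∈ Ω, v' ω)
    linarith [h.u1, h.v1, h'.u1, h'.v1]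
  have hD0Y : (1 / 3 - 85 * ε) * n ≤ ∑ ω ∈ Ω, (σ * (u ω + v ω - w ω)) * Y ω := by
    have e : ∀ ω ∈ Ω, (σ * (u ω + v ω - w ω)) * Y ω = (σ * D ω) * Y ω - m * Y ω := by
      intro ω _
      simp only [hDdef]
      rw [← hσμ]
      ring
    rw [Finset.sum_congr rfl e, Finset.sum_sub_distrib, ← Finset.mul_sum (f := Y)]
    have h1 : m * ∑ ω ∈ Ω, Y ω ≤ (1 / 2 + ε) * (4 * ε * n) := by
      calc m * ∑ ω ∈ Ω, Y ω ≤ m * (4 * ε * n) :=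
            mul_le_mul_of_nonneg_left ((le_abs_self _).trans hYsum) hm0
        _ ≤ (1 / 2 + ε) * (4 * ε * n) := mul_le_mul_of_nonneg_right hμ (by positivity)
    have h2 : (1 / 2 + ε) * (4 * ε * n) ≤ 3 * ε * n := num_y hn.le hε0 hε
    linarith
  have hD0 : ∑ ω ∈ Ω, (σ * (u ω + v ω - w ω)) ^ 2 ≤ (1 / 4 + 9 * ε) * n := by
    have e : ∀ ω ∈ Ω, (σ * (u ω + v ω - w ω)) ^ 2 = (u ω + v ω - w ω) ^ 2 := by
      intro ω _; rw [mul_pow, hσ2, one_mul]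
    rw [Finset.sum_congr rfl e]
    exact h.a
  have hYY : ∑ ω ∈ Ω, Y ω ^ 2 ≤ (1 / 3 + 16 * ε) * n := by
    have e : ∀ ω ∈ Ω, Y ω ^ 2 = (u ω + v ω) ^ 2 + (u' ω + v' ω) ^ 2
        - 2 * (σ * σ') * (u ω * u' ω + u ω * v' ω + v ω * u' ω + v ω * v' ω) := by
      intro ω _
      simp only [hY]
      calc (σ * (u ω + v ω) - σ' * (u' ω + v' ω)) ^ 2
          = σ ^ 2 * (u ω + v ω) ^ 2 + σ' ^ 2 * (u' ω + v' ω) ^ 2
          - 2 * (σ * σ') * (u ω * u' ω + u ω * v' ω + v ω * u' ω + v ω * v' ω) := by ring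
        _ = _ := by rw [hσ2, hσ2', one_mul, one_mul]
    rw [Finset.sum_congr rfl e, Finset.sum_sub_distrib, Finset.sum_add_distrib, ← Finset.mul_sum]
    simp only [Finset.sum_add_distrib]
    have h1 := h.e
    have h2 := h'.e
    have h3 : |2 * (σ * σ') * (∑ ω ∈ Ω, u ω * u' ω + ∑ ω ∈ Ω, u ω * v' ω + ∑ ω ∈ Ω, v ω * u' ω
        + ∑ ω ∈ Ω, v ω * v' ω)| ≤ 8 * ε * n := by
      rw [abs_mul, abs_mul, abs_mul, hσa, hσa']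
      have := abs_add_le (∑ ω ∈ Ω, u ω * u' ω + ∑ ω ∈ Ω, u ω * v' ω + ∑ ω ∈ Ω, v ω * u' ω)
        (∑ ω ∈ Ω, v ω * v' ω)
      have h4 := abs_add_le (∑ ω ∈ Ω, u ω * u' ω + ∑ ω ∈ Ω, u ω * v' ω) (∑ ω ∈ Ω, v ω * u' ω)
      have h5 := abs_add_le (∑ ω ∈ Ω, u ω * u' ω) (∑ ω ∈ Ω, u ω * v' ω)
      have h6 : |(2 : ℝ)| = 2 := by norm_num
      rw [h6]
      linarith
    have h4 := (abs_le.mp h3).1
    linarith
  have hCS := Finset.sum_mul_sq_le_sq_mul_sq Ω (fun ω => σ * (u ω + v ω - w ω)) Y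
  have hlow : 0 ≤ (1 / 3 - 85 * ε) * n := by
    apply mul_nonneg _ hn.le
    linarith
  have h1 : ((1 / 3 - 85 * ε) * n) ^ 2 ≤ ((1 / 4 + 9 * ε) * n) * ((1 / 3 + 16 * ε) * n) := by
    calc ((1 / 3 - 85 * ε) * n) ^ 2 ≤ (∑ ω ∈ Ω, (σ * (u ω + v ω - w ω)) * Y ω) ^ 2 :=
          pow_le_pow_left₀ hlow hD0Y 2
      _ ≤ (∑ ω ∈ Ω, (σ * (u ω + v ω - w ω)) ^ 2) * ∑ ω ∈ Ω, Y ω ^ 2 := hCS
      _ ≤ _ := mul_le_mul hD0 hYY (Finset.sum_nonneg fun _ _ => sq_nonneg _) (by positivity)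
  have h2 : n ^ 2 * ((1 / 3 - 85 * ε) ^ 2) ≤ n ^ 2 * ((1 / 4 + 9 * ε) * (1 / 3 + 16 * ε)) := by
    linarith
  have h3 := le_of_mul_le_mul_left h2 (by positivity)
  exact num_final hε0 hε h3

end

end Pool.Agent.Helper916
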