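import Mathlib
import Pool.Agent.Helper916.T1
import Pool.Agent.Helper916.Saw
import Pool.Agent.Helper916.L2
import Pool.Agent.Helper916.DL

open Finset

namespace Pool.Agent.Helper916

/-- moment structure from character sum bounds -/
theorem mom_of {ι : Type*} (Ω : Finset ι) {N : ℕ} [NeZero N] (a b c : ι → ZMod N) (s : ZMod N)
    (B ε : ℝ) (hB0 : 0 ≤ B)
    (ha : ∀ h : ZMod N, h ≠ 0 → ‖∑ ω ∈ Ω, (ZMod.stdAddChar (h * a ω) : ℂ)‖ ≤ B)
    (hb : ∀ h : ZMod N, h ≠ 0 → ‖∑ ω ∈ Ω, (ZMod.stdAddChar (h * b ω) : ℂ)‖ ≤ B)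
    (hc : ∀ h : ZMod N, h ≠ 0 → ‖∑ ω ∈ Ω, (ZMod.stdAddChar (h * c ω) : ℂ)‖ ≤ B)
    (hab : ∀ h k : ZMod N, h ≠ 0 → k ≠ 0 →
      ‖∑ ω ∈ Ω, (ZMod.stdAddChar (h * a ω) : ℂ) * ZMod.stdAddChar (k * b ω)‖ ≤ B)
    (hac : ∀ h k : ZMod N, h ≠ 0 → k ≠ 0 →
      ‖∑ ω ∈ Ω, (ZMod.stdAddChar (h * a ω) : ℂ) * ZMod.stdAddChar (k * c ω)‖ ≤ B)
    (hbc : ∀ h k : ZMod N, h ≠ 0 → k ≠ 0 →
      ‖∑ ω ∈ Ω, (ZMod.stdAddChar (h * b ω) : ℂ) * ZMod.stdAddChar (k * c ω)‖ ≤ B)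
    (hε : B * (1 + Real.log N) ^ 2 + (Ω.card : ℝ) / (12 * (N : ℝ) ^ 2) ≤ ε * Ω.card) :
    Mom Ω ε (fun ω => saw (a ω + s)) (fun ω => saw (b ω + s)) (fun ω => saw (c ω + s)) := by
  have hN : (0 : ℝ) < N := by exact_mod_cast NeZero.pos N
  have hlog : 1 ≤ 1 + Real.log N := by
    have := Real.log_natCast_nonneg N; linarith
  have hnn : 0 ≤ (Ω.card : ℝ) / (12 * (N : ℝ) ^ 2) := by positivity
  have hone : B * (1 + Real.log N) ≤ ε * Ω.card := by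
    have : B * (1 + Real.log N) ≤ B * (1 + Real.log N) ^ 2 := by
      apply mul_le_mul_of_nonneg_left _ hB0
      nlinarith
    linarith
  have htwo : B * ((1 + Real.log N) * (1 + Real.log N)) ≤ ε * Ω.card := by
    have : B * ((1 + Real.log N) * (1 + Real.log N)) = B * (1 + Real.log N) ^ 2 := by ring
    linarith
  have hsq : ∀ d : ι → ZMod N,
      (∀ h : ZMod N, h ≠ 0 → ‖∑ ω ∈ Ω, (ZMod.stdAddChar (h * d ω) : ℂ)‖ ≤ B) →
      |∑ ω ∈ Ω, saw (d ω + s) ^ 2 - (1 / 12) * Ω.card| ≤ ε * Ω.card := by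
    intro d hd
    have h1 := cov_sq Ω d s B hB0 hd
    have h2 : |(Ω.card : ℝ) * VV N - (1 / 12) * Ω.card| ≤ (Ω.card : ℝ) / (12 * (N : ℝ) ^ 2) := by
      have : (Ω.card : ℝ) * VV N - (1 / 12) * Ω.card = -((Ω.card : ℝ) / (12 * (N : ℝ) ^ 2)) := by
        unfold VV
        field_simp
        ring
      rw [this, abs_neg, abs_of_nonneg hnn]
    have h3 := abs_sub_le (∑ ω ∈ Ω, saw (d ω + s) ^ 2) ((Ω.card : ℝ) * VV N) ((1 / 12) * Ω.card)
    linarith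
  exact
    { u1 := (cov_one Ω a s B hB0 ha).trans hone
      v1 := (cov_one Ω b s B hB0 hb).trans hone
      w1 := (cov_one Ω c s B hB0 hc).trans hone
      u2 := hsq a ha
      v2 := hsq b hb
      w2 := hsq c hc
      uv := (cov_two Ω a b s s B hB0 hab).trans htwo
      uw := (cov_two Ω a c s s B hB0 hac).trans htwo
      vw := (cov_two Ω b c s s B hB0 hbc).trans htwo }

section

variable {F : Type*} [Field F] [Fintype F] [DecidableEq F]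

/-- bound for the three term sums -/
noncomputable def B1 (q : ℝ) : ℝ := Real.sqrt (2 * (q + q * mB q))

theorem t1_bound (h2 : (2 : F) ≠ 0) (a b c : MulChar F ℂ) (h : a ≠ 1 ∨ b ≠ 1 ∨ c ≠ 1) :
    ‖∑ s : F, a s * b (s + 1) * c (s - 1)‖ ≤ B1 (Fintype.card F) := by
  obtain ⟨ψ, hψ⟩ : ∃ ψ : AddChar F ℂ, ψ.IsPrimitive :=
    ⟨AddChar.FiniteField.primitiveChar_to_Complex F,
      AddChar.FiniteField.primitiveChar_to_Complex_isPrimitive F⟩
  have h1 := t1_master ψ hψ h2 a b c h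
  set q : ℝ := (Fintype.card F : ℝ) with hq
  have hq2 : (2 : ℝ) ≤ q := by
    have := Fintype.one_lt_card (α := F)
    rw [hq]; exact_mod_cast this
  have hmB : 0 ≤ mB q := Real.sqrt_nonneg _
  apply Real.le_sqrt_of_sq_le
  have h3 : (q - 1) * ‖∑ s : F, a s * b (s + 1) * c (s - 1)‖ ^ 2
      ≤ (q - 1) * (2 * (q + q * mB q)) := by
    have : q * (q + q * mB q) ≤ (2 * (q - 1)) * (q + q * mB q) :=
      mul_le_mul_of_nonneg_right (by linarith) (by positivity)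
    linarith
  exact le_of_mul_le_mul_left h3 (by linarith)

/-- the parameter set -/
def Om (F : Type*) [Field F] [Fintype F] [DecidableEq F] : Finset F :=
  Finset.univ.filter (fun s => s ≠ 0 ∧ s ≠ 1 ∧ s ≠ -1)

theorem mem_Om {s : F} : s ∈ Om F ↔ s ≠ 0 ∧ s ≠ 1 ∧ s ≠ -1 := by
  simp [Om]

/-- a function on the parameter set given by three multiplicative characters -/
def Rep3 (φ : F → ℂ) (A0 A1 A2 : MulChar F ℂ) : Prop :=
  ∃ κ : ℂ, ‖κ‖ ≤ 1 ∧ ∀ s ∈ Om F, φ s = κ * (A0 s * A1 (s + 1) * A2 (s - 1))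

theorem Rep3.mul {φ φ' : F → ℂ} {A0 A1 A2 A0' A1' A2' : MulChar F ℂ} (h : Rep3 φ A0 A1 A2)
    (h' : Rep3 φ' A0' A1' A2') :
    Rep3 (fun s => φ s * φ' s) (A0 * A0') (A1 * A1') (A2 * A2') := by
  obtain ⟨κ, hκ, h⟩ := h
  obtain ⟨κ', hκ', h'⟩ := h'
  refine ⟨κ * κ', ?_, ?_⟩
  · rw [norm_mul]; exact mul_le_one₀ hκ (norm_nonneg _) hκ'
  · intro s hs
    simp only [h s hs, h' s hs, MulChar.mul_apply]
    ring

theorem Rep3.bound (h2 : (2 : F) ≠ 0) {φ : F → ℂ} {A0 A1 A2 : MulChar F ℂ} (h : Rep3 φ A0 A1 A2)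
    (hA : A0 ≠ 1 ∨ A1 ≠ 1 ∨ A2 ≠ 1) : ‖∑ s ∈ Om F, φ s‖ ≤ B1 (Fintype.card F) := by
  obtain ⟨κ, hκ, h⟩ := h
  have h1 : ∑ s ∈ Om F, φ s = κ * ∑ s : F, A0 s * A1 (s + 1) * A2 (s - 1) := by
    rw [Finset.sum_congr rfl h, ← Finset.mul_sum]
    congr 1
    refine Finset.sum_subset (Finset.subset_univ _) ?_
    intro s _ hs
    rw [mem_Om] at hs
    by_cases h0 : s = 0
    · rw [h0, MulChar.map_zero]; ring
    · by_cases h1 : s = 1
      · have : s - 1 = 0 := by rw [h1]; ring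
        rw [this, MulChar.map_zero]; ring
      · by_cases h3 : s = -1
        · have : s + 1 = 0 := by rw [h3]; ring
          rw [this, MulChar.map_zero]; ring
        · exact absurd ⟨h0, h1, h3⟩ hs
  rw [h1, norm_mul]
  have h3 := t1_bound h2 A0 A1 A2 hA
  calc ‖κ‖ * ‖∑ s : F, A0 s * A1 (s + 1) * A2 (s - 1)‖
      ≤ 1 * ‖∑ s : F, A0 s * A1 (s + 1) * A2 (s - 1)‖ :=
        mul_le_mul_of_nonneg_right hκ (norm_nonneg _)
    _ ≤ _ := by rw [one_mul]; exact h3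

theorem one_app {x : F} (hx : x ≠ 0) : (1 : MulChar F ℂ) x = 1 :=
  MulChar.one_apply (isUnit_iff_ne_zero.mpr hx)

theorem Om_facts {s : F} (hs : s ∈ Om F) : s ≠ 0 ∧ s + 1 ≠ 0 ∧ s - 1 ≠ 0 ∧ 1 + s ≠ 0 ∧ 1 - s ≠ 0 := by
  rw [mem_Om] at hs
  obtain ⟨h0, h1, h2⟩ := hs
  refine ⟨h0, ?_, ?_, ?_, ?_⟩
  · intro h; exact h2 (eq_neg_of_add_eq_zero_left h)
  · intro h; exact h1 (sub_eq_zero.mp h)
  · intro h; exact h2 (eq_neg_of_add_eq_zero_right h)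
  · intro h; exact h1 (sub_eq_zero.mp h).symm

theorem rep_x (χ : MulChar F ℂ) : Rep3 (fun s => χ ((1 + s)⁻¹)) 1 χ⁻¹ 1 := by
  refine ⟨1, by simp, ?_⟩
  intro s hs
  obtain ⟨h0, h1, h2, h3, h4⟩ := Om_facts hs
  beta_reduce
  rw [one_app h0, one_app h2, MulChar.inv_apply', add_comm 1 s]
  ring

theorem rep_y (χ : MulChar F ℂ) : Rep3 (fun s => χ ((1 - s)⁻¹)) 1 1 χ⁻¹ := by
  refine ⟨χ (-1), mc_norm_le χ _, ?_⟩
  intro s hs
  obtain ⟨h0, h1, h2, h3, h4⟩ := Om_facts hs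
  beta_reduce
  rw [one_app h0, one_app h1, MulChar.inv_apply', one_mul, one_mul, ← map_mul χ]
  congr 1
  have : 1 - s = -(s - 1) := by ring
  rw [this, inv_neg]
  ring

theorem rep_z (χ : MulChar F ℂ) : Rep3 (fun s => χ ((1 + s)⁻¹ * (1 - s)⁻¹)) 1 χ⁻¹ χ⁻¹ := by
  have := (rep_x χ).mul (rep_y χ)
  simp only [mul_one, one_mul] at this
  obtain ⟨κ, hκ, h⟩ := this
  refine ⟨κ, hκ, ?_⟩
  intro s hs
  beta_reduce
  rw [map_mul χ]
  exact h s hs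

theorem rep_x' (χ : MulChar F ℂ) : Rep3 (fun s => χ (s * (1 + s)⁻¹)) χ χ⁻¹ 1 := by
  refine ⟨1, by simp, ?_⟩
  intro s hs
  obtain ⟨h0, h1, h2, h3, h4⟩ := Om_facts hs
  beta_reduce
  rw [one_app h2, MulChar.inv_apply', add_comm 1 s, map_mul χ]
  ring

theorem rep_y' (χ : MulChar F ℂ) : Rep3 (fun s => χ (s * (s - 1)⁻¹)) χ 1 χ⁻¹ := by
  refine ⟨1, by simp, ?_⟩
  intro s hs
  obtain ⟨h0, h1, h2, h3, h4⟩ := Om_facts hs
  beta_reduce
  rw [one_app h1, MulChar.inv_apply', map_mul χ]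
  ring

theorem rep_z' (χ : MulChar F ℂ) :
    Rep3 (fun s => χ ((s * (1 + s)⁻¹) * (s * (s - 1)⁻¹))) (χ * χ) χ⁻¹ χ⁻¹ := by
  have := (rep_x' χ).mul (rep_y' χ)
  simp only [mul_one, one_mul] at this
  obtain ⟨κ, hκ, h⟩ := this
  refine ⟨κ, hκ, ?_⟩
  intro s hs
  beta_reduce
  rw [map_mul χ]
  exact h s hs

theorem Om_card_ge : (Fintype.card F : ℝ) - 3 ≤ ((Om F).card : ℝ) := by
  have h1 : (Finset.univ : Finset F) ⊆ Om F ∪ {0, 1, -1} := by
    intro s _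
    rw [Finset.mem_union, mem_Om]
    by_cases h0 : s = 0
    · right; simp [h0]
    · by_cases h1 : s = 1
      · right; simp [h1]
      · by_cases h2 : s = -1
        · right; simp [h2]
        · left; exact ⟨h0, h1, h2⟩
  have h2 := (Finset.card_le_card h1).trans (Finset.card_union_le _ _)
  have h3 : ({0, 1, -1} : Finset F).card ≤ 3 := Finset.card_le_three
  rw [Finset.card_univ] at h2
  have h4 : Fintype.card F ≤ (Om F).card + 3 := by omega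
  have : (Fintype.card F : ℝ) ≤ (Om F).card + 3 := by exact_mod_cast h4
  linarith

theorem Om_card_le : ((Om F).card : ℝ) ≤ (Fintype.card F : ℝ) := by
  exact_mod_cast Finset.card_le_univ _

variable {N : ℕ} [NeZero N]

theorem golomb_odd_exists (hN : Fintype.card F = N + 1) (h2 : (2 : F) ≠ 0) {α β : F}
    (hα : orderOf α = N) (hβ : orderOf β = N) {t1 t2 : ℕ} (ht1 : t1 ≤ N + 1) (ht2 : t2 ≤ N + 1)
    {ε : ℝ} (hε0 : 0 ≤ ε) (hε : ε ≤ 1 / 10000)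
    (hbig : B1 (Fintype.card F) * (1 + Real.log N) ^ 2 + 1 ≤ ε * ((Fintype.card F : ℝ) - 3))
    (hNε : 1 / (2 * (N : ℝ)) ≤ ε) :
    ∃ s ∈ Om F,
      rep t1 (dl N α ((1 + s)⁻¹)) + rep t1 (dl N α ((1 - s)⁻¹))
        = rep t1 (dl N α ((1 + s)⁻¹ * (1 - s)⁻¹)) ∧
      rep t2 (dl N β (s * (1 + s)⁻¹)) + rep t2 (dl N β (s * (s - 1)⁻¹))
        = rep t2 (dl N β ((s * (1 + s)⁻¹) * (s * (s - 1)⁻¹))) := by
  have hNpos : (0 : ℝ) < N := by exact_mod_cast NeZero.pos N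
  have hN1 : (1 : ℝ) ≤ N := by exact_mod_cast NeZero.pos N
  have hB0 : 0 ≤ B1 (Fintype.card F) := Real.sqrt_nonneg _
  have hq : (Fintype.card F : ℝ) = N + 1 := by rw [hN]; push_cast; ring
  have hcard := Om_card_ge (F := F)
  have hcard' := Om_card_le (F := F)
  have hεcard : B1 (Fintype.card F) * (1 + Real.log N) ^ 2 +
      ((Om F).card : ℝ) / (12 * (N : ℝ) ^ 2) ≤ ε * (Om F).card := by
    have e1 : ((Om F).card : ℝ) / (12 * (N : ℝ) ^ 2) ≤ 1 := by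
      rw [div_le_one (by positivity)]
      nlinarith
    have e2 : ε * ((Fintype.card F : ℝ) - 3) ≤ ε * (Om F).card :=
      mul_le_mul_of_nonneg_left hcard hε0
    linarith
  have hlogB : B1 (Fintype.card F) * ((1 + Real.log N) * (1 + Real.log N)) ≤ ε * (Om F).card := by
    have e1 : 0 ≤ ((Om F).card : ℝ) / (12 * (N : ℝ) ^ 2) := by positivity
    have e2 : B1 (Fintype.card F) * ((1 + Real.log N) * (1 + Real.log N))
        = B1 (Fintype.card F) * (1 + Real.log N) ^ 2 := by ring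
    linarith
  have hpos : 0 < (Om F).card := by
    have e1 : 0 ≤ B1 (Fintype.card F) * (1 + Real.log N) ^ 2 := by positivity
    have e2 : (0 : ℝ) < ε * (Om F).card := by
      have := mul_le_mul_of_nonneg_left hcard hε0
      linarith
    have e3 : (0 : ℝ) < (Om F).card := by
      by_contra hcon
      push Not at hcon
      nlinarith
    exact_mod_cast e3
  -- nonvanishing of the variables
  have nx : ∀ s ∈ Om F, (1 + s)⁻¹ ≠ 0 := fun s hs => inv_ne_zero (Om_facts hs).2.2.2.1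
  have ny : ∀ s ∈ Om F, (1 - s)⁻¹ ≠ 0 := fun s hs => inv_ne_zero (Om_facts hs).2.2.2.2
  have nx' : ∀ s ∈ Om F, s * (1 + s)⁻¹ ≠ 0 := fun s hs => mul_ne_zero (Om_facts hs).1 (nx s hs)
  have ny' : ∀ s ∈ Om F, s * (s - 1)⁻¹ ≠ 0 := fun s hs =>
    mul_ne_zero (Om_facts hs).1 (inv_ne_zero (Om_facts hs).2.2.1)
  have nz : ∀ s ∈ Om F, (1 + s)⁻¹ * (1 - s)⁻¹ ≠ 0 := fun s hs => mul_ne_zero (nx s hs) (ny s hs)
  have nz' : ∀ s ∈ Om F, (s * (1 + s)⁻¹) * (s * (s - 1)⁻¹) ≠ 0 :=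
    fun s hs => mul_ne_zero (nx' s hs) (ny' s hs)
  -- generic transfer
  have tr1 : ∀ (γ : F) (hγ : orderOf γ = N) (X : F → F), (∀ s ∈ Om F, X s ≠ 0) → ∀ h : ZMod N,
      ∑ s ∈ Om F, (ZMod.stdAddChar (h * dl N γ (X s)) : ℂ) = ∑ s ∈ Om F, chi hN hγ h (X s) := by
    intro γ hγ X hX h
    exact Finset.sum_congr rfl fun s hs => (chi_apply hN hγ h (hX s hs)).symm
  have tr2 : ∀ (γ δ : F) (hγ : orderOf γ = N) (hδ : orderOf δ = N) (X Y : F → F),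
      (∀ s ∈ Om F, X s ≠ 0) → (∀ s ∈ Om F, Y s ≠ 0) → ∀ h k : ZMod N,
      ∑ s ∈ Om F, (ZMod.stdAddChar (h * dl N γ (X s)) : ℂ) * ZMod.stdAddChar (k * dl N δ (Y s))
        = ∑ s ∈ Om F, chi hN hγ h (X s) * chi hN hδ k (Y s) := by
    intro γ δ hγ hδ X Y hX hY h k
    refine Finset.sum_congr rfl fun s hs => ?_
    rw [chi_apply hN hγ h (hX s hs), chi_apply hN hδ k (hY s hs)]
  have inv_ne : ∀ χ : MulChar F ℂ, χ ≠ 1 → χ⁻¹ ≠ 1 := fun χ h h' => h (inv_eq_one.mp h')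
  have hM : Mom (Om F) ε (fun s => saw (dl N α ((1 + s)⁻¹) + ((t1 : ZMod N) - 1)))
      (fun s => saw (dl N α ((1 - s)⁻¹) + ((t1 : ZMod N) - 1)))
      (fun s => saw (dl N α ((1 + s)⁻¹ * (1 - s)⁻¹) + ((t1 : ZMod N) - 1))) := by
    refine mom_of (Om F) _ _ _ _ (B1 (Fintype.card F)) ε hB0 ?_ ?_ ?_ ?_ ?_ ?_ hεcard
    · intro h hh
      rw [tr1 α hα _ nx h]
      exact (rep_x _).bound h2 (Or.inr (Or.inl (inv_ne _ (chi_ne_one hN hα hh))))
    · intro h hh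
      rw [tr1 α hα _ ny h]
      exact (rep_y _).bound h2 (Or.inr (Or.inr (inv_ne _ (chi_ne_one hN hα hh))))
    · intro h hh
      rw [tr1 α hα _ nz h]
      exact (rep_z _).bound h2 (Or.inr (Or.inl (inv_ne _ (chi_ne_one hN hα hh))))
    · intro h k hh hk
      rw [tr2 α α hα hα _ _ nx ny h k]
      refine ((rep_x _).mul (rep_y _)).bound h2 (Or.inr (Or.inl ?_))
      rw [mul_one]; exact inv_ne _ (chi_ne_one hN hα hh)
    · intro h k hh hk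
      rw [tr2 α α hα hα _ _ nx nz h k]
      refine ((rep_x _).mul (rep_z _)).bound h2 (Or.inr (Or.inr ?_))
      rw [one_mul]; exact inv_ne _ (chi_ne_one hN hα hk)
    · intro h k hh hk
      rw [tr2 α α hα hα _ _ ny nz h k]
      refine ((rep_y _).mul (rep_z _)).bound h2 (Or.inr (Or.inl ?_))
      rw [one_mul]; exact inv_ne _ (chi_ne_one hN hα hk)
  have hM' : Mom (Om F) ε (fun s => saw (dl N β (s * (1 + s)⁻¹) + ((t2 : ZMod N) - 1)))
      (fun s => saw (dl N β (s * (s - 1)⁻¹) + ((t2 : ZMod N) - 1)))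
      (fun s => saw (dl N β ((s * (1 + s)⁻¹) * (s * (s - 1)⁻¹)) + ((t2 : ZMod N) - 1))) := by
    refine mom_of (Om F) _ _ _ _ (B1 (Fintype.card F)) ε hB0 ?_ ?_ ?_ ?_ ?_ ?_ hεcard
    · intro h hh
      rw [tr1 β hβ _ nx' h]
      exact (rep_x' _).bound h2 (Or.inl (chi_ne_one hN hβ hh))
    · intro h hh
      rw [tr1 β hβ _ ny' h]
      exact (rep_y' _).bound h2 (Or.inl (chi_ne_one hN hβ hh))
    · intro h hh
      rw [tr1 β hβ _ nz' h]
      exact (rep_z' _).bound h2 (Or.inr (Or.inl (inv_ne _ (chi_ne_one hN hβ hh))))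
    · intro h k hh hk
      rw [tr2 β β hβ hβ _ _ nx' ny' h k]
      refine ((rep_x' _).mul (rep_y' _)).bound h2 (Or.inr (Or.inl ?_))
      rw [mul_one]; exact inv_ne _ (chi_ne_one hN hβ hh)
    · intro h k hh hk
      rw [tr2 β β hβ hβ _ _ nx' nz' h k]
      refine ((rep_x' _).mul (rep_z' _)).bound h2 (Or.inr (Or.inr ?_))
      rw [one_mul]; exact inv_ne _ (chi_ne_one hN hβ hk)
    · intro h k hh hk
      rw [tr2 β β hβ hβ _ _ ny' nz' h k]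
      refine ((rep_y' _).mul (rep_z' _)).bound h2 (Or.inr (Or.inl ?_))
      rw [one_mul]; exact inv_ne _ (chi_ne_one hN hβ hk)
  have hmu : ∀ t : ℕ, t ≤ N + 1 → |muu N t| ≤ 1 / 2 + ε := fun t ht => by
    have := muu_le (N := N) t ht
    linarith
  obtain ⟨s, hs, hs1, hs2⟩ := l2_lemma (μ := muu N t1) (μ' := muu N t2) hpos hε0 hε hM hM'
    (hmu t1 ht1) (hmu t2 ht2)
    (fun s hs => D_real_values t1 ht1 _ _ _ (dl_mul hN hα (nx s hs) (ny s hs)).symm)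
    (fun s hs => D_real_values t2 ht2 _ _ _ (dl_mul hN hβ (nx' s hs) (ny' s hs)).symm)
    (fun s _ => saw_abs_le _) (fun s _ => saw_abs_le _)
    ((cov_two (Om F) _ _ _ _ _ hB0 (fun h k hh hk => by
      rw [tr2 α β hα hβ _ _ nx nx' h k]
      refine ((rep_x _).mul (rep_x' _)).bound h2 (Or.inl ?_)
      rw [one_mul]; exact chi_ne_one hN hβ hk)).trans hlogB)
    ((cov_two (Om F) _ _ _ _ _ hB0 (fun h k hh hk => by
      rw [tr2 α β hα hβ _ _ nx ny' h k]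
      refine ((rep_x _).mul (rep_y' _)).bound h2 (Or.inr (Or.inl ?_))
      rw [mul_one]; exact inv_ne _ (chi_ne_one hN hα hh))).trans hlogB)
    ((cov_two (Om F) _ _ _ _ _ hB0 (fun h k hh hk => by
      rw [tr2 α β hα hβ _ _ ny nx' h k]
      refine ((rep_y _).mul (rep_x' _)).bound h2 (Or.inr (Or.inr ?_))
      rw [mul_one]; exact inv_ne _ (chi_ne_one hN hα hh))).trans hlogB)
    ((cov_two (Om F) _ _ _ _ _ hB0 (fun h k hh hk => by
      rw [tr2 α β hα hβ _ _ ny ny' h k]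
      refine ((rep_y _).mul (rep_y' _)).bound h2 (Or.inl ?_)
      rw [one_mul]; exact chi_ne_one hN hβ hk)).trans hlogB)
  exact ⟨s, hs, D_zero t1 _ _ _ hs1, D_zero t2 _ _ _ hs2⟩

end

end Pool.Agent.Helper916
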