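import Pool.Agent.Helper916.T1

open Finset

namespace Pool.Agent.Helper916

section General

variable {F : Type*} [Field F] [Fintype F] [DecidableEq F]

/-- Kloosterman sum over nonzero elements. -/
noncomputable def Kl (ψ : AddChar F ℂ) (b c : F) : ℂ :=
  ∑ z ∈ Finset.univ.erase (0 : F), ψ (b * z + c * z⁻¹)

theorem Kl_sq (ψ : AddChar F ℂ) (b c : F) :
    Kl ψ b c ^ 2 = ∑ π ∈ (Finset.univ.erase (0 : F)) ×ˢ (Finset.univ.erase (0 : F)),
      ψ (b * (π.1 + π.2) + c * (π.1⁻¹ + π.2⁻¹)) := by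
  rw [Kl, sq, Finset.sum_mul_sum, ← Finset.sum_product']
  refine Finset.sum_congr rfl fun π _ => ?_
  rw [← AddChar.map_add_eq_mul]
  congr 1
  ring

theorem Kl_dil (ψ : AddChar F ℂ) (b c : F) {t : F} (ht : t ≠ 0) :
    Kl ψ (b * t) (c * t⁻¹) = Kl ψ b c := by
  unfold Kl
  refine Finset.sum_bij (fun z _ => t * z) ?_ ?_ ?_ ?_
  · intro z hz
    rw [Finset.mem_erase] at hz ⊢
    exact ⟨mul_ne_zero ht hz.1, Finset.mem_univ _⟩
  · intro x _ y _ hxy
    exact mul_left_cancel₀ ht hxy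
  · intro y hy
    rw [Finset.mem_erase] at hy
    refine ⟨t⁻¹ * y, ?_, ?_⟩
    · rw [Finset.mem_erase]
      exact ⟨mul_ne_zero (inv_ne_zero ht) hy.1, Finset.mem_univ _⟩
    · rw [← mul_assoc, mul_inv_cancel₀ ht, one_mul]
  · intro z _
    congr 1
    rw [mul_inv]
    ring

/-- the number of solutions -/
theorem kl_count :
    ((∑ π ∈ (Finset.univ.erase (0 : F)) ×ˢ (Finset.univ.erase (0 : F)),
      (((Finset.univ.erase (0 : F)) ×ˢ (Finset.univ.erase (0 : F))).filter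
        (fun π' => π.1 + π.2 = π'.1 + π'.2 ∧ π.1⁻¹ + π.2⁻¹ = π'.1⁻¹ + π'.2⁻¹)).card : ℕ) : ℝ)
      ≤ 3 * ((Fintype.card F : ℝ) - 1) ^ 2 := by
  set U : Finset F := Finset.univ.erase (0 : F) with hU
  have hUc : (U.card : ℝ) = (Fintype.card F : ℝ) - 1 := by
    rw [hU, Finset.card_erase_of_mem (Finset.mem_univ _), Finset.card_univ,
      Nat.cast_sub Fintype.card_pos]
    simp
  have h1 : ∀ π ∈ U ×ˢ U, ((U ×ˢ U).filter
        (fun π' => π.1 + π.2 = π'.1 + π'.2 ∧ π.1⁻¹ + π.2⁻¹ = π'.1⁻¹ + π'.2⁻¹)).card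
      ≤ 2 + if π.1 + π.2 = 0 then U.card else 0 := by
    intro π hπ
    rw [Finset.mem_product] at hπ
    have hx : π.1 ≠ 0 := (Finset.mem_erase.mp hπ.1).1
    have hy : π.2 ≠ 0 := (Finset.mem_erase.mp hπ.2).1
    by_cases hs : π.1 + π.2 = 0
    · rw [if_pos hs]
      have hsub : ((U ×ˢ U).filter
        (fun π' => π.1 + π.2 = π'.1 + π'.2 ∧ π.1⁻¹ + π.2⁻¹ = π'.1⁻¹ + π'.2⁻¹))
          ⊆ U.image (fun x => (x, -x)) := by
        intro π' hπ'
        rw [Finset.mem_filter, Finset.mem_product] at hπ'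
        rw [Finset.mem_image]
        refine ⟨π'.1, hπ'.1.1, ?_⟩
        have : π'.1 + π'.2 = 0 := by rw [← hπ'.2.1, hs]
        ext
        · rfl
        · exact neg_eq_of_add_eq_zero_right this
      have h2 := (Finset.card_le_card hsub).trans Finset.card_image_le
      omega
    · rw [if_neg hs]
      have hsub : ((U ×ˢ U).filter
        (fun π' => π.1 + π.2 = π'.1 + π'.2 ∧ π.1⁻¹ + π.2⁻¹ = π'.1⁻¹ + π'.2⁻¹))
          ⊆ {(π.1, π.2), (π.2, π.1)} := by
        intro π' hπ'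
        rw [Finset.mem_filter, Finset.mem_product] at hπ'
        have hx' : π'.1 ≠ 0 := (Finset.mem_erase.mp hπ'.1.1).1
        have hy' : π'.2 ≠ 0 := (Finset.mem_erase.mp hπ'.1.2).1
        obtain ⟨-, e1, e2⟩ := hπ'
        have e3 : (π.1 + π.2) * (π'.1 * π'.2) = (π'.1 + π'.2) * (π.1 * π.2) := by
          have : π.1⁻¹ + π.2⁻¹ = (π.1 + π.2) / (π.1 * π.2) := by field_simp; ring
          rw [this] at e2
          have : π'.1⁻¹ + π'.2⁻¹ = (π'.1 + π'.2) / (π'.1 * π'.2) := by field_simp; ring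
          rw [this] at e2
          rw [div_eq_div_iff (mul_ne_zero hx hy) (mul_ne_zero hx' hy')] at e2
          linear_combination e2
        have e4 : π'.1 * π'.2 = π.1 * π.2 := by
          rw [← e1] at e3
          exact mul_left_cancel₀ hs e3
        have e5 : (π'.1 - π.1) * (π'.1 - π.2) = 0 := by
          linear_combination (-π'.1) * e1 - e4
        rw [Finset.mem_insert, Finset.mem_singleton]
        rcases mul_eq_zero.mp e5 with h | h
        · left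
          have h1 : π'.1 = π.1 := sub_eq_zero.mp h
          ext
          · exact h1
          · have : π'.2 = π.2 := by linear_combination h1 - h1 - e1 - h
            exact this
        · right
          have h1 : π'.1 = π.2 := sub_eq_zero.mp h
          ext
          · exact h1
          · have : π'.2 = π.1 := by linear_combination - e1 - h
            exact this
      have h2 := (Finset.card_le_card hsub).trans Finset.card_le_two
      omega
  have h2 : (∑ π ∈ U ×ˢ U, ((U ×ˢ U).filter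
        (fun π' => π.1 + π.2 = π'.1 + π'.2 ∧ π.1⁻¹ + π.2⁻¹ = π'.1⁻¹ + π'.2⁻¹)).card)
      ≤ 3 * U.card ^ 2 := by
    refine (Finset.sum_le_sum h1).trans ?_
    rw [Finset.sum_add_distrib, Finset.sum_const, Finset.card_product]
    have h3 : ∑ π ∈ U ×ˢ U, (if π.1 + π.2 = 0 then U.card else 0) ≤ U.card * U.card := by
      rw [← Finset.sum_filter, Finset.sum_const, smul_eq_mul]
      refine Nat.mul_le_mul_right _ ?_
      have hsub : (U ×ˢ U).filter (fun π => π.1 + π.2 = 0) ⊆ U.image (fun x => (x, -x)) := by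
        intro π hπ
        rw [Finset.mem_filter, Finset.mem_product] at hπ
        rw [Finset.mem_image]
        refine ⟨π.1, hπ.1.1, ?_⟩
        ext
        · rfl
        · exact neg_eq_of_add_eq_zero_right hπ.2
      exact (Finset.card_le_card hsub).trans Finset.card_image_le
    calc (U.card * U.card) • 2 + ∑ π ∈ U ×ˢ U, (if π.1 + π.2 = 0 then U.card else 0)
        ≤ (U.card * U.card) • 2 + U.card * U.card := Nat.add_le_add_left h3 _
      _ = 3 * U.card ^ 2 := by rw [smul_eq_mul]; ring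
  rw [← hUc]
  exact_mod_cast h2

theorem kl_fourth (ψ : AddChar F ℂ) (hψ : ψ.IsPrimitive) :
    ∑ b : F, ∑ c : F, ‖Kl ψ b c‖ ^ 4 ≤ (Fintype.card F : ℝ) ^ 2 *
      (3 * ((Fintype.card F : ℝ) - 1) ^ 2) := by
  set U : Finset F := Finset.univ.erase (0 : F) with hU
  have h1 : ((∑ b : F, ∑ c : F, ‖Kl ψ b c‖ ^ 4 : ℝ) : ℂ)
      = (Fintype.card F : ℂ) ^ 2 * ((∑ π ∈ U ×ˢ U, ((U ×ˢ U).filter
        (fun π' => π.1 + π.2 = π'.1 + π'.2 ∧ π.1⁻¹ + π.2⁻¹ = π'.1⁻¹ + π'.2⁻¹)).card : ℕ) : ℂ) := by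
    push_cast
    have e1 : ∀ b c : F, ((‖Kl ψ b c‖ : ℂ)) ^ 4 = ∑ π ∈ U ×ˢ U, ∑ π' ∈ U ×ˢ U,
        ψ (b * ((π.1 + π.2) - (π'.1 + π'.2))) * ψ (c * ((π.1⁻¹ + π.2⁻¹) - (π'.1⁻¹ + π'.2⁻¹))) := by
      intro b c
      have e2 : ((‖Kl ψ b c‖ : ℂ)) ^ 4 = (Kl ψ b c) ^ 2 * (starRingEnd ℂ) ((Kl ψ b c) ^ 2) := by
        rw [Complex.mul_conj', norm_pow]; push_cast; ring
      rw [e2, Kl_sq, map_sum, Finset.sum_mul_sum]
      refine Finset.sum_congr rfl fun π _ => Finset.sum_congr rfl fun π' _ => ?_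
      rw [← AddChar.map_neg_eq_conj, ← AddChar.map_add_eq_mul, ← AddChar.map_add_eq_mul]
      congr 1
      ring
    have e3 : ∑ b : F, ∑ c : F, ((‖Kl ψ b c‖ : ℂ)) ^ 4
        = ∑ π ∈ U ×ˢ U, ∑ π' ∈ U ×ˢ U, (∑ b : F, ψ (b * ((π.1 + π.2) - (π'.1 + π'.2)))) *
          (∑ c : F, ψ (c * ((π.1⁻¹ + π.2⁻¹) - (π'.1⁻¹ + π'.2⁻¹)))) := by
      rw [Finset.sum_congr rfl fun b _ => Finset.sum_congr rfl fun c _ => e1 b c]
      rw [Finset.sum_congr rfl fun b _ => Finset.sum_comm]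
      rw [Finset.sum_comm]
      refine Finset.sum_congr rfl fun π _ => ?_
      rw [Finset.sum_congr rfl fun b _ => Finset.sum_comm]
      rw [Finset.sum_comm]
      refine Finset.sum_congr rfl fun π' _ => ?_
      rw [Finset.sum_mul_sum]
    rw [e3, Finset.mul_sum]
    refine Finset.sum_congr rfl fun π _ => ?_
    simp_rw [AddChar.sum_mulShift _ hψ, sub_eq_zero]
    rw [Finset.card_filter]
    push_cast
    rw [Finset.mul_sum]
    refine Finset.sum_congr rfl fun π' _ => ?_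
    by_cases c1 : π.1 + π.2 = π'.1 + π'.2
    · by_cases c2 : π.1⁻¹ + π.2⁻¹ = π'.1⁻¹ + π'.2⁻¹
      · simp [c1, c2, sq]
      · simp [c1, c2]
    · simp [c1]
  have h2 : ∑ b : F, ∑ c : F, ‖Kl ψ b c‖ ^ 4
      = (Fintype.card F : ℝ) ^ 2 * ((∑ π ∈ U ×ˢ U, ((U ×ˢ U).filter
        (fun π' => π.1 + π.2 = π'.1 + π'.2 ∧ π.1⁻¹ + π.2⁻¹ = π'.1⁻¹ + π'.2⁻¹)).card : ℕ) : ℝ) := by
    exact_mod_cast h1
  rw [h2]
  exact mul_le_mul_of_nonneg_left kl_count (by positivity)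

theorem kl_bound (ψ : AddChar F ℂ) (hψ : ψ.IsPrimitive) {b c : F} (hb : b ≠ 0) :
    ‖Kl ψ b c‖ ^ 4 ≤ 3 * (Fintype.card F : ℝ) ^ 3 := by
  set U : Finset F := Finset.univ.erase (0 : F) with hU
  set q : ℝ := (Fintype.card F : ℝ) with hq
  have hUc : (U.card : ℝ) = q - 1 := by
    rw [hU, Finset.card_erase_of_mem (Finset.mem_univ _), Finset.card_univ,
      Nat.cast_sub Fintype.card_pos]
    simp [hq]
  have hq1 : (1 : ℝ) < q := by
    have := Fintype.one_lt_card (α := F)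
    rw [hq]; exact_mod_cast this
  have h1 : (q - 1) * ‖Kl ψ b c‖ ^ 4 ≤ ∑ b : F, ∑ c : F, ‖Kl ψ b c‖ ^ 4 := by
    rw [← Finset.sum_product']
    have e1 : (q - 1) * ‖Kl ψ b c‖ ^ 4
        = ∑ x ∈ U.image (fun t => (b * t, c * t⁻¹)), ‖Kl ψ x.1 x.2‖ ^ 4 := by
      rw [Finset.sum_image]
      · rw [Finset.sum_congr rfl (fun t ht => by
          rw [Kl_dil ψ b c (Finset.mem_erase.mp ht).1] : ∀ t ∈ U,
            ‖Kl ψ (b * t) (c * t⁻¹)‖ ^ 4 = ‖Kl ψ b c‖ ^ 4)]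
        rw [Finset.sum_const, nsmul_eq_mul, hUc]
      · intro x _ y _ hxy
        simp only [Prod.mk.injEq] at hxy
        exact mul_left_cancel₀ hb hxy.1
    rw [e1]
    refine Finset.sum_le_sum_of_subset_of_nonneg ?_ (fun _ _ _ => by positivity)
    intro x _
    simp
  have h2 := h1.trans (kl_fourth ψ hψ)
  rw [← hq] at h2
  have h3 : (q - 1) * ‖Kl ψ b c‖ ^ 4 ≤ (q - 1) * (3 * q ^ 3) := by
    refine h2.trans ?_
    nlinarith [mul_nonneg (by linarith : (0 : ℝ) ≤ q - 1) (by positivity : (0 : ℝ) ≤ q ^ 2)]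
  exact le_of_mul_le_mul_left h3 (by linarith)

end General

end Pool.Agent.Helper916
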