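import Mathlib
import Pool.Agent.Helper916.T1
import Pool.Agent.Helper916.Kloos
import Pool.Agent.Helper916.Saw
import Pool.Agent.Helper916.L2
import Pool.Agent.Helper916.DL
import Pool.Agent.Helper916.Golomb

open Finset

namespace Pool.Agent.Helper916

section

variable {F : Type*} [Field F] [Fintype F] [DecidableEq F]

theorem Kl_symm (ψ : AddChar F ℂ) (b c : F) : Kl ψ b c = Kl ψ c b := by
  unfold Kl
  refine Finset.sum_bij (fun z _ => z⁻¹) ?_ ?_ ?_ ?_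
  · intro z hz
    rw [Finset.mem_erase] at hz ⊢
    exact ⟨inv_ne_zero hz.1, Finset.mem_univ _⟩
  · intro x _ y _ hxy
    exact inv_injective hxy
  · intro y hy
    rw [Finset.mem_erase] at hy
    refine ⟨y⁻¹, ?_, inv_inv y⟩
    rw [Finset.mem_erase]
    exact ⟨inv_ne_zero hy.1, Finset.mem_univ _⟩
  · intro z _
    rw [inv_inv, add_comm]

/-- the bound for additive sums -/
noncomputable def BK (q : ℝ) : ℝ := Real.sqrt (Real.sqrt (3 * q ^ 3)) + 1

theorem kl_bound' (ψ : AddChar F ℂ) (hψ : ψ.IsPrimitive) {b c : F} (h : b ≠ 0 ∨ c ≠ 0) :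
    ‖Kl ψ b c‖ ≤ Real.sqrt (Real.sqrt (3 * (Fintype.card F : ℝ) ^ 3)) := by
  have h1 : ‖Kl ψ b c‖ ^ 4 ≤ 3 * (Fintype.card F : ℝ) ^ 3 := by
    rcases h with h | h
    · exact kl_bound ψ hψ h
    · rw [Kl_symm]; exact kl_bound ψ hψ h
  apply Real.le_sqrt_of_sq_le
  apply Real.le_sqrt_of_sq_le
  calc (‖Kl ψ b c‖ ^ 2) ^ 2 = ‖Kl ψ b c‖ ^ 4 := by ring
    _ ≤ _ := h1

/-- parameter set for the Welch family -/
def Ow (F : Type*) [Field F] [Fintype F] [DecidableEq F] : Finset F :=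
  Finset.univ.filter (fun s => s ≠ 0 ∧ s ≠ -1)

theorem mem_Ow {s : F} : s ∈ Ow F ↔ s ≠ 0 ∧ s ≠ -1 := by
  simp [Ow]

theorem Ow_facts {s : F} (hs : s ∈ Ow F) : s ≠ 0 ∧ s + 1 ≠ 0 := by
  rw [mem_Ow] at hs
  refine ⟨hs.1, ?_⟩
  intro h; exact hs.2 (eq_neg_of_add_eq_zero_left h)

theorem Ow_inv {s : F} (hs : s ∈ Ow F) : s⁻¹ ∈ Ow F := by
  rw [mem_Ow] at hs ⊢
  refine ⟨inv_ne_zero hs.1, ?_⟩
  intro h
  apply hs.2
  have : s = (-1)⁻¹ := by rw [← h, inv_inv]
  rw [this, inv_neg, inv_one]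

theorem Ow_sum_inv (φ : F → ℂ) : ∑ s ∈ Ow F, φ s⁻¹ = ∑ s ∈ Ow F, φ s := by
  refine Finset.sum_bij (fun z _ => z⁻¹) ?_ ?_ ?_ ?_
  · intro z hz; exact Ow_inv hz
  · intro x _ y _ hxy; exact inv_injective hxy
  · intro y hy; exact ⟨y⁻¹, Ow_inv hy, inv_inv y⟩
  · intro z _; rfl

theorem add_sum_bound (ψ : AddChar F ℂ) (hψ : ψ.IsPrimitive) {b c : F} (d : F)
    (h : b ≠ 0 ∨ c ≠ 0) :
    ‖∑ z ∈ Ow F, ψ (b * z + c * z⁻¹ + d)‖ ≤ BK (Fintype.card F) := by
  have h1 : ∑ z ∈ Ow F, ψ (b * z + c * z⁻¹ + d) = ψ d * (Kl ψ b c - ψ (-b - c)) := by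
    have e1 : Ow F = (Finset.univ.erase (0 : F)).erase (-1) := by
      ext s
      rw [mem_Ow, Finset.mem_erase, Finset.mem_erase]
      constructor
      · intro h; exact ⟨h.2, h.1, Finset.mem_univ _⟩
      · intro h; exact ⟨h.2.1, h.1⟩
    have e2 : (-1 : F) ∈ Finset.univ.erase (0 : F) := by
      rw [Finset.mem_erase]
      exact ⟨neg_ne_zero.mpr one_ne_zero, Finset.mem_univ _⟩
    have e3 := Finset.add_sum_erase (Finset.univ.erase (0 : F)) (fun z => ψ (b * z + c * z⁻¹)) e2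
    have e4 : Kl ψ b c = ψ (-b - c) + ∑ z ∈ Ow F, ψ (b * z + c * z⁻¹) := by
      rw [e1]
      unfold Kl
      rw [← e3]
      congr 2
      rw [inv_neg, inv_one]
      ring
    rw [e4, add_sub_cancel_left, Finset.mul_sum]
    refine Finset.sum_congr rfl fun z _ => ?_
    rw [AddChar.map_add_eq_mul (ψ := ψ) (b * z + c * z⁻¹) d]
    ring
  rw [h1, norm_mul, AddChar.norm_apply, one_mul]
  refine (norm_sub_le _ _).trans ?_
  rw [AddChar.norm_apply]
  unfold BK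
  have := kl_bound' ψ hψ h
  linarith

/-- function on the Welch parameter set given by two multiplicative characters -/
def Rep2 (φ : F → ℂ) (A B : MulChar F ℂ) : Prop :=
  ∃ κ : ℂ, ‖κ‖ ≤ 1 ∧ ∀ s ∈ Ow F, φ s = κ * (A s * B (s + 1))

theorem Rep2.mul {φ φ' : F → ℂ} {A B A' B' : MulChar F ℂ} (h : Rep2 φ A B)
    (h' : Rep2 φ' A' B') : Rep2 (fun s => φ s * φ' s) (A * A') (B * B') := by
  obtain ⟨κ, hκ, h⟩ := h
  obtain ⟨κ', hκ', h'⟩ := h'
  refine ⟨κ * κ', ?_, ?_⟩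
  · rw [norm_mul]; exact mul_le_one₀ hκ (norm_nonneg _) hκ'
  · intro s hs
    simp only [h s hs, h' s hs, MulChar.mul_apply]
    ring

theorem Rep2.bound_gen (ψ : AddChar F ℂ) (hψ : ψ.IsPrimitive) {φ : F → ℂ} {A B : MulChar F ℂ}
    (h : Rep2 φ A B) (ξ d : F) (hA : ξ ≠ 0 ∨ A ≠ 1 ∨ B ≠ 1) :
    ‖∑ s ∈ Ow F, φ s * ψ (s * ξ + d)‖ ≤ mB (Fintype.card F) := by
  obtain ⟨κ, hκ, h⟩ := h
  have h1 : ∑ s ∈ Ow F, φ s * ψ (s * ξ + d) = κ * ψ d * ∑ s : F, A s * B (s + 1) * ψ (s * ξ) := by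
    have e1 : ∀ s ∈ Ow F, φ s * ψ (s * ξ + d) = κ * ψ d * (A s * B (s + 1) * ψ (s * ξ)) := by
      intro s hs
      rw [h s hs, AddChar.map_add_eq_mul]
      ring
    rw [Finset.sum_congr rfl e1, ← Finset.mul_sum]
    congr 1
    refine Finset.sum_subset (Finset.subset_univ _) ?_
    intro s _ hs
    rw [mem_Ow] at hs
    by_cases h0 : s = 0
    · rw [h0, MulChar.map_zero]; ring
    · by_cases h3 : s = -1
      · have : s + 1 = 0 := by rw [h3]; ring
        rw [this, MulChar.map_zero]; ring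
      · exact absurd ⟨h0, h3⟩ hs
  rw [h1, norm_mul, norm_mul, AddChar.norm_apply, mul_one]
  have h3 := conf_bound ψ hψ A B ξ hA
  calc ‖κ‖ * ‖∑ s : F, A s * B (s + 1) * ψ (s * ξ)‖
      ≤ 1 * ‖∑ s : F, A s * B (s + 1) * ψ (s * ξ)‖ :=
        mul_le_mul_of_nonneg_right hκ (norm_nonneg _)
    _ ≤ _ := by rw [one_mul]; exact h3

theorem Rep2.bound {φ : F → ℂ} {A B : MulChar F ℂ}
    (h : Rep2 φ A B) (hA : A ≠ 1 ∨ B ≠ 1) :
    ‖∑ s ∈ Ow F, φ s‖ ≤ mB (Fintype.card F) := by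
  have := h.bound_gen (AddChar.FiniteField.primitiveChar_to_Complex F)
      (AddChar.FiniteField.primitiveChar_to_Complex_isPrimitive F) 0 0 (Or.inr hA)
  simpa using this

theorem rep_u (χ : MulChar F ℂ) (γ : F) : Rep2 (fun z => χ (γ * (z + 1) ^ 2 * z⁻¹)) χ⁻¹ (χ * χ) := by
  refine ⟨χ γ, mc_norm_le χ _, ?_⟩
  intro s hs
  beta_reduce
  rw [MulChar.inv_apply', MulChar.mul_apply, map_mul χ, map_mul χ, map_pow]
  ring

theorem rep_v (χ : MulChar F ℂ) : Rep2 (fun z => χ (z * (z + 1)⁻¹)) χ χ⁻¹ := by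
  refine ⟨1, by simp, ?_⟩
  intro s hs
  beta_reduce
  rw [MulChar.inv_apply', map_mul χ]
  ring

theorem rep_w (χ : MulChar F ℂ) (γ : F) : Rep2 (fun z => χ (γ * (z + 1))) 1 χ := by
  refine ⟨χ γ, mc_norm_le χ _, ?_⟩
  intro s hs
  beta_reduce
  rw [one_app (Ow_facts hs).1, map_mul χ]
  ring

theorem rep_v' (χ : MulChar F ℂ) : Rep2 (fun z => χ ((z + 1)⁻¹)) 1 χ⁻¹ := by
  refine ⟨1, by simp, ?_⟩
  intro s hs
  beta_reduce
  rw [one_app (Ow_facts hs).1, MulChar.inv_apply']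
  ring

theorem Ow_card_ge : (Fintype.card F : ℝ) - 2 ≤ ((Ow F).card : ℝ) := by
  have h1 : (Finset.univ : Finset F) ⊆ Ow F ∪ {0, -1} := by
    intro s _
    rw [Finset.mem_union, mem_Ow]
    by_cases h0 : s = 0
    · right; simp [h0]
    · by_cases h2 : s = -1
      · right; simp [h2]
      · left; exact ⟨h0, h2⟩
  have h2 := (Finset.card_le_card h1).trans (Finset.card_union_le _ _)
  have h3 : ({0, -1} : Finset F).card ≤ 2 := Finset.card_le_two
  rw [Finset.card_univ] at h2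
  have h4 : Fintype.card F ≤ (Ow F).card + 2 := by omega
  have : (Fintype.card F : ℝ) ≤ (Ow F).card + 2 := by exact_mod_cast h4
  linarith

theorem Ow_card_le : ((Ow F).card : ℝ) ≤ (Fintype.card F : ℝ) := by
  exact_mod_cast Finset.card_le_univ _

end

theorem welch_exists {p N : ℕ} [hp : Fact p.Prime] [NeZero N] (hN : p = N + 1) {α A : ZMod p}
    (hα : orderOf α = N) (hA : A ≠ 0) {t : ℕ} (ht : t ≤ p + 1)
    {ε : ℝ} (hε0 : 0 ≤ ε) (hε : ε ≤ 1 / 10000)
    (hbig : (mB p + BK p) * (1 + Real.log p) ^ 2 + 1 ≤ ε * ((p : ℝ) - 2))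
    (hNε : 1 / (2 * (N : ℝ)) ≤ ε) :
    ∃ z ∈ Ow (ZMod p),
      rep 0 (dl N α (α * (z + 1) ^ 2 * z⁻¹)) + rep 0 (dl N α (z * (z + 1)⁻¹))
        = rep 0 (dl N α (α * (z + 1))) ∧
      rep t (A * α * (z + 1)) + rep t (A * α * (1 + z⁻¹)) = rep t (A * α * (z + 2 + z⁻¹)) := by
  have : NeZero p := ⟨hp.out.ne_zero⟩
  have hcardF : Fintype.card (ZMod p) = N + 1 := by rw [ZMod.card, hN]
  have hcardF' : (Fintype.card (ZMod p) : ℝ) = p := by rw [ZMod.card]
  have hNpos : (0 : ℝ) < N := by exact_mod_cast NeZero.pos N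
  have hN1 : (1 : ℝ) ≤ N := by exact_mod_cast NeZero.pos N
  have hppos : (0 : ℝ) < p := by exact_mod_cast hp.out.pos
  have hpN : (p : ℝ) = N + 1 := by rw [hN]; push_cast; ring
  have hα0 : α ≠ 0 := by
    intro h0
    rw [h0, orderOf_zero] at hα
    exact NeZero.ne N hα.symm
  set c0 : ZMod p := A * α with hc0
  have hc00 : c0 ≠ 0 := mul_ne_zero hA hα0
  set B : ℝ := mB p + BK p with hB
  have hmB0 : 0 ≤ mB p := Real.sqrt_nonneg _
  have hBK0 : 0 ≤ BK p := by unfold BK; positivity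
  have hB0 : 0 ≤ B := by positivity
  have hmBB : mB (Fintype.card (ZMod p)) ≤ B := by rw [hcardF']; linarith
  have hBKB : BK (Fintype.card (ZMod p)) ≤ B := by rw [hcardF']; linarith
  have hcard := Ow_card_ge (F := ZMod p)
  have hcard' := Ow_card_le (F := ZMod p)
  rw [hcardF'] at hcard hcard'
  have hlogle : Real.log N ≤ Real.log p := Real.log_le_log hNpos (by linarith)
  have hlog0 : 0 ≤ Real.log N := Real.log_natCast_nonneg N
  have hlogp0 : 0 ≤ Real.log p := Real.log_natCast_nonneg p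
  have hmain : B * (1 + Real.log p) ^ 2 + 1 ≤ ε * (Ow (ZMod p)).card := by
    have e2 : ε * ((p : ℝ) - 2) ≤ ε * (Ow (ZMod p)).card :=
      mul_le_mul_of_nonneg_left hcard hε0
    linarith
  have hBlog : B * (1 + Real.log N) ^ 2 ≤ B * (1 + Real.log p) ^ 2 := by
    apply mul_le_mul_of_nonneg_left _ hB0
    apply pow_le_pow_left₀ (by linarith) (by linarith)
  have hεN : B * (1 + Real.log N) ^ 2 + ((Ow (ZMod p)).card : ℝ) / (12 * (N : ℝ) ^ 2)
      ≤ ε * (Ow (ZMod p)).card := by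
    have e1 : ((Ow (ZMod p)).card : ℝ) / (12 * (N : ℝ) ^ 2) ≤ 1 := by
      rw [div_le_one (by positivity)]
      nlinarith
    linarith
  have hεp : B * (1 + Real.log p) ^ 2 + ((Ow (ZMod p)).card : ℝ) / (12 * (p : ℝ) ^ 2)
      ≤ ε * (Ow (ZMod p)).card := by
    have e1 : ((Ow (ZMod p)).card : ℝ) / (12 * (p : ℝ) ^ 2) ≤ 1 := by
      rw [div_le_one (by positivity)]
      nlinarith
    linarith
  have hcross : B * ((1 + Real.log N) * (1 + Real.log p)) ≤ ε * (Ow (ZMod p)).card := by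
    have : B * ((1 + Real.log N) * (1 + Real.log p)) ≤ B * (1 + Real.log p) ^ 2 := by
      apply mul_le_mul_of_nonneg_left _ hB0
      nlinarith
    linarith
  have hpos : 0 < (Ow (ZMod p)).card := by
    have e1 : 0 ≤ B * (1 + Real.log p) ^ 2 := by positivity
    have e2 : (0 : ℝ) < ε * (Ow (ZMod p)).card := by linarith
    have e3 : (0 : ℝ) < (Ow (ZMod p)).card := by
      by_contra hcon
      push Not at hcon
      nlinarith
    exact_mod_cast e3
  -- nonvanishing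
  have nu : ∀ z ∈ Ow (ZMod p), α * (z + 1) ^ 2 * z⁻¹ ≠ 0 := fun z hz =>
    mul_ne_zero (mul_ne_zero hα0 (pow_ne_zero 2 (Ow_facts hz).2)) (inv_ne_zero (Ow_facts hz).1)
  have nv : ∀ z ∈ Ow (ZMod p), z * (z + 1)⁻¹ ≠ 0 := fun z hz =>
    mul_ne_zero (Ow_facts hz).1 (inv_ne_zero (Ow_facts hz).2)
  have nw : ∀ z ∈ Ow (ZMod p), α * (z + 1) ≠ 0 := fun z hz => mul_ne_zero hα0 (Ow_facts hz).2
  have tr1 : ∀ (X : ZMod p → ZMod p), (∀ s ∈ Ow (ZMod p), X s ≠ 0) → ∀ h : ZMod N,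
      ∑ s ∈ Ow (ZMod p), (ZMod.stdAddChar (h * dl N α (X s)) : ℂ)
        = ∑ s ∈ Ow (ZMod p), chi hcardF hα h (X s) := by
    intro X hX h
    exact Finset.sum_congr rfl fun s hs => (chi_apply hcardF hα h (hX s hs)).symm
  have tr2 : ∀ (X Y : ZMod p → ZMod p),
      (∀ s ∈ Ow (ZMod p), X s ≠ 0) → (∀ s ∈ Ow (ZMod p), Y s ≠ 0) → ∀ h k : ZMod N,
      ∑ s ∈ Ow (ZMod p), (ZMod.stdAddChar (h * dl N α (X s)) : ℂ) *
          ZMod.stdAddChar (k * dl N α (Y s))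
        = ∑ s ∈ Ow (ZMod p), chi hcardF hα h (X s) * chi hcardF hα k (Y s) := by
    intro X Y hX hY h k
    refine Finset.sum_congr rfl fun s hs => ?_
    rw [chi_apply hcardF hα h (hX s hs), chi_apply hcardF hα k (hY s hs)]
  have inv_ne : ∀ χ : MulChar (ZMod p) ℂ, χ ≠ 1 → χ⁻¹ ≠ 1 := fun χ h h' => h (inv_eq_one.mp h')
  -- positions
  have hM : Mom (Ow (ZMod p)) ε
      (fun z => saw (dl N α (α * (z + 1) ^ 2 * z⁻¹) + (((0 : ℕ) : ZMod N) - 1)))
      (fun z => saw (dl N α (z * (z + 1)⁻¹) + (((0 : ℕ) : ZMod N) - 1)))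
      (fun z => saw (dl N α (α * (z + 1)) + (((0 : ℕ) : ZMod N) - 1))) := by
    refine mom_of (Ow (ZMod p)) _ _ _ _ B ε hB0 ?_ ?_ ?_ ?_ ?_ ?_ hεN
    · intro h hh
      rw [tr1 _ nu h]
      exact ((rep_u _ _).bound (Or.inl (inv_ne _ (chi_ne_one hcardF hα hh)))).trans hmBB
    · intro h hh
      rw [tr1 _ nv h]
      exact ((rep_v _).bound (Or.inl (chi_ne_one hcardF hα hh))).trans hmBB
    · intro h hh
      rw [tr1 _ nw h]
      exact ((rep_w _ _).bound (Or.inr (chi_ne_one hcardF hα hh))).trans hmBB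
    · intro h k hh hk
      rw [tr2 _ _ nu nv h k]
      refine (((rep_u _ _).mul (rep_v _)).bound ?_).trans hmBB
      by_contra hcon
      push Not at hcon
      obtain ⟨h1, h2⟩ := hcon
      apply chi_ne_one hcardF hα hh
      have e1 : chi hcardF hα k = chi hcardF hα h := by
        rw [inv_mul_eq_one] at h1; exact h1.symm
      rw [e1, mul_assoc, mul_inv_cancel, mul_one] at h2
      exact h2
    · intro h k hh hk
      rw [tr2 _ _ nu nw h k]
      refine (((rep_u _ _).mul (rep_w _ _)).bound (Or.inl ?_)).trans hmBB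
      rw [mul_one]; exact inv_ne _ (chi_ne_one hcardF hα hh)
    · intro h k hh hk
      rw [tr2 _ _ nv nw h k]
      refine (((rep_v _).mul (rep_w _ _)).bound (Or.inl ?_)).trans hmBB
      rw [mul_one]; exact chi_ne_one hcardF hα hh
  -- values
  have hψ := ZMod.isPrimitive_stdAddChar p
  have av : ∀ (b c d : ZMod p) (φ : ZMod p → ℂ), (b ≠ 0 ∨ c ≠ 0) →
      (∀ z, φ z = ZMod.stdAddChar (b * z + c * z⁻¹ + d)) → ‖∑ z ∈ Ow (ZMod p), φ z‖ ≤ B := by
    intro b c d φ hbc hφ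
    rw [Finset.sum_congr rfl fun z _ => hφ z]
    exact (add_sum_bound _ hψ d hbc).trans hBKB
  have hM' : Mom (Ow (ZMod p)) ε
      (fun z => saw (c0 * (z + 1) + ((t : ZMod p) - 1)))
      (fun z => saw (c0 * (1 + z⁻¹) + ((t : ZMod p) - 1)))
      (fun z => saw (c0 * (z + 2 + z⁻¹) + ((t : ZMod p) - 1))) := by
    refine mom_of (Ow (ZMod p)) _ _ _ _ B ε hB0 ?_ ?_ ?_ ?_ ?_ ?_ hεp
    · intro h hh
      exact av (h * c0) 0 (h * c0) _ (Or.inl (mul_ne_zero hh hc00)) fun z => by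
        congr 1; ring
    · intro h hh
      exact av 0 (h * c0) (h * c0) _ (Or.inr (mul_ne_zero hh hc00)) fun z => by
        congr 1; ring
    · intro h hh
      exact av (h * c0) (h * c0) (2 * h * c0) _ (Or.inl (mul_ne_zero hh hc00)) fun z => by
        congr 1; ring
    · intro h k hh hk
      exact av (h * c0) (k * c0) (h * c0 + k * c0) _ (Or.inl (mul_ne_zero hh hc00)) fun z => by
        rw [← AddChar.map_add_eq_mul]; congr 1; ring
    · intro h k hh hk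
      exact av ((h + k) * c0) (k * c0) (h * c0 + 2 * k * c0) _ (Or.inr (mul_ne_zero hk hc00))
        fun z => by rw [← AddChar.map_add_eq_mul]; congr 1; ring
    · intro h k hh hk
      exact av (k * c0) ((h + k) * c0) (h * c0 + 2 * k * c0) _ (Or.inl (mul_ne_zero hk hc00))
        fun z => by rw [← AddChar.map_add_eq_mul]; congr 1; ring
  -- cross sums
  have cr : ∀ (X : ZMod p → ZMod p) (_ : ∀ s ∈ Ow (ZMod p), X s ≠ 0)
      (A' B' : MulChar (ZMod p) ℂ) (h : ZMod N) (k : ZMod p) (_ : k ≠ 0)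
      (_ : Rep2 (fun z => chi hcardF hα h (X z)) A' B'),
      ‖∑ z ∈ Ow (ZMod p), (ZMod.stdAddChar (h * dl N α (X z)) : ℂ) *
        ZMod.stdAddChar (k * (c0 * (z + 1)))‖ ≤ B := by
    intro X hX A' B' h k hk hrep
    have e1 : ∑ z ∈ Ow (ZMod p), (ZMod.stdAddChar (h * dl N α (X z)) : ℂ) *
        ZMod.stdAddChar (k * (c0 * (z + 1)))
        = ∑ z ∈ Ow (ZMod p), chi hcardF hα h (X z) * ZMod.stdAddChar (z * (k * c0) + k * c0) := by
      refine Finset.sum_congr rfl fun z hz => ?_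
      rw [chi_apply hcardF hα h (hX z hz)]
      congr 2
      ring
    rw [e1]
    exact (hrep.bound_gen _ hψ (k * c0) (k * c0) (Or.inl (mul_ne_zero hk hc00))).trans hmBB
  have hmu : ∀ t : ℕ, t ≤ N + 1 → |muu N t| ≤ 1 / 2 + ε := fun t ht => by
    have := muu_le (N := N) t ht
    linarith
  have hmu' : ∀ t : ℕ, t ≤ p + 1 → |muu p t| ≤ 1 / 2 + ε := fun t ht => by
    have := muu_le (N := p) t ht
    have h2 : 1 / (2 * (p : ℝ)) ≤ 1 / (2 * (N : ℝ)) := by
      apply one_div_le_one_div_of_le (by positivity)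
      linarith
    linarith
  obtain ⟨z, hz, hz1, hz2⟩ := l2_lemma (μ := muu N 0) (μ' := muu p t) hpos hε0 hε hM hM'
    (hmu 0 (Nat.zero_le _)) (hmu' t ht)
    (fun z hz => D_real_values 0 (Nat.zero_le _) _ _ _ (by
      rw [← dl_mul hcardF hα (nu z hz) (nv z hz)]
      congr 1
      have h1 := (Ow_facts hz).1
      have h2 := (Ow_facts hz).2
      field_simp))
    (fun z hz => D_real_values t ht _ _ _ (by ring))
    (fun s _ => saw_abs_le _) (fun s _ => saw_abs_le _)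
    ((cov_two (Ow (ZMod p)) _ _ _ _ _ hB0 (fun h k hh hk =>
      cr _ nu _ _ h k hk (rep_u _ _))).trans hcross)
    ((cov_two (Ow (ZMod p)) _ _ _ _ _ hB0 (fun h k hh hk => by
      have e1 := cr _ nu _ _ h k hk (rep_u (chi hcardF hα h) α)
      rw [← Ow_sum_inv] at e1
      refine le_trans (le_of_eq ?_) e1
      congr 1
      refine Finset.sum_congr rfl fun z hz => ?_
      have h1 := (Ow_facts hz).1
      have e5 : α * (z + 1) ^ 2 * z⁻¹ = α * (z⁻¹ + 1) ^ 2 * z⁻¹⁻¹ := by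
        rw [inv_inv]
        field_simp
        try ring
      have e6 : c0 * (1 + z⁻¹) = c0 * (z⁻¹ + 1) := by ring
      rw [e5, e6])).trans hcross)
    ((cov_two (Ow (ZMod p)) _ _ _ _ _ hB0 (fun h k hh hk =>
      cr _ nv _ _ h k hk (rep_v _))).trans hcross)
    ((cov_two (Ow (ZMod p)) _ _ _ _ _ hB0 (fun h k hh hk => by
      have e1 := cr (fun z => (z + 1)⁻¹) (fun z hz => inv_ne_zero (Ow_facts hz).2) _ _ h k hk
        (rep_v' (chi hcardF hα h))
      rw [← Ow_sum_inv] at e1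
      refine le_trans (le_of_eq ?_) e1
      congr 1
      refine Finset.sum_congr rfl fun z hz => ?_
      have h1 := (Ow_facts hz).1
      have h2 := (Ow_facts hz).2
      have h3 := (Ow_facts (Ow_inv hz)).2
      have e5 : z * (z + 1)⁻¹ = (z⁻¹ + 1)⁻¹ := by
        apply eq_inv_of_mul_eq_one_left
        field_simp
        try ring
      have e6 : c0 * (1 + z⁻¹) = c0 * (z⁻¹ + 1) := by ring
      rw [e5, e6])).trans hcross)
  exact ⟨z, hz, D_zero 0 _ _ _ hz1, D_zero t _ _ _ hz2⟩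

end Pool.Agent.Helper916
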