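import Mathlib
import Pool.Agent.Helper916.Welch

open Finset

namespace Pool.Agent.Helper916

section Ind

variable {N : ℕ} [NeZero N]

/-- indicator of a cyclic interval in terms of the sawtooth -/
theorem saw_diff (y : ZMod N) {M : ℕ} (hM1 : 1 ≤ M) (hM : M ≤ N) (h : saw y - saw (y - (M : ZMod N)) < (M : ℝ) / N) :
    y.val < M := by
  by_contra hcon
  push Not at hcon
  have hN : (0 : ℝ) < N := by exact_mod_cast NeZero.pos N
  have h1 : (y - (M : ZMod N)).val = y.val - M := by
    have e1 : y = ((y.val : ℕ) : ZMod N) := by rw [ZMod.natCast_val, ZMod.cast_id', id]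
    have e2 : y - (M : ZMod N) = ((y.val - M : ℕ) : ZMod N) := by
      rw [Nat.cast_sub hcon, ← e1]
    rw [e2]
    apply ZMod.val_cast_of_lt
    have := ZMod.val_lt y
    omega
  have h2 : saw y - saw (y - (M : ZMod N)) = (M : ℝ) / N := by
    unfold saw
    rw [h1, Nat.cast_sub hcon]
    field_simp
    ring
  linarith

end Ind

section

variable {F : Type*} [Field F] [Fintype F] [DecidableEq F] {N : ℕ} [NeZero N]

/-- start of the interval used in characteristic two -/
def cst (N K t : ℕ) : ZMod N := if 2 * t ≤ N + 1 then 1 else -(K : ZMod N)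

theorem window_ok {K t : ℕ} (hK : 4 * K ≤ N - 1) (ht1 : 1 ≤ t) (ht : t ≤ N) (z : ZMod N)
    (hz : (z - cst N K t).val < K) :
    1 - (t : ℤ) ≤ 2 * rep t z ∧ 2 * rep t z ≤ N - (t : ℤ) := by
  set j := (z - cst N K t).val with hj
  have hNpos := NeZero.pos N
  have e1 : z = cst N K t + ((j : ℕ) : ZMod N) := by
    rw [hj, ZMod.natCast_val, ZMod.cast_id', id]; ring
  unfold cst at e1
  split_ifs at e1 with h
  · have : ((1 + j : ℕ) : ℤ) = rep t z := by
      apply rep_unique
      · push_cast; linarith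
      · push_cast; omega
      · rw [e1]; push_cast; ring
    rw [← this]
    push_cast
    constructor <;> omega
  · have : (-(K : ℤ) + j) = rep t z := by
      apply rep_unique
      · omega
      · omega
      · rw [e1]; push_cast; ring
    rw [← this]
    constructor <;> omega

theorem golomb_even_exists (hN : Fintype.card F = N + 1) (h2 : (2 : F) = 0) {α β : F}
    (hα : orderOf α = N) (hβ : orderOf β = N) {t1 t2 : ℕ} (h11 : 1 ≤ t1) (ht1 : t1 ≤ N)
    (h12 : 1 ≤ t2) (ht2 : t2 ≤ N)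
    (hbig : 1000 * (mB (Fintype.card F) * (1 + Real.log N) ^ 2) < ((Fintype.card F : ℝ) - 2))
    (hN8 : 8 ≤ N) :
    ∃ x : F, x ≠ 0 ∧ x ≠ 1 ∧
      (1 - (t1 : ℤ) ≤ 2 * rep t1 (dl N α x) ∧ 2 * rep t1 (dl N α x) ≤ N - (t1 : ℤ)) ∧
      (1 - (t2 : ℤ) ≤ 2 * rep t2 (dl N β (1 - x)) ∧ 2 * rep t2 (dl N β (1 - x)) ≤ N - (t2 : ℤ)) := by
  have hNpos : (0 : ℝ) < N := by exact_mod_cast NeZero.pos N
  set K : ℕ := (N - 1) / 4 with hK
  have hK4 : 4 * K ≤ N - 1 := by omega
  have hK1 : 1 ≤ K := by omega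
  have hKN : K ≤ N := by omega
  have hK8 : (1 : ℝ) / 8 ≤ (K : ℝ) / N := by
    rw [div_le_div_iff₀ (by norm_num) hNpos]
    have : N ≤ 8 * K := by omega
    have : (N : ℝ) ≤ 8 * K := by exact_mod_cast this
    linarith
  have hKle1 : (K : ℝ) / N ≤ 1 := by
    rw [div_le_one hNpos]; exact_mod_cast hKN
  have hone : (1 : F) + 1 = 0 := by rw [← h2]; norm_num
  have hneg : (-1 : F) = 1 := neg_eq_of_add_eq_zero_left hone
  set B := mB (Fintype.card F) with hB
  have hB0 : 0 ≤ B := Real.sqrt_nonneg _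
  have hlog : 1 ≤ 1 + Real.log N := by
    have := Real.log_natCast_nonneg N; linarith
  have hmem : ∀ x ∈ Ow F, x ≠ 0 ∧ x + 1 ≠ 0 := fun x hx => Ow_facts hx
  have h1x : ∀ x : F, 1 - x = x + 1 := fun x => by linear_combination (-x) * hone
  -- sums
  have s1 : ∀ h : ZMod N, h ≠ 0 → ‖∑ x ∈ Ow F, (ZMod.stdAddChar (h * dl N α x) : ℂ)‖ ≤ B := by
    intro h hh
    have e1 : ∑ x ∈ Ow F, (ZMod.stdAddChar (h * dl N α x) : ℂ)
        = ∑ x ∈ Ow F, (fun x => chi hN hα h x) x :=
      Finset.sum_congr rfl fun s hs => (chi_apply hN hα h (hmem s hs).1).symm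
    rw [e1]
    have hr : Rep2 (fun x => chi hN hα h x) (chi hN hα h) 1 := by
      refine ⟨1, by simp, ?_⟩
      intro s hs
      rw [one_app (hmem s hs).2]; ring
    exact hr.bound (Or.inl (chi_ne_one hN hα hh))
  have s2 : ∀ h : ZMod N, h ≠ 0 → ‖∑ x ∈ Ow F, (ZMod.stdAddChar (h * dl N β (1 - x)) : ℂ)‖ ≤ B := by
    intro h hh
    have e1 : ∑ x ∈ Ow F, (ZMod.stdAddChar (h * dl N β (1 - x)) : ℂ)
        = ∑ x ∈ Ow F, (fun x => chi hN hβ h (x + 1)) x := by
      refine Finset.sum_congr rfl fun s hs => ?_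
      rw [h1x]
      exact (chi_apply hN hβ h (hmem s hs).2).symm
    rw [e1]
    have hr : Rep2 (fun x => chi hN hβ h (x + 1)) 1 (chi hN hβ h) := by
      refine ⟨1, by simp, ?_⟩
      intro s hs
      rw [one_app (hmem s hs).1]; ring
    exact hr.bound (Or.inr (chi_ne_one hN hβ hh))
  have s3 : ∀ h k : ZMod N, h ≠ 0 → k ≠ 0 → ‖∑ x ∈ Ow F, (ZMod.stdAddChar (h * dl N α x) : ℂ) *
      ZMod.stdAddChar (k * dl N β (1 - x))‖ ≤ B := by
    intro h k hh hk
    have e1 : ∑ x ∈ Ow F, (ZMod.stdAddChar (h * dl N α x) : ℂ) *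
        ZMod.stdAddChar (k * dl N β (1 - x))
        = ∑ x ∈ Ow F, (fun x => chi hN hα h x * chi hN hβ k (x + 1)) x := by
      refine Finset.sum_congr rfl fun s hs => ?_
      rw [h1x]
      beta_reduce
      rw [chi_apply hN hβ k (hmem s hs).2, chi_apply hN hα h (hmem s hs).1]
    rw [e1]
    have hr : Rep2 (fun x => chi hN hα h x * chi hN hβ k (x + 1)) (chi hN hα h) (chi hN hβ k) := by
      refine ⟨1, by simp, ?_⟩
      intro s hs
      ring
    exact hr.bound (Or.inl (chi_ne_one hN hα hh))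
  -- the indicator functions
  set a : F → ZMod N := fun x => dl N α x with ha
  set b : F → ZMod N := fun x => dl N β (1 - x) with hb
  set c1 : ZMod N := -cst N K t1 with hc1
  set c2 : ZMod N := -cst N K t2 with hc2
  set d1 : F → ℝ := fun x => saw (a x + c1) - saw (a x + (c1 - (K : ZMod N))) with hd1
  set d2 : F → ℝ := fun x => saw (b x + c2) - saw (b x + (c2 - (K : ZMod N))) with hd2
  set κ : ℝ := (K : ℝ) / N with hκ
  by_contra hcon
  push Not at hcon
  -- pointwise: one of the two factors vanishes, i.e. is equal to zero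
  have hval : ∀ y : ZMod N, κ - (saw y - saw (y - (K : ZMod N))) = 0 ∨ y.val < K := by
    intro y
    by_cases hy : y.val < K
    · exact Or.inr hy
    · left
      by_contra hne
      rcases lt_or_gt_of_ne hne with h | h
      · -- difference larger than κ impossible
        have h1 : (y - (K : ZMod N)).val = y.val - K := by
          push Not at hy
          have e1 : y = ((y.val : ℕ) : ZMod N) := by rw [ZMod.natCast_val, ZMod.cast_id', id]
          have e2 : y - (K : ZMod N) = ((y.val - K : ℕ) : ZMod N) := by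
            rw [Nat.cast_sub hy, ← e1]
          rw [e2]
          apply ZMod.val_cast_of_lt
          have := ZMod.val_lt y
          omega
        have h2 : saw y - saw (y - (K : ZMod N)) = (K : ℝ) / N := by
          unfold saw
          push Not at hy
          rw [h1, Nat.cast_sub hy]
          field_simp
          ring
        rw [h2] at h
        simp [hκ] at h
      · exact hy (saw_diff y hK1 hKN (by linarith))
  have hzero : ∀ x ∈ Ow F, (κ - d1 x) * (κ - d2 x) = 0 := by
    intro x hx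
    have hx0 := (hmem x hx).1
    have hx1 : x ≠ 1 := by
      intro h
      apply (hmem x hx).2
      rw [h, hone]
    rcases hval (a x + c1) with h | h
    · have : κ - d1 x = 0 := by
        simp only [hd1]
        rw [← h]
        congr 2
        rw [add_sub_assoc]
      rw [this, zero_mul]
    · rcases hval (b x + c2) with h' | h'
      · have : κ - d2 x = 0 := by
          simp only [hd2]
          rw [← h']
          congr 2
          rw [add_sub_assoc]
        rw [this, mul_zero]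
      · exfalso
        have w1 := window_ok hK4 h11 ht1 (a x) (by rw [hc1, ← sub_eq_add_neg] at h; exact h)
        have w2 := window_ok hK4 h12 ht2 (b x) (by rw [hc2, ← sub_eq_add_neg] at h'; exact h')
        exact absurd w2.2 (not_le.mpr (hcon x hx0 hx1 w1 w2.1))
  have hsum : ∑ x ∈ Ow F, (κ - d1 x) * (κ - d2 x) = 0 := Finset.sum_eq_zero hzero
  have hexp : ∑ x ∈ Ow F, (κ - d1 x) * (κ - d2 x)
      = κ ^ 2 * (Ow F).card - κ * ∑ x ∈ Ow F, d1 x - κ * ∑ x ∈ Ow F, d2 x
        + ∑ x ∈ Ow F, d1 x * d2 x := by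
    have e : ∀ x ∈ Ow F, (κ - d1 x) * (κ - d2 x) = κ ^ 2 - κ * d1 x - κ * d2 x + d1 x * d2 x := by
      intro x _; ring
    rw [Finset.sum_congr rfl e, Finset.sum_add_distrib, Finset.sum_sub_distrib,
      Finset.sum_sub_distrib, Finset.sum_const, nsmul_eq_mul, ← Finset.mul_sum, ← Finset.mul_sum]
    ring
  set L := 1 + Real.log N with hL
  have hBL : B * L ≤ B * L ^ 2 := by
    apply mul_le_mul_of_nonneg_left _ hB0
    nlinarith
  have hs1 : |∑ x ∈ Ow F, d1 x| ≤ 2 * (B * L ^ 2) := by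
    simp only [hd1]
    rw [Finset.sum_sub_distrib]
    refine (abs_sub _ _).trans ?_
    have e1 := cov_one (Ow F) a c1 B hB0 s1
    have e2 := cov_one (Ow F) a (c1 - (K : ZMod N)) B hB0 s1
    linarith
  have hs2 : |∑ x ∈ Ow F, d2 x| ≤ 2 * (B * L ^ 2) := by
    simp only [hd2]
    rw [Finset.sum_sub_distrib]
    refine (abs_sub _ _).trans ?_
    have e1 := cov_one (Ow F) b c2 B hB0 s2
    have e2 := cov_one (Ow F) b (c2 - (K : ZMod N)) B hB0 s2
    linarith
  have hs3 : |∑ x ∈ Ow F, d1 x * d2 x| ≤ 4 * (B * L ^ 2) := by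
    have e : ∀ x ∈ Ow F, d1 x * d2 x = saw (a x + c1) * saw (b x + c2)
        - saw (a x + c1) * saw (b x + (c2 - (K : ZMod N))) - saw (a x + (c1 - (K : ZMod N))) * saw (b x + c2)
        + saw (a x + (c1 - (K : ZMod N))) * saw (b x + (c2 - (K : ZMod N))) := by
      intro x _; simp only [hd1, hd2]; ring
    rw [Finset.sum_congr rfl e, Finset.sum_add_distrib, Finset.sum_sub_distrib,
      Finset.sum_sub_distrib]
    have e1 := abs_le.mp (cov_two (Ow F) a b c1 c2 B hB0 s3)
    have e2 := abs_le.mp (cov_two (Ow F) a b c1 (c2 - (K : ZMod N)) B hB0 s3)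
    have e3 := abs_le.mp (cov_two (Ow F) a b (c1 - (K : ZMod N)) c2 B hB0 s3)
    have e4 := abs_le.mp (cov_two (Ow F) a b (c1 - (K : ZMod N)) (c2 - (K : ZMod N)) B hB0 s3)
    have e5 : B * ((1 + Real.log N) * (1 + Real.log N)) = B * L ^ 2 := by rw [hL]; ring
    rw [e5] at e1 e2 e3 e4
    rw [abs_le]
    constructor <;> linarith [e1.1, e1.2, e2.1, e2.2, e3.1, e3.2, e4.1, e4.2]
  have hcard := Ow_card_ge (F := F)
  have hκ0 : 0 ≤ κ := by positivity
  have hBL0 : 0 ≤ B * L ^ 2 := by positivity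
  have t1' : κ * ∑ x ∈ Ow F, d1 x ≤ 2 * (B * L ^ 2) := by
    calc κ * ∑ x ∈ Ow F, d1 x ≤ κ * (2 * (B * L ^ 2)) :=
          mul_le_mul_of_nonneg_left ((le_abs_self _).trans hs1) hκ0
      _ ≤ 1 * (2 * (B * L ^ 2)) := mul_le_mul_of_nonneg_right hKle1 (by positivity)
      _ = _ := one_mul _
  have t2' : κ * ∑ x ∈ Ow F, d2 x ≤ 2 * (B * L ^ 2) := by
    calc κ * ∑ x ∈ Ow F, d2 x ≤ κ * (2 * (B * L ^ 2)) :=
          mul_le_mul_of_nonneg_left ((le_abs_self _).trans hs2) hκ0
      _ ≤ 1 * (2 * (B * L ^ 2)) := mul_le_mul_of_nonneg_right hKle1 (by positivity)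
      _ = _ := one_mul _
  have t3' := (abs_le.mp hs3).1
  have t4 : (1 / 64) * ((Ow F).card : ℝ) ≤ κ ^ 2 * (Ow F).card := by
    apply mul_le_mul_of_nonneg_right _ (Nat.cast_nonneg _)
    nlinarith
  rw [hexp] at hsum
  linarith

end

end Pool.Agent.Helper916
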