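import Mathlib
import Pool.Agent.Helper916.Golomb2

open Finset Filter Asymptotics

namespace Pool.Agent.Helper916

theorem mB_le {q : ℝ} (hq : 1 ≤ q) : mB q ≤ 3 * q ^ (3 / 4 : ℝ) := by
  have hq0 : (0 : ℝ) ≤ q := by linarith
  have hqp : (0 : ℝ) < q := by linarith
  unfold mB
  apply Real.sqrt_le_iff.mpr
  refine ⟨by positivity, ?_⟩
  have h1 : q * Real.sqrt q = q ^ (3 / 2 : ℝ) := by
    rw [Real.sqrt_eq_rpow]
    nth_rewrite 1 [← Real.rpow_one q]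
    rw [← Real.rpow_add hqp]
    norm_num
  have h2 : (3 * q ^ (3 / 4 : ℝ)) ^ 2 = 9 * q ^ (3 / 2 : ℝ) := by
    rw [mul_pow, ← Real.rpow_natCast (q ^ (3 / 4 : ℝ)) 2, ← Real.rpow_mul hq0]
    norm_num
  rw [h1, h2]
  have : 0 ≤ q ^ (3 / 2 : ℝ) := by positivity
  linarith

theorem rpow_34_78 {q : ℝ} (hq : 1 ≤ q) : q ^ (3 / 4 : ℝ) ≤ q ^ (7 / 8 : ℝ) :=
  Real.rpow_le_rpow_of_exponent_le hq (by norm_num)

theorem B1_le {q : ℝ} (hq : 1 ≤ q) : B1 q ≤ 3 * q ^ (7 / 8 : ℝ) := by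
  have hq0 : (0 : ℝ) ≤ q := by linarith
  have hqp : (0 : ℝ) < q := by linarith
  unfold B1
  apply Real.sqrt_le_iff.mpr
  refine ⟨by positivity, ?_⟩
  have h0 := mB_le hq
  have h1 : q * q ^ (3 / 4 : ℝ) = q ^ (7 / 4 : ℝ) := by
    nth_rewrite 1 [← Real.rpow_one q]
    rw [← Real.rpow_add hqp]
    norm_num
  have h2 : (3 * q ^ (7 / 8 : ℝ)) ^ 2 = 9 * q ^ (7 / 4 : ℝ) := by
    rw [mul_pow, ← Real.rpow_natCast (q ^ (7 / 8 : ℝ)) 2, ← Real.rpow_mul hq0]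
    norm_num
  have h3 : q ≤ q ^ (7 / 4 : ℝ) := by
    nth_rewrite 1 [← Real.rpow_one q]
    exact Real.rpow_le_rpow_of_exponent_le hq (by norm_num)
  have h4 : q * mB q ≤ 3 * q ^ (7 / 4 : ℝ) := by
    calc q * mB q ≤ q * (3 * q ^ (3 / 4 : ℝ)) := mul_le_mul_of_nonneg_left h0 hq0
      _ = 3 * (q * q ^ (3 / 4 : ℝ)) := by ring
      _ = _ := by rw [h1]
  rw [h2]
  linarith

theorem BK_le {q : ℝ} (hq : 1 ≤ q) : BK q ≤ 3 * q ^ (3 / 4 : ℝ) := by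
  have hq0 : (0 : ℝ) ≤ q := by linarith
  have h1 : Real.sqrt (Real.sqrt (3 * q ^ 3)) ≤ 2 * q ^ (3 / 4 : ℝ) := by
    apply Real.sqrt_le_iff.mpr
    refine ⟨by positivity, ?_⟩
    apply Real.sqrt_le_iff.mpr
    refine ⟨by positivity, ?_⟩
    have e1 : ((2 * q ^ (3 / 4 : ℝ)) ^ 2) ^ 2 = 16 * q ^ 3 := by
      have : ((2 * q ^ (3 / 4 : ℝ)) ^ 2) ^ 2 = 16 * (q ^ (3 / 4 : ℝ)) ^ 4 := by ring
      rw [this, ← Real.rpow_natCast (q ^ (3 / 4 : ℝ)) 4, ← Real.rpow_mul hq0]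
      norm_num
    rw [e1]
    have : 0 ≤ q ^ 3 := by positivity
    linarith
  have h2 : (1 : ℝ) ≤ q ^ (3 / 4 : ℝ) := Real.one_le_rpow hq (by norm_num)
  unfold BK
  linarith

theorem log_littleO : (fun x : ℝ => x ^ (7 / 8 : ℝ) * (1 + Real.log x) ^ 2) =o[atTop]
    (fun x : ℝ => x) := by
  have h1 : (fun x : ℝ => 1 + Real.log x) =o[atTop] (fun x : ℝ => x ^ (1 / 16 : ℝ)) := by
    apply IsLittleO.add
    · rw [isLittleO_const_left]
      right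
      have : Tendsto (fun x : ℝ => x ^ (1 / 16 : ℝ)) atTop atTop := tendsto_rpow_atTop (by norm_num)
      exact tendsto_norm_atTop_atTop.comp this
    · exact isLittleO_log_rpow_atTop (by norm_num)
  have h2 := h1.pow (n := 2) (by norm_num)
  have h3 := (isBigO_refl (fun x : ℝ => x ^ (7 / 8 : ℝ)) atTop).mul_isLittleO h2
  refine h3.congr' (Eventually.of_forall fun x => rfl) ?_
  filter_upwards [eventually_gt_atTop 0] with x hx
  rw [← Real.rpow_natCast (x ^ (1 / 16 : ℝ)) 2, ← Real.rpow_mul hx.le, ← Real.rpow_add hx]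
  norm_num

theorem asym : ∃ Q : ℕ, 20000 ≤ Q ∧ ∀ n : ℕ, Q ≤ n →
    (B1 n + mB n + BK n) * (1 + Real.log n) ^ 2 + 1 ≤ (1 / 10000) * ((n : ℝ) - 3) := by
  have h1 := log_littleO.def (c := 1 / 1000000) (by norm_num)
  rw [eventually_atTop] at h1
  obtain ⟨a, ha⟩ := h1
  refine ⟨max 20000 ⌈a⌉₊, le_max_left _ _, ?_⟩
  intro n hn
  have hn1 : 20000 ≤ n := (le_max_left _ _).trans hn
  have hn2 : ⌈a⌉₊ ≤ n := (le_max_right _ _).trans hn
  have hn3 : a ≤ (n : ℝ) := (Nat.le_ceil a).trans (by exact_mod_cast hn2)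
  have hn4 : (20000 : ℝ) ≤ n := by exact_mod_cast hn1
  have hn5 : (1 : ℝ) ≤ n := by linarith
  have h2 := ha n hn3
  rw [Real.norm_of_nonneg (by positivity), Real.norm_of_nonneg (by positivity)] at h2
  have e1 := mB_le hn5
  have e2 := B1_le hn5
  have e3 := BK_le hn5
  have e4 := rpow_34_78 hn5
  have e5 : B1 n + mB n + BK n ≤ 9 * (n : ℝ) ^ (7 / 8 : ℝ) := by linarith
  have e6 : (B1 n + mB n + BK n) * (1 + Real.log n) ^ 2
      ≤ 9 * ((n : ℝ) ^ (7 / 8 : ℝ) * (1 + Real.log n) ^ 2) := by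
    rw [← mul_assoc]
    exact mul_le_mul_of_nonneg_right e5 (by positivity)
  linarith

end Pool.Agent.Helper916
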