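import Mathlib
import Pool.Agent.Helper916.Asym

open Finset

namespace Pool.Agent.Helper916

/-- pairwise distinct difference vectors on `[1,n]` -/
def DistinctDiff (n : ℕ) (f : ℕ → ℕ) : Prop :=
  ∀ i j k l : ℕ, 1 ≤ j → j < i → i ≤ n → 1 ≤ l → l < k → k ≤ n →
    (i : ℤ) - j = (k : ℤ) - l → (f i : ℤ) - f j = (f k : ℤ) - f l → i = k

/-- if `P, R, Q` are three dots different from the new dot `O` and `Q - P = R - O`, then the
difference vectors are not distinct -/
theorem violation {n : ℕ} {f : ℕ → ℕ} (hf : DistinctDiff n f) {o p r q : ℕ}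
    (ho : 1 ≤ o ∧ o ≤ n) (hp : 1 ≤ p ∧ p ≤ n) (hr : 1 ≤ r ∧ r ≤ n) (hq : 1 ≤ q ∧ q ≤ n)
    (hpo : p ≠ o) (hro : r ≠ o) (h1 : (q : ℤ) - p = (r : ℤ) - o)
    (h2 : (f q : ℤ) - f p = (f r : ℤ) - f o) : False := by
  rcases lt_or_gt_of_ne hro with h | h
  · -- r < o
    have e1 : (p : ℤ) - q = (o : ℤ) - r := by linarith
    have e2 : (f p : ℤ) - f q = (f o : ℤ) - f r := by linarith
    have : q < p := by omega
    exact hpo (hf p q o r hq.1 this hp.2 hr.1 h ho.2 e1 e2)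
  · have : p < q := by omega
    have e := hf q p r o hp.1 this hq.2 ho.1 h hr.2 h1 h2
    apply hpo
    omega

section Gol

variable {F : Type*} [Field F] [Fintype F]

theorem golomb_general : ∃ Q : ℕ, ∀ (F : Type) [Field F] [Fintype F], Q ≤ Fintype.card F →
    ∀ (N : ℕ), Fintype.card F = N + 1 → ∀ α β : F, orderOf α = N → orderOf β = N →
    ∀ t1 t2 : ℕ, 1 ≤ t1 → t1 ≤ N → 1 ≤ t2 → t2 ≤ N → ∀ f : ℕ → ℕ,
    (∀ i, 1 ≤ i → i ≤ N → 1 ≤ f i ∧ f i ≤ N) → f t1 = t2 →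
    (∀ i, 1 ≤ i → i ≤ N → i ≠ t1 → α ^ ((i : ℤ) - t1) + β ^ ((f i : ℤ) - t2) = 1) →
    ¬ DistinctDiff N f := by
  classical
  obtain ⟨Q, hQ20, hQ⟩ := asym
  refine ⟨Q, ?_⟩
  intro F _ _ hcard N hN α β hα hβ t1 t2 h11 h1N h21 h2N f hrange hft hdots hD
  have hNQ : Q ≤ N + 1 := by rw [← hN]; exact hcard
  have hNbig : 19999 ≤ N := by omega
  have : NeZero N := ⟨by omega⟩
  have hb := hQ (Fintype.card F) hcard
  have hNR : (19999 : ℝ) ≤ N := by exact_mod_cast hNbig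
  have hNpos : (0 : ℝ) < N := by linarith
  have hcR : (Fintype.card F : ℝ) = N + 1 := by rw [hN]; push_cast; ring
  set q : ℝ := (Fintype.card F : ℝ) with hq
  have hB1 : 0 ≤ B1 q := Real.sqrt_nonneg _
  have hmB : 0 ≤ mB q := Real.sqrt_nonneg _
  have hBK : 0 ≤ BK q := by unfold BK; positivity
  have hlog : Real.log N ≤ Real.log q := Real.log_le_log hNpos (by linarith)
  have hlog0 : 0 ≤ Real.log N := Real.log_natCast_nonneg N
  have hsq : (1 + Real.log N) ^ 2 ≤ (1 + Real.log q) ^ 2 :=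
    pow_le_pow_left₀ (by linarith) (by linarith) 2
  have hsq0 : 0 ≤ (1 + Real.log q) ^ 2 := by positivity
  -- description of a dot
  have hα0 : α ≠ 0 := by
    intro h0
    rw [h0, orderOf_zero] at hα
    exact NeZero.ne N hα.symm
  have dot : ∀ X : F, X ≠ 0 → X ≠ 1 → ∃ i : ℕ, 1 ≤ i ∧ i ≤ N ∧ i ≠ t1 ∧
      (i : ℤ) - t1 = rep t1 (dl N α X) ∧ (f i : ℤ) - t2 = rep t2 (dl N β (1 - X)) := by
    intro X hX0 hX1
    have l1 := rep_lb t1 (dl N α X)
    have l2 := rep_ub t1 (dl N α X)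
    set I := rep t1 (dl N α X) with hI
    obtain ⟨i, hi⟩ := Int.eq_ofNat_of_zero_le (show 0 ≤ I + t1 by linarith)
    have hi1 : 1 ≤ i := by
      have : (1 : ℤ) ≤ i := by rw [← hi]; linarith
      exact_mod_cast this
    have hi2 : i ≤ N := by
      have : (i : ℤ) ≤ N := by rw [← hi]; linarith
      exact_mod_cast this
    have hiI : (i : ℤ) - t1 = I := by linarith
    have hpow : α ^ ((i : ℤ) - t1) = X := by
      apply pow_of_dl hN hα hX0
      rw [hiI, hI, rep_cast]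
    have hit : i ≠ t1 := by
      intro h
      apply hX1
      rw [← hpow, h, sub_self, zpow_zero]
    have h1 := hdots i hi1 hi2 hit
    rw [hpow] at h1
    have h2 : β ^ ((f i : ℤ) - t2) = 1 - X := by rw [← h1]; ring
    have h3 := dl_of_pow hβ h2
    have h4 := hrange i hi1 hi2
    refine ⟨i, hi1, hi2, hit, hiI, ?_⟩
    apply rep_unique
    · have : (1 : ℤ) ≤ f i := by exact_mod_cast h4.1
      linarith
    · have : (f i : ℤ) ≤ N := by exact_mod_cast h4.2
      linarith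
    · exact h3
  by_cases h2 : (2 : F) = 0
  · -- characteristic two
    have hbig : 1000 * (mB q * (1 + Real.log N) ^ 2) < q - 2 := by
      have e1 : mB q * (1 + Real.log N) ^ 2 ≤ mB q * (1 + Real.log q) ^ 2 :=
        mul_le_mul_of_nonneg_left hsq hmB
      have e2 : mB q * (1 + Real.log q) ^ 2 ≤ (B1 q + mB q + BK q) * (1 + Real.log q) ^ 2 :=
        mul_le_mul_of_nonneg_right (by linarith) hsq0
      linarith
    obtain ⟨x, hx0, hx1, hw1, hw2⟩ := golomb_even_exists hN h2 hα hβ h11 h1N h21 h2N hbig (by omega)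
    have hxx1 : x * x ≠ 1 := by
      intro h
      have : (x - 1) * (x - 1) = 0 := by linear_combination h + (1 - x) * h2
      rcases mul_eq_zero.mp this with h | h
      · exact hx1 (sub_eq_zero.mp h)
      · exact hx1 (sub_eq_zero.mp h)
    have hxx0 : x * x ≠ 0 := mul_ne_zero hx0 hx0
    have h1x : (1 : F) - x ≠ 0 := sub_ne_zero.mpr (Ne.symm hx1)
    obtain ⟨i, i1, i2, i3, i4, i5⟩ := dot x hx0 hx1
    obtain ⟨j, j1, j2, j3, j4, j5⟩ := dot (x * x) hxx0 hxx1
    have e1 : 2 * rep t1 (dl N α x) = rep t1 (dl N α (x * x)) := by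
      apply rep_unique _ _ _ hw1.1 hw1.2
      push_cast
      rw [rep_cast, dl_mul hN hα hx0 hx0]; ring
    have e2 : 2 * rep t2 (dl N β (1 - x)) = rep t2 (dl N β (1 - x * x)) := by
      apply rep_unique _ _ _ hw2.1 hw2.2
      push_cast
      have : (1 : F) - x * x = (1 - x) * (1 - x) := by linear_combination (x - x * x) * h2
      rw [rep_cast, this, dl_mul hN hβ h1x h1x]; ring
    refine violation hD ⟨h11, h1N⟩ ⟨i1, i2⟩ ⟨i1, i2⟩ ⟨j1, j2⟩ i3 i3 (by linarith) ?_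
    rw [hft]
    linarith
  · have hbig : B1 q * (1 + Real.log N) ^ 2 + 1 ≤ (1 / 10000) * (q - 3) := by
      have e1 : B1 q * (1 + Real.log N) ^ 2 ≤ B1 q * (1 + Real.log q) ^ 2 :=
        mul_le_mul_of_nonneg_left hsq hB1
      have e2 : B1 q * (1 + Real.log q) ^ 2 ≤ (B1 q + mB q + BK q) * (1 + Real.log q) ^ 2 :=
        mul_le_mul_of_nonneg_right (by linarith) hsq0
      linarith
    have hNε : 1 / (2 * (N : ℝ)) ≤ 1 / 10000 := by
      apply one_div_le_one_div_of_le (by norm_num)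
      linarith
    obtain ⟨s, hs, hs1, hs2⟩ := golomb_odd_exists hN h2 hα hβ (t1 := t1) (t2 := t2) (by omega)
      (by omega) (by norm_num) (le_refl _) hbig hNε
    obtain ⟨s0, sp, sm, ps, ms⟩ := Om_facts hs
    set x := (1 + s)⁻¹ with hx
    set y := (1 - s)⁻¹ with hy
    have ex : 1 - x = s * (1 + s)⁻¹ := by rw [hx]; field_simp; ring
    have ey : 1 - y = s * (s - 1)⁻¹ := by
      rw [hy]
      have : s - 1 = -(1 - s) := by ring
      rw [this, inv_neg]
      field_simp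
      ring
    have ez : 1 - x * y = (s * (1 + s)⁻¹) * (s * (s - 1)⁻¹) := by
      rw [hx, hy]
      have : s - 1 = -(1 - s) := by ring
      rw [this, inv_neg]
      field_simp
      ring
    have hx0 : x ≠ 0 := inv_ne_zero ps
    have hy0 : y ≠ 0 := inv_ne_zero ms
    have hx1 : x ≠ 1 := by
      intro h
      have : 1 - x = 0 := by rw [h]; ring
      rw [ex] at this
      exact mul_ne_zero s0 (inv_ne_zero ps) this
    have hy1 : y ≠ 1 := by
      intro h
      have : 1 - y = 0 := by rw [h]; ring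
      rw [ey] at this
      exact mul_ne_zero s0 (inv_ne_zero sm) this
    have hz1 : x * y ≠ 1 := by
      intro h
      have : 1 - x * y = 0 := by rw [h]; ring
      rw [ez] at this
      exact mul_ne_zero (mul_ne_zero s0 (inv_ne_zero ps)) (mul_ne_zero s0 (inv_ne_zero sm)) this
    obtain ⟨i, i1, i2, i3, i4, i5⟩ := dot x hx0 hx1
    obtain ⟨j, j1, j2, j3, j4, j5⟩ := dot y hy0 hy1
    obtain ⟨k, k1, k2, k3, k4, k5⟩ := dot (x * y) (mul_ne_zero hx0 hy0) hz1
    rw [← ex, ← ey] at hs2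
    have hs3 : rep t2 (dl N β (1 - x)) + rep t2 (dl N β (1 - y)) = rep t2 (dl N β (1 - x * y)) := by
      rw [hs2, ez, ex, ey]
    refine violation hD ⟨h11, h1N⟩ ⟨i1, i2⟩ ⟨j1, j2⟩ ⟨k1, k2⟩ i3 j3 (by linarith) ?_
    rw [hft]
    linarith

theorem welch_general : ∃ Q : ℕ, ∀ (p : ℕ), p.Prime → Q ≤ p → ∀ (α A : ZMod p),
    orderOf α = p - 1 → A ≠ 0 → ∀ t : ℕ, 1 ≤ t → t ≤ p → ∀ f : ℕ → ℕ,
    (∀ i, 1 ≤ i → i ≤ p → 1 ≤ f i ∧ f i ≤ p) → f p = t →
    (∀ i, 1 ≤ i → i ≤ p - 1 → (f i : ZMod p) = A * α ^ i + t) →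
    ¬ DistinctDiff p f := by
  obtain ⟨Q, hQ20, hQ⟩ := asym
  refine ⟨Q, ?_⟩
  intro p hp hQp α A hα hA t ht1 htp f hrange hft hdots hD
  have : Fact p.Prime := ⟨hp⟩
  obtain ⟨N, hN⟩ : ∃ N, p = N + 1 := ⟨p - 1, by have := hp.pos; omega⟩
  have hNp : p - 1 = N := by omega
  rw [hNp] at hα hdots
  have hNbig : 19999 ≤ N := by omega
  have : NeZero N := ⟨by omega⟩
  have : NeZero p := ⟨hp.ne_zero⟩
  have hb := hQ p hQp
  have hNR : (19999 : ℝ) ≤ N := by exact_mod_cast hNbig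
  have hcR : (p : ℝ) = N + 1 := by rw [hN]; push_cast; ring
  have hB1 : 0 ≤ B1 (p : ℝ) := Real.sqrt_nonneg _
  have hmB : 0 ≤ mB (p : ℝ) := Real.sqrt_nonneg _
  have hBK : 0 ≤ BK (p : ℝ) := by unfold BK; positivity
  have hsq0 : 0 ≤ (1 + Real.log p) ^ 2 := by positivity
  have hbig : (mB p + BK p) * (1 + Real.log p) ^ 2 + 1 ≤ (1 / 10000) * ((p : ℝ) - 2) := by
    have e2 : (mB p + BK p) * (1 + Real.log p) ^ 2 ≤ (B1 p + mB p + BK p) * (1 + Real.log p) ^ 2 :=
      mul_le_mul_of_nonneg_right (by linarith) hsq0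
    linarith
  have hNε : 1 / (2 * (N : ℝ)) ≤ 1 / 10000 := by
    apply one_div_le_one_div_of_le (by norm_num)
    linarith
  have hα0 : α ≠ 0 := by
    intro h0
    rw [h0, orderOf_zero] at hα
    exact NeZero.ne N hα.symm
  have hcardF : Fintype.card (ZMod p) = N + 1 := by rw [ZMod.card, hN]
  obtain ⟨z, hz, hz1, hz2⟩ := welch_exists hN hα hA (t := t) (by omega) (by norm_num) (le_refl _)
    hbig hNε
  obtain ⟨z0, zp⟩ := Ow_facts hz
  set U := α * (z + 1) ^ 2 * z⁻¹ with hU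
  set V := z * (z + 1)⁻¹ with hV
  set W := α * (z + 1) with hW
  have hU0 : U ≠ 0 := mul_ne_zero (mul_ne_zero hα0 (pow_ne_zero 2 zp)) (inv_ne_zero z0)
  have hV0 : V ≠ 0 := mul_ne_zero z0 (inv_ne_zero zp)
  have hW0 : W ≠ 0 := mul_ne_zero hα0 zp
  -- the indices
  have idx : ∀ X : ZMod p, X ≠ 0 → ∃ i : ℕ, 1 ≤ i ∧ i ≤ N ∧ (i : ℤ) = rep 0 (dl N α X) ∧
      α ^ i = X := by
    intro X hX0
    have l1 := rep_lb 0 (dl N α X)
    have l2 := rep_ub 0 (dl N α X)
    set I := rep 0 (dl N α X) with hI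
    push_cast at l1 l2
    obtain ⟨i, hi⟩ := Int.eq_ofNat_of_zero_le (show 0 ≤ I by linarith)
    have hi' : (i : ℤ) = I := hi.symm
    refine ⟨i, ?_, ?_, hi', ?_⟩
    · have : (1 : ℤ) ≤ i := by rw [hi']; linarith
      exact_mod_cast this
    · have : (i : ℤ) ≤ N := by rw [hi']; linarith
      exact_mod_cast this
    · have h1 : α ^ (i : ℤ) = X := by
        apply pow_of_dl hcardF hα hX0
        rw [hi', hI, rep_cast]
      rwa [zpow_natCast] at h1
  obtain ⟨j, j1, j2, j3, j4⟩ := idx U hU0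
  obtain ⟨k, k1, k2, k3, k4⟩ := idx V hV0
  obtain ⟨l, l1, l2, l3, l4⟩ := idx W hW0
  have hjk : j + k = l := by
    have : (j : ℤ) + k = l := by rw [j3, k3, l3]; exact hz1
    exact_mod_cast this
  -- values
  have hval : ∀ i : ℕ, 1 ≤ i → i ≤ N → (f i : ℤ) - t = rep t (A * α ^ i) := by
    intro i hi1 hi2
    have h4 := hrange i hi1 (by omega)
    apply rep_unique
    · have : (1 : ℤ) ≤ f i := by exact_mod_cast h4.1
      linarith
    · have : (f i : ℤ) ≤ p := by exact_mod_cast h4.2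
      linarith
    · push_cast
      rw [hdots i hi1 hi2]
      ring
  have hk' : α ^ (p - k) = α * (V)⁻¹ := by
    have e1 : α ^ (p - k) * α ^ k = α * (α ^ N) := by
      rw [← pow_add, ← pow_succ']
      congr 1
      omega
    have e2 : α ^ N = 1 := by rw [← hα]; exact pow_orderOf_eq_one α
    rw [e2, mul_one, k4] at e1
    calc α ^ (p - k) = α ^ (p - k) * V * V⁻¹ := by rw [mul_assoc, mul_inv_cancel₀ hV0, mul_one]
      _ = α * V⁻¹ := by rw [e1]
  have hfj := hval j j1 j2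
  have hfl := hval l l1 l2
  have hfk := hval (p - k) (by omega) (by omega)
  rw [j4] at hfj
  rw [l4] at hfl
  rw [hk'] at hfk
  have ea : A * U = A * α * (z + 2 + z⁻¹) := by
    rw [hU]; field_simp; ring
  have eb : A * W = A * α * (z + 1) := by rw [hW]; ring
  have ec : A * (α * V⁻¹) = A * α * (1 + z⁻¹) := by
    rw [hV, mul_inv, inv_inv]; field_simp
  rw [ea] at hfj
  rw [eb] at hfl
  rw [ec] at hfk
  have hpk : ((p - k : ℕ) : ℤ) = (p : ℤ) - k := by
    rw [Nat.cast_sub (by omega)]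
  have := hD l j p (p - k) j1 (by omega) (by omega) (by omega) (by omega) (le_refl _)
    (by rw [hpk, ← hjk]; push_cast; ring) (by rw [hft]; linarith)
  omega

end Gol

end Pool.Agent.Helper916
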