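import Mathlib

set_option autoImplicit false

namespace Pool.Agent.Helper916.QuadPO

/-- `C` has a periodic symplectic billiard orbit (the conditions of the frozen statement). -/
def PO (C : Set (ℝ × ℝ)) : Prop :=
    ∃ n : ℕ, 0 < n ∧ ∃ x : ℕ → ℝ × ℝ, (∀ i, x (i + n) = x i) ∧
      ∀ i : ℕ,
        x i ∈ frontier C ∧
        x i ∉ Set.extremePoints ℝ C ∧
        x (i + 2) ≠ x i ∧
        ∃ a b : ℝ, (a ≠ 0 ∨ b ≠ 0) ∧
          a * ((x (i + 2)).1 - (x i).1) + b * ((x (i + 2)).2 - (x i).2) = 0 ∧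
          (∀ p ∈ C, a * p.1 + b * p.2 ≤ a * (x (i + 1)).1 + b * (x (i + 1)).2) ∧
          a * (x i).1 + b * (x i).2 < a * (x (i + 1)).1 + b * (x (i + 1)).2 ∧
          ∃ p ∈ C, a * p.1 + b * p.2 < a * (x i).1 + b * (x i).2

/-- cross product -/
def cr (A B C : ℝ × ℝ) : ℝ := (B.1 - A.1) * (C.2 - A.2) - (B.2 - A.2) * (C.1 - A.1)

/-- signed distance (scaled) from the line of side `k` -/
def hh (V : ℕ → ℝ × ℝ) (σ : ℝ) (k : ℕ) (p : ℝ × ℝ) : ℝ := σ * cr (V k) (V (k + 1)) p

def Dl (V : ℕ → ℝ × ℝ) (σ : ℝ) (k : ℕ) : ℝ := hh V σ k (V (k + 2))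

/-- `V 0, V 1, V 2, V 3` are the vertices of a convex quadrilateral in cyclic order -/
structure Quad (V : ℕ → ℝ × ℝ) (σ : ℝ) : Prop where
  per : ∀ k, V (k + 4) = V k
  pos : ∀ k, 0 < Dl V σ k

/-- the point with parameter `t` on side `j` -/
def qpt (V : ℕ → ℝ × ℝ) (j : ℕ) (t : ℝ) : ℝ × ℝ :=
  ((1 - t) * (V j).1 + t * (V (j + 1)).1, (1 - t) * (V j).2 + t * (V (j + 1)).2)

def g (D : ℕ → ℝ) (k o : ℕ) (t : ℝ) : ℝ :=
  if o = 1 then t * D k else if o = 2 then (1 - t) * D k + t * D (k + 3) else (1 - t) * D (k + 3)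

def Step (D : ℕ → ℝ) (j : ℕ) (t : ℝ) (k l : ℕ) (t' : ℝ) : Prop :=
  ∃ o o' : ℕ, (o = 1 ∨ o = 2 ∨ o = 3) ∧ (o' = 1 ∨ o' = 2 ∨ o' = 3) ∧ o ≠ o' ∧
    j % 4 = (k + o) % 4 ∧ l % 4 = (k + o') % 4 ∧ g D k o t = g D k o' t'

section
variable {V : ℕ → ℝ × ℝ} {σ : ℝ}

theorem hh_qpt (k j : ℕ) (t : ℝ) :
    hh V σ k (qpt V j t) = (1 - t) * hh V σ k (V j) + t * hh V σ k (V (j + 1)) := by
  unfold hh cr qpt
  ring

theorem per_mod (h : ∀ k, V (k + 4) = V k) : ∀ k, V k = V (k % 4) := by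
  intro k
  have hp : Function.Periodic V 4 := h
  exact (hp.map_mod_nat k).symm

theorem V_congr (h : ∀ k, V (k + 4) = V k) {j k : ℕ} (hjk : j % 4 = k % 4) : V j = V k := by
  rw [per_mod h j, per_mod h k, hjk]

theorem hh0 (k : ℕ) : hh V σ k (V k) = 0 := by
  unfold hh cr; ring

theorem hh1 (k : ℕ) : hh V σ k (V (k + 1)) = 0 := by
  unfold hh cr; ring

theorem hh3 (Q : Quad V σ) (k : ℕ) : hh V σ k (V (k + 3)) = Dl V σ (k + 3) := by
  have h1 : V (k + 3 + 1) = V k := Q.per k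
  have h2 : V (k + 3 + 2) = V (k + 1) := Q.per (k + 1)
  unfold Dl hh
  rw [h1, h2]
  unfold cr; ring

theorem Dl_per (Q : Quad V σ) (k : ℕ) : Dl V σ (k + 4) = Dl V σ k := by
  unfold Dl hh
  rw [Q.per k]
  have h1 : V (k + 4 + 1) = V (k + 1) := Q.per (k + 1)
  have h2 : V (k + 4 + 2) = V (k + 2) := Q.per (k + 2)
  rw [h1, h2]

theorem Dl_sum (Q : Quad V σ) : Dl V σ 0 + Dl V σ 2 = Dl V σ 1 + Dl V σ 3 := by
  have h1 : V 4 = V 0 := Q.per 0
  have h2 : V 5 = V 1 := Q.per 1
  show σ * cr (V 0) (V 1) (V 2) + σ * cr (V 2) (V 3) (V 4) =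
    σ * cr (V 1) (V 2) (V 3) + σ * cr (V 3) (V 4) (V 5)
  rw [h1, h2]
  unfold cr; ring

theorem hh_val (Q : Quad V σ) {j k o : ℕ} (t : ℝ) (ho : o = 1 ∨ o = 2 ∨ o = 3)
    (hj : j % 4 = (k + o) % 4) : hh V σ k (qpt V j t) = g (Dl V σ) k o t := by
  have e1 : V j = V (k + o) := V_congr Q.per hj
  have e2 : V (j + 1) = V (k + o + 1) := V_congr Q.per (by omega)
  rw [hh_qpt, e1, e2]
  rcases ho with h | h | h
  · subst h
    rw [hh1]
    have : hh V σ k (V (k + 1 + 1)) = Dl V σ k := rfl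
    rw [this]
    simp [g]
  · subst h
    have h1 : hh V σ k (V (k + 2)) = Dl V σ k := rfl
    have h2 : hh V σ k (V (k + 2 + 1)) = Dl V σ (k + 3) := hh3 Q k
    rw [h1, h2]
    simp [g]
  · subst h
    have h2 : V (k + 3 + 1) = V k := Q.per k
    rw [h2, hh0, hh3 Q]
    simp [g]

theorem g_pos {D : ℕ → ℝ} (hD : ∀ k, 0 < D k) (k : ℕ) {o : ℕ} {t : ℝ}
    (ho : o = 1 ∨ o = 2 ∨ o = 3) (h0 : 0 < t) (h1 : t < 1) : 0 < g D k o t := by
  have h2 : 0 < 1 - t := by linarith
  have h3 := hD k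
  have h4 := hD (k + 3)
  rcases ho with h | h | h <;> subst h <;> simp only [g] <;> norm_num <;> positivity

theorem hh_comb (k : ℕ) (p q : ℝ × ℝ) (a b : ℝ) (hab : a + b = 1) :
    hh V σ k (a • p + b • q) = a * hh V σ k p + b * hh V σ k q := by
  have ha : a = 1 - b := by linarith
  subst ha
  unfold hh cr
  simp only [Prod.fst_add, Prod.snd_add, Prod.smul_fst, Prod.smul_snd, smul_eq_mul]
  ring

/-- `V` lists vertices of a convex polygon such that all vertices are on one side of each line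
through two consecutive ones -/
structure Cv (V : ℕ → ℝ × ℝ) (σ : ℝ) : Prop where
  nn : ∀ k m, 0 ≤ hh V σ k (V m)
  pos : ∀ k, 0 < Dl V σ k

theorem Quad.cv (Q : Quad V σ) : Cv V σ := by
  refine ⟨?_, Q.pos⟩
  intro k m
  have hm : ∃ o, o < 4 ∧ m % 4 = (k + o) % 4 := ⟨(m + 3 * k) % 4, by omega, by omega⟩
  obtain ⟨o, ho, hmo⟩ := hm
  rw [V_congr Q.per hmo]
  interval_cases o
  · rw [Nat.add_zero, hh0]
  · rw [hh1]
  · exact (Q.pos k).le
  · rw [hh3 Q]
    exact (Q.pos _).le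

theorem hh_nonneg (Q : Cv V σ) (k : ℕ) {p : ℝ × ℝ} (hp : p ∈ convexHull ℝ (Set.range V)) :
    0 ≤ hh V σ k p := by
  have hc : Convex ℝ {p : ℝ × ℝ | 0 ≤ hh V σ k p} := by
    intro x hx y hy a b ha hb hab
    show 0 ≤ hh V σ k (a • x + b • y)
    rw [hh_comb k x y a b hab]
    have hx' : 0 ≤ hh V σ k x := hx
    have hy' : 0 ≤ hh V σ k y := hy
    positivity
  have hs : Set.range V ⊆ {p : ℝ × ℝ | 0 ≤ hh V σ k p} := by
    rintro _ ⟨m, rfl⟩
    exact Q.nn k m
  exact convexHull_min hs hc hp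

theorem V_mem (m : ℕ) : V m ∈ convexHull ℝ (Set.range V) := subset_convexHull ℝ _ ⟨m, rfl⟩

theorem qpt_eq (j : ℕ) (t : ℝ) : qpt V j t = (1 - t) • V j + t • V (j + 1) := by
  unfold qpt
  ext <;> simp

theorem qpt_mem (j : ℕ) {t : ℝ} (h0 : 0 < t) (h1 : t < 1) :
    qpt V j t ∈ convexHull ℝ (Set.range V) := by
  rw [qpt_eq]
  exact convex_convexHull ℝ _ (V_mem j) (V_mem (j + 1)) (by linarith) h0.le (by ring)

theorem V_ne (Q : Cv V σ) (j : ℕ) : V j ≠ V (j + 1) := by
  intro h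
  have h1 := Q.pos j
  unfold Dl hh cr at h1
  rw [← h] at h1
  norm_num at h1

theorem qpt_not_ext (Q : Cv V σ) (j : ℕ) {t : ℝ} (h0 : 0 < t) (h1 : t < 1) :
    qpt V j t ∉ Set.extremePoints ℝ (convexHull ℝ (Set.range V)) := by
  intro h
  rw [mem_extremePoints] at h
  have h2 := (h.2 (V j) (V_mem j) (V (j + 1)) (V_mem (j + 1))
    ⟨1 - t, t, by linarith, h0, by ring, (qpt_eq j t).symm⟩)
  exact V_ne Q j (h2.1.trans h2.2.symm)

theorem qpt_frontier (Q : Cv V σ) (j : ℕ) {t : ℝ} (h0 : 0 < t) (h1 : t < 1) :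
    qpt V j t ∈ frontier (convexHull ℝ (Set.range V)) := by
  refine ⟨subset_closure (qpt_mem j h0 h1), ?_⟩
  intro hint
  set x := qpt V j t with hx
  have hz : hh V σ j x = 0 := by
    rw [hx, hh_qpt, hh0, hh1]; ring
  have hc : Continuous (fun ε : ℝ => (1 + ε) • x + (-ε) • V (j + 2)) := by fun_prop
  have h2 : Filter.Tendsto (fun ε : ℝ => (1 + ε) • x + (-ε) • V (j + 2)) (nhds 0)
      (nhds ((1 + (0 : ℝ)) • x + (-(0 : ℝ)) • V (j + 2))) := hc.tendsto 0
  have h3 : (1 + (0 : ℝ)) • x + (-(0 : ℝ)) • V (j + 2) = x := by simp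
  rw [h3] at h2
  have h4 := h2.eventually (isOpen_interior.mem_nhds hint)
  have h5 : ∀ᶠ ε : ℝ in nhdsWithin 0 (Set.Ioi 0), 0 < ε := self_mem_nhdsWithin
  obtain ⟨ε, hε1, hε2⟩ := ((h4.filter_mono nhdsWithin_le_nhds).and h5).exists
  have h6 := hh_nonneg Q j (interior_subset hε1)
  rw [hh_comb j _ _ _ _ (by ring), hz] at h6
  have h7 : hh V σ j (V (j + 2)) = Dl V σ j := rfl
  rw [h7] at h6
  have h8 := Q.pos j
  nlinarith

theorem cv_po (Q : Cv V σ) (n : ℕ) (hn : 0 < n) (s : ℕ → ℕ) (t : ℕ → ℝ)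
    (hs : ∀ i, s (i + n) = s i) (htp : ∀ i, t (i + n) = t i) (ht : ∀ i, 0 < t i ∧ t i < 1)
    (h : ∀ i, hh V σ (s (i + 1)) (qpt V (s i) (t i)) =
        hh V σ (s (i + 1)) (qpt V (s (i + 2)) (t (i + 2))) ∧
      0 < hh V σ (s (i + 1)) (qpt V (s i) (t i)) ∧
      (∃ m, hh V σ (s (i + 1)) (qpt V (s i) (t i)) < hh V σ (s (i + 1)) (V m)) ∧
      qpt V (s (i + 2)) (t (i + 2)) ≠ qpt V (s i) (t i)) :
    PO (convexHull ℝ (Set.range V)) := by
  refine ⟨n, hn, fun i => qpt V (s i) (t i), ?_, ?_⟩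
  · intro i
    simp only
    rw [hs, htp]
  · intro i
    obtain ⟨a0, a1⟩ := ht i
    obtain ⟨i1, i2, ⟨m, i3⟩, i4⟩ := h i
    refine ⟨qpt_frontier Q _ a0 a1, qpt_not_ext Q _ a0 a1, i4, ?_⟩
    simp only
    set k := s (i + 1) with hk
    set x := qpt V (s i) (t i) with hx
    set y := qpt V k (t (i + 1)) with hy
    set z := qpt V (s (i + 2)) (t (i + 2)) with hz
    have hf : ∀ p : ℝ × ℝ, σ * ((V (k + 1)).2 - (V k).2) * p.1 + -(σ * ((V (k + 1)).1 - (V k).1)) * p.2
        = (σ * ((V (k + 1)).2 - (V k).2) * (V k).1 + -(σ * ((V (k + 1)).1 - (V k).1)) * (V k).2)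
          - hh V σ k p := by
      intro p
      unfold hh cr
      ring
    have hyk : hh V σ k y = 0 := by
      rw [hy, hh_qpt, hh0, hh1]; ring
    refine ⟨σ * ((V (k + 1)).2 - (V k).2), -(σ * ((V (k + 1)).1 - (V k).1)), ?_, ?_, ?_, ?_, ?_⟩
    · by_contra hcon
      rw [not_or, not_not, not_not] at hcon
      have h1 := hf (V (k + 2))
      rw [hcon.1, hcon.2] at h1
      have h2 : hh V σ k (V (k + 2)) = Dl V σ k := rfl
      rw [h2] at h1
      have h3 := Q.pos k
      linarith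
    · have h1 := hf x
      have h2 := hf z
      rw [i1] at h1
      linarith
    · intro p hp
      rw [hf p, hf y, hyk]
      have := hh_nonneg Q k hp
      linarith
    · rw [hf x, hf y, hyk]
      linarith
    · refine ⟨V m, V_mem m, ?_⟩
      rw [hf x, hf (V m)]
      linarith

theorem step_info (Q : Quad V σ) {j k l : ℕ} {t t' : ℝ} (h : Step (Dl V σ) j t k l t')
    (h0 : 0 < t) (h1 : t < 1) (h0' : 0 < t') (h1' : t' < 1) :
    hh V σ k (qpt V j t) = hh V σ k (qpt V l t') ∧ 0 < hh V σ k (qpt V j t) ∧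
    (∃ m, hh V σ k (qpt V j t) < hh V σ k (V m)) ∧ qpt V l t' ≠ qpt V j t := by
  obtain ⟨o, o', ho, ho', hne, hj, hl, hg⟩ := h
  have e1 := hh_val Q t ho hj
  have e2 := hh_val Q t' ho' hl
  have hD := Q.pos
  have key : ∀ (o : ℕ) (t : ℝ), 0 < t → t < 1 → (o = 1 ∨ o = 3) →
      ∃ m, g (Dl V σ) k o t < hh V σ k (V m) := by
    intro o t h0 h1 ho
    have hDk := hD k
    have hDk3 := hD (k + 3)
    rcases ho with ho | ho
    · subst ho
      refine ⟨k + 2, ?_⟩
      show g (Dl V σ) k 1 t < Dl V σ k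
      simp only [g]
      norm_num
      nlinarith
    · subst ho
      refine ⟨k + 3, ?_⟩
      rw [hh3 Q]
      simp only [g]
      norm_num
      nlinarith
  refine ⟨by rw [e1, e2, hg], ?_, ?_, ?_⟩
  · rw [e1]
    exact g_pos hD k ho h0 h1
  · rw [e1]
    by_cases ho2 : o = 2
    · rw [hg]
      exact key o' t' h0' h1' (by omega)
    · exact key o t h0 h1 (by omega)
  · intro heq
    have hz : hh V σ j (qpt V j t) = 0 := by
      rw [hh_qpt, hh0, hh1]; ring
    have hm : ∃ o, (o = 1 ∨ o = 2 ∨ o = 3) ∧ l % 4 = (j + o) % 4 :=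
      ⟨(l + 3 * j) % 4, by omega, by omega⟩
    obtain ⟨o'', ho'', hlo⟩ := hm
    have h5 := hh_val Q t' ho'' hlo
    have h6 := g_pos hD j ho'' h0' h1'
    rw [← h5, heq, hz] at h6
    exact lt_irrefl _ h6

theorem orbit_po (Q : Quad V σ) (n : ℕ) (hn : 1 < n) (s : ℕ → ℕ) (t : ℕ → ℝ)
    (ht : ∀ i < n, 0 < t i ∧ t i < 1)
    (hstep : ∀ i < n, Step (Dl V σ) (s i) (t i) (s (i + 1)) (s (i + 2)) (t (i + 2)))
    (hs0 : s n = s 0) (ht0 : t n = t 0) (hs1 : s (n + 1) = s 1) (ht1 : t (n + 1) = t 1) :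
    PO (convexHull ℝ (Set.range V)) := by
  have hwrap : ∀ i, s ((i + 1) % n) = s (i % n + 1) ∧ s ((i + 2) % n) = s (i % n + 2) ∧
      t ((i + 2) % n) = t (i % n + 2) := by
    intro i
    have hr : i % n < n := Nat.mod_lt _ (by omega)
    have e1 : (i + 1) % n = (i % n + 1) % n := by rw [Nat.add_mod, Nat.mod_eq_of_lt hn]
    have e2 : (i + 2) % n = (i % n + 2) % n := by
      rw [Nat.mod_add_mod]
    rw [e1, e2]
    refine ⟨?_, ?_, ?_⟩
    · rcases Nat.lt_or_ge (i % n + 1) n with h | h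
      · rw [Nat.mod_eq_of_lt h]
      · have h2 : i % n + 1 = n := by omega
        rw [h2, Nat.mod_self, hs0]
    · rcases Nat.lt_or_ge (i % n + 2) n with h | h
      · rw [Nat.mod_eq_of_lt h]
      · rcases Nat.eq_or_lt_of_le h with h2 | h2
        · rw [← h2, Nat.mod_self, hs0]
        · have h3 : i % n + 2 = n + 1 := by omega
          rw [h3, Nat.add_mod_left, Nat.mod_eq_of_lt hn, hs1]
    · rcases Nat.lt_or_ge (i % n + 2) n with h | h
      · rw [Nat.mod_eq_of_lt h]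
      · rcases Nat.eq_or_lt_of_le h with h2 | h2
        · rw [← h2, Nat.mod_self, ht0]
        · have h3 : i % n + 2 = n + 1 := by omega
          rw [h3, Nat.add_mod_left, Nat.mod_eq_of_lt hn, ht1]
  refine cv_po Q.cv n (by omega) (fun i => s (i % n)) (fun i => t (i % n)) ?_ ?_ ?_ ?_
  · intro i
    simp only [Nat.add_mod_right]
  · intro i
    simp only [Nat.add_mod_right]
  · intro i
    exact ht _ (Nat.mod_lt _ (by omega))
  · intro i
    have hr : i % n < n := Nat.mod_lt _ (by omega)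
    have hr2 : (i + 2) % n < n := Nat.mod_lt _ (by omega)
    obtain ⟨a0, a1⟩ := ht _ hr
    obtain ⟨b0, b1⟩ := ht _ hr2
    have hst := hstep _ hr
    obtain ⟨w1, w2, w3⟩ := hwrap i
    rw [← w1, ← w2, ← w3] at hst
    exact step_info Q hst a0 a1 b0 b1

theorem mkStep (D : ℕ → ℝ) (k j l o o' : ℕ) (t t' : ℝ)
    (h : (o = 1 ∨ o = 2 ∨ o = 3) ∧ (o' = 1 ∨ o' = 2 ∨ o' = 3) ∧ o ≠ o' ∧
      j % 4 = (k + o) % 4 ∧ l % 4 = (k + o') % 4)
    (hg : g D k o t = g D k o' t') : Step D j t k l t' :=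
  ⟨o, o', h.1, h.2.1, h.2.2.1, h.2.2.2.1, h.2.2.2.2, hg⟩

/-- normalised data -/
structure Nrm (V : ℕ → ℝ × ℝ) (σ a c : ℝ) : Prop where
  q : Quad V σ
  d0 : Dl V σ 0 = c
  d1 : Dl V σ 1 = 1
  d2 : Dl V σ 2 = a
  d3 : Dl V σ 3 = a + c - 1
  d4 : Dl V σ 4 = c
  d5 : Dl V σ 5 = 1
  d6 : Dl V σ 6 = a
  a0 : 0 < a
  c0 : 0 < c
  e0 : 0 < a + c - 1
  a1 : a ≤ 1
  c1 : c ≤ 1

theorem case_tri {a c : ℝ} (N : Nrm V σ a c) (ha : a < 1 / 2) :
    PO (convexHull ℝ (Set.range V)) := by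
  have a0 := N.a0
  have c0 := N.c0
  have c1 := N.c1
  have h1a : 0 < 1 - a := by linarith
  have ht0 : 0 < (1 / 2 - a) / (1 - a) ∧ (1 / 2 - a) / (1 - a) < 1 := by
    constructor
    · apply div_pos <;> linarith
    · rw [div_lt_one h1a]; linarith
  have ht2 : 0 < c / (2 * (1 - a)) ∧ c / (2 * (1 - a)) < 1 := by
    constructor
    · positivity
    · rw [div_lt_one (by positivity)]; linarith
  have ht1 : (0 : ℝ) < 1 / 2 ∧ (1 / 2 : ℝ) < 1 := by norm_num
  refine orbit_po N.q 3 (by norm_num)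
    (fun i => match i with | 0 => 0 | 1 => 1 | 2 => 2 | 3 => 0 | _ => 1)
    (fun i => match i with
      | 0 => (1 / 2 - a) / (1 - a) | 1 => 1 / 2 | 2 => c / (2 * (1 - a))
      | 3 => (1 / 2 - a) / (1 - a) | _ => 1 / 2) ?_ ?_ rfl rfl rfl rfl
  · intro i hi
    interval_cases i
    · exact ht0
    · exact ht1
    · exact ht2
  · intro i hi
    interval_cases i
    · refine mkStep _ 1 0 2 3 1 _ _ (by decide) ?_
      simp only [g]
      norm_num [N.d0, N.d1, N.d2, N.d3, N.d4, N.d5, N.d6]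
      field_simp
      ring
    · refine mkStep _ 2 1 0 3 2 _ _ (by decide) ?_
      simp only [g]
      norm_num [N.d0, N.d1, N.d2, N.d3, N.d4, N.d5, N.d6]
      field_simp
      ring
    · refine mkStep _ 0 2 1 2 1 _ _ (by decide) ?_
      simp only [g]
      norm_num [N.d0, N.d1, N.d2, N.d3, N.d4, N.d5, N.d6]
      field_simp
      ring

theorem case_ten {c : ℝ} (N : Nrm V σ (1 / 2) c) (hc : c < 1) :
    PO (convexHull ℝ (Set.range V)) := by
  have c0 := N.c0
  have e0 : 1 / 2 < c := by have := N.e0; linarith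
  have h1c : 0 < 1 - c := by linarith
  have h2c : 0 < 2 * c - 1 := by linarith
  have T0 : 0 < (1 - c) / c ∧ (1 - c) / c < 1 := by
    constructor
    · positivity
    · rw [div_lt_one c0]; linarith
  have T1 : 0 < (2 * c - 1) * (1 - c) / (2 * c ^ 2) ∧ (2 * c - 1) * (1 - c) / (2 * c ^ 2) < 1 := by
    constructor
    · positivity
    · rw [div_lt_one (by positivity)]; nlinarith
  have T2 : 0 < 2 * c - 1 ∧ 2 * c - 1 < 1 := ⟨h2c, by linarith⟩
  have T3 : 0 < (3 * c ^ 2 - 3 * c + 1) / c ^ 2 ∧ (3 * c ^ 2 - 3 * c + 1) / c ^ 2 < 1 := by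
    constructor
    · apply div_pos
      · nlinarith [sq_nonneg (c - 1 / 2)]
      · positivity
    · rw [div_lt_one (by positivity)]; nlinarith
  have T4 : 0 < 1 / (2 * c) ∧ 1 / (2 * c) < 1 := by
    constructor
    · positivity
    · rw [div_lt_one (by positivity)]; linarith
  have T5 : 0 < (2 * c - 1) * (1 - c) / c ∧ (2 * c - 1) * (1 - c) / c < 1 := by
    constructor
    · positivity
    · rw [div_lt_one c0]; nlinarith
  have T6 : 0 < (2 * c - 1) / c ∧ (2 * c - 1) / c < 1 := by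
    constructor
    · positivity
    · rw [div_lt_one c0]; linarith
  have T8 : 0 < (2 * c ^ 2 - 2 * c + 1) / c ∧ (2 * c ^ 2 - 2 * c + 1) / c < 1 := by
    constructor
    · apply div_pos
      · nlinarith [sq_nonneg (c - 1 / 2)]
      · exact c0
    · rw [div_lt_one c0]; nlinarith
  refine orbit_po N.q 10 (by norm_num)
    (fun i => match i with
      | 0 => 0 | 1 => 1 | 2 => 2 | 3 => 0 | 4 => 1 | 5 => 2 | 6 => 3 | 7 => 1 | 8 => 2 | 9 => 3
      | 10 => 0 | _ => 1)
    (fun i => match i with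
      | 0 => (1 - c) / c
      | 1 => (2 * c - 1) * (1 - c) / (2 * c ^ 2)
      | 2 => 2 * c - 1
      | 3 => (3 * c ^ 2 - 3 * c + 1) / c ^ 2
      | 4 => 1 / (2 * c)
      | 5 => (2 * c - 1) * (1 - c) / c
      | 6 => (2 * c - 1) / c
      | 7 => 1 / (2 * c)
      | 8 => (2 * c ^ 2 - 2 * c + 1) / c
      | 9 => (2 * c - 1) / c
      | 10 => (1 - c) / c
      | _ => (2 * c - 1) * (1 - c) / (2 * c ^ 2)) ?_ ?_ rfl rfl rfl rfl
  · intro i hi
    interval_cases i
    · exact T0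
    · exact T1
    · exact T2
    · exact T3
    · exact T4
    · exact T5
    · exact T6
    · exact T4
    · exact T8
    · exact T6
  · intro i hi
    interval_cases i
    · refine mkStep _ 1 0 2 3 1 _ _ (by decide) ?_
      simp only [g]
      norm_num [N.d0, N.d1, N.d2, N.d3, N.d4, N.d5, N.d6]
      field_simp
      ring
    · refine mkStep _ 2 1 0 3 2 _ _ (by decide) ?_
      simp only [g]
      norm_num [N.d0, N.d1, N.d2, N.d3, N.d4, N.d5, N.d6]
      field_simp
      ring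
    · refine mkStep _ 0 2 1 2 1 _ _ (by decide) ?_
      simp only [g]
      norm_num [N.d0, N.d1, N.d2, N.d3, N.d4, N.d5, N.d6]
      field_simp
      ring
    · refine mkStep _ 1 0 2 3 1 _ _ (by decide) ?_
      simp only [g]
      norm_num [N.d0, N.d1, N.d2, N.d3, N.d4, N.d5, N.d6]
      field_simp
      ring
    · refine mkStep _ 2 1 3 3 1 _ _ (by decide) ?_
      simp only [g]
      norm_num [N.d0, N.d1, N.d2, N.d3, N.d4, N.d5, N.d6]
      field_simp
      try ring
    · refine mkStep _ 3 2 1 3 2 _ _ (by decide) ?_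
      simp only [g]
      norm_num [N.d0, N.d1, N.d2, N.d3, N.d4, N.d5, N.d6]
      field_simp
      ring
    · refine mkStep _ 1 3 2 2 1 _ _ (by decide) ?_
      simp only [g]
      norm_num [N.d0, N.d1, N.d2, N.d3, N.d4, N.d5, N.d6]
      field_simp
      ring
    · refine mkStep _ 2 1 3 3 1 _ _ (by decide) ?_
      simp only [g]
      norm_num [N.d0, N.d1, N.d2, N.d3, N.d4, N.d5, N.d6]
      field_simp
      try ring
    · refine mkStep _ 3 2 0 3 1 _ _ (by decide) ?_
      simp only [g]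
      norm_num [N.d0, N.d1, N.d2, N.d3, N.d4, N.d5, N.d6]
      field_simp
      ring
    · refine mkStep _ 0 3 1 3 1 _ _ (by decide) ?_
      simp only [g]
      norm_num [N.d0, N.d1, N.d2, N.d3, N.d4, N.d5, N.d6]
      field_simp
      ring

theorem case_six {a c : ℝ} (N : Nrm V σ a c) (ha : 1 / 2 < a) (ha1 : a < 1) (hc : 1 / 2 < c)
    (hc1 : c < 1) : PO (convexHull ℝ (Set.range V)) := by
  have a0 := N.a0
  have c0 := N.c0
  have p1 : 0 < 1 - a := by linarith
  have p2 : 0 < 1 - c := by linarith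
  obtain ⟨M, hM⟩ : ∃ M, M = (1 - a) * (1 - c) + a * c := ⟨_, rfl⟩
  have hM0 : 0 < M := by rw [hM]; positivity
  have T0 : 0 < 1 - (1 - c) / M ∧ 1 - (1 - c) / M < 1 := by
    have h1 : 0 < (1 - c) / M := by positivity
    have h2 : (1 - c) / M < 1 := by
      rw [div_lt_one hM0, hM]; nlinarith
    constructor <;> linarith
  have T1 : 0 < 1 - a * (1 - a) / M ∧ 1 - a * (1 - a) / M < 1 := by
    have h1 : 0 < a * (1 - a) / M := by positivity
    have h2 : a * (1 - a) / M < 1 := by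
      rw [div_lt_one hM0, hM]; nlinarith
    constructor <;> linarith
  have T2 : 0 < c * (1 - c) / M ∧ c * (1 - c) / M < 1 := by
    constructor
    · positivity
    · rw [div_lt_one hM0, hM]; nlinarith
  have T3 : 0 < (1 - a) / M ∧ (1 - a) / M < 1 := by
    constructor
    · positivity
    · rw [div_lt_one hM0, hM]; nlinarith
  have T4 : 0 < (1 - a) * (1 - c) / M ∧ (1 - a) * (1 - c) / M < 1 := by
    constructor
    · positivity
    · rw [div_lt_one hM0, hM]; nlinarith [mul_pos a0 c0]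
  have T5 : 0 < 1 - (1 - a) * (1 - c) / M ∧ 1 - (1 - a) * (1 - c) / M < 1 := by
    constructor <;> linarith [T4.1, T4.2]
  refine orbit_po N.q 6 (by norm_num)
    (fun i => match i with
      | 0 => 0 | 1 => 1 | 2 => 2 | 3 => 3 | 4 => 1 | 5 => 2 | 6 => 0 | _ => 1)
    (fun i => match i with
      | 0 => 1 - (1 - c) / M
      | 1 => 1 - a * (1 - a) / M
      | 2 => c * (1 - c) / M
      | 3 => (1 - a) / M
      | 4 => (1 - a) * (1 - c) / M
      | 5 => 1 - (1 - a) * (1 - c) / M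
      | 6 => 1 - (1 - c) / M
      | _ => 1 - a * (1 - a) / M) ?_ ?_ rfl rfl rfl rfl
  · intro i hi
    interval_cases i
    · exact T0
    · exact T1
    · exact T2
    · exact T3
    · exact T4
    · exact T5
  · intro i hi
    interval_cases i
    · refine mkStep _ 1 0 2 3 1 _ _ (by decide) ?_
      simp only [g]
      norm_num [N.d0, N.d1, N.d2, N.d3, N.d4, N.d5, N.d6]
      field_simp
      try ring
    · refine mkStep _ 2 1 3 3 1 _ _ (by decide) ?_
      simp only [g]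
      norm_num [N.d0, N.d1, N.d2, N.d3, N.d4, N.d5, N.d6]
      field_simp
      try ring
    · refine mkStep _ 3 2 1 3 2 _ _ (by decide) ?_
      simp only [g]
      norm_num [N.d0, N.d1, N.d2, N.d3, N.d4, N.d5, N.d6]
      field_simp
      rw [hM]
      ring
    · refine mkStep _ 1 3 2 2 1 _ _ (by decide) ?_
      simp only [g]
      norm_num [N.d0, N.d1, N.d2, N.d3, N.d4, N.d5, N.d6]
      field_simp
      try ring
    · refine mkStep _ 2 1 0 3 2 _ _ (by decide) ?_
      simp only [g]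
      norm_num [N.d0, N.d1, N.d2, N.d3, N.d4, N.d5, N.d6]
      field_simp
      try ring
    · refine mkStep _ 0 2 1 2 1 _ _ (by decide) ?_
      simp only [g]
      norm_num [N.d0, N.d1, N.d2, N.d3, N.d4, N.d5, N.d6]
      field_simp
      rw [hM]
      ring

theorem case_par (N : Nrm V σ 1 1) : PO (convexHull ℝ (Set.range V)) := by
  have T : (0 : ℝ) < 1 / 2 ∧ (1 / 2 : ℝ) < 1 := by norm_num
  refine orbit_po N.q 4 (by norm_num) (fun i => i % 4) (fun _ => 1 / 2) ?_ ?_ rfl rfl rfl rfl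
  · intro i hi
    exact T
  · intro i hi
    interval_cases i
    · refine mkStep _ 1 0 2 3 1 _ _ (by decide) ?_
      simp only [g]
      norm_num [N.d0, N.d1, N.d2, N.d3, N.d4, N.d5, N.d6]
    · refine mkStep _ 2 1 3 3 1 _ _ (by decide) ?_
      simp only [g]
      norm_num [N.d0, N.d1, N.d2, N.d3, N.d4, N.d5, N.d6]
    · refine mkStep _ 3 2 0 3 1 _ _ (by decide) ?_
      simp only [g]
      norm_num [N.d0, N.d1, N.d2, N.d3, N.d4, N.d5, N.d6]
    · refine mkStep _ 0 3 1 3 1 _ _ (by decide) ?_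
      simp only [g]
      norm_num [N.d0, N.d1, N.d2, N.d3, N.d4, N.d5, N.d6]

theorem case_trap {c : ℝ} (N : Nrm V σ 1 c) (hc : c < 1) : PO (convexHull ℝ (Set.range V)) := by
  have c0 := N.c0
  have p1 : 0 < 1 - c := by linarith
  obtain ⟨r, hr⟩ : ∃ r, r = c / (1 - c) := ⟨_, rfl⟩
  have hr1 : (1 - c) * r = c := by rw [hr]; field_simp
  have hr0 : 0 ≤ r := by rw [hr]; positivity
  obtain ⟨j, hj⟩ : ∃ j : ℕ, j = ⌊r⌋₊ := ⟨_, rfl⟩
  have hj1 : (j : ℝ) ≤ r := by rw [hj]; exact Nat.floor_le hr0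
  have hj2 : r < j + 1 := by rw [hj]; exact Nat.lt_floor_add_one r
  obtain ⟨y, hy⟩ : ∃ y, y = (1 + j - r) / 2 := ⟨_, rfl⟩
  have hy0 : 0 < y := by rw [hy]; linarith
  have hy1 : y < 1 := by rw [hy]; linarith
  obtain ⟨X, hX⟩ : ∃ X : ℕ → ℝ, ∀ m, X m = (1 - c) * (1 - y + m) := ⟨fun m => (1 - c) * (1 - y + m),
    fun _ => rfl⟩
  have X0 : ∀ m, 0 < X m := by
    intro m
    rw [hX]
    have : (0 : ℝ) ≤ m := Nat.cast_nonneg m
    have h2 : 0 < 1 - y + m := by linarith
    positivity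
  have X1 : ∀ m, m ≤ j → X m < 1 := by
    intro m hm
    have h1 : (m : ℝ) ≤ j := by exact_mod_cast hm
    have h2 : 1 - y + m ≤ 1 / 2 + r := by rw [hy]; linarith
    rw [hX]
    have h3 : (1 - c) * (1 - y + m) ≤ (1 - c) * (1 / 2 + r) := mul_le_mul_of_nonneg_left h2 p1.le
    have h4 : (1 - c) * (1 / 2 + r) = (1 - c) / 2 + c := by rw [mul_add, hr1]; ring
    linarith
  have X2 : ∀ m, m + 1 ≤ j → X m < c := by
    intro m hm
    have h1 : (m : ℝ) + 1 ≤ j := by exact_mod_cast hm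
    have h2 : 1 - y + m ≤ r - 1 / 2 := by rw [hy]; linarith
    rw [hX]
    have h3 : (1 - c) * (1 - y + m) ≤ (1 - c) * (r - 1 / 2) := mul_le_mul_of_nonneg_left h2 p1.le
    have h4 : (1 - c) * (r - 1 / 2) = c - (1 - c) / 2 := by rw [mul_sub, hr1]; ring
    linarith
  have Xs : ∀ m, X (m + 1) = X m + (1 - c) := by
    intro m
    rw [hX, hX]
    push_cast
    ring
  have XJ : X j = (1 - y) * c + y := by
    rw [hX, hy]
    have : (1 - c) * (1 - (1 + (j : ℝ) - r) / 2 + j) = (1 - c) * (1 + j) / 2 + (1 - c) * r / 2 := by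
      ring
    rw [this, hr1]
    have h2 : (1 - (1 + (j : ℝ) - r) / 2) * c + (1 + j - r) / 2 =
      c + (1 - c) * (1 + j) / 2 - (1 - c) * r / 2 := by ring
    rw [h2, hr1]
    ring
  have XZ : 1 - X 0 = y + (1 - y) * c := by
    rw [hX]
    push_cast
    ring
  obtain ⟨s, hs, hsn, hsn1⟩ : ∃ s : ℕ → ℕ, (∀ i, i < 4 * j + 3 → s i = (i + 1) % 4) ∧
      s (4 * j + 3) = 1 ∧ s (4 * j + 3 + 1) = 2 := by
    refine ⟨fun i => if i < 4 * j + 3 then (i + 1) % 4 else if i = 4 * j + 3 then 1 else 2, ?_, ?_, ?_⟩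
    · intro i hi
      simp only
      rw [if_pos hi]
    · simp
    · simp
  obtain ⟨t, t0, t1, t2, t3, htn, htn1⟩ : ∃ t : ℕ → ℝ, (∀ m, 4 * m < 4 * j + 3 → t (4 * m) = y) ∧
      (∀ m, 4 * m + 1 < 4 * j + 3 → t (4 * m + 1) = 1 - X m) ∧
      (∀ m, 4 * m + 2 < 4 * j + 3 → t (4 * m + 2) = 1 - y) ∧
      (∀ m, 4 * m + 3 < 4 * j + 3 → t (4 * m + 3) = X m / c) ∧
      t (4 * j + 3) = y ∧ t (4 * j + 3 + 1) = 1 - X 0 := by
    refine ⟨fun i => if i < 4 * j + 3 then
      (if i % 4 = 0 then y else if i % 4 = 1 then 1 - X (i / 4) else if i % 4 = 2 then 1 - y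
        else X (i / 4) / c) else if i = 4 * j + 3 then y else 1 - X 0, ?_, ?_, ?_, ?_, ?_, ?_⟩
    · intro m hm
      have e : (4 * m) % 4 = 0 := by omega
      simp only
      rw [if_pos hm, if_pos e]
    · intro m hm
      have e : (4 * m + 1) % 4 = 1 := by omega
      have e2 : (4 * m + 1) / 4 = m := by omega
      simp only
      rw [if_pos hm, e, e2]
      norm_num
    · intro m hm
      have e : (4 * m + 2) % 4 = 2 := by omega
      simp only
      rw [if_pos hm, e]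
      norm_num
    · intro m hm
      have e : (4 * m + 3) % 4 = 3 := by omega
      have e2 : (4 * m + 3) / 4 = m := by omega
      simp only
      rw [if_pos hm, e, e2]
      norm_num
    · simp
    · simp
  refine orbit_po N.q (4 * j + 3) (by omega) s t ?_ ?_ ?_ ?_ ?_ ?_
  · intro i hi
    obtain ⟨m, q, hq, rfl⟩ : ∃ m q, q < 4 ∧ i = 4 * m + q := ⟨i / 4, i % 4, by omega, by omega⟩
    interval_cases q
    · rw [Nat.add_zero, t0 m (by omega)]
      exact ⟨hy0, hy1⟩
    · rw [t1 m hi]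
      have := X0 m
      have := X1 m (by omega)
      constructor <;> linarith
    · rw [t2 m hi]
      constructor <;> linarith
    · rw [t3 m hi]
      constructor
      · exact div_pos (X0 m) c0
      · rw [div_lt_one c0]
        exact X2 m (by omega)
  · intro i hi
    rcases Nat.lt_or_ge (i + 2) (4 * j + 3) with h2 | h2
    · obtain ⟨m, q, hq, rfl⟩ : ∃ m q, q < 4 ∧ i = 4 * m + q := ⟨i / 4, i % 4, by omega, by omega⟩
      interval_cases q
      · rw [Nat.add_zero, hs (4 * m) (by omega), hs (4 * m + 1) (by omega),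
          hs (4 * m + 2) (by omega), t0 m (by omega), t2 m (by omega)]
        have e1 : (4 * m + 1) % 4 = 1 := by omega
        have e2 : (4 * m + 1 + 1) % 4 = 2 := by omega
        have e3 : (4 * m + 2 + 1) % 4 = 3 := by omega
        rw [e1, e2, e3]
        refine mkStep _ 2 1 3 3 1 _ _ (by decide) ?_
        simp only [g]
        norm_num [N.d0, N.d1, N.d2, N.d3, N.d4, N.d5, N.d6]
      · rw [hs (4 * m + 1) (by omega), hs (4 * m + 1 + 1) (by omega),
          hs (4 * m + 1 + 2) (by omega), t1 m (by omega)]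
        have e4 : t (4 * m + 1 + 2) = X m / c := t3 m (by omega)
        rw [e4]
        have e1 : (4 * m + 1 + 1) % 4 = 2 := by omega
        have e2 : (4 * m + 1 + 1 + 1) % 4 = 3 := by omega
        have e3 : (4 * m + 1 + 2 + 1) % 4 = 0 := by omega
        rw [e1, e2, e3]
        refine mkStep _ 3 2 0 3 1 _ _ (by decide) ?_
        simp only [g]
        norm_num [N.d0, N.d1, N.d2, N.d3, N.d4, N.d5, N.d6]
        field_simp
      · rw [hs (4 * m + 2) (by omega), hs (4 * m + 2 + 1) (by omega),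
          hs (4 * m + 2 + 2) (by omega), t2 m (by omega)]
        have e4 : t (4 * m + 2 + 2) = y := t0 (m + 1) (by omega)
        rw [e4]
        have e1 : (4 * m + 2 + 1) % 4 = 3 := by omega
        have e2 : (4 * m + 2 + 1 + 1) % 4 = 0 := by omega
        have e3 : (4 * m + 2 + 2 + 1) % 4 = 1 := by omega
        rw [e1, e2, e3]
        refine mkStep _ 0 3 1 3 1 _ _ (by decide) ?_
        simp only [g]
        norm_num [N.d0, N.d1, N.d2, N.d3, N.d4, N.d5, N.d6]
      · rw [hs (4 * m + 3) (by omega), hs (4 * m + 3 + 1) (by omega),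
          hs (4 * m + 3 + 2) (by omega), t3 m (by omega)]
        have e4 : t (4 * m + 3 + 2) = 1 - X (m + 1) := t1 (m + 1) (by omega)
        rw [e4, Xs]
        have e1 : (4 * m + 3 + 1) % 4 = 0 := by omega
        have e2 : (4 * m + 3 + 1 + 1) % 4 = 1 := by omega
        have e3 : (4 * m + 3 + 2 + 1) % 4 = 2 := by omega
        rw [e1, e2, e3]
        refine mkStep _ 1 0 2 3 1 _ _ (by decide) ?_
        simp only [g]
        norm_num [N.d0, N.d1, N.d2, N.d3, N.d4, N.d5, N.d6]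
        field_simp
        ring
    · have h3 : i = 4 * j + 1 ∨ i = 4 * j + 2 := by omega
      rcases h3 with h3 | h3
      · subst h3
        have e5 : s (4 * j + 1 + 2) = 1 := hsn
        have e6 : t (4 * j + 1 + 2) = y := htn
        rw [hs (4 * j + 1) (by omega), hs (4 * j + 1 + 1) (by omega), e5, e6, t1 j (by omega), XJ]
        have e1 : (4 * j + 1 + 1) % 4 = 2 := by omega
        have e2 : (4 * j + 1 + 1 + 1) % 4 = 3 := by omega
        rw [e1, e2]
        refine mkStep _ 3 2 1 3 2 _ _ (by decide) ?_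
        simp only [g]
        norm_num [N.d0, N.d1, N.d2, N.d3, N.d4, N.d5, N.d6]
      · subst h3
        have e5 : s (4 * j + 2 + 2) = 2 := hsn1
        have e7 : s (4 * j + 2 + 1) = 1 := hsn
        have e6 : t (4 * j + 2 + 2) = 1 - X 0 := htn1
        rw [hs (4 * j + 2) (by omega), e7, e5, e6, t2 j (by omega), XZ]
        have e1 : (4 * j + 2 + 1) % 4 = 3 := by omega
        rw [e1]
        refine mkStep _ 1 3 2 2 1 _ _ (by decide) ?_
        simp only [g]
        norm_num [N.d0, N.d1, N.d2, N.d3, N.d4, N.d5, N.d6]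
  · rw [hsn, hs 0 (by omega)]
  · rw [htn]
    exact (t0 0 (by omega)).symm
  · rw [hsn1, hs 1 (by omega)]
  · rw [htn1]
    exact (t1 0 (by omega)).symm


theorem range_rot (h : ∀ k, V (k + 4) = V k) (r : ℕ) :
    Set.range (fun k => V (k + r)) = Set.range V := by
  ext p
  constructor
  · rintro ⟨k, rfl⟩
    exact ⟨k + r, rfl⟩
  · rintro ⟨k, rfl⟩
    refine ⟨k + 3 * r, ?_⟩
    show V (k + 3 * r + r) = V k
    exact V_congr h (by omega)

theorem range_mir (h : ∀ k, V (k + 4) = V k) :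
    Set.range (fun k => V (3 * k)) = Set.range V := by
  ext p
  constructor
  · rintro ⟨k, rfl⟩
    exact ⟨3 * k, rfl⟩
  · rintro ⟨k, rfl⟩
    refine ⟨3 * k, ?_⟩
    show V (3 * (3 * k)) = V k
    exact V_congr h (by omega)

theorem quad_mir (Q : Quad V σ) : Quad (fun k => V (3 * k)) (-σ) ∧
    ∀ k, Dl (fun k => V (3 * k)) (-σ) k = Dl V σ (3 * k + 2) := by
  have key : ∀ k, Dl (fun k => V (3 * k)) (-σ) k = Dl V σ (3 * k + 2) := by
    intro k
    have e1 : V (3 * (k + 1)) = V (3 * k + 3) := rfl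
    have e2 : V (3 * (k + 2)) = V (3 * k + 2) := V_congr Q.per (by omega)
    have e3 : V (3 * k + 2 + 1) = V (3 * k + 3) := rfl
    have e4 : V (3 * k + 2 + 2) = V (3 * k) := V_congr Q.per (by omega)
    unfold Dl hh
    simp only
    rw [e1, e2, e3, e4]
    unfold cr
    ring
  refine ⟨⟨?_, ?_⟩, key⟩
  · intro k
    show V (3 * (k + 4)) = V (3 * k)
    exact V_congr Q.per (by omega)
  · intro k
    rw [key]
    exact Q.pos _

theorem nrm_mir {a c : ℝ} (N : Nrm V σ a c) : Nrm (fun k => V (3 * k)) (-σ) c a := by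
  obtain ⟨Q, hD⟩ := quad_mir N.q
  have hp := Dl_per N.q
  have hp2 : ∀ k, Dl V σ (k + 8) = Dl V σ k := fun k => by
    rw [show k + 8 = k + 4 + 4 by ring, hp, hp]
  have hp3 : ∀ k, Dl V σ (k + 12) = Dl V σ k := fun k => by
    rw [show k + 12 = k + 8 + 4 by ring, hp, hp2]
  have hp4 : ∀ k, Dl V σ (k + 16) = Dl V σ k := fun k => by
    rw [show k + 16 = k + 12 + 4 by ring, hp, hp3]
  have hp5 : ∀ k, Dl V σ (k + 20) = Dl V σ k := fun k => by
    rw [show k + 20 = k + 16 + 4 by ring, hp, hp4]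
  refine ⟨Q, ?_, ?_, ?_, ?_, ?_, ?_, ?_, N.c0, N.a0, ?_, N.c1, N.a1⟩
  · rw [hD]; exact N.d2
  · rw [hD]; exact N.d5
  · rw [hD]
    show Dl V σ (0 + 8) = c
    rw [hp2]; exact N.d0
  · rw [hD]
    show Dl V σ (3 + 8) = c + a - 1
    rw [hp2, N.d3]; ring
  · rw [hD]
    show Dl V σ (2 + 12) = a
    rw [hp3]; exact N.d2
  · rw [hD]
    show Dl V σ (1 + 16) = 1
    rw [hp4]; exact N.d1
  · rw [hD]
    show Dl V σ (0 + 20) = c
    rw [hp5]; exact N.d0
  · have := N.e0
    linarith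

theorem nrm_po {a c : ℝ} (N : Nrm V σ a c) : PO (convexHull ℝ (Set.range V)) := by
  have N' := nrm_mir N
  have hr := range_mir (V := V) N.q.per
  rcases lt_trichotomy a (1 / 2) with h | h | h
  · exact case_tri N h
  · subst h
    rcases lt_or_eq_of_le N.c1 with h2 | h2
    · exact case_ten N h2
    · subst h2
      rw [← hr]
      exact case_trap N' (by norm_num)
  · rcases lt_trichotomy c (1 / 2) with h2 | h2 | h2
    · rw [← hr]
      exact case_tri N' h2
    · subst h2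
      rcases lt_or_eq_of_le N.a1 with h3 | h3
      · rw [← hr]
        exact case_ten N' h3
      · subst h3
        exact case_trap N (by norm_num)
    · rcases lt_or_eq_of_le N.a1 with h3 | h3
      · rcases lt_or_eq_of_le N.c1 with h4 | h4
        · exact case_six N h h3 h2 h4
        · subst h4
          rw [← hr]
          exact case_trap N' h3
      · subst h3
        rcases lt_or_eq_of_le N.c1 with h4 | h4
        · exact case_trap N h4
        · subst h4
          exact case_par N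

theorem Dl_scale (d : ℝ) (k : ℕ) : Dl V (σ / d) k = Dl V σ k / d := by
  unfold Dl hh
  ring

/-- a convex quadrilateral whose label 1 is a largest one -/
theorem quad_po_aux (Q : Quad V σ) (h0 : Dl V σ 0 ≤ Dl V σ 1) (h2 : Dl V σ 2 ≤ Dl V σ 1) :
    PO (convexHull ℝ (Set.range V)) := by
  have hd := Q.pos 1
  have hs := Dl_sum Q
  have hp := Dl_per Q
  have Q' : Quad V (σ / Dl V σ 1) := ⟨Q.per, fun k => by
    rw [Dl_scale]
    exact div_pos (Q.pos k) hd⟩
  refine nrm_po (σ := σ / Dl V σ 1) (a := Dl V σ 2 / Dl V σ 1) (c := Dl V σ 0 / Dl V σ 1)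
    ⟨Q', ?_, ?_, ?_, ?_, ?_, ?_, ?_, ?_, ?_, ?_, ?_, ?_⟩
  · rw [Dl_scale]
  · rw [Dl_scale]; exact div_self hd.ne'
  · rw [Dl_scale]
  · rw [Dl_scale]
    have : Dl V σ 3 = Dl V σ 2 + Dl V σ 0 - Dl V σ 1 := by linarith
    rw [this]
    field_simp
  · rw [Dl_scale, show (4 : ℕ) = 0 + 4 from rfl, hp]
  · rw [Dl_scale, show (5 : ℕ) = 1 + 4 from rfl, hp]; exact div_self hd.ne'
  · rw [Dl_scale, show (6 : ℕ) = 2 + 4 from rfl, hp]
  · exact div_pos (Q.pos 2) hd
  · exact div_pos (Q.pos 0) hd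
  · have h3 := Q.pos 3
    have : Dl V σ 2 / Dl V σ 1 + Dl V σ 0 / Dl V σ 1 - 1 = Dl V σ 3 / Dl V σ 1 := by
      have : Dl V σ 3 = Dl V σ 2 + Dl V σ 0 - Dl V σ 1 := by linarith
      rw [this]
      field_simp
    rw [this]
    exact div_pos h3 hd
  · rw [div_le_one hd]; exact h2
  · rw [div_le_one hd]; exact h0

theorem quad_rot (Q : Quad V σ) (r : ℕ) : Quad (fun k => V (k + r)) σ ∧
    ∀ k, Dl (fun k => V (k + r)) σ k = Dl V σ (k + r) := by
  have key : ∀ k, Dl (fun k => V (k + r)) σ k = Dl V σ (k + r) := by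
    intro k
    unfold Dl hh
    simp only
    rw [show k + 1 + r = k + r + 1 by ring, show k + 2 + r = k + r + 2 by ring]
  refine ⟨⟨?_, ?_⟩, key⟩
  · intro k
    show V (k + 4 + r) = V (k + r)
    exact V_congr Q.per (by omega)
  · intro k
    rw [key]
    exact Q.pos _

/-- every convex quadrilateral has a periodic orbit -/
theorem quad_po (Q : Quad V σ) : PO (convexHull ℝ (Set.range V)) := by
  have hs := Dl_sum Q
  have hp := Dl_per Q
  have key : ∀ r, Dl V σ (0 + r) ≤ Dl V σ (1 + r) → Dl V σ (2 + r) ≤ Dl V σ (1 + r) →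
      PO (convexHull ℝ (Set.range V)) := by
    intro r h1 h2
    obtain ⟨Q', hD⟩ := quad_rot Q r
    rw [← range_rot Q.per r]
    exact quad_po_aux Q' (by rw [hD, hD]; exact h1) (by rw [hD, hD]; exact h2)
  have h4 : Dl V σ 4 = Dl V σ 0 := hp 0
  have h5 : Dl V σ 5 = Dl V σ 1 := hp 1
  rcases le_total (Dl V σ 0) (Dl V σ 1) with h | h
  · rcases le_total (Dl V σ 2) (Dl V σ 1) with h2 | h2
    · exact key 0 h h2
    · refine key 1 h2 ?_
      show Dl V σ 3 ≤ Dl V σ 2
      linarith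
  · rcases le_total (Dl V σ 2) (Dl V σ 1) with h2 | h2
    · refine key 3 ?_ ?_
      · show Dl V σ 3 ≤ Dl V σ 4
        linarith
      · show Dl V σ 5 ≤ Dl V σ 4
        linarith
    · refine key 2 ?_ ?_
      · show Dl V σ 2 ≤ Dl V σ 3
        linarith
      · show Dl V σ 4 ≤ Dl V σ 3
        linarith


theorem tri_po (hper : ∀ k, V (k + 3) = V k) (hpos : ∀ k, 0 < Dl V σ k) :
    PO (convexHull ℝ (Set.range V)) := by
  have hmod : ∀ {j k : ℕ}, j % 3 = k % 3 → V j = V k := by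
    intro j k hjk
    have hp : Function.Periodic V 3 := hper
    rw [← hp.map_mod_nat j, ← hp.map_mod_nat k, hjk]
  have Q : Cv V σ := by
    refine ⟨?_, hpos⟩
    intro k m
    have hm : ∃ o, o < 3 ∧ m % 3 = (k + o) % 3 := ⟨(m + 2 * k) % 3, by omega, by omega⟩
    obtain ⟨o, ho, hmo⟩ := hm
    rw [hmod hmo]
    interval_cases o
    · rw [Nat.add_zero, hh0]
    · rw [hh1]
    · exact (hpos k).le
  have e1 : ∀ i, qpt V (i % 3) (1 / 2) = qpt V i (1 / 2) := by
    intro i
    rw [qpt_eq, qpt_eq, hmod (show (i % 3) % 3 = i % 3 by omega),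
      hmod (show (i % 3 + 1) % 3 = (i + 1) % 3 by omega)]
  have e2 : ∀ i p, hh V σ (i % 3) p = hh V σ i p := by
    intro i p
    unfold hh
    rw [hmod (show (i % 3) % 3 = i % 3 by omega),
      hmod (show (i % 3 + 1) % 3 = (i + 1) % 3 by omega)]
  have a1 : ∀ i, hh V σ (i + 1) (qpt V i (1 / 2)) = 1 / 2 * Dl V σ (i + 1) := by
    intro i
    have h3 : V i = V (i + 1 + 2) := (hper i).symm
    rw [hh_qpt, hh0, h3]
    have : hh V σ (i + 1) (V (i + 1 + 2)) = Dl V σ (i + 1) := rfl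
    rw [this]
    ring
  have a2 : ∀ i, hh V σ i (qpt V (i + 1) (1 / 2)) = 1 / 2 * Dl V σ i := by
    intro i
    rw [hh_qpt, hh1]
    have : hh V σ i (V (i + 1 + 1)) = Dl V σ i := rfl
    rw [this]
    ring
  refine cv_po Q 3 (by norm_num) (fun i => i % 3) (fun _ => 1 / 2) ?_ ?_ ?_ ?_
  · intro i
    simp only [Nat.add_mod_right]
  · intro i
    rfl
  · intro i
    norm_num
  · intro i
    rw [e1, e1, e2, e2, a1]
    have h2 : hh V σ (i + 1) (qpt V (i + 2) (1 / 2)) = 1 / 2 * Dl V σ (i + 1) := a2 (i + 1)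
    have hp := hpos (i + 1)
    refine ⟨h2.symm, by linarith, ⟨i + 1 + 2, ?_⟩, ?_⟩
    · rw [e2]
      show 1 / 2 * Dl V σ (i + 1) < Dl V σ (i + 1)
      linarith
    · intro heq
      have h3 : hh V σ i (qpt V i (1 / 2)) = 0 := by
        rw [hh_qpt, hh0, hh1]; ring
      rw [← heq] at h3
      have h4 : hh V σ i (qpt V (i + 2) (1 / 2)) = 1 / 2 * Dl V σ i := by
        rw [hh_qpt]
        have e5 : V (i + 2 + 1) = V i := hper i
        have e6 : hh V σ i (V (i + 2)) = Dl V σ i := rfl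
        rw [e5, hh0, e6]
        ring
      rw [h4] at h3
      have := hpos i
      linarith

end

theorem tri_set (A B C : ℝ × ℝ) (h : cr A B C ≠ 0) :
    PO (convexHull ℝ ({A, B, C} : Set (ℝ × ℝ))) := by
  have hr : Set.range (fun k : ℕ => if k % 3 = 0 then A else if k % 3 = 1 then B else C) =
      {A, B, C} := by
    ext p
    simp only [Set.mem_range, Set.mem_insert_iff, Set.mem_singleton_iff]
    constructor
    · rintro ⟨k, rfl⟩
      split_ifs <;> simp
    · rintro (h | h | h)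
      · exact ⟨0, by simp [h]⟩
      · exact ⟨1, by simp [h]⟩
      · exact ⟨2, by simp [h]⟩
  rw [← hr]
  refine tri_po (σ := cr A B C) ?_ ?_
  · intro k
    have : (k + 3) % 3 = k % 3 := by omega
    simp only [this]
  · intro k
    have hs : 0 < cr A B C * cr A B C := mul_self_pos.2 h
    unfold Dl hh
    have h3 : k % 3 = 0 ∨ k % 3 = 1 ∨ k % 3 = 2 := by omega
    rcases h3 with h3 | h3 | h3
    · have e1 : (k + 1) % 3 = 1 := by omega
      have e2 : (k + 2) % 3 = 2 := by omega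
      simp only [h3, e1, e2]
      norm_num
      exact h
    · have e1 : (k + 1) % 3 = 2 := by omega
      have e2 : (k + 2) % 3 = 0 := by omega
      simp only [h3, e1, e2]
      norm_num
      have : cr B C A = cr A B C := by unfold cr; ring
      rw [this]
      exact hs
    · have e1 : (k + 1) % 3 = 0 := by omega
      have e2 : (k + 2) % 3 = 1 := by omega
      simp only [h3, e1, e2]
      norm_num
      have : cr C A B = cr A B C := by unfold cr; ring
      rw [this]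
      exact hs

theorem quad_set (A B C D : ℝ × ℝ) (σ : ℝ) (h0 : 0 < σ * cr A B C) (h1 : 0 < σ * cr B C D)
    (h2 : 0 < σ * cr C D A) (h3 : 0 < σ * cr D A B) :
    PO (convexHull ℝ ({A, B, C, D} : Set (ℝ × ℝ))) := by
  have hr : Set.range (fun k : ℕ => if k % 4 = 0 then A else if k % 4 = 1 then B else
      if k % 4 = 2 then C else D) = {A, B, C, D} := by
    ext p
    simp only [Set.mem_range, Set.mem_insert_iff, Set.mem_singleton_iff]
    constructor
    · rintro ⟨k, rfl⟩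
      split_ifs <;> simp
    · rintro (h | h | h | h)
      · exact ⟨0, by simp [h]⟩
      · exact ⟨1, by simp [h]⟩
      · exact ⟨2, by simp [h]⟩
      · exact ⟨3, by simp [h]⟩
  rw [← hr]
  refine quad_po (σ := σ) ⟨?_, ?_⟩
  · intro k
    have : (k + 4) % 4 = k % 4 := by omega
    simp only [this]
  · intro k
    unfold Dl hh
    have h4 : k % 4 = 0 ∨ k % 4 = 1 ∨ k % 4 = 2 ∨ k % 4 = 3 := by omega
    rcases h4 with h4 | h4 | h4 | h4
    · have e1 : (k + 1) % 4 = 1 := by omega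
      have e2 : (k + 2) % 4 = 2 := by omega
      simp only [h4, e1, e2]
      norm_num
      exact h0
    · have e1 : (k + 1) % 4 = 2 := by omega
      have e2 : (k + 2) % 4 = 3 := by omega
      simp only [h4, e1, e2]
      norm_num
      exact h1
    · have e1 : (k + 1) % 4 = 3 := by omega
      have e2 : (k + 2) % 4 = 0 := by omega
      simp only [h4, e1, e2]
      norm_num
      exact h2
    · have e1 : (k + 1) % 4 = 0 := by omega
      have e2 : (k + 2) % 4 = 1 := by omega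
      simp only [h4, e1, e2]
      norm_num
      exact h3

theorem line_empty (S : Set (ℝ × ℝ)) (a b c : ℝ) (hab : a ≠ 0 ∨ b ≠ 0)
    (h : ∀ p ∈ S, a * p.1 + b * p.2 = c) : ¬ (interior (convexHull ℝ S)).Nonempty := by
  rintro ⟨x, hx⟩
  have hc : Convex ℝ {p : ℝ × ℝ | a * p.1 + b * p.2 = c} := by
    intro x hx y hy u v hu hv huv
    have hx' : a * x.1 + b * x.2 = c := hx
    have hy' : a * y.1 + b * y.2 = c := hy
    show a * (u • x + v • y).1 + b * (u • x + v • y).2 = c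
    simp only [Prod.fst_add, Prod.snd_add, Prod.smul_fst, Prod.smul_snd, smul_eq_mul]
    have : a * (u * x.1 + v * y.1) + b * (u * x.2 + v * y.2) =
      u * (a * x.1 + b * x.2) + v * (a * y.1 + b * y.2) := by ring
    rw [this, hx', hy', ← add_mul, huv, one_mul]
  have hsub : convexHull ℝ S ⊆ {p : ℝ × ℝ | a * p.1 + b * p.2 = c} := convexHull_min h hc
  have hcont : Continuous (fun ε : ℝ => x + ε • ((a, b) : ℝ × ℝ)) := by fun_prop
  have h2 : Filter.Tendsto (fun ε : ℝ => x + ε • ((a, b) : ℝ × ℝ)) (nhds 0)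
      (nhds (x + (0 : ℝ) • ((a, b) : ℝ × ℝ))) := hcont.tendsto 0
  rw [zero_smul, add_zero] at h2
  have h4 := h2.eventually (isOpen_interior.mem_nhds hx)
  have h5 : ∀ᶠ ε : ℝ in nhdsWithin 0 (Set.Ioi 0), 0 < ε := self_mem_nhdsWithin
  obtain ⟨ε, hε1, hε2⟩ := ((h4.filter_mono nhdsWithin_le_nhds).and h5).exists
  have h6 : a * (x + ε • ((a, b) : ℝ × ℝ)).1 + b * (x + ε • ((a, b) : ℝ × ℝ)).2 = c :=
    hsub (interior_subset hε1)
  have h7 : a * x.1 + b * x.2 = c := hsub (interior_subset hx)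
  simp only [Prod.fst_add, Prod.snd_add, Prod.smul_fst, Prod.smul_snd, smul_eq_mul] at h6
  have h8 : ε * (a ^ 2 + b ^ 2) = 0 := by nlinarith
  have h9 : 0 < a ^ 2 + b ^ 2 := by
    rcases hab with h | h
    · positivity
    · positivity
  have h10 : 0 < ε * (a ^ 2 + b ^ 2) := by positivity
  linarith

theorem line_AB (A B : ℝ × ℝ) (hAB : A ≠ B) (S : Set (ℝ × ℝ)) (h : ∀ p ∈ S, cr A B p = 0) :
    ¬ (interior (convexHull ℝ S)).Nonempty := by
  refine line_empty S (B.2 - A.2) (-(B.1 - A.1)) ((B.2 - A.2) * A.1 - (B.1 - A.1) * A.2) ?_ ?_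
  · by_contra hcon
    rw [not_or, not_not, not_not] at hcon
    apply hAB
    ext
    · linarith [hcon.2]
    · linarith [hcon.1]
  · intro p hp
    have := h p hp
    unfold cr at this
    linarith

theorem conv_of (P Q R S : ℝ × ℝ) (p q r s : ℝ) (hp : 0 < p) (hq : q ≤ 0) (hr : r ≤ 0)
    (hs : s ≤ 0) (hsum : p + q + r + s = 0) (h1 : p * P.1 + q * Q.1 + r * R.1 + s * S.1 = 0)
    (h2 : p * P.2 + q * Q.2 + r * R.2 + s * S.2 = 0) :
    P ∈ convexHull ℝ ({Q, R, S} : Set (ℝ × ℝ)) := by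
  have hc := convex_convexHull ℝ ({Q, R, S} : Set (ℝ × ℝ))
  have hQ : Q ∈ convexHull ℝ ({Q, R, S} : Set (ℝ × ℝ)) := subset_convexHull ℝ _ (by simp)
  have hR : R ∈ convexHull ℝ ({Q, R, S} : Set (ℝ × ℝ)) := subset_convexHull ℝ _ (by simp)
  have hS : S ∈ convexHull ℝ ({Q, R, S} : Set (ℝ × ℝ)) := subset_convexHull ℝ _ (by simp)
  have key := hc.sum_mem (t := (Finset.univ : Finset (Fin 3))) (w := ![-q / p, -r / p, -s / p])
    (z := ![Q, R, S]) ?_ ?_ ?_
  · have e : ∑ i : Fin 3, (![-q / p, -r / p, -s / p] i) • (![Q, R, S] i) = P := by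
      rw [Fin.sum_univ_three]
      simp only [Matrix.cons_val_zero, Matrix.cons_val_one, Matrix.cons_val]
      ext
      · simp only [Prod.fst_add, Prod.smul_fst, smul_eq_mul]
        field_simp
        linarith
      · simp only [Prod.snd_add, Prod.smul_snd, smul_eq_mul]
        field_simp
        linarith
    rw [e] at key
    exact key
  · intro i _
    fin_cases i
    · show 0 ≤ -q / p
      apply div_nonneg <;> linarith
    · show 0 ≤ -r / p
      apply div_nonneg <;> linarith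
    · show 0 ≤ -s / p
      apply div_nonneg <;> linarith
  · rw [Fin.sum_univ_three]
    simp only [Matrix.cons_val_zero, Matrix.cons_val_one, Matrix.cons_val]
    field_simp
    linarith
  · intro i _
    fin_cases i
    · exact hQ
    · exact hR
    · exact hS


theorem four_po (A B C D : ℝ × ℝ)
    (hA : A ∉ convexHull ℝ ({B, C, D} : Set (ℝ × ℝ)))
    (hB : B ∉ convexHull ℝ ({A, C, D} : Set (ℝ × ℝ)))
    (hC : C ∉ convexHull ℝ ({A, B, D} : Set (ℝ × ℝ)))
    (hD : D ∉ convexHull ℝ ({A, B, C} : Set (ℝ × ℝ)))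
    (hint : (interior (convexHull ℝ ({A, B, C, D} : Set (ℝ × ℝ)))).Nonempty) :
    PO (convexHull ℝ ({A, B, C, D} : Set (ℝ × ℝ))) := by
  have hAB : A ≠ B := by
    intro h
    exact hA (subset_convexHull ℝ _ (by rw [h]; simp))
  obtain ⟨wA, eA⟩ : ∃ w, w = cr B C D := ⟨_, rfl⟩
  obtain ⟨wB, eB⟩ : ∃ w, w = -cr A C D := ⟨_, rfl⟩
  obtain ⟨wC, eC⟩ : ∃ w, w = cr A B D := ⟨_, rfl⟩
  obtain ⟨wD, eD⟩ : ∃ w, w = -cr A B C := ⟨_, rfl⟩
  have hs : wA + wB + wC + wD = 0 := by
    rw [eA, eB, eC, eD]; unfold cr; ring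
  have h1 : wA * A.1 + wB * B.1 + wC * C.1 + wD * D.1 = 0 := by
    rw [eA, eB, eC, eD]; unfold cr; ring
  have h2 : wA * A.2 + wB * B.2 + wC * C.2 + wD * D.2 = 0 := by
    rw [eA, eB, eC, eD]; unfold cr; ring
  have NA : ¬ (0 < wA ∧ wB ≤ 0 ∧ wC ≤ 0 ∧ wD ≤ 0) := fun h =>
    hA (conv_of A B C D wA wB wC wD h.1 h.2.1 h.2.2.1 h.2.2.2 (by linarith) (by linarith)
      (by linarith))
  have NA' : ¬ (wA < 0 ∧ 0 ≤ wB ∧ 0 ≤ wC ∧ 0 ≤ wD) := fun h =>
    hA (conv_of A B C D (-wA) (-wB) (-wC) (-wD) (by linarith [h.1]) (by linarith [h.2.1])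
      (by linarith [h.2.2.1]) (by linarith [h.2.2.2]) (by linarith) (by linarith) (by linarith))
  have NB : ¬ (0 < wB ∧ wA ≤ 0 ∧ wC ≤ 0 ∧ wD ≤ 0) := fun h =>
    hB (conv_of B A C D wB wA wC wD h.1 h.2.1 h.2.2.1 h.2.2.2 (by linarith) (by linarith)
      (by linarith))
  have NB' : ¬ (wB < 0 ∧ 0 ≤ wA ∧ 0 ≤ wC ∧ 0 ≤ wD) := fun h =>
    hB (conv_of B A C D (-wB) (-wA) (-wC) (-wD) (by linarith [h.1]) (by linarith [h.2.1])
      (by linarith [h.2.2.1]) (by linarith [h.2.2.2]) (by linarith) (by linarith) (by linarith))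
  have NC : ¬ (0 < wC ∧ wA ≤ 0 ∧ wB ≤ 0 ∧ wD ≤ 0) := fun h =>
    hC (conv_of C A B D wC wA wB wD h.1 h.2.1 h.2.2.1 h.2.2.2 (by linarith) (by linarith)
      (by linarith))
  have NC' : ¬ (wC < 0 ∧ 0 ≤ wA ∧ 0 ≤ wB ∧ 0 ≤ wD) := fun h =>
    hC (conv_of C A B D (-wC) (-wA) (-wB) (-wD) (by linarith [h.1]) (by linarith [h.2.1])
      (by linarith [h.2.2.1]) (by linarith [h.2.2.2]) (by linarith) (by linarith) (by linarith))
  have ND : ¬ (0 < wD ∧ wA ≤ 0 ∧ wB ≤ 0 ∧ wC ≤ 0) := fun h =>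
    hD (conv_of D A B C wD wA wB wC h.1 h.2.1 h.2.2.1 h.2.2.2 (by linarith) (by linarith)
      (by linarith))
  have ND' : ¬ (wD < 0 ∧ 0 ≤ wA ∧ 0 ≤ wB ∧ 0 ≤ wC) := fun h =>
    hD (conv_of D A B C (-wD) (-wA) (-wB) (-wC) (by linarith [h.1]) (by linarith [h.2.1])
      (by linarith [h.2.2.1]) (by linarith [h.2.2.2]) (by linarith) (by linarith) (by linarith))
  have c1 : cr C D A = -wB := by rw [eB]; unfold cr; ring
  have c2 : cr D A B = wC := by rw [eC]; unfold cr; ring
  have c3 : cr A B C = -wD := by rw [eD]; ring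
  have c4 : cr B C D = wA := eA.symm
  have d1 : cr A C B = wD := by rw [eD]; unfold cr; ring
  have d2 : cr C B D = -wA := by rw [eA]; unfold cr; ring
  have d3 : cr B D A = wC := by rw [eC]; unfold cr; ring
  have d4 : cr D A C = -wB := by rw [eB]; unfold cr; ring
  have f1 : cr A B D = wC := eC.symm
  have f2 : cr B D C = -wA := by rw [eA]; unfold cr; ring
  have f3 : cr D C A = wB := by rw [eB]; unfold cr; ring
  have f4 : cr C A B = -wD := by rw [eD]; unfold cr; ring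
  have setACBD : ({A, C, B, D} : Set (ℝ × ℝ)) = {A, B, C, D} := by
    rw [Set.insert_comm C B {D}]
  have setABDC : ({A, B, D, C} : Set (ℝ × ℝ)) = {A, B, C, D} := by
    rw [Set.pair_comm D C]
  -- diagonals AC, BD
  have Q1 : (0 < wA ∧ 0 < wC ∧ wB < 0 ∧ wD < 0) → PO (convexHull ℝ ({A, B, C, D} : Set (ℝ × ℝ))) := by
    rintro ⟨a, b, c, d⟩
    refine quad_set A B C D 1 ?_ ?_ ?_ ?_
    · rw [c3]; linarith
    · rw [c4]; linarith
    · rw [c1]; linarith
    · rw [c2]; linarith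
  have Q1' : (wA < 0 ∧ wC < 0 ∧ 0 < wB ∧ 0 < wD) →
      PO (convexHull ℝ ({A, B, C, D} : Set (ℝ × ℝ))) := by
    rintro ⟨a, b, c, d⟩
    refine quad_set A B C D (-1) ?_ ?_ ?_ ?_
    · rw [c3]; linarith
    · rw [c4]; linarith
    · rw [c1]; linarith
    · rw [c2]; linarith
  -- diagonals AB, CD
  have Q2 : (0 < wA ∧ 0 < wB ∧ wC < 0 ∧ wD < 0) → PO (convexHull ℝ ({A, B, C, D} : Set (ℝ × ℝ))) := by
    rintro ⟨a, b, c, d⟩
    rw [← setACBD]
    refine quad_set A C B D (-1) ?_ ?_ ?_ ?_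
    · rw [d1]; linarith
    · rw [d2]; linarith
    · rw [d3]; linarith
    · rw [d4]; linarith
  have Q2' : (wA < 0 ∧ wB < 0 ∧ 0 < wC ∧ 0 < wD) →
      PO (convexHull ℝ ({A, B, C, D} : Set (ℝ × ℝ))) := by
    rintro ⟨a, b, c, d⟩
    rw [← setACBD]
    refine quad_set A C B D 1 ?_ ?_ ?_ ?_
    · rw [d1]; linarith
    · rw [d2]; linarith
    · rw [d3]; linarith
    · rw [d4]; linarith
  -- diagonals AD, BC
  have Q3 : (0 < wA ∧ 0 < wD ∧ wB < 0 ∧ wC < 0) → PO (convexHull ℝ ({A, B, C, D} : Set (ℝ × ℝ))) := by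
    rintro ⟨a, b, c, d⟩
    rw [← setABDC]
    refine quad_set A B D C (-1) ?_ ?_ ?_ ?_
    · rw [f1]; linarith
    · rw [f2]; linarith
    · rw [f3]; linarith
    · rw [f4]; linarith
  have Q3' : (wA < 0 ∧ wD < 0 ∧ 0 < wB ∧ 0 < wC) →
      PO (convexHull ℝ ({A, B, C, D} : Set (ℝ × ℝ))) := by
    rintro ⟨a, b, c, d⟩
    rw [← setABDC]
    refine quad_set A B D C 1 ?_ ?_ ?_ ?_
    · rw [f1]; linarith
    · rw [f2]; linarith
    · rw [f3]; linarith
    · rw [f4]; linarith
  by_cases hz : wC = 0 ∧ wD = 0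
  · exfalso
    refine line_AB A B hAB _ ?_ hint
    intro p hp
    rcases hp with hp | hp | hp | hp
    · rw [hp]; unfold cr; ring
    · rw [hp]; unfold cr; ring
    · rw [hp, c3, hz.2]; ring
    · rw [hp, f1, hz.1]
  · rcases lt_trichotomy wA 0 with a | a | a <;> rcases lt_trichotomy wB 0 with b | b | b <;>
      rcases lt_trichotomy wC 0 with c | c | c <;> rcases lt_trichotomy wD 0 with d | d | d <;>
      first
      | exact Q1 ⟨a, c, b, d⟩
      | exact Q1' ⟨a, c, b, d⟩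
      | exact Q2 ⟨a, b, c, d⟩
      | exact Q2' ⟨a, b, c, d⟩
      | exact Q3 ⟨a, d, b, c⟩
      | exact Q3' ⟨a, d, b, c⟩
      | exact (hz ⟨c, d⟩).elim
      | (exfalso; linarith)
      | (exfalso; exact NA ⟨a, by linarith, by linarith, by linarith⟩)
      | (exfalso; exact NA' ⟨a, by linarith, by linarith, by linarith⟩)
      | (exfalso; exact NB ⟨b, by linarith, by linarith, by linarith⟩)
      | (exfalso; exact NB' ⟨b, by linarith, by linarith, by linarith⟩)
      | (exfalso; exact NC ⟨c, by linarith, by linarith, by linarith⟩)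
      | (exfalso; exact NC' ⟨c, by linarith, by linarith, by linarith⟩)
      | (exfalso; exact ND ⟨d, by linarith, by linarith, by linarith⟩)
      | (exfalso; exact ND' ⟨d, by linarith, by linarith, by linarith⟩)

theorem hull_erase (S : Finset (ℝ × ℝ)) (p : ℝ × ℝ) (hp : p ∈ S)
    (h : p ∈ convexHull ℝ (↑(S.erase p) : Set (ℝ × ℝ))) :
    convexHull ℝ (↑S : Set (ℝ × ℝ)) = convexHull ℝ (↑(S.erase p) : Set (ℝ × ℝ)) := by
  apply Set.Subset.antisymm
  · refine convexHull_min ?_ (convex_convexHull ℝ _)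
    intro q hq
    by_cases hqp : q = p
    · rw [hqp]; exact h
    · exact subset_convexHull ℝ _ (by
        rw [Finset.mem_coe, Finset.mem_erase]
        exact ⟨hqp, hq⟩)
  · exact convexHull_mono (by
      intro q hq
      rw [Finset.mem_coe, Finset.mem_erase] at hq
      exact hq.2)

theorem main : ∀ (n : ℕ) (S : Finset (ℝ × ℝ)), S.card = n → n ≤ 4 →
    (interior (convexHull ℝ (↑S : Set (ℝ × ℝ)))).Nonempty → PO (convexHull ℝ (↑S : Set (ℝ × ℝ))) := by
  intro n
  induction n using Nat.strong_induction_on with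
  | _ n ih =>
    intro S hS hn hint
    by_cases h : ∃ p ∈ S, p ∈ convexHull ℝ (↑(S.erase p) : Set (ℝ × ℝ))
    · obtain ⟨p, hp, hpc⟩ := h
      have he := hull_erase S p hp hpc
      rw [he] at hint ⊢
      have hc : (S.erase p).card < n := by
        rw [← hS]
        exact Finset.card_erase_lt_of_mem hp
      exact ih _ hc (S.erase p) rfl (by omega) hint
    · have hind : ∀ p ∈ S, ∀ T : Set (ℝ × ℝ), T ⊆ ↑S → p ∉ T → p ∉ convexHull ℝ T := by
        intro p hp T hT hpT hpc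
        refine h ⟨p, hp, convexHull_mono ?_ hpc⟩
        intro q hq
        rw [Finset.mem_coe, Finset.mem_erase]
        exact ⟨fun hqp => hpT (hqp ▸ hq), hT hq⟩
      interval_cases n
      · rw [Finset.card_eq_zero] at hS
        subst hS
        simp at hint
      · rw [Finset.card_eq_one] at hS
        obtain ⟨A, rfl⟩ := hS
        exfalso
        refine line_empty _ 1 0 A.1 (by norm_num) ?_ hint
        intro p hp
        rw [Finset.coe_singleton, Set.mem_singleton_iff] at hp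
        rw [hp]; ring
      · rw [Finset.card_eq_two] at hS
        obtain ⟨A, B, hAB, rfl⟩ := hS
        exfalso
        refine line_AB A B hAB _ ?_ hint
        intro p hp
        rw [Finset.coe_pair] at hp
        rcases hp with hp | hp
        · rw [hp]; unfold cr; ring
        · rw [hp]; unfold cr; ring
      · rw [Finset.card_eq_three] at hS
        obtain ⟨A, B, C, hAB, hAC, hBC, rfl⟩ := hS
        have e : ((({A, B, C} : Finset (ℝ × ℝ))) : Set (ℝ × ℝ)) = {A, B, C} := by simp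
        rw [e] at hint ⊢
        refine tri_set A B C ?_
        intro h0
        refine line_AB A B hAB _ ?_ hint
        intro p hp
        rcases hp with hp | hp | hp
        · rw [hp]; unfold cr; ring
        · rw [hp]; unfold cr; ring
        · rw [hp]; exact h0
      · have hne : S.Nonempty := by
          rw [← Finset.card_pos]; omega
        obtain ⟨A, hA⟩ := hne
        have h3 : (S.erase A).card = 3 := by
          rw [Finset.card_erase_of_mem hA, hS]
        rw [Finset.card_eq_three] at h3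
        obtain ⟨B, C, D, hBC, hBD, hCD, hE⟩ := h3
        have hB : B ∈ S.erase A := by rw [hE]; simp
        have hC : C ∈ S.erase A := by rw [hE]; simp
        have hD : D ∈ S.erase A := by rw [hE]; simp
        rw [Finset.mem_erase] at hB hC hD
        have e : (↑S : Set (ℝ × ℝ)) = {A, B, C, D} := by
          rw [← Finset.insert_erase hA, hE]
          simp
        have hAB := hB.1
        have hAC := hC.1
        have hAD := hD.1
        rw [e] at hint ⊢
        rw [e] at hind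
        refine four_po A B C D ?_ ?_ ?_ ?_ hint
        · refine hind A hA _ ?_ ?_
          · intro q hq
            rcases hq with hq | hq | hq <;> rw [hq] <;> simp
          · simp only [Set.mem_insert_iff, Set.mem_singleton_iff, not_or]
            exact ⟨hAB.symm, hAC.symm, hAD.symm⟩
        · refine hind B hB.2 _ ?_ ?_
          · intro q hq
            rcases hq with hq | hq | hq <;> rw [hq] <;> simp
          · simp only [Set.mem_insert_iff, Set.mem_singleton_iff, not_or]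
            exact ⟨hAB, hBC, hBD⟩
        · refine hind C hC.2 _ ?_ ?_
          · intro q hq
            rcases hq with hq | hq | hq <;> rw [hq] <;> simp
          · simp only [Set.mem_insert_iff, Set.mem_singleton_iff, not_or]
            exact ⟨hAC, hBC.symm, hCD⟩
        · refine hind D hD.2 _ ?_ ?_
          · intro q hq
            rcases hq with hq | hq | hq <;> rw [hq] <;> simp
          · simp only [Set.mem_insert_iff, Set.mem_singleton_iff, not_or]
            exact ⟨hAD, hBD.symm, hCD.symm⟩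

/-- Every convex polygon with at most four vertices (triangles and all convex quadrilaterals) has a
periodic symplectic billiard orbit.  The conclusion is the one of the frozen statement. -/
theorem result : ∀ S : Finset (ℝ × ℝ), S.card ≤ 4 →
    (interior (convexHull ℝ (↑S : Set (ℝ × ℝ)))).Nonempty →
    ∃ n : ℕ, 0 < n ∧ ∃ x : ℕ → ℝ × ℝ, (∀ i, x (i + n) = x i) ∧
      ∀ i : ℕ,
        x i ∈ frontier (convexHull ℝ (↑S : Set (ℝ × ℝ))) ∧
        x i ∉ Set.extremePoints ℝ (convexHull ℝ (↑S : Set (ℝ × ℝ))) ∧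
        x (i + 2) ≠ x i ∧
        ∃ a b : ℝ, (a ≠ 0 ∨ b ≠ 0) ∧
          a * ((x (i + 2)).1 - (x i).1) + b * ((x (i + 2)).2 - (x i).2) = 0 ∧
          (∀ p ∈ convexHull ℝ (↑S : Set (ℝ × ℝ)),
              a * p.1 + b * p.2 ≤ a * (x (i + 1)).1 + b * (x (i + 1)).2) ∧
          a * (x i).1 + b * (x i).2 < a * (x (i + 1)).1 + b * (x (i + 1)).2 ∧
          ∃ p ∈ convexHull ℝ (↑S : Set (ℝ × ℝ)),
              a * p.1 + b * p.2 < a * (x i).1 + b * (x i).2 := by
  intro S hS hint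
  exact main S.card S rfl hS hint

end Pool.Agent.Helper916.QuadPO
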