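import Mathlib

set_option autoImplicit false

namespace Pool.Agent.Helper916.SymBil

/-- The convex polygon cut out by three pairs of parallel lines: `0 ≤ x ≤ w`, `0 ≤ y ≤ h`,
`c ≤ x + y ≤ N`. -/
def Hex (w h N c : ℝ) : Set (ℝ × ℝ) :=
  {p | 0 ≤ p.1 ∧ p.1 ≤ w ∧ 0 ≤ p.2 ∧ p.2 ≤ h ∧ c ≤ p.1 + p.2 ∧ p.1 + p.2 ≤ N}

/-- `z` follows `x, y` in the symplectic billiard of `C`: `z` is different from `x`, the line `xz` is
parallel to the side through `y` (a level line of a linear form which is maximal on `C` at `y`),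
`x` is not on that side and the line crosses the interior of `C`. -/
def Stp (C : Set (ℝ × ℝ)) (x y z : ℝ × ℝ) : Prop :=
  z ≠ x ∧ ∃ a b : ℝ, (a ≠ 0 ∨ b ≠ 0) ∧
    a * (z.1 - x.1) + b * (z.2 - x.2) = 0 ∧
    (∀ p ∈ C, a * p.1 + b * p.2 ≤ a * y.1 + b * y.2) ∧
    a * x.1 + b * x.2 < a * y.1 + b * y.2 ∧
    ∃ p ∈ C, a * p.1 + b * p.2 < a * x.1 + b * x.2

/-- A bi-infinite symplectic billiard orbit: boundary points which are not vertices, each
determined by the two preceding ones. -/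
def IsOrbit (C : Set (ℝ × ℝ)) (x : ℤ → ℝ × ℝ) : Prop :=
  ∀ i, x i ∈ frontier C ∧ x i ∉ Set.extremePoints ℝ C ∧ Stp C (x i) (x (i + 1)) (x (i + 2))

end Pool.Agent.Helper916.SymBil
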