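import Mathlib
import Pool.Agent.Helper916.SymBilDefs

set_option autoImplicit false

namespace Pool.Agent.Helper916.SymBil

/-- closure conditions for the set of parameters -/
structure Cl (w h N : ℝ) (E : Set ℝ) : Prop where
  wp : ∀ c ∈ E, 0 < c → c + w < N → c + w ∈ E
  wm : ∀ c ∈ E, c < N → 0 < c - w → c - w ∈ E
  hp : ∀ c ∈ E, 0 < c → c + h < N → c + h ∈ E
  hm : ∀ c ∈ E, c < N → 0 < c - h → c - h ∈ E
  rf : ∀ c ∈ E, N - h < c → c < w → N - c ∈ E
  rf' : ∀ c ∈ E, N - w < c → c < h → N - c ∈ E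

theorem Cl.union {w h N : ℝ} {E F : Set ℝ} (hE : Cl w h N E) (hF : Cl w h N F) :
    Cl w h N (E ∪ F) := by
  refine ⟨?_, ?_, ?_, ?_, ?_, ?_⟩
  · rintro c (hc | hc) h1 h2
    · exact Or.inl (hE.wp c hc h1 h2)
    · exact Or.inr (hF.wp c hc h1 h2)
  · rintro c (hc | hc) h1 h2
    · exact Or.inl (hE.wm c hc h1 h2)
    · exact Or.inr (hF.wm c hc h1 h2)
  · rintro c (hc | hc) h1 h2
    · exact Or.inl (hE.hp c hc h1 h2)
    · exact Or.inr (hF.hp c hc h1 h2)
  · rintro c (hc | hc) h1 h2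
    · exact Or.inl (hE.hm c hc h1 h2)
    · exact Or.inr (hF.hm c hc h1 h2)
  · rintro c (hc | hc) h1 h2
    · exact Or.inl (hE.rf c hc h1 h2)
    · exact Or.inr (hF.rf c hc h1 h2)
  · rintro c (hc | hc) h1 h2
    · exact Or.inl (hE.rf' c hc h1 h2)
    · exact Or.inr (hF.rf' c hc h1 h2)

/-- `s` is, modulo `w + h`, in the gap `(N - w, h)` -/
def Hit (w h N s : ℝ) : Prop := ∃ l : ℤ, N - w < s - l * (w + h) ∧ s - l * (w + h) < h

theorem hit_mem {w h N s c : ℝ} (hw : 0 < w) (hwN : w ≤ N) (hs : Hit w h N s) (l : ℤ)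
    (hc : c = s - l * (w + h)) (h0 : 0 < c) (h1 : c < w + h) : N - w < c ∧ c < h := by
  obtain ⟨l', h2, h3⟩ := hs
  have hl : 0 < w + h := by linarith
  have h4 : ((l' : ℝ) - l) * (w + h) < 1 * (w + h) := by
    have : ((l' : ℝ) - l) * (w + h) = c - (s - l' * (w + h)) := by rw [hc]; ring
    rw [this]; linarith
  have h5 : (-1 : ℝ) * (w + h) < ((l' : ℝ) - l) * (w + h) := by
    have : ((l' : ℝ) - l) * (w + h) = c - (s - l' * (w + h)) := by rw [hc]; ring
    rw [this]; linarith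
  have h6 : (l' : ℝ) - l < 1 := lt_of_mul_lt_mul_right h4 hl.le
  have h7 : (-1 : ℝ) < (l' : ℝ) - l := lt_of_mul_lt_mul_right h5 hl.le
  have h8 : l' - l < 1 := by exact_mod_cast h6
  have h9 : -1 < l' - l := by exact_mod_cast h7
  have h10 : l' = l := by omega
  rw [h10] at h2 h3
  rw [hc]
  exact ⟨h2, h3⟩

theorem hit_mir {w h N s : ℝ} (hs : Hit w h N s) : Hit w h N (N - w + h - s) := by
  obtain ⟨l, h1, h2⟩ := hs
  refine ⟨-l, ?_, ?_⟩ <;> push_cast <;> linarith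

theorem hit_next {w h N s : ℝ} (hw : 0 < w) (hwN : w ≤ N) (hhN : h ≤ N)
    (hs : Hit w h N s) (hs' : Hit w h N (s + w)) : False := by
  obtain ⟨l, h1, h2⟩ := hs
  have h3 := hit_mem hw hwN hs' l (c := s + w - l * (w + h)) rfl (by linarith) (by linarith)
  linarith [h3.2]

/-- visits of the gap -/
theorem hit_exists (w h N : ℝ) (hw : 0 < w) (hh : 0 < h) (hN : N < w + h) (θ : ℝ)
    (hθ : ∀ m : ℤ, 0 < m → ∀ l : ℤ, (m : ℝ) * θ ≠ l * (w + h)) (s : ℝ) :
    ∃ i : ℕ, 0 < i ∧ Hit w h N (s + i * θ) := by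
  have hl : 0 < w + h := by linarith
  have hg : 0 < (h - (N - w)) / (w + h) := div_pos (by linarith) hl
  obtain ⟨n, hn⟩ := exists_nat_one_div_lt hg
  obtain ⟨j, k, hk, _, hjk⟩ := Real.exists_int_int_abs_mul_sub_le (θ / (w + h)) (Nat.succ_pos n)
  obtain ⟨d, hd⟩ : ∃ d : ℝ, d = k * θ - j * (w + h) := ⟨_, rfl⟩
  have hd1 : |d| < h - (N - w) := by
    have e : d = (k * (θ / (w + h)) - j) * (w + h) := by rw [hd]; field_simp
    rw [e, abs_mul, abs_of_pos hl]
    have h1 : |(k : ℝ) * (θ / (w + h)) - j| < (h - (N - w)) / (w + h) := by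
      refine lt_of_le_of_lt hjk (lt_of_le_of_lt ?_ hn)
      push_cast
      apply one_div_le_one_div_of_le
      · positivity
      · linarith
    rw [lt_div_iff₀ hl] at h1
    exact h1
  have hd0 : d ≠ 0 := by
    intro h0
    exact hθ k hk j (by linarith)
  obtain ⟨kk, hkk⟩ : ∃ kk : ℕ, (kk : ℤ) = k := ⟨k.toNat, Int.toNat_of_nonneg hk.le⟩
  have hkk0 : 0 < kk := by omega
  rcases lt_or_gt_of_ne hd0 with hneg | hpos
  · -- d < 0
    obtain ⟨L, hL⟩ : ∃ L : ℤ, L = ⌊(s - h) / (w + h)⌋ := ⟨_, rfl⟩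
    have h1 : (L : ℝ) * (w + h) ≤ s - h := by
      have := Int.floor_le ((s - h) / (w + h))
      rw [← hL, le_div_iff₀ hl] at this
      exact this
    obtain ⟨y, hy⟩ : ∃ y : ℝ, y = (s - h - L * (w + h)) / (-d) := ⟨_, rfl⟩
    have hy0 : 0 ≤ y := by rw [hy]; exact div_nonneg (by linarith) (by linarith)
    have hyd : y * (-d) = s - h - L * (w + h) := by
      rw [hy]; field_simp
    have f1 := Nat.floor_le hy0
    have f2 := Nat.lt_floor_add_one y
    obtain ⟨c, hc⟩ : ∃ c : ℕ, c = ⌊y⌋₊ := ⟨_, rfl⟩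
    rw [← hc] at f1 f2
    refine ⟨(c + 1) * kk, Nat.mul_pos (Nat.succ_pos _) hkk0, (c + 1) * j + L, ?_⟩
    have e : s + (((c + 1) * kk : ℕ) : ℝ) * θ - (((c + 1) * j + L : ℤ) : ℝ) * (w + h) =
        s + (c + 1) * d - L * (w + h) := by
      have : (kk : ℝ) = (k : ℝ) := by exact_mod_cast hkk
      push_cast
      rw [this, hd]; ring
    rw [e]
    have a1 : |d| = -d := abs_of_neg hneg
    rw [a1] at hd1
    have a2 : (c : ℝ) * (-d) ≤ y * (-d) := mul_le_mul_of_nonneg_right f1 (by linarith)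
    have a3 : y * (-d) < (c + 1) * (-d) := mul_lt_mul_of_pos_right f2 (by linarith)
    constructor <;> nlinarith
  · obtain ⟨L, hL⟩ : ∃ L : ℤ, L = ⌈(s - (N - w)) / (w + h)⌉ := ⟨_, rfl⟩
    have h1 : s - (N - w) ≤ (L : ℝ) * (w + h) := by
      have := Int.le_ceil ((s - (N - w)) / (w + h))
      rw [← hL, div_le_iff₀ hl] at this
      exact this
    obtain ⟨y, hy⟩ : ∃ y : ℝ, y = (N - w + L * (w + h) - s) / d := ⟨_, rfl⟩
    have hy0 : 0 ≤ y := by rw [hy]; exact div_nonneg (by linarith) (by linarith)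
    have hyd : y * d = N - w + L * (w + h) - s := by
      rw [hy]; field_simp
    have f1 := Nat.floor_le hy0
    have f2 := Nat.lt_floor_add_one y
    obtain ⟨c, hc⟩ : ∃ c : ℕ, c = ⌊y⌋₊ := ⟨_, rfl⟩
    rw [← hc] at f1 f2
    refine ⟨(c + 1) * kk, Nat.mul_pos (Nat.succ_pos _) hkk0, (c + 1) * j + L, ?_⟩
    have e : s + (((c + 1) * kk : ℕ) : ℝ) * θ - (((c + 1) * j + L : ℤ) : ℝ) * (w + h) =
        s + (c + 1) * d - L * (w + h) := by
      have : (kk : ℝ) = (k : ℝ) := by exact_mod_cast hkk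
      push_cast
      rw [this, hd]; ring
    rw [e]
    have a1 : |d| = d := abs_of_pos hpos
    rw [a1] at hd1
    have a2 : (c : ℝ) * d ≤ y * d := mul_le_mul_of_nonneg_right f1 (by linarith)
    have a3 : y * d < (c + 1) * d := mul_lt_mul_of_pos_right f2 (by linarith)
    constructor <;> nlinarith

theorem fin_one (w h s : ℝ) (hl : 0 < w + h) :
    {c : ℝ | 0 < c ∧ c < w + h ∧ ∃ l : ℤ, c = s - l * (w + h)}.Finite := by
  apply Set.Subsingleton.finite
  rintro c ⟨h0, h1, l, hc⟩ c' ⟨h0', h1', l', hc'⟩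
  have h4 : ((l' : ℝ) - l) * (w + h) < 1 * (w + h) := by
    have : ((l' : ℝ) - l) * (w + h) = c - c' := by rw [hc, hc']; ring
    rw [this]; linarith
  have h5 : (-1 : ℝ) * (w + h) < ((l' : ℝ) - l) * (w + h) := by
    have : ((l' : ℝ) - l) * (w + h) = c - c' := by rw [hc, hc']; ring
    rw [this]; linarith
  have h6 : (l' : ℝ) - l < 1 := lt_of_mul_lt_mul_right h4 hl.le
  have h7 : (-1 : ℝ) < (l' : ℝ) - l := lt_of_mul_lt_mul_right h5 hl.le
  have h8 : l' - l < 1 := by exact_mod_cast h6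
  have h9 : -1 < l' - l := by exact_mod_cast h7
  have h10 : l' = l := by omega
  rw [hc, hc', h10]


/-- the rational case -/
theorem closed_rat (w h N t : ℝ) (hw : 0 < w) (hh : 0 < h) (hwN : w ≤ N) (hhN : h ≤ N)
    (hN : N < w + h) (ht0 : 0 < t) (ht1 : t < N)
    (hrat : ∃ m : ℤ, 0 < m ∧ ∃ l : ℤ, (m : ℝ) * w = l * (w + h)) :
    ∃ E : Set ℝ, E.Finite ∧ t ∈ E ∧ Cl w h N E := by
  have hl : 0 < w + h := by linarith
  obtain ⟨m, hm, l0, hml⟩ := hrat
  obtain ⟨E, hE⟩ : ∃ E : Set ℝ, E = {c | 0 < c ∧ c < N ∧ ∃ i l : ℤ, c = t + i * w - l * (w + h) ∨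
    c = (N - w + h) - (t + i * w) - l * (w + h)} := ⟨_, rfl⟩
  have hmem : ∀ c, c ∈ E ↔ 0 < c ∧ c < N ∧ ∃ i l : ℤ, c = t + i * w - l * (w + h) ∨
    c = (N - w + h) - (t + i * w) - l * (w + h) := by intro c; rw [hE]; rfl
  refine ⟨E, ?_, ?_, ?_⟩
  · have hsub : E ⊆ ⋃ r ∈ (Finset.Ico (0 : ℤ) m : Set ℤ),
        ({c : ℝ | 0 < c ∧ c < w + h ∧ ∃ l : ℤ, c = (t + r * w) - l * (w + h)} ∪
         {c : ℝ | 0 < c ∧ c < w + h ∧ ∃ l : ℤ, c = ((N - w + h) - (t + r * w)) - l * (w + h)}) := by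
      intro c hc
      obtain ⟨h0, h1, i, l, h2⟩ := (hmem c).1 hc
      have hi : (i : ℝ) = (i % m : ℤ) + m * (i / m : ℤ) := by
        have := Int.emod_add_mul_ediv i m
        exact_mod_cast this.symm
      rw [Set.mem_iUnion₂]
      refine ⟨i % m, ?_, ?_⟩
      · rw [Finset.mem_coe, Finset.mem_Ico]
        exact ⟨Int.emod_nonneg _ hm.ne', Int.emod_lt_of_pos _ hm⟩
      · rcases h2 with h2 | h2
        · left
          refine ⟨h0, by linarith, l - (i / m) * l0, ?_⟩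
          rw [h2]
          push_cast
          rw [hi]
          linear_combination ((i / m : ℤ) : ℝ) * hml
        · right
          refine ⟨h0, by linarith, l + (i / m) * l0, ?_⟩
          rw [h2]
          push_cast
          rw [hi]
          linear_combination (-((i / m : ℤ) : ℝ)) * hml
    refine Set.Finite.subset ?_ hsub
    refine Set.Finite.biUnion (Finset.finite_toSet _) ?_
    intro r _
    exact (fin_one w h _ hl).union (fin_one w h _ hl)
  · rw [hmem]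
    exact ⟨ht0, ht1, 0, 0, Or.inl (by push_cast; ring)⟩
  · refine ⟨?_, ?_, ?_, ?_, ?_, ?_⟩
    · intro c hc h0 h1
      obtain ⟨_, _, i, l, h2⟩ := (hmem c).1 hc
      rw [hmem]
      refine ⟨by linarith, h1, ?_⟩
      rcases h2 with h2 | h2
      · exact ⟨i + 1, l, Or.inl (by rw [h2]; push_cast; ring)⟩
      · exact ⟨i - 1, l, Or.inr (by rw [h2]; push_cast; ring)⟩
    · intro c hc h0 h1
      obtain ⟨_, _, i, l, h2⟩ := (hmem c).1 hc
      rw [hmem]
      refine ⟨by linarith, by linarith, ?_⟩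
      rcases h2 with h2 | h2
      · exact ⟨i - 1, l, Or.inl (by rw [h2]; push_cast; ring)⟩
      · exact ⟨i + 1, l, Or.inr (by rw [h2]; push_cast; ring)⟩
    · intro c hc h0 h1
      obtain ⟨_, _, i, l, h2⟩ := (hmem c).1 hc
      rw [hmem]
      refine ⟨by linarith, h1, ?_⟩
      rcases h2 with h2 | h2
      · exact ⟨i - 1, l - 1, Or.inl (by rw [h2]; push_cast; ring)⟩
      · exact ⟨i + 1, l - 1, Or.inr (by rw [h2]; push_cast; ring)⟩
    · intro c hc h0 h1
      obtain ⟨_, _, i, l, h2⟩ := (hmem c).1 hc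
      rw [hmem]
      refine ⟨by linarith, by linarith, ?_⟩
      rcases h2 with h2 | h2
      · exact ⟨i + 1, l + 1, Or.inl (by rw [h2]; push_cast; ring)⟩
      · exact ⟨i - 1, l + 1, Or.inr (by rw [h2]; push_cast; ring)⟩
    · intro c hc h0 h1
      obtain ⟨_, _, i, l, h2⟩ := (hmem c).1 hc
      rw [hmem]
      refine ⟨by linarith, by linarith, ?_⟩
      rcases h2 with h2 | h2
      · exact ⟨i - 2, 1 - l, Or.inr (by rw [h2]; push_cast; ring)⟩
      · exact ⟨i + 2, 1 - l, Or.inl (by rw [h2]; push_cast; ring)⟩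
    · intro c hc h0 h1
      obtain ⟨_, _, i, l, h2⟩ := (hmem c).1 hc
      rw [hmem]
      refine ⟨by linarith, by linarith, ?_⟩
      rcases h2 with h2 | h2
      · exact ⟨i - 2, 1 - l, Or.inr (by rw [h2]; push_cast; ring)⟩
      · exact ⟨i + 2, 1 - l, Or.inl (by rw [h2]; push_cast; ring)⟩

/-- the irrational case -/
theorem closed_irr (w h N t : ℝ) (hw : 0 < w) (hh : 0 < h) (hwN : w ≤ N) (hhN : h ≤ N)
    (hN : N < w + h) (ht0 : 0 < t) (ht1 : t < N)
    (hirr : ∀ m : ℤ, 0 < m → ∀ l : ℤ, (m : ℝ) * w ≠ l * (w + h)) :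
    ∃ E : Set ℝ, E.Finite ∧ t ∈ E ∧ Cl w h N E := by
  classical
  have hl : 0 < w + h := by linarith
  -- first visits
  obtain ⟨p, hp, hpmin⟩ : ∃ p : ℕ, Hit w h N (t + p * w) ∧ ∀ i < p, ¬ Hit w h N (t + i * w) := by
    obtain ⟨i, _, hi⟩ := hit_exists w h N hw hh hN w hirr t
    have hex : ∃ i : ℕ, Hit w h N (t + i * w) := ⟨i, hi⟩
    exact ⟨Nat.find hex, Nat.find_spec hex, fun i hi => Nat.find_min hex hi⟩
  obtain ⟨q, ⟨hq0, hq⟩, hqmin⟩ : ∃ q : ℕ, (0 < q ∧ Hit w h N (t + q * (-w))) ∧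
      ∀ i < q, ¬ (0 < i ∧ Hit w h N (t + i * (-w))) := by
    obtain ⟨i, hi0, hi⟩ := hit_exists w h N hw hh hN (-w) (by
      intro m hm l hcon
      apply hirr m hm (-l)
      push_cast
      linarith) t
    have hex : ∃ i : ℕ, 0 < i ∧ Hit w h N (t + i * (-w)) := ⟨i, hi0, hi⟩
    exact ⟨Nat.find hex, Nat.find_spec hex, fun i hi => Nat.find_min hex hi⟩
  have hP : Hit w h N (t + (p : ℤ) * w) := by push_cast; exact hp
  have hQ : Hit w h N (t + ((-(q : ℤ) : ℤ) : ℝ) * w) := by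
    have e : t + ((-(q : ℤ) : ℤ) : ℝ) * w = t + q * (-w) := by push_cast; ring
    rw [e]; exact hq
  have hmid : ∀ i : ℤ, -(q : ℤ) < i → i < p → ¬ Hit w h N (t + i * w) := by
    intro i h1 h2 hi
    rcases le_or_gt 0 i with h3 | h3
    · obtain ⟨k, rfl⟩ := Int.eq_ofNat_of_zero_le h3
      refine hpmin k (by omega) ?_
      push_cast at hi
      exact hi
    · obtain ⟨k, hk⟩ := Int.eq_ofNat_of_zero_le (show 0 ≤ -i by omega)
      refine hqmin k (by omega) ⟨by omega, ?_⟩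
      have e : t + (i : ℝ) * w = t + k * (-w) := by
        have : (i : ℝ) = -(k : ℝ) := by
          have : i = -(k : ℤ) := by omega
          rw [this]; push_cast; ring
        rw [this]; ring
      rw [← e]
      exact hi
  clear hp hpmin hq hqmin
  have hpq : 2 ≤ (p : ℤ) + q := by
    by_contra hcon
    have hp0 : (p : ℤ) = 0 := by omega
    have hq1 : (q : ℤ) = 1 := by omega
    rw [hp0] at hP
    rw [hq1] at hQ
    refine hit_next hw hwN hhN hQ ?_
    have e : t + ((-1 : ℤ) : ℝ) * w + w = t + ((0 : ℤ) : ℝ) * w := by push_cast; ring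
    rw [e]
    exact hP
  obtain ⟨Q, hQd⟩ : ∃ Q : ℤ, Q = q := ⟨_, rfl⟩
  obtain ⟨M, hMd⟩ : ∃ M : ℤ, M = p := ⟨_, rfl⟩
  rw [← hQd] at hQ hmid hpq
  rw [← hMd] at hP hmid hpq
  have hM0 : 0 ≤ M := by omega
  have hQ0 : 1 ≤ Q := by omega
  obtain ⟨E, hE⟩ : ∃ E : Set ℝ, E = {c | 0 < c ∧ c < N ∧
    ((∃ i l : ℤ, -Q < i ∧ i ≤ M ∧ c = t + i * w - l * (w + h)) ∨
    (∃ i l : ℤ, -Q ≤ i ∧ i < M ∧ c = (N - w + h) - (t + i * w) - l * (w + h)))} := ⟨_, rfl⟩
  have hmem : ∀ c, c ∈ E ↔ 0 < c ∧ c < N ∧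
    ((∃ i l : ℤ, -Q < i ∧ i ≤ M ∧ c = t + i * w - l * (w + h)) ∨
    (∃ i l : ℤ, -Q ≤ i ∧ i < M ∧ c = (N - w + h) - (t + i * w) - l * (w + h))) := by
    intro c; rw [hE]; rfl
  -- no hit from the position of the point
  have hno : ∀ (s c : ℝ) (l : ℤ), Hit w h N s → c = s - l * (w + h) → 0 < c → c < w + h →
      N - w < c ∧ c < h := fun s c l hs hc h0 h1 => hit_mem hw hwN hs l hc h0 h1
  have hyes : ∀ (s c : ℝ) (l : ℤ), c = s - l * (w + h) → N - w < c → c < h → Hit w h N s := by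
    intro s c l hc h0 h1
    exact ⟨l, by rw [← hc]; exact h0, by rw [← hc]; exact h1⟩
  refine ⟨E, ?_, ?_, ?_⟩
  · have hsub : E ⊆ ⋃ r ∈ (Finset.Icc (-Q) M : Set ℤ),
        ({c : ℝ | 0 < c ∧ c < w + h ∧ ∃ l : ℤ, c = (t + r * w) - l * (w + h)} ∪
         {c : ℝ | 0 < c ∧ c < w + h ∧ ∃ l : ℤ, c = ((N - w + h) - (t + r * w)) - l * (w + h)}) := by
      intro c hc
      obtain ⟨h0, h1, h2⟩ := (hmem c).1 hc
      rw [Set.mem_iUnion₂]
      rcases h2 with ⟨i, l, h3, h4, h5⟩ | ⟨i, l, h3, h4, h5⟩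
      · exact ⟨i, Finset.mem_coe.2 (Finset.mem_Icc.2 ⟨h3.le, h4⟩), Or.inl ⟨h0, by linarith, l, h5⟩⟩
      · exact ⟨i, Finset.mem_coe.2 (Finset.mem_Icc.2 ⟨h3, h4.le⟩), Or.inr ⟨h0, by linarith, l, h5⟩⟩
    refine Set.Finite.subset ?_ hsub
    refine Set.Finite.biUnion (Finset.finite_toSet _) ?_
    intro r _
    exact (fin_one w h _ hl).union (fin_one w h _ hl)
  · rw [hmem]
    exact ⟨ht0, ht1, Or.inl ⟨0, 0, by omega, by omega, by push_cast; ring⟩⟩
  · refine ⟨?_, ?_, ?_, ?_, ?_, ?_⟩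
    · -- c + w
      intro c hc h0 h1
      obtain ⟨_, _, h2⟩ := (hmem c).1 hc
      rw [hmem]
      refine ⟨by linarith, h1, ?_⟩
      rcases h2 with ⟨i, l, h3, h4, h5⟩ | ⟨i, l, h3, h4, h5⟩
      · left
        have hi : i ≠ M := by
          rintro rfl
          have := hno _ c l hP h5 h0 (by linarith)
          linarith [this.1]
        exact ⟨i + 1, l, by omega, by omega, by rw [h5]; push_cast; ring⟩
      · right
        have hi : i ≠ -Q := by
          rintro rfl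
          have := hno _ c l (hit_mir hQ) h5 h0 (by linarith)
          linarith [this.1]
        exact ⟨i - 1, l, by omega, by omega, by rw [h5]; push_cast; ring⟩
    · -- c - w
      intro c hc h0 h1
      obtain ⟨_, _, h2⟩ := (hmem c).1 hc
      rw [hmem]
      refine ⟨by linarith, by linarith, ?_⟩
      rcases h2 with ⟨i, l, h3, h4, h5⟩ | ⟨i, l, h3, h4, h5⟩
      · left
        have hi : i - 1 ≠ -Q := by
          intro he
          have h6 : c - w = t + ((-Q : ℤ) : ℝ) * w - l * (w + h) := by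
            rw [h5, ← he]; push_cast; ring
          have := hno _ (c - w) l hQ h6 (by linarith) (by linarith)
          linarith [this.1]
        exact ⟨i - 1, l, by omega, by omega, by rw [h5]; push_cast; ring⟩
      · right
        have hi : i + 1 ≠ M := by
          intro he
          have h6 : c - w = (N - w + h) - (t + (M : ℝ) * w) - l * (w + h) := by
            rw [h5, ← he]; push_cast; ring
          have := hno _ (c - w) l (hit_mir hP) h6 (by linarith) (by linarith)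
          linarith [this.1]
        exact ⟨i + 1, l, by omega, by omega, by rw [h5]; push_cast; ring⟩
    · -- c + h
      intro c hc h0 h1
      obtain ⟨_, _, h2⟩ := (hmem c).1 hc
      rw [hmem]
      refine ⟨by linarith, h1, ?_⟩
      rcases h2 with ⟨i, l, h3, h4, h5⟩ | ⟨i, l, h3, h4, h5⟩
      · left
        have hi : i - 1 ≠ -Q := by
          intro he
          have h6 : c + h = t + ((-Q : ℤ) : ℝ) * w - ((l - 1 : ℤ) : ℝ) * (w + h) := by
            rw [h5, ← he]; push_cast; ring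
          have := hno _ (c + h) (l - 1) hQ h6 (by linarith) (by linarith)
          linarith [this.2]
        exact ⟨i - 1, l - 1, by omega, by omega, by rw [h5]; push_cast; ring⟩
      · right
        have hi : i + 1 ≠ M := by
          intro he
          have h6 : c + h = (N - w + h) - (t + (M : ℝ) * w) - ((l - 1 : ℤ) : ℝ) * (w + h) := by
            rw [h5, ← he]; push_cast; ring
          have := hno _ (c + h) (l - 1) (hit_mir hP) h6 (by linarith) (by linarith)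
          linarith [this.2]
        exact ⟨i + 1, l - 1, by omega, by omega, by rw [h5]; push_cast; ring⟩
    · -- c - h
      intro c hc h0 h1
      obtain ⟨_, _, h2⟩ := (hmem c).1 hc
      rw [hmem]
      refine ⟨by linarith, by linarith, ?_⟩
      rcases h2 with ⟨i, l, h3, h4, h5⟩ | ⟨i, l, h3, h4, h5⟩
      · left
        have hi : i ≠ M := by
          rintro rfl
          have := hno _ c l hP h5 (by linarith) (by linarith)
          linarith [this.2]
        exact ⟨i + 1, l + 1, by omega, by omega, by rw [h5]; push_cast; ring⟩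
      · right
        have hi : i ≠ -Q := by
          rintro rfl
          have := hno _ c l (hit_mir hQ) h5 (by linarith) (by linarith)
          linarith [this.2]
        exact ⟨i - 1, l + 1, by omega, by omega, by rw [h5]; push_cast; ring⟩
    · -- N - h < c < w
      intro c hc h0 h1
      obtain ⟨hc0, hc1, h2⟩ := (hmem c).1 hc
      rw [hmem]
      refine ⟨by linarith, by linarith, ?_⟩
      rcases h2 with ⟨i, l, h3, h4, h5⟩ | ⟨i, l, h3, h4, h5⟩
      · right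
        -- two steps back is a hit
        have hh2 : Hit w h N (t + ((i - 2 : ℤ) : ℝ) * w) := by
          refine hyes _ (c + h - w) (l - 1) ?_ (by linarith) (by linarith)
          rw [h5]; push_cast; ring
        have h6 : ¬ (-Q < i - 2) := by
          intro h7
          exact hmid (i - 2) h7 (by omega) hh2
        have h8 : i - 1 ≠ -Q := by
          intro he
          have h6 : c + h = t + ((-Q : ℤ) : ℝ) * w - ((l - 1 : ℤ) : ℝ) * (w + h) := by
            rw [h5, ← he]; push_cast; ring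
          have := hno _ (c + h) (l - 1) hQ h6 (by linarith) (by linarith)
          linarith [this.2]
        exact ⟨i - 2, 1 - l, by omega, by omega, by rw [h5]; push_cast; ring⟩
      · left
        have hh2 : Hit w h N (t + ((i + 2 : ℤ) : ℝ) * w) := by
          refine hyes _ (N - c) (1 - l) ?_ (by linarith) (by linarith)
          rw [h5]; push_cast; ring
        have h6 : ¬ (i + 2 < M) := by
          intro h7
          exact hmid (i + 2) (by omega) h7 hh2
        have h8 : i + 1 ≠ M := by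
          intro he
          rw [← he] at hP
          refine hit_next hw hwN hhN hP ?_
          have e : t + ((i + 1 : ℤ) : ℝ) * w + w = t + ((i + 2 : ℤ) : ℝ) * w := by push_cast; ring
          rw [e]
          exact hh2
        exact ⟨i + 2, 1 - l, by omega, by omega, by rw [h5]; push_cast; ring⟩
    · -- N - w < c < h
      intro c hc h0 h1
      obtain ⟨hc0, hc1, h2⟩ := (hmem c).1 hc
      rw [hmem]
      refine ⟨by linarith, by linarith, ?_⟩
      rcases h2 with ⟨i, l, h3, h4, h5⟩ | ⟨i, l, h3, h4, h5⟩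
      · right
        have hh2 : Hit w h N (t + (i : ℝ) * w) := hyes _ c l h5 h0 h1
        have h6 : ¬ (i < M) := by
          intro h7
          exact hmid i h3 h7 hh2
        exact ⟨i - 2, 1 - l, by omega, by omega, by rw [h5]; push_cast; ring⟩
      · left
        have hh2 : Hit w h N (t + (i : ℝ) * w) := by
          have h7 : Hit w h N ((N - w + h) - (t + (i : ℝ) * w)) := hyes _ c l h5 h0 h1
          have h8 := hit_mir h7
          have e : (N - w + h) - ((N - w + h) - (t + (i : ℝ) * w)) = t + (i : ℝ) * w := by ring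
          rw [e] at h8
          exact h8
        have h6 : ¬ (-Q < i) := by
          intro h7
          exact hmid i h7 h4 hh2
        exact ⟨i + 2, 1 - l, by omega, by omega, by rw [h5]; push_cast; ring⟩

theorem closed_set (w h N t : ℝ) (hw : 0 < w) (hh : 0 < h) (hwN : w ≤ N) (hhN : h ≤ N)
    (hN : N < w + h) (ht0 : 0 < t) (ht1 : t < N) :
    ∃ E : Set ℝ, E.Finite ∧ t ∈ E ∧ Cl w h N E := by
  by_cases hr : ∃ m : ℤ, 0 < m ∧ ∃ l : ℤ, (m : ℝ) * w = l * (w + h)
  · exact closed_rat w h N t hw hh hwN hhN hN ht0 ht1 hr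
  · refine closed_irr w h N t hw hh hwN hhN hN ht0 ht1 ?_
    intro m hm l hcon
    exact hr ⟨m, hm, l, hcon⟩

/-! ### Geometry -/

structure Prm (w h N c : ℝ) : Prop where
  w0 : 0 < w
  h0 : 0 < h
  c0 : 0 ≤ c
  cw : c ≤ w
  ch : c ≤ h
  wN : w ≤ N
  hN : h ≤ N
  Nw : N ≤ w + h
  cN : c < N

/-- the open sides -/
def BD (w h N c : ℝ) (p : ℝ × ℝ) : Prop :=
  (p.2 = 0 ∧ c < p.1 ∧ p.1 < w) ∨ (p.1 = 0 ∧ c < p.2 ∧ p.2 < h) ∨
  (p.1 = w ∧ 0 < p.2 ∧ p.2 < N - w) ∨ (p.2 = h ∧ 0 < p.1 ∧ p.1 < N - h) ∨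
  (p.1 + p.2 = N ∧ N - h < p.1 ∧ p.1 < w) ∨ (p.1 + p.2 = c ∧ 0 < p.1 ∧ p.1 < c)

def inF (w h N c : ℝ) (E : Set ℝ) (p : ℝ × ℝ) : Prop :=
  ((p.2 = 0 ∧ c < p.1 ∧ p.1 < w) ∧ p.1 ∈ E) ∨ ((p.1 = 0 ∧ c < p.2 ∧ p.2 < h) ∧ p.2 ∈ E) ∨
  ((p.1 = w ∧ 0 < p.2 ∧ p.2 < N - w) ∧ p.2 ∈ E) ∨ ((p.2 = h ∧ 0 < p.1 ∧ p.1 < N - h) ∧ p.1 ∈ E) ∨
  ((p.1 + p.2 = N ∧ N - h < p.1 ∧ p.1 < w) ∧ p.1 ∈ E) ∨
  ((p.1 + p.2 = c ∧ 0 < p.1 ∧ p.1 < c) ∧ p.1 ∈ E)

/-- a point where two independent linear functions attain their maximum is extreme -/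
theorem ext2 {C : Set (ℝ × ℝ)} {p : ℝ × ℝ} (hp : p ∈ C) (a b a' b' : ℝ)
    (hd : a * b' - b * a' ≠ 0) (h1 : ∀ q ∈ C, a * q.1 + b * q.2 ≤ a * p.1 + b * p.2)
    (h2 : ∀ q ∈ C, a' * q.1 + b' * q.2 ≤ a' * p.1 + b' * p.2) : p ∈ Set.extremePoints ℝ C := by
  have key : ∀ x ∈ C, ∀ y ∈ C, p ∈ openSegment ℝ x y → x = p := by
    intro x hx y hy hs
    obtain ⟨s, t, hs0, ht0, hst, he⟩ := hs
    have e1 : p.1 = s * x.1 + t * y.1 := by rw [← he]; simp
    have e2 : p.2 = s * x.2 + t * y.2 := by rw [← he]; simp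
    have f1 := h1 x hx
    have f2 := h1 y hy
    have f3 := h2 x hx
    have f4 := h2 y hy
    have g1 : a * x.1 + b * x.2 = a * p.1 + b * p.2 := by
      have : s * (a * p.1 + b * p.2 - (a * x.1 + b * x.2)) +
          t * (a * p.1 + b * p.2 - (a * y.1 + b * y.2)) = 0 := by
        have : t = 1 - s := by linarith
        subst this
        linear_combination a * e1 + b * e2
      have k1 : 0 ≤ t * (a * p.1 + b * p.2 - (a * y.1 + b * y.2)) :=
        mul_nonneg ht0.le (by linarith)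
      have k2 : 0 ≤ s * (a * p.1 + b * p.2 - (a * x.1 + b * x.2)) :=
        mul_nonneg hs0.le (by linarith)
      have k3 : s * (a * p.1 + b * p.2 - (a * x.1 + b * x.2)) = 0 := by linarith
      have := (mul_eq_zero.1 k3).resolve_left hs0.ne'
      linarith
    have g2 : a' * x.1 + b' * x.2 = a' * p.1 + b' * p.2 := by
      have : s * (a' * p.1 + b' * p.2 - (a' * x.1 + b' * x.2)) +
          t * (a' * p.1 + b' * p.2 - (a' * y.1 + b' * y.2)) = 0 := by
        have : t = 1 - s := by linarith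
        subst this
        linear_combination a' * e1 + b' * e2
      have k1 : 0 ≤ t * (a' * p.1 + b' * p.2 - (a' * y.1 + b' * y.2)) :=
        mul_nonneg ht0.le (by linarith)
      have k2 : 0 ≤ s * (a' * p.1 + b' * p.2 - (a' * x.1 + b' * x.2)) :=
        mul_nonneg hs0.le (by linarith)
      have k3 : s * (a' * p.1 + b' * p.2 - (a' * x.1 + b' * x.2)) = 0 := by linarith
      have := (mul_eq_zero.1 k3).resolve_left hs0.ne'
      linarith
    have m1 : (a * b' - b * a') * (x.1 - p.1) = 0 := by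
      linear_combination b' * g1 - b * g2
    have m2 : (a * b' - b * a') * (x.2 - p.2) = 0 := by
      linear_combination a * g2 - a' * g1
    have n1 := (mul_eq_zero.1 m1).resolve_left hd
    have n2 := (mul_eq_zero.1 m2).resolve_left hd
    exact Prod.ext (by linarith) (by linarith)
  rw [mem_extremePoints]
  refine ⟨hp, ?_⟩
  intro x hx y hy hs
  refine ⟨key x hx y hy hs, key y hy x hx ?_⟩
  rw [openSegment_symm]
  exact hs

theorem hex_closed (w h N c : ℝ) : IsClosed (Hex w h N c) := by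
  unfold Hex
  refine IsClosed.and ?_ (IsClosed.and ?_ (IsClosed.and ?_ (IsClosed.and ?_ (IsClosed.and ?_ ?_)))) <;>
    exact isClosed_le (by fun_prop) (by fun_prop)

theorem side_of {w h N c : ℝ} (P : Prm w h N c) {p : ℝ × ℝ} (hf : p ∈ frontier (Hex w h N c))
    (he : p ∉ Set.extremePoints ℝ (Hex w h N c)) : BD w h N c p := by
  have hp : p ∈ Hex w h N c := (hex_closed w h N c).frontier_subset hf
  obtain ⟨h1, h2, h3, h4, h5, h6⟩ := hp
  have hp : p ∈ Hex w h N c := ⟨h1, h2, h3, h4, h5, h6⟩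
  have w0 := P.w0
  have h0 := P.h0
  have c0 := P.c0
  have cw := P.cw
  have ch := P.ch
  have wN := P.wN
  have hN := P.hN
  have Nw := P.Nw
  have cN := P.cN
  have hint : ¬ (0 < p.1 ∧ p.1 < w ∧ 0 < p.2 ∧ p.2 < h ∧ c < p.1 + p.2 ∧ p.1 + p.2 < N) := by
    intro hs
    apply hf.2
    have hopen : IsOpen {p : ℝ × ℝ | 0 < p.1 ∧ p.1 < w ∧ 0 < p.2 ∧ p.2 < h ∧ c < p.1 + p.2 ∧
        p.1 + p.2 < N} := by
      refine IsOpen.and ?_ (IsOpen.and ?_ (IsOpen.and ?_ (IsOpen.and ?_ (IsOpen.and ?_ ?_)))) <;>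
        exact isOpen_lt (by fun_prop) (by fun_prop)
    refine interior_maximal ?_ hopen hs
    rintro q ⟨a1, a2, a3, a4, a5, a6⟩
    exact ⟨a1.le, a2.le, a3.le, a4.le, a5.le, a6.le⟩
  -- the vertices
  have vBL : ¬ (p.1 = 0 ∧ p.2 = 0) := by
    rintro ⟨e1, e2⟩
    refine he (ext2 hp (-1) 0 0 (-1) (by norm_num) ?_ ?_)
    · rintro q ⟨a1, a2, a3, a4, a5, a6⟩; linarith
    · rintro q ⟨a1, a2, a3, a4, a5, a6⟩; linarith
  have vLT : ¬ (p.1 = 0 ∧ p.2 = h) := by
    rintro ⟨e1, e2⟩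
    refine he (ext2 hp (-1) 0 0 1 (by norm_num) ?_ ?_)
    · rintro q ⟨a1, a2, a3, a4, a5, a6⟩; linarith
    · rintro q ⟨a1, a2, a3, a4, a5, a6⟩; linarith
  have vBR : ¬ (p.1 = w ∧ p.2 = 0) := by
    rintro ⟨e1, e2⟩
    refine he (ext2 hp 1 0 0 (-1) (by norm_num) ?_ ?_)
    · rintro q ⟨a1, a2, a3, a4, a5, a6⟩; linarith
    · rintro q ⟨a1, a2, a3, a4, a5, a6⟩; linarith
  have vRH : ¬ (p.1 = w ∧ p.1 + p.2 = N) := by
    rintro ⟨e1, e2⟩
    refine he (ext2 hp 1 0 1 1 (by norm_num) ?_ ?_)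
    · rintro q ⟨a1, a2, a3, a4, a5, a6⟩; linarith
    · rintro q ⟨a1, a2, a3, a4, a5, a6⟩; linarith
  have vTH : ¬ (p.2 = h ∧ p.1 + p.2 = N) := by
    rintro ⟨e1, e2⟩
    refine he (ext2 hp 0 1 1 1 (by norm_num) ?_ ?_)
    · rintro q ⟨a1, a2, a3, a4, a5, a6⟩; linarith
    · rintro q ⟨a1, a2, a3, a4, a5, a6⟩; linarith
  have vLD : ¬ (p.1 = 0 ∧ p.1 + p.2 = c) := by
    rintro ⟨e1, e2⟩
    refine he (ext2 hp (-1) 0 (-1) (-1) (by norm_num) ?_ ?_)
    · rintro q ⟨a1, a2, a3, a4, a5, a6⟩; linarith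
    · rintro q ⟨a1, a2, a3, a4, a5, a6⟩; linarith
  have vBD : ¬ (p.2 = 0 ∧ p.1 + p.2 = c) := by
    rintro ⟨e1, e2⟩
    refine he (ext2 hp 0 (-1) (-1) (-1) (by norm_num) ?_ ?_)
    · rintro q ⟨a1, a2, a3, a4, a5, a6⟩; linarith
    · rintro q ⟨a1, a2, a3, a4, a5, a6⟩; linarith
  have lt_of : ∀ a b : ℝ, a ≤ b → a ≠ b → a < b := fun a b h1 h2 => lt_of_le_of_ne h1 h2
  unfold BD
  by_cases t1 : p.2 = 0
  · left
    refine ⟨t1, lt_of _ _ (by linarith) ?_, lt_of _ _ h2 ?_⟩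
    · intro h; exact vBD ⟨t1, by linarith⟩
    · intro h; exact vBR ⟨h, t1⟩
  by_cases t2 : p.1 = 0
  · right; left
    refine ⟨t2, lt_of _ _ (by linarith) ?_, lt_of _ _ h4 ?_⟩
    · intro h; exact vLD ⟨t2, by linarith⟩
    · intro h; exact vLT ⟨t2, h⟩
  have q2 : 0 < p.2 := lt_of _ _ h3 (Ne.symm t1)
  have q1 : 0 < p.1 := lt_of _ _ h1 (Ne.symm t2)
  by_cases t3 : p.1 = w
  · right; right; left
    refine ⟨t3, q2, lt_of _ _ (by linarith) ?_⟩
    intro h; exact vRH ⟨t3, by linarith⟩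
  by_cases t4 : p.2 = h
  · right; right; right; left
    refine ⟨t4, q1, lt_of _ _ (by linarith) ?_⟩
    intro h; exact vTH ⟨t4, by linarith⟩
  have q3 : p.1 < w := lt_of _ _ h2 t3
  have q4 : p.2 < h := lt_of _ _ h4 t4
  by_cases t5 : p.1 + p.2 = N
  · right; right; right; right; left
    exact ⟨t5, by linarith, q3⟩
  by_cases t6 : p.1 + p.2 = c
  · right; right; right; right; right
    exact ⟨t6, q1, by linarith⟩
  exact absurd ⟨q1, q3, q2, q4, lt_of _ _ h5 (Ne.symm t6), lt_of _ _ h6 t5⟩ hint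

/-- what a step looks like, by the side containing the middle point -/
theorem step_dir {w h N c : ℝ} (P : Prm w h N c) {x y z : ℝ × ℝ} (hs : Stp (Hex w h N c) x y z) :
    (((y.2 = 0 ∧ c < y.1 ∧ y.1 < w) ∨ (y.2 = h ∧ 0 < y.1 ∧ y.1 < N - h)) →
      (z.2 = x.2 ∧ 0 < x.2 ∧ x.2 < h)) ∧
    (((y.1 = 0 ∧ c < y.2 ∧ y.2 < h) ∨ (y.1 = w ∧ 0 < y.2 ∧ y.2 < N - w)) →
      (z.1 = x.1 ∧ 0 < x.1 ∧ x.1 < w)) ∧
    (((y.1 + y.2 = N ∧ N - h < y.1 ∧ y.1 < w) ∨ (y.1 + y.2 = c ∧ 0 < y.1 ∧ y.1 < c)) →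
      (z.1 + z.2 = x.1 + x.2 ∧ c < x.1 + x.2 ∧ x.1 + x.2 < N)) := by
  have w0 := P.w0
  have h0 := P.h0
  have c0 := P.c0
  have cw := P.cw
  have ch := P.ch
  have wN := P.wN
  have hN := P.hN
  have Nw := P.Nw
  have cN := P.cN
  obtain ⟨_, a, b, hab, hpar, hmax, hlt, q, hq, hlow⟩ := hs
  obtain ⟨b1, b2, b3, b4, b5, b6⟩ := hq
  have p1 := hmax (c, 0) ⟨c0, cw, le_refl _, h0.le, by simp, by simp; linarith⟩
  have p2 := hmax (w, 0) ⟨w0.le, le_refl _, le_refl _, h0.le, by simp; linarith, by simp; linarith⟩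
  have p3 := hmax (0, c) ⟨le_refl _, w0.le, c0, ch, by simp, by simp; linarith⟩
  have p4 := hmax (0, h) ⟨le_refl _, w0.le, h0.le, le_refl _, by simp; linarith, by simp; linarith⟩
  have p5 := hmax (w, N - w) ⟨w0.le, le_refl _, by simp; linarith, by simp; linarith,
    by simp; linarith, by simp⟩
  have p6 := hmax (N - h, h) ⟨by simp; linarith, by simp; linarith, h0.le, le_refl _,
    by simp; linarith, by simp⟩
  simp only at p1 p2 p3 p4 p5 p6
  refine ⟨?_, ?_, ?_⟩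
  · rintro (⟨e1, e2, e3⟩ | ⟨e1, e2, e3⟩)
    · rw [e1] at p1 p2 p3 p4 p5 p6 hlt
      have ha : a = 0 := by
        have k1 : a * (y.1 - c) ≥ 0 := by nlinarith
        have k2 : a * (w - y.1) ≤ 0 := by nlinarith
        have k3 : 0 ≤ a := nonneg_of_mul_nonneg_left k1 (by linarith)
        have k4 : a ≤ 0 := nonpos_of_mul_nonpos_left k2 (by linarith)
        linarith
      subst ha
      have hb : b < 0 := by
        have k1 : b * h ≤ 0 := by linarith
        have k2 : b ≤ 0 := nonpos_of_mul_nonpos_left k1 h0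
        rcases hab with h | h
        · exact absurd rfl h
        · exact lt_of_le_of_ne k2 h
      refine ⟨?_, ?_, ?_⟩
      · have k1 : b * (z.2 - x.2) = 0 := by linarith
        have := (mul_eq_zero.1 k1).resolve_left hb.ne
        linarith
      · nlinarith
      · have k1 : b * (q.2 - x.2) < 0 := by nlinarith
        have k2 : 0 < q.2 - x.2 := pos_of_mul_neg_right k1 hb.le
        linarith
    · rw [e1] at p1 p2 p3 p4 p5 p6 hlt
      have ha : a = 0 := by
        have k1 : a * y.1 ≥ 0 := by nlinarith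
        have k2 : a * (N - h - y.1) ≤ 0 := by nlinarith
        have k3 : 0 ≤ a := nonneg_of_mul_nonneg_left k1 (by linarith)
        have k4 : a ≤ 0 := nonpos_of_mul_nonpos_left k2 (by linarith)
        linarith
      subst ha
      have hb : 0 < b := by
        have k1 : 0 ≤ b * h := by linarith
        have k2 : 0 ≤ b := nonneg_of_mul_nonneg_left k1 h0
        rcases hab with h | h
        · exact absurd rfl h
        · exact lt_of_le_of_ne k2 (Ne.symm h)
      refine ⟨?_, ?_, ?_⟩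
      · have k1 : b * (z.2 - x.2) = 0 := by linarith
        have := (mul_eq_zero.1 k1).resolve_left hb.ne'
        linarith
      · have k1 : 0 < b * (x.2 - q.2) := by nlinarith
        have k2 : 0 < x.2 - q.2 := (mul_pos_iff_of_pos_left hb).1 k1
        linarith
      · have k1 : 0 < b * (h - x.2) := by nlinarith
        have k2 : 0 < h - x.2 := (mul_pos_iff_of_pos_left hb).1 k1
        linarith
  · rintro (⟨e1, e2, e3⟩ | ⟨e1, e2, e3⟩)
    · rw [e1] at p1 p2 p3 p4 p5 p6 hlt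
      have hb0 : b = 0 := by
        have k1 : b * (y.2 - c) ≥ 0 := by nlinarith
        have k2 : b * (h - y.2) ≤ 0 := by nlinarith
        have k3 : 0 ≤ b := nonneg_of_mul_nonneg_left k1 (by linarith)
        have k4 : b ≤ 0 := nonpos_of_mul_nonpos_left k2 (by linarith)
        linarith
      subst hb0
      have hb : a < 0 := by
        have k1 : a * w ≤ 0 := by linarith
        have k2 : a ≤ 0 := nonpos_of_mul_nonpos_left k1 w0
        rcases hab with h | h
        · exact lt_of_le_of_ne k2 h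
        · exact absurd rfl h
      refine ⟨?_, ?_, ?_⟩
      · have k1 : a * (z.1 - x.1) = 0 := by linarith
        have := (mul_eq_zero.1 k1).resolve_left hb.ne
        linarith
      · nlinarith
      · have k1 : a * (q.1 - x.1) < 0 := by nlinarith
        have k2 : 0 < q.1 - x.1 := pos_of_mul_neg_right k1 hb.le
        linarith
    · rw [e1] at p1 p2 p3 p4 p5 p6 hlt
      have hb0 : b = 0 := by
        have k1 : b * y.2 ≥ 0 := by nlinarith
        have k2 : b * (N - w - y.2) ≤ 0 := by nlinarith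
        have k3 : 0 ≤ b := nonneg_of_mul_nonneg_left k1 (by linarith)
        have k4 : b ≤ 0 := nonpos_of_mul_nonpos_left k2 (by linarith)
        linarith
      subst hb0
      have hb : 0 < a := by
        have k1 : 0 ≤ a * w := by linarith
        have k2 : 0 ≤ a := nonneg_of_mul_nonneg_left k1 w0
        rcases hab with h | h
        · exact lt_of_le_of_ne k2 (Ne.symm h)
        · exact absurd rfl h
      refine ⟨?_, ?_, ?_⟩
      · have k1 : a * (z.1 - x.1) = 0 := by linarith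
        have := (mul_eq_zero.1 k1).resolve_left hb.ne'
        linarith
      · have k1 : 0 < a * (x.1 - q.1) := by nlinarith
        have k2 : 0 < x.1 - q.1 := (mul_pos_iff_of_pos_left hb).1 k1
        linarith
      · have k1 : 0 < a * (w - x.1) := by nlinarith
        have k2 : 0 < w - x.1 := (mul_pos_iff_of_pos_left hb).1 k1
        linarith
  · rintro (⟨e1, e2, e3⟩ | ⟨e1, e2, e3⟩)
    · have e4 : y.2 = N - y.1 := by linarith
      rw [e4] at p1 p2 p3 p4 p5 p6 hlt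
      have hb0 : b = a := by
        have k1 : (a - b) * (w - y.1) ≤ 0 := by nlinarith
        have k2 : (a - b) * (y.1 - (N - h)) ≥ 0 := by nlinarith
        have k3 : 0 ≤ a - b := nonneg_of_mul_nonneg_left k2 (by linarith)
        have k4 : a - b ≤ 0 := nonpos_of_mul_nonpos_left k1 (by linarith)
        linarith
      subst hb0
      have hb : 0 < b := by
        have k1 : 0 ≤ b * (N - c) := by nlinarith
        have k2 : 0 ≤ b := nonneg_of_mul_nonneg_left k1 (by linarith)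
        rcases hab with h | h <;> exact lt_of_le_of_ne k2 (Ne.symm h)
      refine ⟨?_, ?_, ?_⟩
      · have k1 : b * ((z.1 + z.2) - (x.1 + x.2)) = 0 := by linarith
        have := (mul_eq_zero.1 k1).resolve_left hb.ne'
        linarith
      · have k1 : 0 < b * ((x.1 + x.2) - (q.1 + q.2)) := by nlinarith
        have k2 : 0 < (x.1 + x.2) - (q.1 + q.2) := (mul_pos_iff_of_pos_left hb).1 k1
        linarith
      · have k1 : 0 < b * (N - (x.1 + x.2)) := by nlinarith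
        have k2 : 0 < N - (x.1 + x.2) := (mul_pos_iff_of_pos_left hb).1 k1
        linarith
    · have e4 : y.2 = c - y.1 := by linarith
      rw [e4] at p1 p2 p3 p4 p5 p6 hlt
      have hb0 : b = a := by
        have k1 : (a - b) * (c - y.1) ≤ 0 := by nlinarith
        have k2 : (a - b) * y.1 ≥ 0 := by nlinarith
        have k3 : 0 ≤ a - b := nonneg_of_mul_nonneg_left k2 (by linarith)
        have k4 : a - b ≤ 0 := nonpos_of_mul_nonpos_left k1 (by linarith)
        linarith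
      subst hb0
      have hb : b < 0 := by
        have k1 : b * (N - c) ≤ 0 := by nlinarith
        have k2 : b ≤ 0 := nonpos_of_mul_nonpos_left k1 (by linarith)
        rcases hab with h | h <;> exact lt_of_le_of_ne k2 h
      refine ⟨?_, ?_, ?_⟩
      · have k1 : b * ((z.1 + z.2) - (x.1 + x.2)) = 0 := by linarith
        have := (mul_eq_zero.1 k1).resolve_left hb.ne
        linarith
      · have k1 : b * ((x.1 + x.2) - c) < 0 := by nlinarith
        have k2 : 0 < (x.1 + x.2) - c := pos_of_mul_neg_right k1 hb.le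
        linarith
      · have k1 : b * ((q.1 + q.2) - (x.1 + x.2)) < 0 := by nlinarith
        have k2 : 0 < (q.1 + q.2) - (x.1 + x.2) := pos_of_mul_neg_right k1 hb.le
        linarith

/-- the three kinds of lines -/
def Rl (w h N c : ℝ) (k : ℕ) (x z : ℝ × ℝ) : Prop :=
  (k = 0 ∧ z.2 = x.2 ∧ 0 < x.2 ∧ x.2 < h) ∨ (k = 1 ∧ z.1 = x.1 ∧ 0 < x.1 ∧ x.1 < w) ∨
  (k = 2 ∧ z.1 + z.2 = x.1 + x.2 ∧ c < x.1 + x.2 ∧ x.1 + x.2 < N)

theorem step_rl {w h N c : ℝ} (P : Prm w h N c) {y : ℝ × ℝ} (hy : BD w h N c y) :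
    ∃ k : ℕ, ∀ x z, Stp (Hex w h N c) x y z → Rl w h N c k x z := by
  rcases hy with hy | hy | hy | hy | hy | hy
  · exact ⟨0, fun x z hs => Or.inl ⟨rfl, (step_dir P hs).1 (Or.inl hy)⟩⟩
  · exact ⟨1, fun x z hs => Or.inr (Or.inl ⟨rfl, (step_dir P hs).2.1 (Or.inl hy)⟩)⟩
  · exact ⟨1, fun x z hs => Or.inr (Or.inl ⟨rfl, (step_dir P hs).2.1 (Or.inr hy)⟩)⟩
  · exact ⟨0, fun x z hs => Or.inl ⟨rfl, (step_dir P hs).1 (Or.inr hy)⟩⟩
  · exact ⟨2, fun x z hs => Or.inr (Or.inr ⟨rfl, (step_dir P hs).2.2 (Or.inl hy)⟩)⟩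
  · exact ⟨2, fun x z hs => Or.inr (Or.inr ⟨rfl, (step_dir P hs).2.2 (Or.inr hy)⟩)⟩

theorem Rl.symm {w h N c : ℝ} {k : ℕ} {x z : ℝ × ℝ} (hr : Rl w h N c k x z) :
    Rl w h N c k z x := by
  rcases hr with ⟨h1, h2, h3, h4⟩ | ⟨h1, h2, h3, h4⟩ | ⟨h1, h2, h3, h4⟩
  · left; exact ⟨h1, h2.symm, by linarith, by linarith⟩
  · right; left; exact ⟨h1, h2.symm, by linarith, by linarith⟩
  · right; right; exact ⟨h1, h2.symm, by linarith, by linarith⟩

/-- a horizontal line meets the open sides in at most two points -/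
theorem end0 {w h N c : ℝ} {p : ℝ × ℝ} (hp : BD w h N c p) (h1 : 0 < p.2)
    (h2 : p.2 < h) : p.1 = max 0 (c - p.2) ∨ p.1 = min w (N - p.2) := by
  rcases hp with ⟨a, b, d⟩ | ⟨a, b, d⟩ | ⟨a, b, d⟩ | ⟨a, b, d⟩ | ⟨a, b, d⟩ | ⟨a, b, d⟩
  · linarith
  · left; rw [max_eq_left (by linarith), a]
  · right; rw [min_eq_left (by linarith), a]
  · linarith
  · right; rw [min_eq_right (by linarith)]; linarith
  · left; rw [max_eq_right (by linarith)]; linarith

theorem end1 {w h N c : ℝ} {p : ℝ × ℝ} (hp : BD w h N c p) (h1 : 0 < p.1)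
    (h2 : p.1 < w) : p.2 = max 0 (c - p.1) ∨ p.2 = min h (N - p.1) := by
  rcases hp with ⟨a, b, d⟩ | ⟨a, b, d⟩ | ⟨a, b, d⟩ | ⟨a, b, d⟩ | ⟨a, b, d⟩ | ⟨a, b, d⟩
  · left; rw [max_eq_left (by linarith), a]
  · linarith
  · linarith
  · right; rw [min_eq_left (by linarith), a]
  · right; rw [min_eq_right (by linarith)]; linarith
  · left; rw [max_eq_right (by linarith)]; linarith

theorem end2 {w h N c : ℝ} {p : ℝ × ℝ} (hp : BD w h N c p)
    (h1 : c < p.1 + p.2) (h2 : p.1 + p.2 < N) :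
    p.1 = max 0 (p.1 + p.2 - h) ∨ p.1 = min w (p.1 + p.2) := by
  rcases hp with ⟨a, b, d⟩ | ⟨a, b, d⟩ | ⟨a, b, d⟩ | ⟨a, b, d⟩ | ⟨a, b, d⟩ | ⟨a, b, d⟩
  · right; rw [min_eq_right (by linarith)]; linarith
  · left; rw [max_eq_left (by linarith)]; linarith
  · right; rw [min_eq_left (by linarith)]; linarith
  · left; rw [max_eq_right (by linarith)]; linarith
  · linarith
  · linarith

theorem partner {w h N c : ℝ} {k : ℕ} {x z z' : ℝ × ℝ} (hx : BD w h N c x)
    (hz : BD w h N c z) (hz' : BD w h N c z') (h1 : Rl w h N c k x z) (h2 : Rl w h N c k x z')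
    (hne : z ≠ x) (hne' : z' ≠ x) : z = z' := by
  rcases h1 with ⟨h1, h3, h4, h5⟩ | ⟨h1, h3, h4, h5⟩ | ⟨h1, h3, h4, h5⟩
  · rcases h2 with ⟨h2, k3, k4, k5⟩ | ⟨h2, k3, k4, k5⟩ | ⟨h2, k3, k4, k5⟩
    · have ex := end0 hx h4 h5
      have ez := end0 hz (by linarith) (by linarith)
      have ez' := end0 hz' (by linarith) (by linarith)
      rw [h3] at ez
      rw [k3] at ez'
      rcases ex with ex | ex <;> rcases ez with ez | ez <;> rcases ez' with ez' | ez'
      · exact absurd (Prod.ext (by rw [ez, ex]) h3) hne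
      · exact absurd (Prod.ext (by rw [ez, ex]) h3) hne
      · exact absurd (Prod.ext (by rw [ez', ex]) k3) hne'
      · exact Prod.ext (by rw [ez, ez']) (by rw [h3, k3])
      · exact Prod.ext (by rw [ez, ez']) (by rw [h3, k3])
      · exact absurd (Prod.ext (by rw [ez', ex]) k3) hne'
      · exact absurd (Prod.ext (by rw [ez, ex]) h3) hne
      · exact absurd (Prod.ext (by rw [ez, ex]) h3) hne
    · omega
    · omega
  · rcases h2 with ⟨h2, k3, k4, k5⟩ | ⟨h2, k3, k4, k5⟩ | ⟨h2, k3, k4, k5⟩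
    · omega
    · have ex := end1 hx h4 h5
      have ez := end1 hz (by linarith) (by linarith)
      have ez' := end1 hz' (by linarith) (by linarith)
      rw [h3] at ez
      rw [k3] at ez'
      rcases ex with ex | ex <;> rcases ez with ez | ez <;> rcases ez' with ez' | ez'
      · exact absurd (Prod.ext h3 (by rw [ez, ex])) hne
      · exact absurd (Prod.ext h3 (by rw [ez, ex])) hne
      · exact absurd (Prod.ext k3 (by rw [ez', ex])) hne'
      · exact Prod.ext (by rw [h3, k3]) (by rw [ez, ez'])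
      · exact Prod.ext (by rw [h3, k3]) (by rw [ez, ez'])
      · exact absurd (Prod.ext k3 (by rw [ez', ex])) hne'
      · exact absurd (Prod.ext h3 (by rw [ez, ex])) hne
      · exact absurd (Prod.ext h3 (by rw [ez, ex])) hne
    · omega
  · rcases h2 with ⟨h2, k3, k4, k5⟩ | ⟨h2, k3, k4, k5⟩ | ⟨h2, k3, k4, k5⟩
    · omega
    · omega
    · have ex := end2 hx h4 h5
      have ez := end2 hz (by linarith) (by linarith)
      have ez' := end2 hz' (by linarith) (by linarith)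
      rw [h3] at ez
      rw [k3] at ez'
      have fin : ∀ u v : ℝ × ℝ, u.1 = v.1 → u.1 + u.2 = v.1 + v.2 → u = v := by
        intro u v e1 e2
        exact Prod.ext e1 (by linarith)
      rcases ex with ex | ex <;> rcases ez with ez | ez <;> rcases ez' with ez' | ez'
      · exact absurd (fin _ _ (ez.trans ex.symm) h3) hne
      · exact absurd (fin _ _ (ez.trans ex.symm) h3) hne
      · exact absurd (fin _ _ (ez'.trans ex.symm) k3) hne'
      · exact fin _ _ (ez.trans ez'.symm) (by rw [h3, k3])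
      · exact fin _ _ (ez.trans ez'.symm) (by rw [h3, k3])
      · exact absurd (fin _ _ (ez'.trans ex.symm) k3) hne'
      · exact absurd (fin _ _ (ez.trans ex.symm) h3) hne
      · exact absurd (fin _ _ (ez.trans ex.symm) h3) hne


theorem inF_BD {w h N c : ℝ} {E : Set ℝ} {p : ℝ × ℝ} (hp : inF w h N c E p) : BD w h N c p := by
  rcases hp with hp | hp | hp | hp | hp | hp
  · exact Or.inl hp.1
  · exact Or.inr (Or.inl hp.1)
  · exact Or.inr (Or.inr (Or.inl hp.1))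
  · exact Or.inr (Or.inr (Or.inr (Or.inl hp.1)))
  · exact Or.inr (Or.inr (Or.inr (Or.inr (Or.inl hp.1))))
  · exact Or.inr (Or.inr (Or.inr (Or.inr (Or.inr hp.1))))

theorem inF_step {w h N c : ℝ} (P : Prm w h N c) {E : Set ℝ} (hE : Cl w h N E)
    (hrd : ∀ t ∈ E, 0 < t → t < c → c - t ∈ E) {k : ℕ} {x z : ℝ × ℝ} (hx : inF w h N c E x)
    (hz : BD w h N c z) (hr : Rl w h N c k x z) : inF w h N c E z := by
  have w0 := P.w0
  have h0 := P.h0
  have c0 := P.c0
  have cw := P.cw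
  have ch := P.ch
  have wN := P.wN
  have hN := P.hN
  have Nw := P.Nw
  have cN := P.cN
  rcases hr with ⟨_, h1, h2, h3⟩ | ⟨_, h1, h2, h3⟩ | ⟨_, h1, h2, h3⟩
  · -- horizontal line
    have A : x.2 ∈ E := by
      rcases hx with ⟨⟨a, b, d⟩, e⟩ | ⟨⟨a, b, d⟩, e⟩ | ⟨⟨a, b, d⟩, e⟩ | ⟨⟨a, b, d⟩, e⟩ |
        ⟨⟨a, b, d⟩, e⟩ | ⟨⟨a, b, d⟩, e⟩
      · linarith
      · exact e
      · exact e
      · linarith
      · have := hE.rf _ e b d
        have e2 : N - x.1 = x.2 := by linarith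
        rwa [e2] at this
      · have := hrd _ e b d
        have e2 : c - x.1 = x.2 := by linarith
        rwa [e2] at this
    rw [← h1] at A h2 h3
    rcases hz with ⟨a, b, d⟩ | ⟨a, b, d⟩ | ⟨a, b, d⟩ | ⟨a, b, d⟩ | ⟨a, b, d⟩ | ⟨a, b, d⟩
    · linarith
    · exact Or.inr (Or.inl ⟨⟨a, b, d⟩, A⟩)
    · exact Or.inr (Or.inr (Or.inl ⟨⟨a, b, d⟩, A⟩))
    · linarith
    · refine Or.inr (Or.inr (Or.inr (Or.inr (Or.inl ⟨⟨a, b, d⟩, ?_⟩))))
      have := hE.rf' _ A (by linarith) h3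
      have e2 : N - z.2 = z.1 := by linarith
      rwa [e2] at this
    · refine Or.inr (Or.inr (Or.inr (Or.inr (Or.inr ⟨⟨a, b, d⟩, ?_⟩))))
      have := hrd _ A h2 (by linarith)
      have e2 : c - z.2 = z.1 := by linarith
      rwa [e2] at this
  · -- vertical line
    have A : x.1 ∈ E := by
      rcases hx with ⟨⟨a, b, d⟩, e⟩ | ⟨⟨a, b, d⟩, e⟩ | ⟨⟨a, b, d⟩, e⟩ | ⟨⟨a, b, d⟩, e⟩ |
        ⟨⟨a, b, d⟩, e⟩ | ⟨⟨a, b, d⟩, e⟩
      · exact e
      · linarith
      · linarith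
      · exact e
      · exact e
      · exact e
    rw [← h1] at A h2 h3
    rcases hz with ⟨a, b, d⟩ | ⟨a, b, d⟩ | ⟨a, b, d⟩ | ⟨a, b, d⟩ | ⟨a, b, d⟩ | ⟨a, b, d⟩
    · exact Or.inl ⟨⟨a, b, d⟩, A⟩
    · linarith
    · linarith
    · exact Or.inr (Or.inr (Or.inr (Or.inl ⟨⟨a, b, d⟩, A⟩)))
    · exact Or.inr (Or.inr (Or.inr (Or.inr (Or.inl ⟨⟨a, b, d⟩, A⟩))))
    · exact Or.inr (Or.inr (Or.inr (Or.inr (Or.inr ⟨⟨a, b, d⟩, A⟩))))
  · -- diagonal line
    have A : x.1 + x.2 ∈ E := by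
      rcases hx with ⟨⟨a, b, d⟩, e⟩ | ⟨⟨a, b, d⟩, e⟩ | ⟨⟨a, b, d⟩, e⟩ | ⟨⟨a, b, d⟩, e⟩ |
        ⟨⟨a, b, d⟩, e⟩ | ⟨⟨a, b, d⟩, e⟩
      · rw [a, add_zero]; exact e
      · rw [a, zero_add]; exact e
      · have := hE.wp _ e b (by linarith)
        rw [a, add_comm]; exact this
      · have := hE.hp _ e b (by linarith)
        rw [a]; exact this
      · linarith
      · linarith
    rw [← h1] at A h2 h3
    rcases hz with ⟨a, b, d⟩ | ⟨a, b, d⟩ | ⟨a, b, d⟩ | ⟨a, b, d⟩ | ⟨a, b, d⟩ | ⟨a, b, d⟩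
    · rw [a, add_zero] at A
      exact Or.inl ⟨⟨a, b, d⟩, A⟩
    · rw [a, zero_add] at A
      exact Or.inr (Or.inl ⟨⟨a, b, d⟩, A⟩)
    · refine Or.inr (Or.inr (Or.inl ⟨⟨a, b, d⟩, ?_⟩))
      have := hE.wm _ A h3 (by linarith)
      have e2 : z.1 + z.2 - w = z.2 := by linarith
      rwa [e2] at this
    · refine Or.inr (Or.inr (Or.inr (Or.inl ⟨⟨a, b, d⟩, ?_⟩)))
      have := hE.hm _ A h3 (by linarith)
      have e2 : z.1 + z.2 - h = z.1 := by linarith
      rwa [e2] at this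
    · linarith
    · linarith

theorem inF_finite (w h N c : ℝ) {E : Set ℝ} (hE : E.Finite) :
    {p : ℝ × ℝ | inF w h N c E p}.Finite := by
  have h1 : {p : ℝ × ℝ | inF w h N c E p} ⊆
      ((fun t : ℝ => ((t, 0) : ℝ × ℝ)) '' E) ∪ ((fun t : ℝ => ((0, t) : ℝ × ℝ)) '' E) ∪
      ((fun t : ℝ => ((w, t) : ℝ × ℝ)) '' E) ∪ ((fun t : ℝ => ((t, h) : ℝ × ℝ)) '' E) ∪
      ((fun t : ℝ => ((t, N - t) : ℝ × ℝ)) '' E) ∪ ((fun t : ℝ => ((t, c - t) : ℝ × ℝ)) '' E) := by
    intro p hp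
    rcases hp with ⟨⟨a, b, d⟩, e⟩ | ⟨⟨a, b, d⟩, e⟩ | ⟨⟨a, b, d⟩, e⟩ | ⟨⟨a, b, d⟩, e⟩ |
        ⟨⟨a, b, d⟩, e⟩ | ⟨⟨a, b, d⟩, e⟩
    · exact Or.inl (Or.inl (Or.inl (Or.inl (Or.inl ⟨p.1, e, Prod.ext rfl a.symm⟩))))
    · exact Or.inl (Or.inl (Or.inl (Or.inl (Or.inr ⟨p.2, e, Prod.ext a.symm rfl⟩))))
    · exact Or.inl (Or.inl (Or.inl (Or.inr ⟨p.2, e, Prod.ext a.symm rfl⟩)))
    · exact Or.inl (Or.inl (Or.inr ⟨p.1, e, Prod.ext rfl a.symm⟩))
    · exact Or.inl (Or.inr ⟨p.1, e, Prod.ext rfl (by simp only; linarith)⟩)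
    · exact Or.inr ⟨p.1, e, Prod.ext rfl (by simp only; linarith)⟩
  refine Set.Finite.subset ?_ h1
  exact (((((hE.image _).union (hE.image _)).union (hE.image _)).union (hE.image _)).union
    (hE.image _)).union (hE.image _)

/-- the parameter of a point on an open side -/
theorem BD_inF {w h N c : ℝ} (P : Prm w h N c) {p : ℝ × ℝ} (hp : BD w h N c p) :
    ∃ t : ℝ, 0 < t ∧ t < N ∧ ∀ E : Set ℝ, t ∈ E → inF w h N c E p := by
  have w0 := P.w0
  have h0 := P.h0
  have c0 := P.c0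
  have cw := P.cw
  have ch := P.ch
  have wN := P.wN
  have hN := P.hN
  have Nw := P.Nw
  have cN := P.cN
  rcases hp with hp | hp | hp | hp | hp | hp
  · exact ⟨p.1, by linarith [hp.2.1], by linarith [hp.2.2], fun E hE => Or.inl ⟨hp, hE⟩⟩
  · exact ⟨p.2, by linarith [hp.2.1], by linarith [hp.2.2], fun E hE => Or.inr (Or.inl ⟨hp, hE⟩)⟩
  · exact ⟨p.2, by linarith [hp.2.1], by linarith [hp.2.2],
      fun E hE => Or.inr (Or.inr (Or.inl ⟨hp, hE⟩))⟩
  · exact ⟨p.1, by linarith [hp.2.1], by linarith [hp.2.2],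
      fun E hE => Or.inr (Or.inr (Or.inr (Or.inl ⟨hp, hE⟩)))⟩
  · exact ⟨p.1, by linarith [hp.2.1], by linarith [hp.2.2],
      fun E hE => Or.inr (Or.inr (Or.inr (Or.inr (Or.inl ⟨hp, hE⟩))))⟩
  · exact ⟨p.1, by linarith [hp.2.1], by linarith [hp.2.2],
      fun E hE => Or.inr (Or.inr (Or.inr (Or.inr (Or.inr ⟨hp, hE⟩))))⟩

/-- If parameters lie in finite closed sets then all orbits are periodic. -/
theorem main_periodic {w h N c : ℝ} (P : Prm w h N c)
    (hfin : ∀ t : ℝ, 0 < t → t < N → ∃ E : Set ℝ, E.Finite ∧ t ∈ E ∧ Cl w h N E ∧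
      ∀ t ∈ E, 0 < t → t < c → c - t ∈ E)
    (x : ℤ → ℝ × ℝ) (hx : IsOrbit (Hex w h N c) x) : ∃ k : ℤ, 0 < k ∧ ∀ i, x (i + k) = x i := by
  have hBD : ∀ i, BD w h N c (x i) := fun i => side_of P (hx i).1 (hx i).2.1
  have hst : ∀ i, Stp (Hex w h N c) (x i) (x (i + 1)) (x (i + 2)) := fun i => (hx i).2.2
  obtain ⟨t0, a0, b0, d0⟩ := BD_inF P (hBD 0)
  obtain ⟨t1, a1, b1, d1⟩ := BD_inF P (hBD 1)
  obtain ⟨E0, f0, m0, c0, r0⟩ := hfin t0 a0 b0
  obtain ⟨E1, f1, m1, c1, r1⟩ := hfin t1 a1 b1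
  have hF0 : {p : ℝ × ℝ | inF w h N c E0 p}.Finite := inF_finite w h N c f0
  have hF1 : {p : ℝ × ℝ | inF w h N c E1 p}.Finite := inF_finite w h N c f1
  have hstep : ∀ (E : Set ℝ), Cl w h N E → (∀ t ∈ E, 0 < t → t < c → c - t ∈ E) → ∀ i : ℤ,
      inF w h N c E (x i) → inF w h N c E (x (i + 2)) := by
    intro E hE hr i hi
    obtain ⟨k, hk⟩ := step_rl P (hBD (i + 1))
    exact inF_step P hE hr hi (hBD _) (hk _ _ (hst i))
  have hev : ∀ n : ℕ, inF w h N c E0 (x (2 * n)) ∧ inF w h N c E1 (x (2 * n + 1)) := by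
    intro n
    induction n with
    | zero => exact ⟨d0 E0 m0, d1 E1 m1⟩
    | succ n ih =>
      have e1 := hstep E0 c0 r0 _ ih.1
      have e2 := hstep E1 c1 r1 _ ih.2
      have g1 : (2 * (n : ℤ) + 2) = 2 * ((n + 1 : ℕ) : ℤ) := by push_cast; ring
      have g2 : (2 * (n : ℤ) + 1 + 2) = 2 * ((n + 1 : ℕ) : ℤ) + 1 := by push_cast; ring
      rw [g1] at e1
      rw [g2] at e2
      exact ⟨e1, e2⟩
  -- a repetition
  obtain ⟨m, n, hmn, he⟩ : ∃ m n : ℕ, m < n ∧ (x (2 * m), x (2 * m + 1)) = (x (2 * n), x (2 * n + 1)) := by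
    have hfinite := hF0.prod hF1
    have : ¬ Function.Injective (fun n : ℕ => ((⟨(x (2 * n), x (2 * n + 1)), hev n⟩ :
        ({p : ℝ × ℝ | inF w h N c E0 p} ×ˢ {p : ℝ × ℝ | inF w h N c E1 p} :
          Set ((ℝ × ℝ) × (ℝ × ℝ)))))) := by
      have := hfinite.to_subtype
      exact not_injective_infinite_finite _
    rw [Function.not_injective_iff] at this
    obtain ⟨a, b, hab, hne⟩ := this
    have hab' := congrArg Subtype.val hab
    simp only at hab'
    rcases lt_or_gt_of_ne hne with h1 | h1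
    · exact ⟨a, b, h1, hab'⟩
    · exact ⟨b, a, h1, hab'.symm⟩
  rw [Prod.mk.injEq] at he
  obtain ⟨k, hk⟩ : ∃ k : ℤ, k = 2 * (n : ℤ) - 2 * m := ⟨_, rfl⟩
  have hk0 : 0 < k := by omega
  -- both directions are deterministic
  have hfw : ∀ i : ℤ, (x (i + k) = x i ∧ x (i + 1 + k) = x (i + 1)) → x (i + 2 + k) = x (i + 2) := by
    rintro i ⟨e1, e2⟩
    obtain ⟨d, hd⟩ := step_rl P (hBD (i + 1))
    have s1 := hst i
    have s2 := hst (i + k)
    have g1 : i + k + 1 = i + 1 + k := by ring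
    have g2 : i + k + 2 = i + 2 + k := by ring
    rw [g1, g2, e1, e2] at s2
    exact partner (hBD i) (hBD _) (hBD _) (hd _ _ s2) (hd _ _ s1) s2.1 s1.1
  have hbw : ∀ i : ℤ, (x (i + 1 + k) = x (i + 1) ∧ x (i + 2 + k) = x (i + 2)) → x (i + k) = x i := by
    rintro i ⟨e1, e2⟩
    obtain ⟨d, hd⟩ := step_rl P (hBD (i + 1))
    have s1 := hst i
    have s2 := hst (i + k)
    have g1 : i + k + 1 = i + 1 + k := by ring
    have g2 : i + k + 2 = i + 2 + k := by ring
    rw [g1, g2, e1, e2] at s2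
    exact partner (hBD (i + 2)) (hBD _) (hBD _) (hd _ _ s2).symm (hd _ _ s1).symm
      (Ne.symm s2.1) (Ne.symm s1.1)
  refine ⟨k, hk0, ?_⟩
  have hall : ∀ i : ℤ, x (i + k) = x i ∧ x (i + 1 + k) = x (i + 1) := by
    intro i
    refine Int.inductionOn' (motive := fun i => x (i + k) = x i ∧ x (i + 1 + k) = x (i + 1)) i
      (2 * (m : ℤ)) ?_ ?_ ?_
    · have g1 : 2 * (m : ℤ) + k = 2 * n := by rw [hk]; ring
      have g2 : 2 * (m : ℤ) + 1 + k = 2 * n + 1 := by rw [hk]; ring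
      rw [g1, g2]
      exact ⟨he.1.symm, he.2.symm⟩
    · intro i _ ih
      refine ⟨ih.2, ?_⟩
      have := hfw i ih
      have g : i + 1 + 1 = i + 2 := by ring
      rw [g]
      exact this
    · intro i _ ih
      have g : i - 1 + 1 = i := by ring
      have g2 : i - 1 + 2 = i + 1 := by ring
      have := hbw (i - 1) (by rw [g, g2]; exact ih)
      rw [g]
      exact ⟨this, ih.1⟩
  exact fun i => (hall i).1

/-! ### affine images -/

theorem orbit_pull (e : (ℝ × ℝ) ≃ᵃ[ℝ] (ℝ × ℝ)) (C : Set (ℝ × ℝ)) (x : ℤ → ℝ × ℝ)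
    (hx : IsOrbit (e '' C) x) : IsOrbit C (fun i => e.symm (x i)) := by
  have hform : ∀ a b : ℝ, ∃ A B K : ℝ, (∀ p : ℝ × ℝ, a * (e p).1 + b * (e p).2 =
      A * p.1 + B * p.2 + K) ∧ ((a ≠ 0 ∨ b ≠ 0) → (A ≠ 0 ∨ B ≠ 0)) := by
    intro a b
    have hL : ∀ p : ℝ × ℝ, e p = e.linear p + e 0 := by
      intro p
      have := e.map_vadd (0 : ℝ × ℝ) p
      simpa using this
    have hlin : ∀ p : ℝ × ℝ, e.linear p = p.1 • e.linear (1, 0) + p.2 • e.linear (0, 1) := by
      intro p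
      have e1 : p = p.1 • ((1, 0) : ℝ × ℝ) + p.2 • ((0, 1) : ℝ × ℝ) := by
        ext <;> simp
      conv_lhs => rw [e1]
      rw [map_add, map_smul, map_smul]
    refine ⟨a * (e.linear (1, 0)).1 + b * (e.linear (1, 0)).2,
      a * (e.linear (0, 1)).1 + b * (e.linear (0, 1)).2, a * (e 0).1 + b * (e 0).2, ?_, ?_⟩
    · intro p
      rw [hL p, hlin p]
      simp only [Prod.fst_add, Prod.snd_add, Prod.smul_fst, Prod.smul_snd, smul_eq_mul]
      ring
    · intro hab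
      by_contra hcon
      rw [not_or, not_not, not_not] at hcon
      obtain ⟨v, hv⟩ := e.linear.surjective (a, b)
      have h1 := hlin v
      rw [hv] at h1
      have h2 : a = v.1 * (e.linear (1, 0)).1 + v.2 * (e.linear (0, 1)).1 := by
        have := congrArg Prod.fst h1
        simpa using this
      have h3 : b = v.1 * (e.linear (1, 0)).2 + v.2 * (e.linear (0, 1)).2 := by
        have := congrArg Prod.snd h1
        simpa using this
      have h4 : a * a + b * b = 0 := by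
        linear_combination a * h2 + b * h3 + v.1 * hcon.1 + v.2 * hcon.2
      have h5 : a = 0 := by nlinarith [mul_self_nonneg a, mul_self_nonneg b]
      have h6 : b = 0 := by nlinarith [mul_self_nonneg a, mul_self_nonneg b]
      rcases hab with h | h
      · exact h h5
      · exact h h6
  intro i
  obtain ⟨hf, he, hs⟩ := hx i
  refine ⟨?_, ?_, ?_⟩
  · have h1 := (e.toHomeomorphOfFiniteDimensional).image_frontier C
    have h2 : (e.toHomeomorphOfFiniteDimensional : ℝ × ℝ → ℝ × ℝ) = e := rfl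
    rw [h2] at h1
    rw [← h1] at hf
    obtain ⟨q, hq, hqe⟩ := hf
    show e.symm (x i) ∈ frontier C
    rw [← hqe, e.symm_apply_apply]
    exact hq
  · intro hext
    apply he
    rw [mem_extremePoints] at hext ⊢
    refine ⟨⟨e.symm (x i), hext.1, e.apply_symm_apply _⟩, ?_⟩
    rintro _ ⟨p, hp, rfl⟩ _ ⟨q, hq, rfl⟩ hseg
    have h1 : e.symm (x i) ∈ openSegment ℝ p q := by
      have h2 := image_openSegment ℝ (e : (ℝ × ℝ) →ᵃ[ℝ] (ℝ × ℝ)) p q
      have h3 : x i ∈ (e : (ℝ × ℝ) →ᵃ[ℝ] (ℝ × ℝ)) '' openSegment ℝ p q := by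
        rw [h2]; exact hseg
      obtain ⟨r, hr, hre⟩ := h3
      have h4 : e r = x i := hre
      rw [← h4, e.symm_apply_apply]
      exact hr
    have h5 := hext.2 p hp q hq h1
    constructor
    · rw [h5.1, e.apply_symm_apply]
    · rw [h5.2, e.apply_symm_apply]
  · obtain ⟨hne, a, b, hab, hpar, hmax, hlt, p, hp, hlow⟩ := hs
    obtain ⟨A, B, K, hAB, hnz⟩ := hform a b
    have hval : ∀ j : ℤ, a * (x j).1 + b * (x j).2 =
        A * (e.symm (x j)).1 + B * (e.symm (x j)).2 + K := by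
      intro j
      rw [← hAB (e.symm (x j)), e.apply_symm_apply]
    have v0 := hval i
    have v1 := hval (i + 1)
    have v2 := hval (i + 2)
    refine ⟨?_, A, B, hnz hab, ?_, ?_, ?_, ?_⟩
    · intro h0
      exact hne (e.symm.injective h0)
    · have : a * (x (i + 2)).1 + b * (x (i + 2)).2 = a * (x i).1 + b * (x i).2 := by linarith
      show A * ((e.symm (x (i + 2))).1 - (e.symm (x i)).1) +
        B * ((e.symm (x (i + 2))).2 - (e.symm (x i)).2) = 0
      linarith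
    · intro q hq
      have h1 := hmax (e q) ⟨q, hq, rfl⟩
      rw [hAB q] at h1
      show A * q.1 + B * q.2 ≤ A * (e.symm (x (i + 1))).1 + B * (e.symm (x (i + 1))).2
      linarith
    · show A * (e.symm (x i)).1 + B * (e.symm (x i)).2 <
        A * (e.symm (x (i + 1))).1 + B * (e.symm (x (i + 1))).2
      linarith
    · obtain ⟨q, hq, rfl⟩ := hp
      refine ⟨q, hq, ?_⟩
      rw [hAB q] at hlow
      show A * q.1 + B * q.2 < A * (e.symm (x i)).1 + B * (e.symm (x i)).2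
      linarith

/-- commensurable parameters -/
theorem closed_comm (w h N c r t : ℝ) (hr : 0 < r) (i j k l : ℤ) (hw : w = r * i) (hh : h = r * j)
    (hN : N = r * k) (hc : c = r * l) (w0 : 0 < w) (h0 : 0 < h) (c0 : 0 ≤ c) (cN : c < N)
    (wN : w ≤ N) (hhN : h ≤ N) (ht0 : 0 < t) (ht1 : t < N) :
    ∃ E : Set ℝ, E.Finite ∧ t ∈ E ∧ Cl w h N E ∧ ∀ t ∈ E, 0 < t → t < c → c - t ∈ E := by
  obtain ⟨E, hE⟩ : ∃ E : Set ℝ, E = {s | 0 < s ∧ s < N ∧ ∃ n : ℤ, s = t + r * n ∨ s = -t + r * n} :=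
    ⟨_, rfl⟩
  have hmem : ∀ s, s ∈ E ↔ 0 < s ∧ s < N ∧ ∃ n : ℤ, s = t + r * n ∨ s = -t + r * n := by
    intro s; rw [hE]; rfl
  have hfinite : ∀ a : ℝ, {s : ℝ | 0 < s ∧ s < N ∧ ∃ n : ℤ, s = a + r * n}.Finite := by
    intro a
    refine Set.Finite.subset ((Set.finite_Icc (⌊-a / r⌋) (⌈(N - a) / r⌉)).image
      (fun n : ℤ => a + r * n)) ?_
    rintro s ⟨s0, s1, n, hn⟩
    refine ⟨n, ⟨?_, ?_⟩, hn.symm⟩
    · have h1 : -a / r < n := by rw [div_lt_iff₀ hr]; linarith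
      have h2 := Int.floor_le (-a / r)
      have h3 : ((⌊-a / r⌋ : ℤ) : ℝ) ≤ (n : ℝ) := by linarith
      exact_mod_cast h3
    · have h1 : (n : ℝ) < (N - a) / r := by rw [lt_div_iff₀ hr]; linarith
      have h2 := Int.le_ceil ((N - a) / r)
      have h3 : (n : ℝ) ≤ ((⌈(N - a) / r⌉ : ℤ) : ℝ) := by linarith
      exact_mod_cast h3
  refine ⟨E, ?_, ?_, ⟨?_, ?_, ?_, ?_, ?_, ?_⟩, ?_⟩
  · refine Set.Finite.subset ((hfinite t).union (hfinite (-t))) ?_
    intro s hs
    obtain ⟨s0, s1, n, hn⟩ := (hmem s).1 hs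
    rcases hn with hn | hn
    · exact Or.inl ⟨s0, s1, n, hn⟩
    · exact Or.inr ⟨s0, s1, n, hn⟩
  · rw [hmem]
    exact ⟨ht0, ht1, 0, Or.inl (by push_cast; ring)⟩
  · intro s hs a b
    obtain ⟨s0, s1, n, hn⟩ := (hmem s).1 hs
    rw [hmem]
    refine ⟨by linarith, b, n + i, ?_⟩
    rcases hn with hn | hn
    · left; rw [hn, hw]; push_cast; ring
    · right; rw [hn, hw]; push_cast; ring
  · intro s hs a b
    obtain ⟨s0, s1, n, hn⟩ := (hmem s).1 hs
    rw [hmem]
    refine ⟨b, by linarith, n - i, ?_⟩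
    rcases hn with hn | hn
    · left; rw [hn, hw]; push_cast; ring
    · right; rw [hn, hw]; push_cast; ring
  · intro s hs a b
    obtain ⟨s0, s1, n, hn⟩ := (hmem s).1 hs
    rw [hmem]
    refine ⟨by linarith, b, n + j, ?_⟩
    rcases hn with hn | hn
    · left; rw [hn, hh]; push_cast; ring
    · right; rw [hn, hh]; push_cast; ring
  · intro s hs a b
    obtain ⟨s0, s1, n, hn⟩ := (hmem s).1 hs
    rw [hmem]
    refine ⟨b, by linarith, n - j, ?_⟩
    rcases hn with hn | hn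
    · left; rw [hn, hh]; push_cast; ring
    · right; rw [hn, hh]; push_cast; ring
  · intro s hs a b
    obtain ⟨s0, s1, n, hn⟩ := (hmem s).1 hs
    rw [hmem]
    refine ⟨by linarith, by linarith, k - n, ?_⟩
    rcases hn with hn | hn
    · right; rw [hn, hN]; push_cast; ring
    · left; rw [hn, hN]; push_cast; ring
  · intro s hs a b
    obtain ⟨s0, s1, n, hn⟩ := (hmem s).1 hs
    rw [hmem]
    refine ⟨by linarith, by linarith, k - n, ?_⟩
    rcases hn with hn | hn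
    · right; rw [hn, hN]; push_cast; ring
    · left; rw [hn, hN]; push_cast; ring
  · intro s hs a b
    obtain ⟨s0, s1, n, hn⟩ := (hmem s).1 hs
    rw [hmem]
    refine ⟨by linarith, by linarith, l - n, ?_⟩
    rcases hn with hn | hn
    · right; rw [hn, hc]; push_cast; ring
    · left; rw [hn, hc]; push_cast; ring

theorem hex_periodic (w h N c : ℝ) (w0 : 0 < w) (h0 : 0 < h) (c0 : 0 ≤ c) (cw : c ≤ w)
    (ch : c ≤ h) (wN : w ≤ N) (hN : h ≤ N) (Nw : N ≤ w + h) (cN : c < N)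
    (hcase : (c = 0 ∧ N < w + h) ∨
      ∃ r : ℝ, 0 < r ∧ ∃ i j k l : ℤ, w = r * i ∧ h = r * j ∧ N = r * k ∧ c = r * l)
    (x : ℤ → ℝ × ℝ) (hx : IsOrbit (Hex w h N c) x) : ∃ k : ℤ, 0 < k ∧ ∀ i, x (i + k) = x i := by
  have P : Prm w h N c := ⟨w0, h0, c0, cw, ch, wN, hN, Nw, cN⟩
  refine main_periodic P ?_ x hx
  intro t ht0 ht1
  rcases hcase with ⟨hc, hlt⟩ | ⟨r, hr, i, j, k, l, e1, e2, e3, e4⟩
  · obtain ⟨E, hE1, hE2, hE3⟩ := closed_set w h N t w0 h0 wN hN hlt ht0 ht1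
    exact ⟨E, hE1, hE2, hE3, fun s _ a b => absurd (a.trans b) (by rw [hc]; exact lt_irrefl _)⟩
  · exact closed_comm w h N c r t hr i j k l e1 e2 e3 e4 w0 h0 c0 cN wN hN ht0 ht1

end Pool.Agent.Helper916.SymBil
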