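import Mathlib
import Pool.Agent.Helper916.SymBilLemmas

set_option autoImplicit false

namespace Pool.Agent.Helper916.SymBil

theorem fin_mod (a r N : ℝ) (hr : 0 < r) : {s : ℝ | 0 < s ∧ s < N ∧ ∃ n : ℤ, s = a - n * r}.Finite := by
  refine Set.Finite.subset ((Set.finite_Icc (⌊(a - N) / r⌋) (⌈a / r⌉)).image
    (fun n : ℤ => a - n * r)) ?_
  rintro s ⟨s0, s1, n, hn⟩
  refine ⟨n, ⟨?_, ?_⟩, hn.symm⟩
  · have h1 : (a - N) / r < n := by rw [div_lt_iff₀ hr]; linarith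
    have h2 := Int.floor_le ((a - N) / r)
    have h3 : ((⌊(a - N) / r⌋ : ℤ) : ℝ) ≤ (n : ℝ) := by linarith
    exact_mod_cast h3
  · have h1 : (n : ℝ) < a / r := by rw [lt_div_iff₀ hr]; linarith
    have h2 := Int.le_ceil (a / r)
    have h3 : (n : ℝ) ≤ ((⌈a / r⌉ : ℤ) : ℝ) := by linarith
    exact_mod_cast h3

/-- `s` is, modulo `h`, in the gap `(c, h)` -/
def Hit2 (h c s : ℝ) : Prop := ∃ l : ℤ, c < s - l * h ∧ s - l * h < h

theorem hit2_mem {h c s e : ℝ} (c0 : 0 ≤ c) (h0 : 0 < h) (hs : Hit2 h c s) (l : ℤ)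
    (he : e = s - l * h) (e0 : 0 < e) (e1 : e < h) : c < e ∧ e < h := by
  obtain ⟨l', h2, h3⟩ := hs
  have h4 : ((l' : ℝ) - l) * h < 1 * h := by
    have : ((l' : ℝ) - l) * h = e - (s - l' * h) := by rw [he]; ring
    rw [this]; linarith
  have h5 : (-1 : ℝ) * h < ((l' : ℝ) - l) * h := by
    have : ((l' : ℝ) - l) * h = e - (s - l' * h) := by rw [he]; ring
    rw [this]; linarith
  have h6 : (l' : ℝ) - l < 1 := lt_of_mul_lt_mul_right h4 h0.le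
  have h7 : (-1 : ℝ) < (l' : ℝ) - l := lt_of_mul_lt_mul_right h5 h0.le
  have h8 : l' - l < 1 := by exact_mod_cast h6
  have h9 : -1 < l' - l := by exact_mod_cast h7
  have h10 : l' = l := by omega
  rw [h10] at h2 h3
  rw [he]
  exact ⟨h2, h3⟩

theorem hit2_mir {h c s : ℝ} (hs : Hit2 h c s) : Hit2 h c (c - s) := by
  obtain ⟨l, h1, h2⟩ := hs
  refine ⟨-l - 1, ?_, ?_⟩ <;> push_cast <;> linarith

theorem hit2_exists (h c : ℝ) (h0 : 0 < h) (hc : c < h) (θ : ℝ)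
    (hθ : ∀ m : ℤ, 0 < m → ∀ l : ℤ, (m : ℝ) * θ ≠ l * h) (s : ℝ) :
    ∃ i : ℕ, 0 < i ∧ Hit2 h c (s + i * θ) := by
  have hg : 0 < (h - c) / h := div_pos (by linarith) h0
  obtain ⟨n, hn⟩ := exists_nat_one_div_lt hg
  obtain ⟨j, k, hk, _, hjk⟩ := Real.exists_int_int_abs_mul_sub_le (θ / h) (Nat.succ_pos n)
  obtain ⟨d, hd⟩ : ∃ d : ℝ, d = k * θ - j * h := ⟨_, rfl⟩
  have hd1 : |d| < h - c := by
    have e : d = (k * (θ / h) - j) * h := by rw [hd]; field_simp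
    rw [e, abs_mul, abs_of_pos h0]
    have h1 : |(k : ℝ) * (θ / h) - j| < (h - c) / h := by
      refine lt_of_le_of_lt hjk (lt_of_le_of_lt ?_ hn)
      push_cast
      apply one_div_le_one_div_of_le
      · positivity
      · linarith
    rw [lt_div_iff₀ h0] at h1
    exact h1
  have hd0 : d ≠ 0 := by
    intro h0
    exact hθ k hk j (by linarith)
  obtain ⟨kk, hkk⟩ : ∃ kk : ℕ, (kk : ℤ) = k := ⟨k.toNat, Int.toNat_of_nonneg hk.le⟩
  have hkk0 : 0 < kk := by omega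
  rcases lt_or_gt_of_ne hd0 with hneg | hpos
  · obtain ⟨L, hL⟩ : ∃ L : ℤ, L = ⌊(s - h) / h⌋ := ⟨_, rfl⟩
    have h1 : (L : ℝ) * h ≤ s - h := by
      have := Int.floor_le ((s - h) / h)
      rw [← hL, le_div_iff₀ h0] at this
      exact this
    obtain ⟨y, hy⟩ : ∃ y : ℝ, y = (s - h - L * h) / (-d) := ⟨_, rfl⟩
    have hy0 : 0 ≤ y := by rw [hy]; exact div_nonneg (by linarith) (by linarith)
    have hyd : y * (-d) = s - h - L * h := by
      rw [hy]; field_simp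
    have f1 := Nat.floor_le hy0
    have f2 := Nat.lt_floor_add_one y
    obtain ⟨e, hc⟩ : ∃ e : ℕ, e = ⌊y⌋₊ := ⟨_, rfl⟩
    rw [← hc] at f1 f2
    refine ⟨(e + 1) * kk, Nat.mul_pos (Nat.succ_pos _) hkk0, (e + 1) * j + L, ?_⟩
    have ee : s + (((e + 1) * kk : ℕ) : ℝ) * θ - (((e + 1) * j + L : ℤ) : ℝ) * h =
        s + (e + 1) * d - L * h := by
      have : (kk : ℝ) = (k : ℝ) := by exact_mod_cast hkk
      push_cast
      rw [this, hd]; ring
    rw [ee]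
    have a1 : |d| = -d := abs_of_neg hneg
    rw [a1] at hd1
    have a2 : (e : ℝ) * (-d) ≤ y * (-d) := mul_le_mul_of_nonneg_right f1 (by linarith)
    have a3 : y * (-d) < (e + 1) * (-d) := mul_lt_mul_of_pos_right f2 (by linarith)
    constructor <;> nlinarith
  · obtain ⟨L, hL⟩ : ∃ L : ℤ, L = ⌈(s - c) / h⌉ := ⟨_, rfl⟩
    have h1 : s - c ≤ (L : ℝ) * h := by
      have := Int.le_ceil ((s - c) / h)
      rw [← hL, div_le_iff₀ h0] at this
      exact this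
    obtain ⟨y, hy⟩ : ∃ y : ℝ, y = (c + L * h - s) / d := ⟨_, rfl⟩
    have hy0 : 0 ≤ y := by rw [hy]; exact div_nonneg (by linarith) (by linarith)
    have hyd : y * d = c + L * h - s := by
      rw [hy]; field_simp
    have f1 := Nat.floor_le hy0
    have f2 := Nat.lt_floor_add_one y
    obtain ⟨e, hc⟩ : ∃ e : ℕ, e = ⌊y⌋₊ := ⟨_, rfl⟩
    rw [← hc] at f1 f2
    refine ⟨(e + 1) * kk, Nat.mul_pos (Nat.succ_pos _) hkk0, (e + 1) * j + L, ?_⟩
    have ee : s + (((e + 1) * kk : ℕ) : ℝ) * θ - (((e + 1) * j + L : ℤ) : ℝ) * h =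
        s + (e + 1) * d - L * h := by
      have : (kk : ℝ) = (k : ℝ) := by exact_mod_cast hkk
      push_cast
      rw [this, hd]; ring
    rw [ee]
    have a1 : |d| = d := abs_of_pos hpos
    rw [a1] at hd1
    have a2 : (e : ℝ) * d ≤ y * d := mul_le_mul_of_nonneg_right f1 (by linarith)
    have a3 : y * d < (e + 1) * d := mul_lt_mul_of_pos_right f2 (by linarith)
    constructor <;> nlinarith

/-- a finite closed set of parameters for hexagons with two strips of equal width; all its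
elements are `± t` plus integer combinations of `w, h, c` -/
theorem closed_tie (w h N c t : ℝ) (w0 : 0 < w) (h0 : 0 < h) (c0 : 0 ≤ c) (ch : c < h)
    (hN : N = c + w) (hhN : h ≤ N) (ht0 : 0 < t) (ht1 : t < N) :
    ∃ E : Set ℝ, E.Finite ∧ t ∈ E ∧ Cl w h N E ∧ (∀ s ∈ E, 0 < s → s < c → c - s ∈ E) ∧
      ∀ s ∈ E, 0 < s ∧ s < N ∧ ∃ i l m : ℤ, s = t + i * w - l * h ∨ s = -t + i * w - l * h + m * c := by
  classical
  -- general set
  have build : ∀ (I1 I2 : Set ℤ),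
      (∀ i ∈ I1, ∀ l : ℤ, 0 < t + i * w - l * h → t + i * w - l * h < c →
        i + 1 ∈ I1 ∧ i ∈ I2) →
      (∀ i ∈ I2, ∀ l : ℤ, 0 < c - (t + i * w) - l * h → c - (t + i * w) - l * h < c →
        i - 1 ∈ I2 ∧ i ∈ I1) →
      (∀ i ∈ I1, ∀ l : ℤ, 0 < t + (i - 1 : ℤ) * w - l * h → t + (i - 1 : ℤ) * w - l * h < c →
        i - 1 ∈ I1) →
      (∀ i ∈ I2, ∀ l : ℤ, 0 < c - (t + (i + 1 : ℤ) * w) - l * h →
        c - (t + (i + 1 : ℤ) * w) - l * h < c → i + 1 ∈ I2) →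
      (∀ i ∈ I1, i - 1 ∈ I2) → (∀ i ∈ I2, i + 1 ∈ I1) → 0 ∈ I1 →
      {s : ℝ | 0 < s ∧ s < N ∧ ((∃ i ∈ I1, ∃ l : ℤ, s = t + i * w - l * h) ∨
        (∃ i ∈ I2, ∃ l : ℤ, s = c - (t + i * w) - l * h))}.Finite →
      ∃ E : Set ℝ, E.Finite ∧ t ∈ E ∧ Cl w h N E ∧ (∀ s ∈ E, 0 < s → s < c → c - s ∈ E) ∧
      ∀ s ∈ E, 0 < s ∧ s < N ∧ ∃ i l m : ℤ, s = t + i * w - l * h ∨
        s = -t + i * w - l * h + m * c := by
    intro I1 I2 k1 k2 k3 k4 k5 k6 k7 hfin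
    refine ⟨_, hfin, ⟨ht0, ht1, Or.inl ⟨0, k7, 0, by push_cast; ring⟩⟩, ⟨?_, ?_, ?_, ?_, ?_, ?_⟩, ?_, ?_⟩
    · -- s + w
      rintro s ⟨_, _, h2⟩ a b
      refine ⟨by linarith, b, ?_⟩
      rcases h2 with ⟨i, hi, l, h3⟩ | ⟨i, hi, l, h3⟩
      · exact Or.inl ⟨i + 1, (k1 i hi l (by rw [← h3]; exact a) (by rw [← h3]; linarith)).1, l,
          by rw [h3]; push_cast; ring⟩
      · exact Or.inr ⟨i - 1, (k2 i hi l (by rw [← h3]; exact a) (by rw [← h3]; linarith)).1, l,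
          by rw [h3]; push_cast; ring⟩
    · -- s - w
      rintro s ⟨_, _, h2⟩ a b
      refine ⟨b, by linarith, ?_⟩
      rcases h2 with ⟨i, hi, l, h3⟩ | ⟨i, hi, l, h3⟩
      · have e : s - w = t + ((i - 1 : ℤ) : ℝ) * w - l * h := by rw [h3]; push_cast; ring
        exact Or.inl ⟨i - 1, k3 i hi l (by rw [← e]; exact b) (by rw [← e]; linarith), l, e⟩
      · have e : s - w = c - (t + ((i + 1 : ℤ) : ℝ) * w) - l * h := by rw [h3]; push_cast; ring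
        exact Or.inr ⟨i + 1, k4 i hi l (by rw [← e]; exact b) (by rw [← e]; linarith), l, e⟩
    · -- s + h
      rintro s ⟨_, _, h2⟩ a b
      refine ⟨by linarith, b, ?_⟩
      rcases h2 with ⟨i, hi, l, h3⟩ | ⟨i, hi, l, h3⟩
      · exact Or.inl ⟨i, hi, l - 1, by rw [h3]; push_cast; ring⟩
      · exact Or.inr ⟨i, hi, l - 1, by rw [h3]; push_cast; ring⟩
    · -- s - h
      rintro s ⟨_, _, h2⟩ a b
      refine ⟨b, by linarith, ?_⟩
      rcases h2 with ⟨i, hi, l, h3⟩ | ⟨i, hi, l, h3⟩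
      · exact Or.inl ⟨i, hi, l + 1, by rw [h3]; push_cast; ring⟩
      · exact Or.inr ⟨i, hi, l + 1, by rw [h3]; push_cast; ring⟩
    · -- N - s
      rintro s ⟨s0, s1, h2⟩ a b
      refine ⟨by linarith, by linarith, ?_⟩
      rcases h2 with ⟨i, hi, l, h3⟩ | ⟨i, hi, l, h3⟩
      · exact Or.inr ⟨i - 1, k5 i hi, -l, by rw [h3, hN]; push_cast; ring⟩
      · exact Or.inl ⟨i + 1, k6 i hi, -l, by rw [h3, hN]; push_cast; ring⟩
    · rintro s ⟨s0, s1, h2⟩ a b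
      refine ⟨by linarith, by linarith, ?_⟩
      rcases h2 with ⟨i, hi, l, h3⟩ | ⟨i, hi, l, h3⟩
      · exact Or.inr ⟨i - 1, k5 i hi, -l, by rw [h3, hN]; push_cast; ring⟩
      · exact Or.inl ⟨i + 1, k6 i hi, -l, by rw [h3, hN]; push_cast; ring⟩
    · -- c - s
      rintro s ⟨s0, s1, h2⟩ a b
      refine ⟨by linarith, by linarith, ?_⟩
      rcases h2 with ⟨i, hi, l, h3⟩ | ⟨i, hi, l, h3⟩
      · exact Or.inr ⟨i, (k1 i hi l (by rw [← h3]; exact a) (by rw [← h3]; exact b)).2, -l,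
          by rw [h3]; push_cast; ring⟩
      · exact Or.inl ⟨i, (k2 i hi l (by rw [← h3]; exact a) (by rw [← h3]; exact b)).2, -l,
          by rw [h3]; push_cast; ring⟩
    · rintro s ⟨s0, s1, h2⟩
      refine ⟨s0, s1, ?_⟩
      rcases h2 with ⟨i, hi, l, h3⟩ | ⟨i, hi, l, h3⟩
      · exact ⟨i, l, 0, Or.inl h3⟩
      · exact ⟨-i, l, 1, Or.inr (by rw [h3]; push_cast; ring)⟩
  by_cases hr : ∃ m : ℤ, 0 < m ∧ ∃ l : ℤ, (m : ℝ) * w = l * h
  · obtain ⟨m, hm, l0, hml⟩ := hr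
    refine build Set.univ Set.univ (fun _ _ _ _ _ => ⟨trivial, trivial⟩)
      (fun _ _ _ _ _ => ⟨trivial, trivial⟩) (fun _ _ _ _ _ => trivial)
      (fun _ _ _ _ _ => trivial) (fun _ _ => trivial) (fun _ _ => trivial) trivial ?_
    refine Set.Finite.subset (s := ⋃ r ∈ (Finset.Ico (0 : ℤ) m : Set ℤ),
        ({s : ℝ | 0 < s ∧ s < N ∧ ∃ l : ℤ, s = (t + r * w) - l * h} ∪
         {s : ℝ | 0 < s ∧ s < N ∧ ∃ l : ℤ, s = (c - (t + r * w)) - l * h})) ?_ ?_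
    · refine Set.Finite.biUnion (Finset.finite_toSet _) ?_
      intro r _
      exact (fin_mod _ h N h0).union (fin_mod _ h N h0)
    · rintro s ⟨s0, s1, h2⟩
      have hi : ∀ i : ℤ, (i : ℝ) = (i % m : ℤ) + m * (i / m : ℤ) := by
        intro i
        have := Int.emod_add_mul_ediv i m
        exact_mod_cast this.symm
      rw [Set.mem_iUnion₂]
      rcases h2 with ⟨i, _, l, h2⟩ | ⟨i, _, l, h2⟩
      · refine ⟨i % m, Finset.mem_coe.2 (Finset.mem_Ico.2 ⟨Int.emod_nonneg _ hm.ne',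
          Int.emod_lt_of_pos _ hm⟩), Or.inl ⟨s0, s1, l - (i / m) * l0, ?_⟩⟩
        rw [h2]
        push_cast
        rw [hi i]
        linear_combination ((i / m : ℤ) : ℝ) * hml
      · refine ⟨i % m, Finset.mem_coe.2 (Finset.mem_Ico.2 ⟨Int.emod_nonneg _ hm.ne',
          Int.emod_lt_of_pos _ hm⟩), Or.inr ⟨s0, s1, l + (i / m) * l0, ?_⟩⟩
        rw [h2]
        push_cast
        rw [hi i]
        linear_combination (-((i / m : ℤ) : ℝ)) * hml
  · have hirr : ∀ m : ℤ, 0 < m → ∀ l : ℤ, (m : ℝ) * w ≠ l * h := by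
      intro m hm l hcon
      exact hr ⟨m, hm, l, hcon⟩
    obtain ⟨p, hp, hpmin⟩ : ∃ p : ℕ, Hit2 h c (t + p * w) ∧ ∀ i < p, ¬ Hit2 h c (t + i * w) := by
      obtain ⟨i, _, hi⟩ := hit2_exists h c h0 ch w hirr t
      have hex : ∃ i : ℕ, Hit2 h c (t + i * w) := ⟨i, hi⟩
      exact ⟨Nat.find hex, Nat.find_spec hex, fun i hi => Nat.find_min hex hi⟩
    obtain ⟨q, ⟨hq0, hq⟩, hqmin⟩ : ∃ q : ℕ, (0 < q ∧ Hit2 h c (t + q * (-w))) ∧
        ∀ i < q, ¬ (0 < i ∧ Hit2 h c (t + i * (-w))) := by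
      obtain ⟨i, hi0, hi⟩ := hit2_exists h c h0 ch (-w) (by
        intro m hm l hcon
        apply hirr m hm (-l)
        push_cast
        linarith) t
      have hex : ∃ i : ℕ, 0 < i ∧ Hit2 h c (t + i * (-w)) := ⟨i, hi0, hi⟩
      exact ⟨Nat.find hex, Nat.find_spec hex, fun i hi => Nat.find_min hex hi⟩
    have hP : Hit2 h c (t + (p : ℤ) * w) := by push_cast; exact hp
    have hQ : Hit2 h c (t + ((-(q : ℤ) : ℤ) : ℝ) * w) := by
      have e : t + ((-(q : ℤ) : ℤ) : ℝ) * w = t + q * (-w) := by push_cast; ring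
      rw [e]; exact hq
    have hno : ∀ (u e : ℝ) (l : ℤ), Hit2 h c u → e = u - l * h → 0 < e → e < c → False := by
      intro u e l hs hc h1 h2
      have := hit2_mem c0 h0 hs l hc h1 (by linarith)
      linarith [this.1]
    refine build {i | -(q : ℤ) < i ∧ i ≤ p} {i | -(q : ℤ) ≤ i ∧ i < p} ?_ ?_ ?_ ?_ ?_ ?_ ?_ ?_
    · rintro i ⟨i1, i2⟩ l a b
      have hi : i ≠ p := by
        rintro rfl
        exact hno _ _ l hP rfl a b
      refine ⟨⟨by omega, by omega⟩, ⟨by omega, by omega⟩⟩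
    · rintro i ⟨i1, i2⟩ l a b
      have hi : i ≠ -(q : ℤ) := by
        rintro rfl
        exact hno _ _ l (hit2_mir hQ) rfl a b
      refine ⟨⟨by omega, by omega⟩, ⟨by omega, by omega⟩⟩
    · rintro i ⟨i1, i2⟩ l a b
      have hi : i - 1 ≠ -(q : ℤ) := by
        intro he
        rw [he] at a b
        exact hno _ _ l hQ rfl a b
      exact ⟨by omega, by omega⟩
    · rintro i ⟨i1, i2⟩ l a b
      have hi : i + 1 ≠ (p : ℤ) := by
        intro he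
        rw [he] at a b
        exact hno _ _ l (hit2_mir hP) rfl a b
      exact ⟨by omega, by omega⟩
    · rintro i ⟨i1, i2⟩
      exact ⟨by omega, by omega⟩
    · rintro i ⟨i1, i2⟩
      exact ⟨by omega, by omega⟩
    · exact ⟨by omega, by omega⟩
    · refine Set.Finite.subset (s := ⋃ r ∈ (Finset.Icc (-(q : ℤ)) p : Set ℤ),
        ({s : ℝ | 0 < s ∧ s < N ∧ ∃ l : ℤ, s = (t + r * w) - l * h} ∪
         {s : ℝ | 0 < s ∧ s < N ∧ ∃ l : ℤ, s = (c - (t + r * w)) - l * h})) ?_ ?_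
      · refine Set.Finite.biUnion (Finset.finite_toSet _) ?_
        intro r _
        exact (fin_mod _ h N h0).union (fin_mod _ h N h0)
      · rintro s ⟨s0, s1, h2⟩
        rw [Set.mem_iUnion₂]
        rcases h2 with ⟨i, hi, l, h2⟩ | ⟨i, hi, l, h2⟩
        · exact ⟨i, Finset.mem_coe.2 (Finset.mem_Icc.2 ⟨hi.1.le, hi.2⟩), Or.inl ⟨s0, s1, l, h2⟩⟩
        · exact ⟨i, Finset.mem_coe.2 (Finset.mem_Icc.2 ⟨hi.1, hi.2.le⟩), Or.inr ⟨s0, s1, l, h2⟩⟩

theorem hex_periodic2 (w h N c : ℝ) (w0 : 0 < w) (h0 : 0 < h) (c0 : 0 ≤ c) (cw : c ≤ w)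
    (ch : c ≤ h) (wN : w ≤ N) (hN : h ≤ N) (Nw : N ≤ w + h) (cN : c < N)
    (hcase : (c = 0 ∧ N < w + h) ∨ (N = c + w ∧ c < h) ∨
      ∃ r : ℝ, 0 < r ∧ ∃ i j k l : ℤ, w = r * i ∧ h = r * j ∧ N = r * k ∧ c = r * l)
    (x : ℤ → ℝ × ℝ) (hx : IsOrbit (Hex w h N c) x) : ∃ k : ℤ, 0 < k ∧ ∀ i, x (i + k) = x i := by
  rcases hcase with hc | ⟨hNc, hch⟩ | hc
  · exact hex_periodic w h N c w0 h0 c0 cw ch wN hN Nw cN (Or.inl hc) x hx
  · have P : Prm w h N c := ⟨w0, h0, c0, cw, ch, wN, hN, Nw, cN⟩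
    refine main_periodic P ?_ x hx
    intro t ht0 ht1
    obtain ⟨E, hE1, hE2, hE3, hE4, _⟩ := closed_tie w h N c t w0 h0 c0 hch hNc hN ht0 ht1
    exact ⟨E, hE1, hE2, hE3, hE4⟩
  · exact hex_periodic w h N c w0 h0 c0 cw ch wN hN Nw cN (Or.inr hc) x hx

end Pool.Agent.Helper916.SymBil
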