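import Mathlib

set_option autoImplicit false

namespace Pool.Agent.Helper916.SymplecticSym

open scoped Pointwise

/-- `C` has a periodic symplectic billiard orbit (the conditions of the frozen statement). -/
def PO (C : Set (ℝ × ℝ)) : Prop :=
    ∃ n : ℕ, 0 < n ∧ ∃ x : ℕ → ℝ × ℝ, (∀ i, x (i + n) = x i) ∧
      ∀ i : ℕ,
        x i ∈ frontier C ∧
        x i ∉ Set.extremePoints ℝ C ∧
        x (i + 2) ≠ x i ∧
        ∃ a b : ℝ, (a ≠ 0 ∨ b ≠ 0) ∧
          a * ((x (i + 2)).1 - (x i).1) + b * ((x (i + 2)).2 - (x i).2) = 0 ∧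
          (∀ p ∈ C, a * p.1 + b * p.2 ≤ a * (x (i + 1)).1 + b * (x (i + 1)).2) ∧
          a * (x i).1 + b * (x i).2 < a * (x (i + 1)).1 + b * (x (i + 1)).2 ∧
          ∃ p ∈ C, a * p.1 + b * p.2 < a * (x i).1 + b * (x i).2

/-- the linear form with coefficients `f` -/
def lf (f p : ℝ × ℝ) : ℝ := f.1 * p.1 + f.2 * p.2

theorem ev_line {x d : ℝ × ℝ} {U : Set (ℝ × ℝ)} (hU : U ∈ nhds x) : ∃ ε : ℝ, 0 < ε ∧ x + ε • d ∈ U := by
  have hc : Continuous (fun ε : ℝ => x + ε • d) := by fun_prop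
  have h2 : Filter.Tendsto (fun ε : ℝ => x + ε • d) (nhds 0) (nhds (x + (0 : ℝ) • d)) := hc.tendsto 0
  rw [zero_smul, add_zero] at h2
  have h4 := h2.eventually hU
  have h5 : ∀ᶠ ε : ℝ in nhdsWithin 0 (Set.Ioi 0), 0 < ε := self_mem_nhdsWithin
  obtain ⟨ε, hε1, hε2⟩ := ((h4.filter_mono nhdsWithin_le_nhds).and h5).exists
  exact ⟨ε, hε2, hε1⟩

theorem not_int {K : Set (ℝ × ℝ)} {x f : ℝ × ℝ} (hf : f ≠ 0)
    (hmax : ∀ p ∈ K, lf f p ≤ lf f x) : x ∉ interior K := by
  intro hx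
  obtain ⟨ε, hε, h⟩ := ev_line (d := f) (mem_interior_iff_mem_nhds.1 hx)
  have h2 := hmax _ h
  have h3 : 0 < f.1 ^ 2 + f.2 ^ 2 := by
    by_contra hcon
    apply hf
    have h4 : f.1 ^ 2 = 0 := by nlinarith [sq_nonneg f.1, sq_nonneg f.2]
    have h5 : f.2 ^ 2 = 0 := by nlinarith [sq_nonneg f.1, sq_nonneg f.2]
    ext
    · exact pow_eq_zero_iff (two_ne_zero) |>.1 h4
    · exact pow_eq_zero_iff (two_ne_zero) |>.1 h5
  unfold lf at h2
  simp only [Prod.fst_add, Prod.snd_add, Prod.smul_fst, Prod.smul_snd, smul_eq_mul] at h2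
  nlinarith [mul_pos hε h3]

theorem po_raw (K : Set (ℝ × ℝ)) (n : ℕ) (hn : 0 < n) (x : ℕ → ℝ × ℝ)
    (hx : ∀ i, x (i + n) = x i) (hmem : ∀ i, x i ∈ K)
    (hw : ∀ i, ∃ w, w ≠ 0 ∧ x i + w ∈ K ∧ x i - w ∈ K) (f : ℕ → ℝ × ℝ) (hf : ∀ i, f i ≠ 0)
    (hmax : ∀ i, ∀ p ∈ K, lf (f i) p ≤ lf (f i) (x i)) (hne : ∀ i, x (i + 2) ≠ x i)
    (hpar : ∀ i, lf (f (i + 1)) (x (i + 2)) = lf (f (i + 1)) (x i))
    (hlt : ∀ i, lf (f (i + 1)) (x i) < lf (f (i + 1)) (x (i + 1)))
    (hlow : ∀ i, ∃ p ∈ K, lf (f (i + 1)) p < lf (f (i + 1)) (x i)) : PO K := by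
  refine ⟨n, hn, x, hx, ?_⟩
  intro i
  refine ⟨⟨subset_closure (hmem i), not_int (hf i) (hmax i)⟩, ?_, hne i, (f (i + 1)).1,
    (f (i + 1)).2, ?_, ?_, ?_, ?_, ?_⟩
  · intro h
    rw [mem_extremePoints] at h
    obtain ⟨w, hw0, hw1, hw2⟩ := hw i
    have h2 := (h.2 _ hw1 _ hw2 ⟨1 / 2, 1 / 2, by norm_num, by norm_num, by norm_num, by
      ext
      · simp only [Prod.fst_add, Prod.smul_fst, Prod.fst_sub, smul_eq_mul]; ring
      · simp only [Prod.snd_add, Prod.smul_snd, Prod.snd_sub, smul_eq_mul]; ring⟩).1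
    exact hw0 (by simpa using h2)
  · by_contra hcon
    rw [not_or, not_not, not_not] at hcon
    exact hf (i + 1) (Prod.ext hcon.1 hcon.2)
  · have := hpar i
    unfold lf at this
    linarith
  · exact hmax (i + 1)
  · exact hlt i
  · exact hlow i

theorem cross {K : Set (ℝ × ℝ)} (hK : IsClosed K) {c v : ℝ × ℝ} (hc : c ∈ K) (hv : c + v ∉ K) :
    ∃ t : ℝ, 0 ≤ t ∧ t ≤ 1 ∧ c + t • v ∈ frontier K := by
  have hcont : Continuous (fun t : ℝ => c + t • v) := by fun_prop
  have hT : IsCompact (Set.Icc (0 : ℝ) 1 ∩ (fun t : ℝ => c + t • v) ⁻¹' K) :=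
    isCompact_Icc.inter_right (hK.preimage hcont)
  have hne : (Set.Icc (0 : ℝ) 1 ∩ (fun t : ℝ => c + t • v) ⁻¹' K).Nonempty :=
    ⟨0, ⟨by norm_num, by norm_num⟩, by simpa using hc⟩
  obtain ⟨t, ht, hmax⟩ := hT.exists_isGreatest hne
  refine ⟨t, ht.1.1, ht.1.2, subset_closure ht.2, ?_⟩
  intro hint
  have ht1 : t < 1 := by
    rcases lt_or_eq_of_le ht.1.2 with h | h
    · exact h
    · exfalso
      apply hv
      have := ht.2
      rw [h] at this
      simpa using this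
  have h4 : ∀ᶠ s : ℝ in nhds t, c + s • v ∈ interior K :=
    (hcont.tendsto t).eventually (isOpen_interior.mem_nhds hint)
  have h5 : ∀ᶠ s : ℝ in nhdsWithin t (Set.Ioi t), t < s := self_mem_nhdsWithin
  have h6 : ∀ᶠ s : ℝ in nhds t, s < 1 := eventually_lt_nhds ht1
  obtain ⟨s, hs1, hs2, hs3⟩ := ((h4.filter_mono nhdsWithin_le_nhds).and
    (h5.and (h6.filter_mono nhdsWithin_le_nhds))).exists
  have h8 : c + s • v ∈ K := interior_subset hs1
  have h7 := hmax ⟨⟨le_trans ht.1.1 hs2.le, hs3.le⟩, h8⟩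
  linarith

/-- inner product on the plane -/
structure Ip (B : ℝ × ℝ → ℝ × ℝ → ℝ) : Prop where
  add : ∀ x y z, B (x + y) z = B x z + B y z
  smul : ∀ (r : ℝ) x z, B (r • x) z = r * B x z
  symm : ∀ x y, B x y = B y x
  pos : ∀ x, x ≠ 0 → 0 < B x x

section
variable {B : ℝ × ℝ → ℝ × ℝ → ℝ}

theorem Ip.sub (h : Ip B) (x y z : ℝ × ℝ) : B (x - y) z = B x z - B y z := by
  have : x - y = x + (-1 : ℝ) • y := by simp [sub_eq_add_neg]
  rw [this, h.add, h.smul]; ring

theorem Ip.add' (h : Ip B) (x y z : ℝ × ℝ) : B z (x + y) = B z x + B z y := by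
  rw [h.symm, h.add, h.symm x, h.symm y]

theorem Ip.sub' (h : Ip B) (x y z : ℝ × ℝ) : B z (x - y) = B z x - B z y := by
  rw [h.symm, h.sub, h.symm x, h.symm y]

theorem Ip.smul' (h : Ip B) (r : ℝ) (x z : ℝ × ℝ) : B z (r • x) = r * B z x := by
  rw [h.symm, h.smul, h.symm x]

theorem Ip.zero (h : Ip B) (z : ℝ × ℝ) : B 0 z = 0 := by
  have := h.smul 0 0 z
  simpa using this

theorem Ip.nonneg (h : Ip B) (x : ℝ × ℝ) : 0 ≤ B x x := by
  by_cases hx : x = 0
  · rw [hx, h.zero]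
  · exact (h.pos x hx).le

/-- coefficients of the linear form `B (·) z` -/
def cf (B : ℝ × ℝ → ℝ × ℝ → ℝ) (z : ℝ × ℝ) : ℝ × ℝ := (B (1, 0) z, B (0, 1) z)

theorem Ip.lf (h : Ip B) (z p : ℝ × ℝ) : lf (cf B z) p = B p z := by
  have e : p = p.1 • ((1, 0) : ℝ × ℝ) + p.2 • ((0, 1) : ℝ × ℝ) := by
    ext <;> simp
  conv_rhs => rw [e]
  rw [h.add, h.smul, h.smul]
  unfold SymplecticSym.lf cf
  ring

theorem Ip.cont (h : Ip B) (z : ℝ × ℝ) : Continuous (fun p => B p z) := by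
  have : (fun p => B p z) = fun p => SymplecticSym.lf (cf B z) p := by
    funext p; rw [h.lf]
  rw [this]
  unfold SymplecticSym.lf
  fun_prop

theorem Ip.cont2 (h : Ip B) : Continuous (fun p => B p p) := by
  have : (fun p : ℝ × ℝ => B p p) = fun p => p.1 ^ 2 * B (1, 0) (1, 0) +
      2 * p.1 * p.2 * B (1, 0) (0, 1) + p.2 ^ 2 * B (0, 1) (0, 1) := by
    funext p
    have e : p = p.1 • ((1, 0) : ℝ × ℝ) + p.2 • ((0, 1) : ℝ × ℝ) := by
      ext <;> simp
    conv_lhs => rw [e]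
    rw [h.add, h.add', h.add', h.smul, h.smul, h.smul', h.smul', h.smul, h.smul, h.smul', h.smul',
      h.symm (0, 1) (1, 0)]
    ring
  rw [this]
  fun_prop


theorem Ip.expand (h : Ip B) (u v : ℝ × ℝ) (r t : ℝ) :
    B (r • (u - t • v)) (r • (u - t • v)) = r ^ 2 * (B u u - 2 * t * B v u + t ^ 2 * B v v) := by
  rw [h.smul, h.smul', h.sub, h.sub', h.sub', h.smul, h.smul, h.smul', h.smul', h.symm u v]
  ring

/-- a boundary point nearest to the interior point `c` (for the inner product `B`) -/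
theorem nearest (h : Ip B) {K : Set (ℝ × ℝ)} (hK : IsCompact K) (hconv : Convex ℝ K)
    {c : ℝ × ℝ} (hc : c ∈ interior K) : ∃ u : ℝ × ℝ, u ≠ 0 ∧ c + u ∈ K ∧
      (∀ v, B v v < B u u → c + v ∈ K) ∧ (∀ p ∈ K, B (p - c) u ≤ B u u) := by
  have hcl := hK.isClosed
  have hne : (frontier K).Nonempty := by
    rw [nonempty_frontier_iff]
    refine ⟨⟨c, interior_subset hc⟩, ?_⟩
    rintro rfl
    exact noncompact_univ (ℝ × ℝ) hK
  have hfc : IsCompact (frontier K) := hK.of_isClosed_subset isClosed_frontier hcl.frontier_subset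
  have hcont : Continuous (fun x : ℝ × ℝ => B (x - c) (x - c)) :=
    h.cont2.comp (continuous_id.sub continuous_const)
  obtain ⟨x, hx, hmin⟩ := hfc.exists_isMinOn hne hcont.continuousOn
  have hxK : x ∈ K := hcl.frontier_subset hx
  have hell : ∀ v, B v v < B (x - c) (x - c) → c + v ∈ K := by
    intro v hv
    by_contra hcon
    obtain ⟨t, ht0, ht1, ht⟩ := cross hcl (interior_subset hc) hcon
    have h1 : B (x - c) (x - c) ≤ B (c + t • v - c) (c + t • v - c) := hmin ht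
    rw [add_sub_cancel_left, h.smul, h.smul'] at h1
    have h2 := h.nonneg v
    nlinarith [mul_nonneg ht0 h2, mul_nonneg (mul_nonneg ht0 ht0) h2,
      mul_nonneg ht0 (sub_nonneg.2 ht1), mul_nonneg (mul_nonneg ht0 (sub_nonneg.2 ht1)) h2,
      mul_nonneg (sub_nonneg.2 ht1) h2]
  have hx0 : x - c ≠ 0 := by
    intro h0
    rw [sub_eq_zero] at h0
    exact hx.2 (h0 ▸ hc)
  have hq := h.pos _ hx0
  refine ⟨x - c, hx0, by simpa using hxK, hell, ?_⟩
  intro p hp
  by_contra hcon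
  push Not at hcon
  -- `x` would be interior
  apply hx.2
  set u := x - c with hu
  set v := p - c with hv
  -- choose a small t
  obtain ⟨t, ht0, ht1, ht⟩ : ∃ t : ℝ, 0 < t ∧ t < 1 ∧
      B ((1 - t)⁻¹ • (u - t • v)) ((1 - t)⁻¹ • (u - t • v)) < B u u := by
    have hpos : 0 < 2 * (B v u - B u u) := by linarith
    have hqv := h.nonneg v
    obtain ⟨M, hM⟩ : ∃ M, M = B v v + B u u + 1 := ⟨_, rfl⟩
    have hM0 : 0 < M := by rw [hM]; linarith
    obtain ⟨t, ht⟩ : ∃ t, t = min (1 / 2) ((B v u - B u u) / M) := ⟨_, rfl⟩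
    have ht0 : 0 < t := by
      rw [ht]
      apply lt_min (by norm_num)
      apply div_pos _ hM0
      linarith
    have ht1 : t ≤ 1 / 2 := by rw [ht]; exact min_le_left _ _
    have ht2 : t * M ≤ B v u - B u u := by
      have : t ≤ (B v u - B u u) / M := by rw [ht]; exact min_le_right _ _
      rwa [le_div_iff₀ hM0] at this
    refine ⟨t, ht0, by linarith, ?_⟩
    have h1t : 0 < 1 - t := by linarith
    rw [h.expand]
    have key : (B u u - 2 * t * B v u + t ^ 2 * B v v) / (1 - t) ^ 2 < B u u := by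
      rw [div_lt_iff₀ (by positivity)]
      have h3 : t * (t * M) ≤ t * (B v u - B u u) := mul_le_mul_of_nonneg_left ht2 ht0.le
      rw [hM] at h3
      nlinarith [mul_pos ht0 hq, mul_pos ht0 ht0]
    convert key using 1
    field_simp
  have h1t : 0 < 1 - t := by linarith
  -- the point y = c + (1-t)^{-1} (u - t v) is interior
  have hy : c + (1 - t)⁻¹ • (u - t • v) ∈ interior K := by
    rw [mem_interior_iff_mem_nhds]
    have hc2 : Continuous (fun z : ℝ × ℝ => B (z - c) (z - c)) := hcont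
    have hopen : IsOpen {z : ℝ × ℝ | B (z - c) (z - c) < B u u} :=
      isOpen_lt hc2 continuous_const
    refine Filter.mem_of_superset (hopen.mem_nhds ?_) ?_
    · show B (c + (1 - t)⁻¹ • (u - t • v) - c) (c + (1 - t)⁻¹ • (u - t • v) - c) < B u u
      rw [add_sub_cancel_left]
      exact ht
    · intro z hz
      have := hell (z - c) hz
      simpa using this
  have hfin : x ∈ (1 - t) • interior K + t • K := by
    refine ⟨(1 - t) • (c + (1 - t)⁻¹ • (u - t • v)), ⟨_, hy, rfl⟩, t • p, ⟨p, hp, rfl⟩, ?_⟩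
    show (1 - t) • (c + (1 - t)⁻¹ • (u - t • v)) + t • p = x
    rw [smul_add, smul_smul, mul_inv_cancel₀ h1t.ne', one_smul, hu, hv]
    module
  exact hconv.combo_interior_self_subset_interior h1t ht0.le (by ring) hfin


theorem Ip.convex_le (h : Ip B) (c z : ℝ × ℝ) (r : ℝ) : Convex ℝ {p : ℝ × ℝ | B (p - c) z ≤ r} := by
  intro x hx y hy a b ha hb hab
  have hx' : B (x - c) z ≤ r := hx
  have hy' : B (y - c) z ≤ r := hy
  show B (a • x + b • y - c) z ≤ r
  have e : a • x + b • y - c = a • (x - c) + b • (y - c) := by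
    have hc : c = a • c + b • c := by rw [← add_smul, hab, one_smul]
    conv_lhs => rw [hc]
    module
  rw [e, h.add, h.smul, h.smul]
  have h1 := mul_le_mul_of_nonneg_left hx' ha
  have h2 := mul_le_mul_of_nonneg_left hy' hb
  have h3 : a * r + b * r = r := by rw [← add_mul, hab, one_mul]
  linarith

theorem side (h : Ip B) (S : Finset (ℝ × ℝ)) (c u w : ℝ × ℝ) (hu : u ≠ 0)
    (hell : ∀ v, B v v < B u u → c + v ∈ convexHull ℝ (↑S : Set (ℝ × ℝ)))
    (hsup : ∀ p ∈ convexHull ℝ (↑S : Set (ℝ × ℝ)), B (p - c) u ≤ B u u)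
    (hwu : B w u = 0) (hww : B w w = B u u) :
    ∃ s ∈ S, B (s - c) u = B u u ∧ 0 < B (s - c) w := by
  by_contra hcon
  push Not at hcon
  have hq := h.pos u hu
  obtain ⟨C, hC⟩ : ∃ C : ℝ, C = 1 + ∑ s ∈ S, |B (s - c) w| / (B u u - B (s - c) u) := ⟨_, rfl⟩
  have hnn : ∀ s ∈ S, 0 ≤ |B (s - c) w| / (B u u - B (s - c) u) := by
    intro s hs
    have := hsup s (subset_convexHull ℝ _ hs)
    exact div_nonneg (abs_nonneg _) (by linarith)
  have hC1 : 1 ≤ C := by
    rw [hC]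
    have := Finset.sum_nonneg hnn
    linarith
  have hS : ∀ s ∈ S, B (s - c) w ≤ C * (B u u - B (s - c) u) := by
    intro s hs
    have h1 := hsup s (subset_convexHull ℝ _ hs)
    rcases lt_or_eq_of_le h1 with h2 | h2
    · have h3 : 0 < B u u - B (s - c) u := by linarith
      have h4 : |B (s - c) w| / (B u u - B (s - c) u) ≤ C := by
        have := Finset.single_le_sum hnn hs
        rw [hC]
        linarith
      rw [div_le_iff₀ h3] at h4
      exact le_trans (le_abs_self _) h4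
    · have := hcon s hs h2
      rw [h2, sub_self, mul_zero]
      exact this
  have hK : ∀ p ∈ convexHull ℝ (↑S : Set (ℝ × ℝ)), B (p - c) (w + C • u) ≤ C * B u u := by
    have hsub : (↑S : Set (ℝ × ℝ)) ⊆ {p : ℝ × ℝ | B (p - c) (w + C • u) ≤ C * B u u} := by
      intro s hs
      show B (s - c) (w + C • u) ≤ C * B u u
      rw [h.add', h.smul']
      have := hS s hs
      linarith
    exact fun p hp => convexHull_min hsub (h.convex_le c _ _) hp
  obtain ⟨t, ht⟩ : ∃ t : ℝ, t = 1 / (C + 1) := ⟨_, rfl⟩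
  have hC2 : 0 < C + 1 := by linarith
  have ht0 : 0 < t := by rw [ht]; positivity
  have htC : t * (C + 1) = 1 := by rw [ht]; field_simp
  have ht1 : t < 1 := by nlinarith
  have huw : B u w = 0 := by rw [h.symm, hwu]
  have hmem : c + ((1 - t ^ 2) • u + t • w) ∈ convexHull ℝ (↑S : Set (ℝ × ℝ)) := by
    apply hell
    rw [h.add, h.add', h.add', h.smul, h.smul, h.smul', h.smul', h.smul, h.smul, h.smul', h.smul',
      hwu, huw, hww]
    have h1 : 0 < t ^ 2 * (1 - t ^ 2) := by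
      have : t ^ 2 < 1 := by nlinarith
      have h2 : 0 < 1 - t ^ 2 := by linarith
      positivity
    nlinarith [mul_pos h1 hq]
  have h1 := hK _ hmem
  rw [add_sub_cancel_left, h.add, h.smul, h.smul, h.add', h.add', h.smul', h.smul', hwu, huw,
    hww] at h1
  have h2 : t * B u u ≤ C * t ^ 2 * B u u := by nlinarith
  have h3 : t * B u u * (1 - C * t) ≤ 0 := by nlinarith
  have h4 : 0 < 1 - C * t := by nlinarith
  have h5 : 0 < t * B u u * (1 - C * t) := by positivity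
  linarith

theorem ortho (h : Ip B) (u : ℝ × ℝ) (hu : u ≠ 0) : ∃ w : ℝ × ℝ, B w u = 0 ∧ B w w = B u u ∧
    ∀ v : ℝ × ℝ, B u u • v = B v u • u + B v w • w := by
  have hq := h.pos u hu
  have hn : 0 < u.1 ^ 2 + u.2 ^ 2 := by
    by_contra hcon
    apply hu
    have h4 : u.1 ^ 2 = 0 := by nlinarith [sq_nonneg u.1, sq_nonneg u.2]
    have h5 : u.2 ^ 2 = 0 := by nlinarith [sq_nonneg u.1, sq_nonneg u.2]
    ext
    · exact pow_eq_zero_iff (two_ne_zero) |>.1 h4
    · exact pow_eq_zero_iff (two_ne_zero) |>.1 h5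
  obtain ⟨z, hz⟩ : ∃ z : ℝ × ℝ, z = (-u.2, u.1) := ⟨_, rfl⟩
  obtain ⟨w0, hw0⟩ : ∃ w0 : ℝ × ℝ, w0 = B u u • z - B z u • u := ⟨_, rfl⟩
  have h1 : B w0 u = 0 := by
    rw [hw0, h.sub, h.smul, h.smul]; ring
  have hdet : u.1 * w0.2 - u.2 * w0.1 = B u u * (u.1 ^ 2 + u.2 ^ 2) := by
    rw [hw0, hz]
    simp only [Prod.fst_sub, Prod.snd_sub, Prod.smul_fst, Prod.smul_snd, smul_eq_mul]
    ring
  have hw00 : w0 ≠ 0 := by
    intro h0
    rw [h0] at hdet
    simp only [Prod.fst_zero, Prod.snd_zero, mul_zero, sub_zero] at hdet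
    have : 0 < B u u * (u.1 ^ 2 + u.2 ^ 2) := by positivity
    linarith
  have hq0 := h.pos w0 hw00
  obtain ⟨r, hr⟩ : ∃ r : ℝ, r = Real.sqrt (B u u / B w0 w0) := ⟨_, rfl⟩
  have hr2 : r ^ 2 = B u u / B w0 w0 := by
    rw [hr, Real.sq_sqrt (by positivity)]
  have hr0 : 0 < r := by rw [hr]; exact Real.sqrt_pos.2 (by positivity)
  have hwu : B (r • w0) u = 0 := by rw [h.smul, h1, mul_zero]
  have hww : B (r • w0) (r • w0) = B u u := by
    rw [h.smul, h.smul', ← mul_assoc, ← sq, hr2]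
    field_simp
  refine ⟨r • w0, hwu, hww, ?_⟩
  intro v
  obtain ⟨w, hw⟩ : ∃ w, w = r • w0 := ⟨_, rfl⟩
  rw [← hw] at hwu hww ⊢
  have hd : 0 < u.1 * w.2 - u.2 * w.1 := by
    rw [hw]
    simp only [Prod.smul_fst, Prod.smul_snd, smul_eq_mul]
    have : u.1 * (r * w0.2) - u.2 * (r * w0.1) = r * (B u u * (u.1 ^ 2 + u.2 ^ 2)) := by
      rw [← hdet]; ring
    rw [this]
    positivity
  obtain ⟨e, he⟩ : ∃ e : ℝ × ℝ, e = B u u • v - (B v u • u + B v w • w) := ⟨_, rfl⟩
  have huw : B u w = 0 := by rw [h.symm, hwu]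
  have e1 : B e u = 0 := by
    rw [he, h.sub, h.smul, h.add, h.smul, h.smul, hwu]; ring
  have e2 : B e w = 0 := by
    rw [he, h.sub, h.smul, h.add, h.smul, h.smul, huw, hww]; ring
  have e3 : (u.1 * w.2 - u.2 * w.1) • e = (e.1 * w.2 - e.2 * w.1) • u +
      (u.1 * e.2 - u.2 * e.1) • w := by
    ext
    · simp only [Prod.fst_add, Prod.smul_fst, smul_eq_mul]; ring
    · simp only [Prod.snd_add, Prod.smul_snd, smul_eq_mul]; ring
  have e4 : (u.1 * w.2 - u.2 * w.1) * B e e = 0 := by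
    rw [← h.smul, e3, h.add, h.smul, h.smul, h.symm u e, h.symm w e, e1, e2]; ring
  have e5 : B e e = 0 := by
    rcases mul_eq_zero.1 e4 with h5 | h5
    · exact absurd h5 hd.ne'
    · exact h5
  have e6 : e = 0 := by
    by_contra h6
    exact absurd e5 (h.pos e h6).ne'
  rw [he, sub_eq_zero] at e6
  exact e6

theorem flat (h : Ip B) (S : Finset (ℝ × ℝ)) (c u : ℝ × ℝ) (hu : u ≠ 0)
    (huK : c + u ∈ convexHull ℝ (↑S : Set (ℝ × ℝ)))
    (hell : ∀ v, B v v < B u u → c + v ∈ convexHull ℝ (↑S : Set (ℝ × ℝ)))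
    (hsup : ∀ p ∈ convexHull ℝ (↑S : Set (ℝ × ℝ)), B (p - c) u ≤ B u u) :
    ∃ w : ℝ × ℝ, w ≠ 0 ∧ c + (u + w) ∈ convexHull ℝ (↑S : Set (ℝ × ℝ)) ∧
      c + (u - w) ∈ convexHull ℝ (↑S : Set (ℝ × ℝ)) := by
  have hq := h.pos u hu
  obtain ⟨w, hwu, hww, hexp⟩ := ortho h u hu
  have hw0 : w ≠ 0 := by
    rintro rfl
    rw [h.zero] at hww
    linarith
  have hK := convex_convexHull ℝ (↑S : Set (ℝ × ℝ))
  -- for each direction one gets a positive amount
  have key : ∀ w' : ℝ × ℝ, B w' u = 0 → B w' w' = B u u →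
      (∀ v : ℝ × ℝ, B u u • v = B v u • u + B v w' • w') →
      ∃ β : ℝ, 0 < β ∧ ∀ e : ℝ, 0 ≤ e → e ≤ β →
        c + (u + e • w') ∈ convexHull ℝ (↑S : Set (ℝ × ℝ)) := by
    intro w' h1 h2 h3
    obtain ⟨s, hs, hs1, hs2⟩ := side h S c u w' hu hell hsup h1 h2
    refine ⟨B (s - c) w' / B u u, by positivity, ?_⟩
    intro e he0 he1
    obtain ⟨β, hβ⟩ : ∃ β : ℝ, β = B (s - c) w' / B u u := ⟨_, rfl⟩
    rw [← hβ] at he1
    have hβ0 : 0 < β := by rw [hβ]; positivity
    have hsc : s - c = u + β • w' := by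
      have h4 := h3 (s - c)
      rw [hs1] at h4
      have h5 : B u u • (s - c) = B u u • (u + β • w') := by
        rw [h4, smul_add, smul_smul, hβ]
        congr 2
        field_simp
      exact smul_right_injective _ hq.ne' h5
    have hs' : s = c + (u + β • w') := by
      rw [← hsc]; abel
    have h6 : c + (u + e • w') = (1 - e / β) • (c + u) + (e / β) • s := by
      rw [hs']
      have : e = e / β * β := by field_simp
      conv_lhs => rw [this]
      module
    rw [h6]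
    have h7 : e / β ≤ 1 := by rw [div_le_one hβ0]; exact he1
    exact hK huK (subset_convexHull ℝ _ hs) (by linarith) (by positivity) (by ring)
  obtain ⟨β1, hβ1, k1⟩ := key w hwu hww hexp
  obtain ⟨β2, hβ2, k2⟩ := key (-w) (by
      have : -w = (-1 : ℝ) • w := by simp
      rw [this, h.smul, hwu, mul_zero]) (by
      have : -w = (-1 : ℝ) • w := by simp
      rw [this, h.smul, h.smul', hww]; ring) (by
      intro v
      rw [hexp v]
      have : -w = (-1 : ℝ) • w := by simp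
      rw [this, h.smul']
      module)
  obtain ⟨e, he⟩ : ∃ e : ℝ, e = min β1 β2 := ⟨_, rfl⟩
  have he0 : 0 < e := by rw [he]; exact lt_min hβ1 hβ2
  refine ⟨e • w, ?_, k1 e he0.le (by rw [he]; exact min_le_left _ _), ?_⟩
  · exact smul_ne_zero he0.ne' hw0
  · have := k2 e he0.le (by rw [he]; exact min_le_right _ _)
    rw [smul_neg, ← sub_eq_add_neg] at this
    exact this

end


/-- averaged inner product -/
def Bf (A : (ℝ × ℝ) →ₗ[ℝ] (ℝ × ℝ)) (n : ℕ) (x y : ℝ × ℝ) : ℝ :=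
  ∑ k ∈ Finset.range n, (((A ^ k) x).1 * ((A ^ k) y).1 + ((A ^ k) x).2 * ((A ^ k) y).2)

theorem Bf_ip (A : (ℝ × ℝ) →ₗ[ℝ] (ℝ × ℝ)) (n : ℕ) (hn : 0 < n) : Ip (Bf A n) := by
  refine ⟨?_, ?_, ?_, ?_⟩
  · intro x y z
    unfold Bf
    rw [← Finset.sum_add_distrib]
    refine Finset.sum_congr rfl fun k _ => ?_
    rw [map_add]
    simp only [Prod.fst_add, Prod.snd_add]
    ring
  · intro r x z
    unfold Bf
    rw [Finset.mul_sum]
    refine Finset.sum_congr rfl fun k _ => ?_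
    rw [map_smul]
    simp only [Prod.smul_fst, Prod.smul_snd, smul_eq_mul]
    ring
  · intro x y
    unfold Bf
    refine Finset.sum_congr rfl fun k _ => ?_
    ring
  · intro x hx
    unfold Bf
    have hn0 : 0 < x.1 * x.1 + x.2 * x.2 := by
      by_contra hcon
      apply hx
      have h4 : x.1 ^ 2 = 0 := by nlinarith [sq_nonneg x.1, sq_nonneg x.2]
      have h5 : x.2 ^ 2 = 0 := by nlinarith [sq_nonneg x.1, sq_nonneg x.2]
      ext
      · exact pow_eq_zero_iff (two_ne_zero) |>.1 h4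
      · exact pow_eq_zero_iff (two_ne_zero) |>.1 h5
    refine lt_of_lt_of_le hn0 ?_
    have := Finset.single_le_sum (f := fun k => (((A ^ k) x).1 * ((A ^ k) x).1 +
      ((A ^ k) x).2 * ((A ^ k) x).2)) (fun k _ => by
        nlinarith [sq_nonneg ((A ^ k) x).1, sq_nonneg ((A ^ k) x).2])
      (Finset.mem_range.2 hn)
    simpa using this

theorem sum_shift {M : Type*} [AddCommGroup M] (f : ℕ → M) (n : ℕ) (h : f n = f 0) :
    ∑ k ∈ Finset.range n, f (k + 1) = ∑ k ∈ Finset.range n, f k := by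
  have h1 := Finset.sum_range_succ f n
  have h2 := Finset.sum_range_succ' f n
  rw [h1, h] at h2
  exact (add_right_cancel h2).symm

theorem Bf_inv (A : (ℝ × ℝ) →ₗ[ℝ] (ℝ × ℝ)) (n : ℕ) (hA : A ^ n = 1) (x y : ℝ × ℝ) :
    Bf A n (A x) (A y) = Bf A n x y := by
  unfold Bf
  rw [← sum_shift (fun k => ((A ^ k) x).1 * ((A ^ k) y).1 + ((A ^ k) x).2 * ((A ^ k) y).2) n]
  · refine Finset.sum_congr rfl fun k _ => ?_
    have e : ∀ v, (A ^ (k + 1)) v = (A ^ k) (A v) := by
      intro v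
      rw [pow_succ]; rfl
    rw [e, e]
  · simp only [hA, pow_zero]

theorem sym_po (S : Finset (ℝ × ℝ)) (c : ℝ × ℝ) (A : (ℝ × ℝ) →ₗ[ℝ] (ℝ × ℝ)) (n : ℕ)
    (hn : 0 < n) (hA : A ^ n = 1)
    (hAK : ∀ p ∈ convexHull ℝ (↑S : Set (ℝ × ℝ)), c + A (p - c) ∈ convexHull ℝ (↑S : Set (ℝ × ℝ)))
    (hfix : ∀ x, A (A x) = x → x = 0)
    (hint : (interior (convexHull ℝ (↑S : Set (ℝ × ℝ)))).Nonempty) :
    PO (convexHull ℝ (↑S : Set (ℝ × ℝ))) := by
  obtain ⟨K, hKd⟩ : ∃ K, K = convexHull ℝ (↑S : Set (ℝ × ℝ)) := ⟨_, rfl⟩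
  have hconv : Convex ℝ K := by rw [hKd]; exact convex_convexHull ℝ _
  have hcomp : IsCompact K := by
    rw [hKd]; exact (S.finite_toSet).isCompact_convexHull ℝ
  rw [← hKd] at hAK hint ⊢
  have hpow : ∀ i : ℕ, ∀ p ∈ K, c + (A ^ i) (p - c) ∈ K := by
    intro i
    induction i with
    | zero => intro p hp; simpa using hp
    | succ i ih =>
      intro p hp
      have h1 := hAK _ (ih p hp)
      rw [add_sub_cancel_left] at h1
      rw [pow_succ']
      exact h1
  -- the centre is an interior point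
  have hc : c ∈ interior K := by
    obtain ⟨p, hp⟩ := hint
    have hsum : ∑ k ∈ Finset.range n, (A ^ k) (p - c) = 0 := by
      apply hfix
      have h1 : A (∑ k ∈ Finset.range n, (A ^ k) (p - c)) =
          ∑ k ∈ Finset.range n, (A ^ k) (p - c) := by
        rw [map_sum, ← sum_shift (fun k => (A ^ k) (p - c)) n (by rw [hA, pow_zero])]
        refine Finset.sum_congr rfl fun k _ => ?_
        rw [pow_succ']; rfl
      rw [h1, h1]
    rw [mem_interior_iff_mem_nhds]
    have hcont : Continuous (fun y : ℝ × ℝ => p + (n : ℝ) • (y - c)) := by fun_prop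
    have h2 := hcont.tendsto c
    rw [sub_self, smul_zero, add_zero] at h2
    have h3 := h2.eventually (mem_interior_iff_mem_nhds.1 hp)
    refine Filter.mem_of_superset h3 ?_
    intro y hy
    have hy' : p + (n : ℝ) • (y - c) ∈ K := hy
    have hn0 : (n : ℝ) ≠ 0 := by exact_mod_cast hn.ne'
    have h4 := hconv.sum_mem (t := Finset.range n) (w := fun _ => 1 / (n : ℝ))
      (z := fun k => (c + (A ^ k) (p - c)) + (if k = 0 then (n : ℝ) • (y - c) else 0)) ?_ ?_ ?_
    · have e : ∑ k ∈ Finset.range n, (1 / (n : ℝ)) •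
          ((c + (A ^ k) (p - c)) + (if k = 0 then (n : ℝ) • (y - c) else 0)) = y := by
        rw [← Finset.smul_sum, Finset.sum_add_distrib, Finset.sum_add_distrib, hsum,
          Finset.sum_const, Finset.card_range, Finset.sum_ite_eq', if_pos (Finset.mem_range.2 hn),
          add_zero, ← Nat.cast_smul_eq_nsmul ℝ, ← smul_add, smul_smul]
        have : 1 / (n : ℝ) * n = 1 := by field_simp
        rw [this, one_smul]
        abel
      rw [e] at h4
      exact h4
    · intro k _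
      positivity
    · rw [Finset.sum_const, Finset.card_range, nsmul_eq_mul]
      field_simp
    · intro k _
      by_cases hk : k = 0
      · rw [if_pos hk, hk, pow_zero]
        have : c + (1 : (ℝ × ℝ) →ₗ[ℝ] (ℝ × ℝ)) (p - c) + (n : ℝ) • (y - c) =
            p + (n : ℝ) • (y - c) := by
          show c + (p - c) + (n : ℝ) • (y - c) = p + (n : ℝ) • (y - c)
          abel
        rw [this]
        exact hy'
      · rw [if_neg hk, add_zero]
        exact hpow k p (interior_subset hp)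
  have h := Bf_ip A n hn
  obtain ⟨B, hB⟩ : ∃ B, B = Bf A n := ⟨_, rfl⟩
  rw [← hB] at h
  have hinv1 : ∀ x y, B (A x) (A y) = B x y := by
    intro x y; rw [hB]; exact Bf_inv A n hA x y
  have hinv : ∀ (i : ℕ) (x y : ℝ × ℝ), B ((A ^ i) x) ((A ^ i) y) = B x y := by
    intro i
    induction i with
    | zero => intro x y; rfl
    | succ i ih =>
      intro x y
      have e : ∀ v, (A ^ (i + 1)) v = A ((A ^ i) v) := by
        intro v; rw [pow_succ']; rfl
      rw [e, e, hinv1, ih]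
  obtain ⟨u, hu0, huK, hell, hsup⟩ := nearest h hcomp hconv hc
  have hq := h.pos u hu0
  obtain ⟨w, hw0, hw1, hw2⟩ := flat h S c u hu0 (hKd ▸ huK) (fun v hv => hKd ▸ hell v hv)
    (fun p hp => hsup p (by rw [hKd]; exact hp))
  rw [← hKd] at hw1 hw2
  have hAu : A (A u) ≠ u := fun h0 => hu0 (hfix u h0)
  have hAu1 : A u ≠ u := by
    intro h0
    apply hAu
    rw [h0, h0]
  have hAu2 : A u ≠ -u := by
    intro h0
    apply hAu
    rw [h0, map_neg, h0, neg_neg]
  have hb1 : B u (A u) < B u u := by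
    have h1 := h.pos (u - A u) (sub_ne_zero.2 (Ne.symm hAu1))
    rw [h.sub, h.sub', h.sub', hinv1, h.symm (A u) u] at h1
    linarith
  have hb2 : -B u u < B u (A u) := by
    have h0 : u + A u ≠ 0 := by
      intro h0
      apply hAu2
      rw [add_comm] at h0
      exact eq_neg_of_add_eq_zero_left h0
    have h1 := h.pos (u + A u) h0
    rw [h.add, h.add', h.add', hinv1, h.symm (A u) u] at h1
    linarith
  have hsup2 : ∀ i : ℕ, ∀ p ∈ K, B (p - c) ((A ^ i) u) ≤ B u u := by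
    intro i p hp
    have h1 : B (p - c) ((A ^ i) u) =
        B ((A ^ ((n - 1) * i)) (p - c)) ((A ^ ((n - 1) * i)) ((A ^ i) u)) := (hinv _ _ _).symm
    have h2 : (A ^ ((n - 1) * i)) ((A ^ i) u) = u := by
      have h3 : (A ^ ((n - 1) * i)) ((A ^ i) u) = (A ^ ((n - 1) * i + i)) u := by
        rw [pow_add]; rfl
      have h4 : (n - 1) * i + i = n * i := by
        obtain ⟨m, rfl⟩ : ∃ m, n = m + 1 := ⟨n - 1, by omega⟩
        rw [Nat.add_sub_cancel]; ring
      rw [h3, h4, pow_mul, hA, one_pow]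
      rfl
    rw [h1, h2]
    have h5 := hsup _ (hpow ((n - 1) * i) p hp)
    rw [add_sub_cancel_left] at h5
    exact h5
  have hs : ∀ (i : ℕ) (v : ℝ × ℝ), (A ^ (i + 1)) v = (A ^ i) (A v) := by
    intro i v; rw [pow_succ]; rfl
  have hs2 : ∀ (i : ℕ) (v : ℝ × ℝ), (A ^ (i + 2)) v = (A ^ (i + 1)) (A v) := by
    intro i v
    exact hs (i + 1) v
  refine po_raw K n hn (fun i => c + (A ^ i) u) ?_ ?_ ?_ (fun i => cf B ((A ^ i) u)) ?_ ?_ ?_ ?_
    ?_ ?_
  · intro i
    rw [pow_add, hA, mul_one]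
  · intro i
    have := hpow i _ huK
    rwa [add_sub_cancel_left] at this
  · intro i
    refine ⟨(A ^ i) w, ?_, ?_, ?_⟩
    · intro h0
      have h1 := hinv i w w
      rw [h0, h.zero] at h1
      have := h.pos w hw0
      linarith
    · have h1 := hpow i _ hw1
      rw [add_sub_cancel_left, map_add, ← add_assoc] at h1
      exact h1
    · have h1 := hpow i _ hw2
      rw [add_sub_cancel_left, map_sub, ← add_sub_assoc] at h1
      exact h1
  · intro i h0
    have h1 := h.lf ((A ^ i) u) ((A ^ i) u)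
    rw [h0, hinv] at h1
    unfold lf at h1
    simp only [Prod.fst_zero, Prod.snd_zero, zero_mul, add_zero] at h1
    linarith
  · intro i p hp
    rw [h.lf, h.lf]
    have h1 := hsup2 i p hp
    rw [h.sub] at h1
    rw [h.add, hinv]
    linarith
  · intro i h0
    have h1 := add_left_cancel h0
    rw [hs2, hs] at h1
    have h2 : (A ^ i) (A (A u) - u) = 0 := by
      rw [map_sub, h1, sub_self]
    have h3 := hinv i (A (A u) - u) (A (A u) - u)
    rw [h2, h.zero] at h3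
    have h4 := h.pos (A (A u) - u) (sub_ne_zero.2 hAu)
    linarith
  · intro i
    rw [h.lf, h.lf, h.add, h.add, hs2, hinv, hs, hinv, h.symm (A u) u]
  · intro i
    rw [h.lf, h.lf, h.add, h.add, hinv, hs, hinv]
    linarith
  · intro i
    obtain ⟨r, hr⟩ : ∃ r : ℝ, r = (1 - B u (A u) / B u u) / 2 := ⟨_, rfl⟩
    have hr1 : r < 1 := by
      rw [hr]
      have : -1 < B u (A u) / B u u := by
        rw [lt_div_iff₀ hq]; linarith
      linarith
    have hr0 : 0 < r := by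
      rw [hr]
      have : B u (A u) / B u u < 1 := by
        rw [div_lt_one hq]; exact hb1
      linarith
    refine ⟨c + (-r) • (A ^ (i + 1)) u, hell _ ?_, ?_⟩
    · rw [h.smul, h.smul', hinv]
      have : r * r < 1 := by nlinarith
      nlinarith
    · rw [h.lf, h.lf, h.add, h.add, h.smul, hinv, hs, hinv]
      have h5 : r * B u u = (B u u - B u (A u)) / 2 := by
        rw [hr]; field_simp
      linarith


/-! ### centrally symmetric polygons -/

/-- the polar body of `S - c` -/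
def Po (S : Finset (ℝ × ℝ)) (c : ℝ × ℝ) : Set (ℝ × ℝ) := {h | ∀ s ∈ S, lf h (s - c) ≤ 1}

/-- determinant -/
def dt (a b : ℝ × ℝ) : ℝ := a.1 * b.2 - a.2 * b.1

theorem lf_add (h p q : ℝ × ℝ) : lf h (p + q) = lf h p + lf h q := by
  unfold lf; simp only [Prod.fst_add, Prod.snd_add]; ring

theorem lf_sub (h p q : ℝ × ℝ) : lf h (p - q) = lf h p - lf h q := by
  unfold lf; simp only [Prod.fst_sub, Prod.snd_sub]; ring

theorem lf_smul (h : ℝ × ℝ) (r : ℝ) (p : ℝ × ℝ) : lf h (r • p) = r * lf h p := by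
  unfold lf; simp only [Prod.smul_fst, Prod.smul_snd, smul_eq_mul]; ring

theorem lf_neg (h p : ℝ × ℝ) : lf (-h) p = - lf h p := by
  unfold lf; simp only [Prod.fst_neg, Prod.snd_neg]; ring

theorem lf_add' (h k p : ℝ × ℝ) : lf (h + k) p = lf h p + lf k p := by
  unfold lf; simp only [Prod.fst_add, Prod.snd_add]; ring

theorem lf_sub' (h k p : ℝ × ℝ) : lf (h - k) p = lf h p - lf k p := by
  unfold lf; simp only [Prod.fst_sub, Prod.snd_sub]; ring

theorem lf_smul' (r : ℝ) (h p : ℝ × ℝ) : lf (r • h) p = r * lf h p := by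
  unfold lf; simp only [Prod.smul_fst, Prod.smul_snd, smul_eq_mul]; ring

theorem lf_zero (h : ℝ × ℝ) : lf h 0 = 0 := by
  unfold lf; simp

theorem Po_le {S : Finset (ℝ × ℝ)} {c h : ℝ × ℝ} (hh : h ∈ Po S c) :
    ∀ p ∈ convexHull ℝ (↑S : Set (ℝ × ℝ)), lf h (p - c) ≤ 1 := by
  have h1 : convexHull ℝ (↑S : Set (ℝ × ℝ)) ⊆ {p | lf h (p - c) ≤ 1} := by
    refine convexHull_min (fun s hs => hh s hs) ?_
    intro p hp q hq a b ha hb hab
    show lf h (a • p + b • q - c) ≤ 1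
    have e : a • p + b • q - c = a • (p - c) + b • (q - c) := by
      have : c = (a + b) • c := by rw [hab, one_smul]
      conv_lhs => rw [this]
      module
    rw [e, lf_add, lf_smul, lf_smul]
    have h2 : lf h (p - c) ≤ 1 := hp
    have h3 : lf h (q - c) ≤ 1 := hq
    nlinarith
  exact h1

theorem Po_mem {S : Finset (ℝ × ℝ)} {c h : ℝ × ℝ}
    (hh : ∀ p ∈ convexHull ℝ (↑S : Set (ℝ × ℝ)), lf h (p - c) ≤ 1) : h ∈ Po S c :=
  fun s hs => hh s (subset_convexHull ℝ _ hs)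

theorem lf_cont (p : ℝ × ℝ) : Continuous (fun h => lf h p) := by
  unfold lf; fun_prop

theorem Po_compact {S : Finset (ℝ × ℝ)} {c : ℝ × ℝ}
    (hc : c ∈ interior (convexHull ℝ (↑S : Set (ℝ × ℝ)))) : IsCompact (Po S c) := by
  have hn := mem_interior_iff_mem_nhds.1 hc
  obtain ⟨e1, h1, k1⟩ := ev_line (d := ((1, 0) : ℝ × ℝ)) hn
  obtain ⟨e2, h2, k2⟩ := ev_line (d := ((-1, 0) : ℝ × ℝ)) hn
  obtain ⟨e3, h3, k3⟩ := ev_line (d := ((0, 1) : ℝ × ℝ)) hn
  obtain ⟨e4, h4, k4⟩ := ev_line (d := ((0, -1) : ℝ × ℝ)) hn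
  have hcl : IsClosed (Po S c) := by
    have : Po S c = ⋂ s ∈ S, {h | lf h (s - c) ≤ 1} := by
      ext h; simp [Po]
    rw [this]
    exact isClosed_biInter fun s _ => isClosed_le (lf_cont _) continuous_const
  refine (isCompact_Icc (a := ((-(1 / e2), -(1 / e4)) : ℝ × ℝ)) (b := (1 / e1, 1 / e3))).of_isClosed_subset
    hcl ?_
  intro h hh
  have a1 := Po_le hh _ k1
  have a2 := Po_le hh _ k2
  have a3 := Po_le hh _ k3
  have a4 := Po_le hh _ k4
  rw [add_sub_cancel_left, lf_smul] at a1 a2 a3 a4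
  unfold lf at a1 a2 a3 a4
  simp only at a1 a2 a3 a4
  refine ⟨⟨?_, ?_⟩, ⟨?_, ?_⟩⟩
  · show -(1 / e2) ≤ h.1
    rw [neg_le, le_div_iff₀ h2]; linarith
  · show -(1 / e4) ≤ h.2
    rw [neg_le, le_div_iff₀ h4]; linarith
  · show h.1 ≤ 1 / e1
    rw [le_div_iff₀ h1]; linarith
  · show h.2 ≤ 1 / e3
    rw [le_div_iff₀ h3]; linarith

theorem bipolar {S : Finset (ℝ × ℝ)} {c v : ℝ × ℝ}
    (hc : c ∈ convexHull ℝ (↑S : Set (ℝ × ℝ))) (hv : ∀ h ∈ Po S c, lf h v ≤ 1) :
    c + v ∈ convexHull ℝ (↑S : Set (ℝ × ℝ)) := by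
  by_contra hcon
  have hcl : IsClosed (convexHull ℝ (↑S : Set (ℝ × ℝ))) :=
    ((S.finite_toSet).isCompact_convexHull ℝ).isClosed
  obtain ⟨f, u, h1, h2⟩ := geometric_hahn_banach_closed_point (convex_convexHull ℝ _) hcl hcon
  have hf : ∀ p, f p = lf (f (1, 0), f (0, 1)) p := by
    intro p
    have e : p = p.1 • ((1, 0) : ℝ × ℝ) + p.2 • ((0, 1) : ℝ × ℝ) := by
      ext <;> simp
    conv_lhs => rw [e]
    rw [map_add, map_smul, map_smul]
    unfold lf
    simp only [smul_eq_mul]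
    ring
  have h3 := h1 c hc
  have hpos : 0 < u - f c := by linarith
  have h4 := hv ((1 / (u - f c)) • (f (1, 0), f (0, 1))) (Po_mem (by
    intro p hp
    rw [lf_smul', ← hf, map_sub, one_div, inv_mul_le_iff₀ hpos]
    have := h1 p hp
    linarith))
  rw [lf_smul', ← hf, one_div, inv_mul_le_iff₀ hpos] at h4
  rw [map_add] at h2
  linarith

theorem face {S : Finset (ℝ × ℝ)} {c : ℝ × ℝ}
    (hc : c ∈ interior (convexHull ℝ (↑S : Set (ℝ × ℝ)))) (m h0 : ℝ × ℝ) (hh0 : h0 ∈ Po S c)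
    (hmax : ∀ h ∈ Po S c, lf m h ≤ lf m h0) :
    ∃ h ∈ Po S c, lf m h = lf m h0 ∧ ∃ s1 ∈ S, ∃ s2 ∈ S, s1 ≠ s2 ∧ lf h (s1 - c) = 1 ∧
      lf h (s2 - c) = 1 := by
  have hE : IsCompact (Po S c ∩ {h | lf m h = lf m h0}) := by
    refine (Po_compact hc).inter_right (isClosed_eq ?_ continuous_const)
    unfold lf; fun_prop
  obtain ⟨h, hh⟩ := hE.extremePoints_nonempty ⟨h0, hh0, rfl⟩
  rw [mem_extremePoints] at hh
  obtain ⟨⟨hP, hm⟩, hext⟩ := hh
  have hm' : lf m h = lf m h0 := hm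
  refine ⟨h, hP, hm', ?_⟩
  by_contra hcon
  push Not at hcon
  -- a direction of perturbation
  obtain ⟨a, ha, hav⟩ : ∃ a : ℝ × ℝ, a ≠ 0 ∧ ∀ s ∈ S, lf h (s - c) = 1 → lf a (s - c) = 0 := by
    by_cases hex : ∃ s ∈ S, lf h (s - c) = 1
    · obtain ⟨s, hs, hs1⟩ := hex
      refine ⟨(-(s - c).2, (s - c).1), ?_, ?_⟩
      · intro h0
        have e1 : (s - c).1 = 0 := congrArg Prod.snd h0
        have e2 : -(s - c).2 = 0 := congrArg Prod.fst h0
        unfold lf at hs1
        rw [e1, neg_eq_zero.1 e2] at hs1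
        simp at hs1
      · intro t ht ht1
        have : s = t := by
          by_contra hne
          exact hcon s hs t ht hne hs1 ht1
        rw [← this]
        unfold lf
        simp only
        ring
    · push Not at hex
      exact ⟨(1, 0), by simp, fun s hs h1 => absurd h1 (hex s hs)⟩
  -- size of the perturbation
  obtain ⟨e, he, hes⟩ : ∃ e : ℝ, 0 < e ∧ ∀ s ∈ S, lf h (s - c) + e * |lf a (s - c)| ≤ 1 := by
    have key : ∀ T : Finset (ℝ × ℝ), T ⊆ S → ∃ e : ℝ, 0 < e ∧ ∀ s ∈ T,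
        lf h (s - c) + e * |lf a (s - c)| ≤ 1 := by
      intro T
      induction T using Finset.induction_on with
      | empty => intro _; exact ⟨1, one_pos, by simp⟩
      | insert t T _ ih =>
        intro hT
        obtain ⟨e, he, h1⟩ := ih fun x hx => hT (Finset.mem_insert_of_mem hx)
        have htS := hT (Finset.mem_insert_self t T)
        rcases (hP t htS).lt_or_eq with hlt | heq
        · obtain ⟨e', he'⟩ : ∃ e', e' = (1 - lf h (t - c)) / (|lf a (t - c)| + 1) := ⟨_, rfl⟩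
          have hp1 : 0 < |lf a (t - c)| + 1 := by positivity
          have he0 : 0 < e' := by rw [he']; exact div_pos (by linarith) hp1
          have he1 : e' * (|lf a (t - c)| + 1) = 1 - lf h (t - c) := by
            rw [he']; field_simp
          refine ⟨min e e', lt_min he he0, ?_⟩
          intro s hs
          rcases Finset.mem_insert.1 hs with rfl | hs
          · have := mul_le_mul_of_nonneg_right (min_le_right e e') (abs_nonneg (lf a (s - c)))
            linarith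
          · have := mul_le_mul_of_nonneg_right (min_le_left e e') (abs_nonneg (lf a (s - c)))
            have := h1 s hs
            linarith
        · refine ⟨e, he, ?_⟩
          intro s hs
          rcases Finset.mem_insert.1 hs with rfl | hs
          · rw [hav s htS heq, abs_zero, mul_zero, heq, add_zero]
          · exact h1 s hs
    exact key S (Finset.Subset.refl S)
  have hp : h + e • a ∈ Po S c := by
    intro s hs
    rw [lf_add', lf_smul']
    have := hes s hs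
    have := mul_le_mul_of_nonneg_left (le_abs_self (lf a (s - c))) he.le
    linarith
  have hq : h - e • a ∈ Po S c := by
    intro s hs
    rw [lf_sub', lf_smul']
    have := hes s hs
    have := mul_le_mul_of_nonneg_left (neg_abs_le (lf a (s - c))) he.le
    linarith
  have h1 := hmax _ hp
  have h2 := hmax _ hq
  rw [lf_add] at h1
  rw [lf_sub] at h2
  have h3 : lf m (e • a) = 0 := by linarith
  have h4 := (hext (h + e • a) ⟨hp, by show lf m (h + e • a) = lf m h0; rw [lf_add, h3, hm', add_zero]⟩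
    (h - e • a) ⟨hq, by show lf m (h - e • a) = lf m h0; rw [lf_sub, h3, hm', sub_zero]⟩
    ⟨1 / 2, 1 / 2, by norm_num, by norm_num, by norm_num, by module⟩).1
  have h5 : e • a = 0 := by simpa using h4
  exact (smul_ne_zero he.ne' ha) h5

theorem nonext {K : Set (ℝ × ℝ)} (hK : Convex ℝ K) {p : ℝ × ℝ} (hp : p ∈ K)
    (hne : p ∉ Set.extremePoints ℝ K) : ∃ w : ℝ × ℝ, w ≠ 0 ∧ p + w ∈ K ∧ p - w ∈ K := by
  rw [mem_extremePoints] at hne
  push Not at hne
  obtain ⟨x1, hx1, x2, hx2, hseg, h⟩ := hne hp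
  obtain ⟨a, b, ha, hb, hab, he⟩ := hseg
  have hx12 : x1 ≠ x2 := by
    rintro rfl
    have h1 : x1 = p := by rw [← he, ← add_smul, hab, one_smul]
    exact h h1 h1
  obtain ⟨m, hm⟩ : ∃ m, m = min a b := ⟨_, rfl⟩
  have hm0 : 0 < m := by rw [hm]; exact lt_min ha hb
  have hma : m ≤ a := by rw [hm]; exact min_le_left _ _
  have hmb : m ≤ b := by rw [hm]; exact min_le_right _ _
  refine ⟨m • (x1 - x2), smul_ne_zero hm0.ne' (sub_ne_zero.2 hx12), ?_, ?_⟩
  · have : p + m • (x1 - x2) = (a + m) • x1 + (b - m) • x2 := by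
      rw [← he]; module
    rw [this]
    exact hK hx1 hx2 (by linarith) (by linarith) (by linarith)
  · have : p - m • (x1 - x2) = (a - m) • x1 + (b + m) • x2 := by
      rw [← he]; module
    rw [this]
    exact hK hx1 hx2 (by linarith) (by linarith) (by linarith)


theorem po4 (K : Set (ℝ × ℝ)) (c x y f g : ℝ × ℝ)
    (hx1 : c + x ∈ K) (hx2 : c - x ∈ K) (hy1 : c + y ∈ K) (hy2 : c - y ∈ K)
    (hwx : ∃ w, w ≠ 0 ∧ c + x + w ∈ K ∧ c + x - w ∈ K)
    (hwx' : ∃ w, w ≠ 0 ∧ c - x + w ∈ K ∧ c - x - w ∈ K)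
    (hwy : ∃ w, w ≠ 0 ∧ c + y + w ∈ K ∧ c + y - w ∈ K)
    (hwy' : ∃ w, w ≠ 0 ∧ c - y + w ∈ K ∧ c - y - w ∈ K)
    (hf1 : lf f x = 1) (hf2 : lf f y = 0) (hg1 : lf g x = 0) (hg2 : lf g y = 1)
    (hf : ∀ p ∈ K, |lf f (p - c)| ≤ 1) (hg : ∀ p ∈ K, |lf g (p - c)| ≤ 1) : PO K := by
  have hf0 : f ≠ 0 := by rintro rfl; unfold lf at hf1; simp at hf1
  have hg0 : g ≠ 0 := by rintro rfl; unfold lf at hg2; simp at hg2
  have hx0 : x ≠ 0 := by rintro rfl; rw [lf_zero] at hf1; norm_num at hf1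
  have hy0 : y ≠ 0 := by rintro rfl; rw [lf_zero] at hg2; norm_num at hg2
  have hx' : c - x ≠ c + x := by
    intro h
    apply hx0
    have h1 : (2 : ℝ) • x = 0 := by
      have : (2 : ℝ) • x = (c + x) - (c - x) := by module
      rw [this, h, sub_self]
    exact (smul_eq_zero.1 h1).resolve_left two_ne_zero
  have hy' : c - y ≠ c + y := by
    intro h
    apply hy0
    have h1 : (2 : ℝ) • y = 0 := by
      have : (2 : ℝ) • y = (c + y) - (c - y) := by module
      rw [this, h, sub_self]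
    exact (smul_eq_zero.1 h1).resolve_left two_ne_zero
  have hcase : ∀ i : ℕ, (i % 4 = 0 ∧ (i + 1) % 4 = 1 ∧ (i + 2) % 4 = 2) ∨
      (i % 4 = 1 ∧ (i + 1) % 4 = 2 ∧ (i + 2) % 4 = 3) ∨
      (i % 4 = 2 ∧ (i + 1) % 4 = 3 ∧ (i + 2) % 4 = 0) ∨
      (i % 4 = 3 ∧ (i + 1) % 4 = 0 ∧ (i + 2) % 4 = 1) := by
    intro i; omega
  have hF : ∀ p ∈ K, lf f p ≤ lf f c + 1 ∧ lf f c - 1 ≤ lf f p := by
    intro p hp
    have h1 := abs_le.1 (hf p hp)
    rw [lf_sub] at h1
    constructor <;> linarith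
  have hG : ∀ p ∈ K, lf g p ≤ lf g c + 1 ∧ lf g c - 1 ≤ lf g p := by
    intro p hp
    have h1 := abs_le.1 (hg p hp)
    rw [lf_sub] at h1
    constructor <;> linarith
  obtain ⟨X, hX⟩ : ∃ X : ℕ → ℝ × ℝ, X = fun i => if i % 4 = 0 then c + x else
    if i % 4 = 1 then c + y else if i % 4 = 2 then c - x else c - y := ⟨_, rfl⟩
  obtain ⟨F, hFd⟩ : ∃ F : ℕ → ℝ × ℝ, F = fun i => if i % 4 = 0 then f else
    if i % 4 = 1 then g else if i % 4 = 2 then -f else -g := ⟨_, rfl⟩
  have X0 : ∀ i, i % 4 = 0 → X i = c + x := by intro i h; rw [hX]; simp [h]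
  have X1 : ∀ i, i % 4 = 1 → X i = c + y := by intro i h; rw [hX]; simp [h]
  have X2 : ∀ i, i % 4 = 2 → X i = c - x := by intro i h; rw [hX]; simp [h]
  have X3 : ∀ i, i % 4 = 3 → X i = c - y := by intro i h; rw [hX]; simp [h]
  have F0 : ∀ i, i % 4 = 0 → F i = f := by intro i h; rw [hFd]; simp [h]
  have F1 : ∀ i, i % 4 = 1 → F i = g := by intro i h; rw [hFd]; simp [h]
  have F2 : ∀ i, i % 4 = 2 → F i = -f := by intro i h; rw [hFd]; simp [h]
  have F3 : ∀ i, i % 4 = 3 → F i = -g := by intro i h; rw [hFd]; simp [h]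
  refine po_raw K 4 (by norm_num) X ?_ ?_ ?_ F ?_ ?_ ?_ ?_ ?_ ?_
  · intro i
    rw [hX]
    simp only [Nat.add_mod_right]
  · intro i
    rcases hcase i with h | h | h | h
    · rw [X0 i h.1]; exact hx1
    · rw [X1 i h.1]; exact hy1
    · rw [X2 i h.1]; exact hx2
    · rw [X3 i h.1]; exact hy2
  · intro i
    rcases hcase i with h | h | h | h
    · rw [X0 i h.1]; exact hwx
    · rw [X1 i h.1]; exact hwy
    · rw [X2 i h.1]; exact hwx'
    · rw [X3 i h.1]; exact hwy'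
  · intro i
    rcases hcase i with h | h | h | h
    · rw [F0 i h.1]; exact hf0
    · rw [F1 i h.1]; exact hg0
    · rw [F2 i h.1]; exact neg_ne_zero.2 hf0
    · rw [F3 i h.1]; exact neg_ne_zero.2 hg0
  · intro i p hp
    rcases hcase i with h | h | h | h
    · rw [F0 i h.1, X0 i h.1, lf_add, hf1]; exact (hF p hp).1
    · rw [F1 i h.1, X1 i h.1, lf_add, hg2]; exact (hG p hp).1
    · rw [F2 i h.1, X2 i h.1, lf_neg, lf_neg, lf_sub, hf1]; linarith [(hF p hp).2]
    · rw [F3 i h.1, X3 i h.1, lf_neg, lf_neg, lf_sub, hg2]; linarith [(hG p hp).2]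
  · intro i
    rcases hcase i with h | h | h | h
    · rw [X0 i h.1, X2 _ h.2.2]; exact hx'
    · rw [X1 i h.1, X3 _ h.2.2]; exact hy'
    · rw [X2 i h.1, X0 _ h.2.2]; exact hx'.symm
    · rw [X3 i h.1, X1 _ h.2.2]; exact hy'.symm
  · intro i
    rcases hcase i with h | h | h | h
    · rw [X0 i h.1, X2 _ h.2.2, F1 _ h.2.1, lf_sub, lf_add, hg1]; ring
    · rw [X1 i h.1, X3 _ h.2.2, F2 _ h.2.1, lf_neg, lf_neg, lf_sub, lf_add, hf2]; ring
    · rw [X2 i h.1, X0 _ h.2.2, F3 _ h.2.1, lf_neg, lf_neg, lf_sub, lf_add, hg1]; ring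
    · rw [X3 i h.1, X1 _ h.2.2, F0 _ h.2.1, lf_sub, lf_add, hf2]; ring
  · intro i
    rcases hcase i with h | h | h | h
    · rw [X0 i h.1, X1 _ h.2.1, F1 _ h.2.1, lf_add, lf_add, hg1, hg2]; linarith
    · rw [X1 i h.1, X2 _ h.2.1, F2 _ h.2.1, lf_neg, lf_neg, lf_sub, lf_add, hf2, hf1]; linarith
    · rw [X2 i h.1, X3 _ h.2.1, F3 _ h.2.1, lf_neg, lf_neg, lf_sub, lf_sub, hg1, hg2]; linarith
    · rw [X3 i h.1, X0 _ h.2.1, F0 _ h.2.1, lf_sub, lf_add, hf2, hf1]; linarith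
  · intro i
    rcases hcase i with h | h | h | h
    · refine ⟨c - y, hy2, ?_⟩
      rw [X0 i h.1, F1 _ h.2.1, lf_add, lf_sub, hg1, hg2]; linarith
    · refine ⟨c + x, hx1, ?_⟩
      rw [X1 i h.1, F2 _ h.2.1, lf_neg, lf_neg, lf_add, lf_add, hf2, hf1]; linarith
    · refine ⟨c + y, hy1, ?_⟩
      rw [X2 i h.1, F3 _ h.2.1, lf_neg, lf_neg, lf_sub, lf_add, hg1, hg2]; linarith
    · refine ⟨c - x, hx2, ?_⟩
      rw [X3 i h.1, F0 _ h.2.1, lf_sub, lf_sub, hf2, hf1]; linarith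

/-- Two vectors killed by the same nonzero form are parallel. -/
theorem ker_par {g a b : ℝ × ℝ} (hg : g ≠ 0) (ha : lf g a = 0) (hb : lf g b = 0) :
    a.1 * b.2 - a.2 * b.1 = 0 := by
  by_contra hcon
  apply hg
  unfold lf at ha hb
  have h1 : g.1 * (a.1 * b.2 - a.2 * b.1) = 0 := by
    linear_combination b.2 * ha - a.2 * hb
  have h2 : g.2 * (a.1 * b.2 - a.2 * b.1) = 0 := by
    linear_combination a.1 * hb - b.1 * ha
  exact Prod.ext ((mul_eq_zero.1 h1).resolve_right hcon) ((mul_eq_zero.1 h2).resolve_right hcon)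

theorem cs_po (S : Finset (ℝ × ℝ)) (c : ℝ × ℝ)
    (hint : (interior (convexHull ℝ (↑S : Set (ℝ × ℝ)))).Nonempty)
    (hcs : ∀ p ∈ convexHull ℝ (↑S : Set (ℝ × ℝ)), c + c - p ∈ convexHull ℝ (↑S : Set (ℝ × ℝ)))
    (hgen : ∀ v ∈ Set.extremePoints ℝ (convexHull ℝ (↑S : Set (ℝ × ℝ))), ∀ p q : ℝ × ℝ, p ≠ q →
      segment ℝ p q ⊆ frontier (convexHull ℝ (↑S : Set (ℝ × ℝ))) →
      (v - c).1 * (p - q).2 - (v - c).2 * (p - q).1 ≠ 0) :
    PO (convexHull ℝ (↑S : Set (ℝ × ℝ))) := by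
  obtain ⟨K, hKd⟩ : ∃ K, K = convexHull ℝ (↑S : Set (ℝ × ℝ)) := ⟨_, rfl⟩
  have hconv : Convex ℝ K := by rw [hKd]; exact convex_convexHull ℝ _
  -- the centre is an interior point
  have hc : c ∈ interior K := by
    rw [← hKd] at hint hcs
    obtain ⟨p, hp⟩ := hint
    rw [mem_interior_iff_mem_nhds]
    have hcont : Continuous (fun y : ℝ × ℝ => p + (2 : ℝ) • (y - c)) := by fun_prop
    have h2 := hcont.tendsto c
    rw [sub_self, smul_zero, add_zero] at h2
    have h3 := h2.eventually (mem_interior_iff_mem_nhds.1 hp)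
    refine Filter.mem_of_superset h3 ?_
    intro y hy
    have hy' : p + (2 : ℝ) • (y - c) ∈ K := hy
    have h4 := hconv hy' (hcs p (interior_subset hp)) (a := 1 / 2) (b := 1 / 2) (by norm_num)
      (by norm_num) (by norm_num)
    have e : (1 / 2 : ℝ) • (p + (2 : ℝ) • (y - c)) + (1 / 2 : ℝ) • (c + c - p) = y := by module
    rw [e] at h4
    exact h4
  have hcK : c ∈ K := interior_subset hc
  have hneg : ∀ h ∈ Po S c, -h ∈ Po S c := by
    intro h hh s hs
    have h1 := Po_le hh _ (hcs s (subset_convexHull ℝ _ hs))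
    have e : c + c - s - c = -(s - c) := by abel
    rw [e] at h1
    rw [lf_neg]
    have e2 : lf h (-(s - c)) = - lf h (s - c) := by
      unfold lf; simp only [Prod.fst_neg, Prod.snd_neg]; ring
    rw [e2] at h1
    exact h1
  have hPc : IsCompact (Po S c) := Po_compact (hKd ▸ hc)
  -- two small independent functionals in the polar
  obtain ⟨e, he, hes⟩ : ∃ e : ℝ, 0 < e ∧ ∀ s ∈ S, e * |(s - c).1| ≤ 1 ∧ e * |(s - c).2| ≤ 1 := by
    obtain ⟨M, hM⟩ : ∃ M, M = ∑ s ∈ S, (|(s - c).1| + |(s - c).2|) + 1 := ⟨_, rfl⟩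
    have hM0 : 0 < M := by
      rw [hM]
      have : 0 ≤ ∑ s ∈ S, (|(s - c).1| + |(s - c).2|) := Finset.sum_nonneg fun s _ => by positivity
      linarith
    refine ⟨1 / M, by positivity, ?_⟩
    intro s hs
    have h1 : |(s - c).1| + |(s - c).2| ≤ ∑ s ∈ S, (|(s - c).1| + |(s - c).2|) :=
      Finset.single_le_sum (f := fun s => |(s - c).1| + |(s - c).2|) (fun s _ => by positivity) hs
    have h2 := abs_nonneg (s - c).1
    have h3 := abs_nonneg (s - c).2
    constructor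
    · rw [one_div, inv_mul_le_iff₀ hM0]; linarith
    · rw [one_div, inv_mul_le_iff₀ hM0]; linarith
  have hm1 : ((e, 0) : ℝ × ℝ) ∈ Po S c := by
    intro s hs
    have h1 := (hes s hs).1
    have h2 := mul_le_mul_of_nonneg_left (le_abs_self (s - c).1) he.le
    unfold lf
    simp only [zero_mul, add_zero]
    linarith
  have hm2 : ((0, e) : ℝ × ℝ) ∈ Po S c := by
    intro s hs
    have h1 := (hes s hs).2
    have h2 := mul_le_mul_of_nonneg_left (le_abs_self (s - c).2) he.le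
    unfold lf
    simp only [zero_mul, zero_add]
    linarith
  -- the maximal pair
  obtain ⟨⟨f0, g0⟩, ⟨hf0, hg0⟩, hmax⟩ := (hPc.prod hPc).exists_isMaxOn ⟨((e, 0), (0, e)), hm1, hm2⟩
    (f := fun z : (ℝ × ℝ) × (ℝ × ℝ) => dt z.1 z.2) (by unfold dt; fun_prop)
  have hmax' : ∀ f ∈ Po S c, ∀ g ∈ Po S c, dt f g ≤ dt f0 g0 := by
    intro f hf g hg
    have := hmax (show ((f, g) : (ℝ × ℝ) × (ℝ × ℝ)) ∈ (Po S c) ×ˢ (Po S c) from ⟨hf, hg⟩)
    exact this
  obtain ⟨d, hd⟩ : ∃ d, d = dt f0 g0 := ⟨_, rfl⟩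
  have hd0 : 0 < d := by
    have h1 := hmax' _ hm1 _ hm2
    rw [← hd] at h1
    unfold dt at h1
    simp only at h1
    nlinarith [mul_pos he he]
  rw [← hd] at hmax'
  obtain ⟨f, hf, hfd, s1, hs1, s2, hs2, hs12, hfs1, hfs2⟩ := face (hKd ▸ hc) (g0.2, -g0.1) f0 hf0 (by
    intro h hh
    have h1 := hmax' h hh g0 hg0
    rw [hd] at h1
    unfold dt at h1
    unfold lf
    simp only
    linarith)
  have hfg0 : dt f g0 = d := by
    rw [hd]
    unfold lf at hfd
    simp only at hfd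
    unfold dt
    linarith
  obtain ⟨g, hg, hgd, t1, ht1, t2, ht2, ht12, hgt1, hgt2⟩ := face (hKd ▸ hc) (-f.2, f.1) g0 hg0 (by
    intro h hh
    have h1 := hmax' f hf h hh
    rw [← hfg0] at h1
    unfold dt at h1
    unfold lf
    simp only
    linarith)
  have hfg : dt f g = d := by
    rw [← hfg0]
    unfold lf at hgd
    simp only at hgd
    unfold dt
    linarith
  obtain ⟨x, hx⟩ : ∃ x : ℝ × ℝ, x = (g.2 / d, -g.1 / d) := ⟨_, rfl⟩
  obtain ⟨y, hy⟩ : ∃ y : ℝ × ℝ, y = (-f.2 / d, f.1 / d) := ⟨_, rfl⟩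
  have hlx : ∀ h, lf h x = dt h g / d := by
    intro h; rw [hx]; unfold lf dt; simp only; ring
  have hly : ∀ h, lf h y = dt f h / d := by
    intro h; rw [hy]; unfold lf dt; simp only; ring
  have hxK : c + x ∈ K := by
    rw [hKd]
    refine bipolar (hKd ▸ hcK) ?_
    intro h hh
    rw [hlx, div_le_one hd0]
    exact hmax' h hh g hg
  have hyK : c + y ∈ K := by
    rw [hKd]
    refine bipolar (hKd ▸ hcK) ?_
    intro h hh
    rw [hly, div_le_one hd0]
    exact hmax' f hf h hh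
  have hfx : lf f x = 1 := by rw [hlx, hfg, div_self hd0.ne']
  have hgy : lf g y = 1 := by rw [hly, hfg, div_self hd0.ne']
  have hgx : lf g x = 0 := by
    rw [hlx]; unfold dt
    have : g.1 * g.2 - g.2 * g.1 = 0 := by ring
    rw [this, zero_div]
  have hfy : lf f y = 0 := by
    rw [hly]; unfold dt
    have : f.1 * f.2 - f.2 * f.1 = 0 := by ring
    rw [this, zero_div]
  have hg0' : g ≠ 0 := by rintro rfl; unfold lf at hgy; simp at hgy
  have hf0' : f ≠ 0 := by rintro rfl; unfold lf at hfx; simp at hfx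
  have hfr : ∀ (k : ℝ × ℝ), k ≠ 0 → k ∈ Po S c → ∀ p q, p ∈ S → q ∈ S → lf k (p - c) = 1 →
      lf k (q - c) = 1 → segment ℝ p q ⊆ frontier K := by
    intro k hk0 hk p q hp hq h1 h2 z hz
    obtain ⟨a, b, ha, hb, hab, he⟩ := hz
    have hzK : z ∈ K := by
      rw [← he]
      exact hconv (hKd ▸ subset_convexHull ℝ _ hp) (hKd ▸ subset_convexHull ℝ _ hq) ha hb hab
    refine ⟨subset_closure hzK, not_int hk0 ?_⟩
    intro r hr
    have h3 := Po_le hk r (hKd ▸ hr)
    have h4 : lf k z = lf k c + 1 := by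
      rw [lf_sub] at h1 h2
      rw [← he, lf_add, lf_smul, lf_smul]
      have e1 : lf k p = lf k c + 1 := by linarith
      have e2 : lf k q = lf k c + 1 := by linarith
      rw [e1, e2]
      linear_combination (lf k c + 1) * hab
    rw [lf_sub] at h3
    linarith
  have hxe : c + x ∉ Set.extremePoints ℝ K := by
    intro h
    refine hgen (c + x) (hKd ▸ h) t1 t2 ht12 (hKd ▸ hfr g hg0' hg t1 t2 ht1 ht2 hgt1 hgt2) ?_
    rw [add_sub_cancel_left]
    refine ker_par hg0' hgx ?_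
    rw [lf_sub] at hgt1 hgt2 ⊢
    linarith
  have hye : c + y ∉ Set.extremePoints ℝ K := by
    intro h
    refine hgen (c + y) (hKd ▸ h) s1 s2 hs12 (hKd ▸ hfr f hf0' hf s1 s2 hs1 hs2 hfs1 hfs2) ?_
    rw [add_sub_cancel_left]
    refine ker_par hf0' hfy ?_
    rw [lf_sub] at hfs1 hfs2 ⊢
    linarith
  have hcs' : ∀ p ∈ K, c + c - p ∈ K := by rw [hKd]; exact hcs
  have hmir : ∀ x, (∃ w, w ≠ 0 ∧ c + x + w ∈ K ∧ c + x - w ∈ K) →
      (∃ w, w ≠ 0 ∧ c - x + w ∈ K ∧ c - x - w ∈ K) := by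
    rintro x ⟨w, hw, h1, h2⟩
    refine ⟨w, hw, ?_, ?_⟩
    · have := hcs' _ h2
      have e : c + c - (c + x - w) = c - x + w := by abel
      rwa [e] at this
    · have := hcs' _ h1
      have e : c + c - (c + x + w) = c - x - w := by abel
      rwa [e] at this
  have hmir' : ∀ x, c + x ∈ K → c - x ∈ K := by
    intro x h
    have := hcs' _ h
    have e : c + c - (c + x) = c - x := by abel
    rwa [e] at this
  have hwx := nonext hconv hxK hxe
  have hwy := nonext hconv hyK hye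
  have habs : ∀ k ∈ Po S c, ∀ p ∈ K, |lf k (p - c)| ≤ 1 := by
    intro k hk p hp
    have h1 := Po_le hk p (hKd ▸ hp)
    have h2 := Po_le (hneg k hk) p (hKd ▸ hp)
    rw [lf_neg] at h2
    rw [abs_le]
    constructor <;> linarith
  rw [← hKd]
  exact po4 K c x y f g hxK (hmir' x hxK) hyK (hmir' y hyK) hwx (hmir x hwx) hwy (hmir y hwy)
    hfx hfy hgx hgy (habs f hf) (habs g hg)



/-! ### symmetries given as affine maps -/

/-- An element of finite order whose square is not the identity: its square has no fixed vector. -/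
theorem no_fix (A : (ℝ × ℝ) →ₗ[ℝ] (ℝ × ℝ)) (n : ℕ) (hn : 0 < n) (hA : A ^ n = 1)
    (h2 : ∃ v, A (A v) ≠ v) : ∀ x, A (A x) = x → x = 0 := by
  intro x hx
  by_contra hx0
  have h := Bf_ip A n hn
  obtain ⟨B, hB⟩ : ∃ B, B = Bf A n := ⟨_, rfl⟩
  rw [← hB] at h
  have hinv : ∀ x y, B (A x) (A y) = B x y := by
    intro x y; rw [hB]; exact Bf_inv A n hA x y
  obtain ⟨w, hwx, hww, hexp⟩ := ortho h x hx0
  have hq := h.pos x hx0
  have hinv2 : ∀ u v, B (A (A u)) (A (A v)) = B u v := by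
    intro u v; rw [hinv, hinv]
  -- `A (A w)` is a multiple of `w`
  have h3 : B (A (A w)) x = 0 := by
    have := hinv2 w x
    rw [hx, hwx] at this
    exact this
  have h4 : B x x • A (A w) = B (A (A w)) w • w := by
    have := hexp (A (A w))
    rw [h3, zero_smul, zero_add] at this
    exact this
  obtain ⟨l, hl⟩ : ∃ l : ℝ, l = B (A (A w)) w / B x x := ⟨_, rfl⟩
  have h5 : A (A w) = l • w := by
    rw [hl, div_eq_inv_mul, mul_smul, ← h4, smul_smul, inv_mul_cancel₀ hq.ne', one_smul]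
  have h6 : l * l = 1 := by
    have := hinv2 w w
    rw [h5, h.smul, h.smul', hww] at this
    have h7 : (l * l - 1) * B x x = 0 := by linarith
    have := (mul_eq_zero.1 h7).resolve_right hq.ne'
    linarith
  rcases mul_self_eq_one_iff.1 h6 with h7 | h7
  · -- then `A * A = 1`
    obtain ⟨v, hv⟩ := h2
    apply hv
    have e := hexp v
    have e2 : B x x • A (A v) = B x x • v := by
      have : B x x • A (A v) = A (A (B x x • v)) := by rw [map_smul, map_smul]
      rw [this, e, map_add, map_add, map_smul, map_smul, map_smul, map_smul, hx, h5, h7, one_smul]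
    exact smul_right_injective _ hq.ne' e2
  · -- `A w` is a multiple of `w`, so `A (A w) = μ² w`
    have h8 : B (A w) x = 0 := by
      have := hinv2 (A w) x
      rw [h5, h7, hx, map_smul, h.smul] at this
      linarith
    have h9 : B x x • A w = B (A w) w • w := by
      have := hexp (A w)
      rw [h8, zero_smul, zero_add] at this
      exact this
    obtain ⟨μ, hμ⟩ : ∃ μ : ℝ, μ = B (A w) w / B x x := ⟨_, rfl⟩
    have h10 : A w = μ • w := by
      rw [hμ, div_eq_inv_mul, mul_smul, ← h9, smul_smul, inv_mul_cancel₀ hq.ne', one_smul]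
    have h11 : A (A w) = (μ * μ) • w := by
      rw [h10, map_smul, h10, smul_smul]
    rw [h11] at h5
    have h12 := congrArg (fun z => B z w) h5
    rw [h.smul, h.smul, hww, h7] at h12
    nlinarith [mul_self_nonneg μ]

theorem aff_po (S : Finset (ℝ × ℝ)) (g : (ℝ × ℝ) →ᵃ[ℝ] (ℝ × ℝ)) (n : ℕ) (hn : 0 < n)
    (hgn : ∀ p, g^[n] p = p) (hg2 : ∃ p, g (g p) ≠ p)
    (hK : ∀ p ∈ convexHull ℝ (↑S : Set (ℝ × ℝ)), g p ∈ convexHull ℝ (↑S : Set (ℝ × ℝ)))
    (hint : (interior (convexHull ℝ (↑S : Set (ℝ × ℝ)))).Nonempty) :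
    PO (convexHull ℝ (↑S : Set (ℝ × ℝ))) := by
  obtain ⟨A, hAd⟩ : ∃ A, A = g.linear := ⟨_, rfl⟩
  have hg : ∀ p q, g p - g q = A (p - q) := by
    intro p q
    rw [hAd]
    have := g.linearMap_vsub p q
    simp only [vsub_eq_sub] at this
    exact this.symm
  -- a fixed point
  obtain ⟨c, hc⟩ : ∃ c : ℝ × ℝ, c = (1 / (n : ℝ)) • ∑ k ∈ Finset.range n, g^[k] 0 := ⟨_, rfl⟩
  have hn0 : (n : ℝ) ≠ 0 := by exact_mod_cast hn.ne'
  have hgc : g c = c := by
    have h1 : g c = A c + g 0 := by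
      have := hg c 0
      rw [sub_zero] at this
      rw [← this]; abel
    have h2 : A c = (1 / (n : ℝ)) • ∑ k ∈ Finset.range n, (g^[k + 1] 0 - g 0) := by
      rw [hc, map_smul, map_sum]
      congr 1
      refine Finset.sum_congr rfl fun k _ => ?_
      rw [Function.iterate_succ_apply', hg, sub_zero]
    rw [h1, h2, Finset.sum_sub_distrib, sum_shift (fun k => g^[k] 0) n (by rw [hgn]; rfl),
      Finset.sum_const, Finset.card_range, ← Nat.cast_smul_eq_nsmul ℝ, smul_sub, smul_smul]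
    have : 1 / (n : ℝ) * n = 1 := by field_simp
    rw [this, one_smul, ← hc]
    abel
  have hit : ∀ (k : ℕ) (v : ℝ × ℝ), (A ^ k) v = g^[k] (c + v) - c := by
    intro k
    induction k with
    | zero => intro v; simp
    | succ k ih =>
      intro v
      have e : (A ^ (k + 1)) v = A ((A ^ k) v) := by rw [pow_succ']; rfl
      rw [e, ih, ← hg, hgc, Function.iterate_succ_apply']
  have hA : A ^ n = 1 := by
    refine LinearMap.ext fun v => ?_
    rw [hit, hgn, add_sub_cancel_left]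
    rfl
  have hA2 : ∃ v, A (A v) ≠ v := by
    obtain ⟨p, hp⟩ := hg2
    refine ⟨p - c, ?_⟩
    intro h0
    apply hp
    have h1 : A (p - c) = g p - c := by rw [← hg, hgc]
    have h2 : A (g p - c) = g (g p) - c := by rw [← hg, hgc]
    rw [h1, h2] at h0
    exact sub_left_injective h0
  refine sym_po S c A n hn hA ?_ (no_fix A n hn hA hA2) hint
  intro p hp
  have h1 : A (p - c) = g p - c := by rw [← hg, hgc]
  rw [h1]
  have : c + (g p - c) = g p := by abel
  rw [this]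
  exact hK p hp

end Pool.Agent.Helper916.SymplecticSym
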