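import Mathlib
import Pool.Agent.Helper916.SymBilDefs
import Pool.Agent.Helper916.SymBilLemmas
import Pool.Agent.Helper916.SymBilTie
import Pool.Agent.Helper916.SymplecticSym

set_option autoImplicit false

namespace Pool.Agent.Helper916.SymBil

open Pool.Agent.Helper916.SymplecticSym

/-- the point lies on an open side of direction `k` -/
def Dk (w h N c : ℝ) (k : ℕ) (p : ℝ × ℝ) : Prop :=
  (k = 0 ∧ ((p.2 = 0 ∧ c < p.1 ∧ p.1 < w) ∨ (p.2 = h ∧ 0 < p.1 ∧ p.1 < N - h))) ∨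
  (k = 1 ∧ ((p.1 = 0 ∧ c < p.2 ∧ p.2 < h) ∨ (p.1 = w ∧ 0 < p.2 ∧ p.2 < N - w))) ∨
  (k = 2 ∧ ((p.1 + p.2 = N ∧ N - h < p.1 ∧ p.1 < w) ∨ (p.1 + p.2 = c ∧ 0 < p.1 ∧ p.1 < c)))

theorem BD_Dk {w h N c : ℝ} {p : ℝ × ℝ} (hp : BD w h N c p) : ∃ k, Dk w h N c k p := by
  rcases hp with hp | hp | hp | hp | hp | hp
  · exact ⟨0, Or.inl ⟨rfl, Or.inl hp⟩⟩
  · exact ⟨1, Or.inr (Or.inl ⟨rfl, Or.inl hp⟩)⟩
  · exact ⟨1, Or.inr (Or.inl ⟨rfl, Or.inr hp⟩)⟩
  · exact ⟨0, Or.inl ⟨rfl, Or.inr hp⟩⟩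
  · exact ⟨2, Or.inr (Or.inr ⟨rfl, Or.inl hp⟩)⟩
  · exact ⟨2, Or.inr (Or.inr ⟨rfl, Or.inr hp⟩)⟩

theorem Dk_lt {w h N c : ℝ} {k : ℕ} {p : ℝ × ℝ} (hp : Dk w h N c k p) : k < 3 := by
  rcases hp with hp | hp | hp <;> omega

/-- a point on a side of another direction is strictly inside the strip -/
theorem Dk_inside {w h N c : ℝ} (P : Prm w h N c) {k k' : ℕ} {p : ℝ × ℝ} (hp : Dk w h N c k p)
    (hk' : k' < 3) (hne : k' ≠ k) : Rl w h N c k' p p := by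
  have w0 := P.w0
  have h0 := P.h0
  have c0 := P.c0
  have cw := P.cw
  have ch := P.ch
  have wN := P.wN
  have hN := P.hN
  have Nw := P.Nw
  have cN := P.cN
  have hk : k' = 0 ∨ k' = 1 ∨ k' = 2 := by omega
  rcases hp with ⟨e, ⟨a, b, d⟩ | ⟨a, b, d⟩⟩ | ⟨e, ⟨a, b, d⟩ | ⟨a, b, d⟩⟩ | ⟨e, ⟨a, b, d⟩ | ⟨a, b, d⟩⟩ <;>
    rcases hk with f | f | f <;> first
      | (exfalso; omega)
      | exact Or.inl ⟨f, rfl, by linarith, by linarith⟩
      | exact Or.inr (Or.inl ⟨f, rfl, by linarith, by linarith⟩)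
      | exact Or.inr (Or.inr ⟨f, rfl, by linarith, by linarith⟩)

theorem Rl_not_Dk {w h N c : ℝ} {k : ℕ} {x z : ℝ × ℝ} (hr : Rl w h N c k x z) :
    ¬ Dk w h N c k z := by
  intro hz
  rcases hr with ⟨e, h1, h2, h3⟩ | ⟨e, h1, h2, h3⟩ | ⟨e, h1, h2, h3⟩ <;>
    rcases hz with ⟨f, ⟨a, b, d⟩ | ⟨a, b, d⟩⟩ | ⟨f, ⟨a, b, d⟩ | ⟨a, b, d⟩⟩ | ⟨f, ⟨a, b, d⟩ | ⟨a, b, d⟩⟩ <;>
    first
      | omega
      | linarith

/-- the other end of a chord -/
theorem exists_partner {w h N c : ℝ} (P : Prm w h N c) {k : ℕ} {x : ℝ × ℝ}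
    (hr : Rl w h N c k x x)
    (hy : k = 0 → x.2 ≠ c ∧ x.2 ≠ N - w) (hx : k = 1 → x.1 ≠ c ∧ x.1 ≠ N - h)
    (hs : k = 2 → x.1 + x.2 ≠ h ∧ x.1 + x.2 ≠ w) :
    ∃ z, BD w h N c z ∧ Rl w h N c k x z ∧ z ≠ x := by
  have w0 := P.w0
  have h0 := P.h0
  have c0 := P.c0
  have cw := P.cw
  have ch := P.ch
  have wN := P.wN
  have hN := P.hN
  have Nw := P.Nw
  have cN := P.cN
  rcases hr with ⟨e, _, h2, h3⟩ | ⟨e, _, h2, h3⟩ | ⟨e, _, h2, h3⟩
  · obtain ⟨n1, n2⟩ := hy e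
    obtain ⟨a, ha, haB⟩ : ∃ a : ℝ, (a = 0 ∨ a = c - x.2) ∧ BD w h N c (a, x.2) := by
      rcases lt_or_gt_of_ne n1 with h | h
      · exact ⟨c - x.2, Or.inr rfl, Or.inr (Or.inr (Or.inr (Or.inr (Or.inr
          ⟨by simp, by simp only; linarith, by simp only; linarith⟩))))⟩
      · exact ⟨0, Or.inl rfl, Or.inr (Or.inl ⟨rfl, by simp only; linarith, by simp only; linarith⟩)⟩
    obtain ⟨b, hb, hbB⟩ : ∃ b : ℝ, (b = w ∨ b = N - x.2) ∧ BD w h N c (b, x.2) := by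
      rcases lt_or_gt_of_ne n2 with h | h
      · exact ⟨w, Or.inl rfl, Or.inr (Or.inr (Or.inl ⟨rfl, by simp only; linarith,
          by simp only; linarith⟩))⟩
      · exact ⟨N - x.2, Or.inr rfl, Or.inr (Or.inr (Or.inr (Or.inr (Or.inl
          ⟨by simp, by simp only; linarith, by simp only; linarith⟩))))⟩
    have hab : a ≠ b := by
      rcases ha with ha | ha <;> rcases hb with hb | hb <;> rw [ha, hb] <;> intro h
      · linarith
      · linarith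
      · linarith
      · linarith
    by_cases hxa : x.1 = a
    · refine ⟨(b, x.2), hbB, Or.inl ⟨e, rfl, h2, h3⟩, ?_⟩
      intro h0
      exact hab (by rw [← hxa, ← h0])
    · refine ⟨(a, x.2), haB, Or.inl ⟨e, rfl, h2, h3⟩, ?_⟩
      intro h0
      exact hxa (by rw [← h0])
  · obtain ⟨n1, n2⟩ := hx e
    obtain ⟨a, ha, haB⟩ : ∃ a : ℝ, (a = 0 ∨ a = c - x.1) ∧ BD w h N c (x.1, a) := by
      rcases lt_or_gt_of_ne n1 with h | h
      · exact ⟨c - x.1, Or.inr rfl, Or.inr (Or.inr (Or.inr (Or.inr (Or.inr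
          ⟨by simp, by simp only; linarith, by simp only; linarith⟩))))⟩
      · exact ⟨0, Or.inl rfl, Or.inl ⟨rfl, by simp only; linarith, by simp only; linarith⟩⟩
    obtain ⟨b, hb, hbB⟩ : ∃ b : ℝ, (b = h ∨ b = N - x.1) ∧ BD w h N c (x.1, b) := by
      rcases lt_or_gt_of_ne n2 with h | h
      · exact ⟨_, Or.inl rfl, Or.inr (Or.inr (Or.inr (Or.inl ⟨rfl, by simp only; linarith,
          by simp only; linarith⟩)))⟩
      · exact ⟨N - x.1, Or.inr rfl, Or.inr (Or.inr (Or.inr (Or.inr (Or.inl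
          ⟨by simp, by simp only; linarith, by simp only; linarith⟩))))⟩
    have hab : a ≠ b := by
      rcases ha with ha | ha <;> rcases hb with hb | hb <;> rw [ha, hb] <;> intro h
      · linarith
      · linarith
      · linarith
      · linarith
    by_cases hxa : x.2 = a
    · refine ⟨(x.1, b), hbB, Or.inr (Or.inl ⟨e, rfl, h2, h3⟩), ?_⟩
      intro h0
      exact hab (by rw [← hxa, ← h0])
    · refine ⟨(x.1, a), haB, Or.inr (Or.inl ⟨e, rfl, h2, h3⟩), ?_⟩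
      intro h0
      exact hxa (by rw [← h0])
  · obtain ⟨n1, n2⟩ := hs e
    obtain ⟨s, hsd⟩ : ∃ s : ℝ, s = x.1 + x.2 := ⟨_, rfl⟩
    rw [← hsd] at n1 n2 h2 h3
    obtain ⟨a, ha, haB⟩ : ∃ a : ℝ, (a = 0 ∨ a = s - h) ∧ BD w h N c (a, s - a) := by
      rcases lt_or_gt_of_ne n1 with h | h
      · exact ⟨0, Or.inl rfl, Or.inr (Or.inl ⟨rfl, by simp only; linarith, by simp only; linarith⟩)⟩
      · exact ⟨_, Or.inr rfl, Or.inr (Or.inr (Or.inr (Or.inl ⟨by simp, by simp only; linarith,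
          by simp only; linarith⟩)))⟩
    obtain ⟨b, hb, hbB⟩ : ∃ b : ℝ, (b = s ∨ b = w) ∧ BD w h N c (b, s - b) := by
      rcases lt_or_gt_of_ne n2 with h | h
      · exact ⟨s, Or.inl rfl, Or.inl ⟨by simp, by simp only; linarith, by simp only; linarith⟩⟩
      · exact ⟨w, Or.inr rfl, Or.inr (Or.inr (Or.inl ⟨rfl, by simp only; linarith,
          by simp only; linarith⟩))⟩
    have hab : a ≠ b := by
      rcases ha with ha | ha <;> rcases hb with hb | hb <;> rw [ha, hb] <;> intro h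
      · linarith
      · linarith
      · linarith
      · linarith
    by_cases hxa : x.1 = a
    · refine ⟨(b, s - b), hbB, Or.inr (Or.inr ⟨e, by simp only; linarith, by linarith,
        by linarith⟩), ?_⟩
      intro h0
      exact hab (by rw [← hxa, ← h0])
    · refine ⟨(a, s - a), haB, Or.inr (Or.inr ⟨e, by simp only; linarith, by linarith,
        by linarith⟩), ?_⟩
      intro h0
      exact hxa (by rw [← h0])

theorem BD_mem {w h N c : ℝ} (P : Prm w h N c) {p : ℝ × ℝ} (hp : BD w h N c p) :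
    p ∈ Hex w h N c := by
  have w0 := P.w0
  have h0 := P.h0
  have c0 := P.c0
  have cw := P.cw
  have ch := P.ch
  have wN := P.wN
  have hN := P.hN
  have Nw := P.Nw
  have cN := P.cN
  rcases hp with ⟨a, b, d⟩ | ⟨a, b, d⟩ | ⟨a, b, d⟩ | ⟨a, b, d⟩ | ⟨a, b, d⟩ | ⟨a, b, d⟩ <;>
    exact ⟨by linarith, by linarith, by linarith, by linarith, by linarith, by linarith⟩

/-- an open side point is not extreme: it can be moved along the side -/
theorem BD_move {w h N c : ℝ} (P : Prm w h N c) {p : ℝ × ℝ} (hp : BD w h N c p) :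
    ∃ v : ℝ × ℝ, v ≠ 0 ∧ p + v ∈ Hex w h N c ∧ p - v ∈ Hex w h N c := by
  have w0 := P.w0
  have h0 := P.h0
  have c0 := P.c0
  have cw := P.cw
  have ch := P.ch
  have wN := P.wN
  have hN := P.hN
  have Nw := P.Nw
  have cN := P.cN
  have key : ∀ (a b t u : ℝ), a < t → t < b → u = min (t - a) (b - t) → 0 < u ∧ a ≤ t - u ∧ t + u ≤ b := by
    intro a b t u h1 h2 hu
    have e1 : u ≤ t - a := by rw [hu]; exact min_le_left _ _
    have e2 : u ≤ b - t := by rw [hu]; exact min_le_right _ _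
    have e3 : 0 < u := by rw [hu]; exact lt_min (by linarith) (by linarith)
    exact ⟨e3, by linarith, by linarith⟩
  have mk : ∀ (v : ℝ × ℝ), v ≠ 0 → (0 ≤ p.1 + v.1 ∧ p.1 + v.1 ≤ w ∧ 0 ≤ p.2 + v.2 ∧ p.2 + v.2 ≤ h ∧
      c ≤ (p.1 + v.1) + (p.2 + v.2) ∧ (p.1 + v.1) + (p.2 + v.2) ≤ N) →
      (0 ≤ p.1 - v.1 ∧ p.1 - v.1 ≤ w ∧ 0 ≤ p.2 - v.2 ∧ p.2 - v.2 ≤ h ∧
      c ≤ (p.1 - v.1) + (p.2 - v.2) ∧ (p.1 - v.1) + (p.2 - v.2) ≤ N) →
      ∃ v : ℝ × ℝ, v ≠ 0 ∧ p + v ∈ Hex w h N c ∧ p - v ∈ Hex w h N c :=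
    fun v h0 h1 h2 => ⟨v, h0, h1, h2⟩
  rcases hp with ⟨a, b, d⟩ | ⟨a, b, d⟩ | ⟨a, b, d⟩ | ⟨a, b, d⟩ | ⟨a, b, d⟩ | ⟨a, b, d⟩
  · obtain ⟨u, hu⟩ : ∃ u, u = min (p.1 - c) (w - p.1) := ⟨_, rfl⟩
    obtain ⟨k1, k2, k3⟩ := key c w p.1 u b d hu
    refine mk (u, 0) (by intro h; exact k1.ne' (congrArg Prod.fst h)) ?_ ?_ <;> simp only <;>
      exact ⟨by linarith, by linarith, by linarith, by linarith, by linarith, by linarith⟩
  · obtain ⟨u, hu⟩ : ∃ u, u = min (p.2 - c) (h - p.2) := ⟨_, rfl⟩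
    obtain ⟨k1, k2, k3⟩ := key c h p.2 u b d hu
    refine mk (0, u) (by intro h; exact k1.ne' (congrArg Prod.snd h)) ?_ ?_ <;> simp only <;>
      exact ⟨by linarith, by linarith, by linarith, by linarith, by linarith, by linarith⟩
  · obtain ⟨u, hu⟩ : ∃ u, u = min (p.2 - 0) (N - w - p.2) := ⟨_, rfl⟩
    obtain ⟨k1, k2, k3⟩ := key 0 (N - w) p.2 u b d hu
    refine mk (0, u) (by intro h; exact k1.ne' (congrArg Prod.snd h)) ?_ ?_ <;> simp only <;>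
      exact ⟨by linarith, by linarith, by linarith, by linarith, by linarith, by linarith⟩
  · obtain ⟨u, hu⟩ : ∃ u, u = min (p.1 - 0) (N - h - p.1) := ⟨_, rfl⟩
    obtain ⟨k1, k2, k3⟩ := key 0 (N - h) p.1 u b d hu
    refine mk (u, 0) (by intro h; exact k1.ne' (congrArg Prod.fst h)) ?_ ?_ <;> simp only <;>
      exact ⟨by linarith, by linarith, by linarith, by linarith, by linarith, by linarith⟩
  · obtain ⟨u, hu⟩ : ∃ u, u = min (p.1 - (N - h)) (w - p.1) := ⟨_, rfl⟩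
    obtain ⟨k1, k2, k3⟩ := key (N - h) w p.1 u b d hu
    refine mk (u, -u) (by intro h; exact k1.ne' (congrArg Prod.fst h)) ?_ ?_ <;> simp only <;>
      exact ⟨by linarith, by linarith, by linarith, by linarith, by linarith, by linarith⟩
  · obtain ⟨u, hu⟩ : ∃ u, u = min (p.1 - 0) (c - p.1) := ⟨_, rfl⟩
    obtain ⟨k1, k2, k3⟩ := key 0 c p.1 u b d hu
    refine mk (u, -u) (by intro h; exact k1.ne' (congrArg Prod.fst h)) ?_ ?_ <;> simp only <;>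
      exact ⟨by linarith, by linarith, by linarith, by linarith, by linarith, by linarith⟩

/-- the linear form of a side -/
theorem side_form {w h N c : ℝ} (P : Prm w h N c) {k : ℕ} {y : ℝ × ℝ} (hy : Dk w h N c k y) :
    ∃ f : ℝ × ℝ, f ≠ 0 ∧ (∀ p ∈ Hex w h N c, lf f p ≤ lf f y) ∧
      ∀ x z, Rl w h N c k x z → lf f z = lf f x ∧ lf f x < lf f y ∧
        ∃ p ∈ Hex w h N c, lf f p < lf f x := by
  have w0 := P.w0
  have h0 := P.h0
  have c0 := P.c0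
  have cw := P.cw
  have ch := P.ch
  have wN := P.wN
  have hN := P.hN
  have Nw := P.Nw
  have cN := P.cN
  have m1 : ((c, 0) : ℝ × ℝ) ∈ Hex w h N c := ⟨c0, cw, le_refl _, h0.le, by simp, by simp; linarith⟩
  have m2 : ((w, 0) : ℝ × ℝ) ∈ Hex w h N c := ⟨w0.le, le_refl _, le_refl _, h0.le, by simp; linarith,
    by simp; linarith⟩
  have m3 : ((0, c) : ℝ × ℝ) ∈ Hex w h N c := ⟨le_refl _, w0.le, c0, ch, by simp, by simp; linarith⟩
  have m4 : ((0, h) : ℝ × ℝ) ∈ Hex w h N c := ⟨le_refl _, w0.le, h0.le, le_refl _, by simp; linarith,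
    by simp; linarith⟩
  have m5 : ((w, N - w) : ℝ × ℝ) ∈ Hex w h N c := ⟨w0.le, le_refl _, by simp; linarith,
    by simp; linarith, by simp; linarith, by simp⟩
  rcases hy with ⟨e, ⟨a, b, d⟩ | ⟨a, b, d⟩⟩ | ⟨e, ⟨a, b, d⟩ | ⟨a, b, d⟩⟩ | ⟨e, ⟨a, b, d⟩ | ⟨a, b, d⟩⟩
  · refine ⟨(0, -1), by simp, ?_, ?_⟩
    · rintro p ⟨a1, a2, a3, a4, a5, a6⟩
      unfold lf; simp only; linarith
    · intro x z hr
      rcases hr with ⟨e', h1, h2, h3⟩ | ⟨e', h1, h2, h3⟩ | ⟨e', h1, h2, h3⟩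
      · refine ⟨?_, ?_, (0, h), m4, ?_⟩ <;> unfold lf <;> simp only <;> linarith
      · omega
      · omega
  · refine ⟨(0, 1), by simp, ?_, ?_⟩
    · rintro p ⟨a1, a2, a3, a4, a5, a6⟩
      unfold lf; simp only; linarith
    · intro x z hr
      rcases hr with ⟨e', h1, h2, h3⟩ | ⟨e', h1, h2, h3⟩ | ⟨e', h1, h2, h3⟩
      · refine ⟨?_, ?_, (c, 0), m1, ?_⟩ <;> unfold lf <;> simp only <;> linarith
      · omega
      · omega
  · refine ⟨(-1, 0), by simp, ?_, ?_⟩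
    · rintro p ⟨a1, a2, a3, a4, a5, a6⟩
      unfold lf; simp only; linarith
    · intro x z hr
      rcases hr with ⟨e', h1, h2, h3⟩ | ⟨e', h1, h2, h3⟩ | ⟨e', h1, h2, h3⟩
      · omega
      · refine ⟨?_, ?_, (w, 0), m2, ?_⟩ <;> unfold lf <;> simp only <;> linarith
      · omega
  · refine ⟨(1, 0), by simp, ?_, ?_⟩
    · rintro p ⟨a1, a2, a3, a4, a5, a6⟩
      unfold lf; simp only; linarith
    · intro x z hr
      rcases hr with ⟨e', h1, h2, h3⟩ | ⟨e', h1, h2, h3⟩ | ⟨e', h1, h2, h3⟩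
      · omega
      · refine ⟨?_, ?_, (0, c), m3, ?_⟩ <;> unfold lf <;> simp only <;> linarith
      · omega
  · refine ⟨(1, 1), by simp, ?_, ?_⟩
    · rintro p ⟨a1, a2, a3, a4, a5, a6⟩
      unfold lf; simp only; linarith
    · intro x z hr
      rcases hr with ⟨e', h1, h2, h3⟩ | ⟨e', h1, h2, h3⟩ | ⟨e', h1, h2, h3⟩
      · omega
      · omega
      · refine ⟨?_, ?_, (c, 0), m1, ?_⟩ <;> unfold lf <;> simp only <;> linarith
  · refine ⟨(-1, -1), by simp, ?_, ?_⟩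
    · rintro p ⟨a1, a2, a3, a4, a5, a6⟩
      unfold lf; simp only; linarith
    · intro x z hr
      rcases hr with ⟨e', h1, h2, h3⟩ | ⟨e', h1, h2, h3⟩ | ⟨e', h1, h2, h3⟩
      · omega
      · omega
      · refine ⟨?_, ?_, (w, N - w), m5, ?_⟩ <;> unfold lf <;> simp only <;> linarith

/-- A periodic sequence of open side points with the right relations gives `PO`. -/
theorem seq_po {w h N c : ℝ} (P : Prm w h N c) (n : ℕ) (hn : 0 < n) (x : ℕ → ℝ × ℝ)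
    (hx : ∀ i, x (i + n) = x i) (hB : ∀ i, BD w h N c (x i)) (hne : ∀ i, x (i + 2) ≠ x i)
    (hr : ∀ i, ∃ k, Dk w h N c k (x (i + 1)) ∧ Rl w h N c k (x i) (x (i + 2))) :
    PO (Hex w h N c) := by
  -- the direction of a point is unique
  have huniq : ∀ {k k' : ℕ} {p : ℝ × ℝ}, Dk w h N c k p → Dk w h N c k' p → k = k' := by
    intro k k' p h1 h2
    by_contra hne
    exact Rl_not_Dk (Dk_inside P h2 (Dk_lt h1) hne) h1
  have hall : ∀ i, ∃ f : ℝ × ℝ, f ≠ 0 ∧ (∀ p ∈ Hex w h N c, lf f p ≤ lf f (x i)) ∧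
      ∀ k, Dk w h N c k (x i) → ∀ u z, Rl w h N c k u z → lf f z = lf f u ∧ lf f u < lf f (x i) ∧
        ∃ p ∈ Hex w h N c, lf f p < lf f u := by
    intro i
    obtain ⟨k, hk⟩ := BD_Dk (hB i)
    obtain ⟨f, f1, f2, f3⟩ := side_form P hk
    refine ⟨f, f1, f2, ?_⟩
    intro k' hk' u z hu
    rw [← huniq hk hk'] at hu
    exact f3 u z hu
  choose f f1 f2 f3 using hall
  refine po_raw (Hex w h N c) n hn x hx (fun i => BD_mem P (hB i)) (fun i => BD_move P (hB i)) f f1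
    f2 hne ?_ ?_ ?_
  · intro i
    obtain ⟨k, hk, hrl⟩ := hr i
    exact (f3 (i + 1) k hk _ _ hrl).1
  · intro i
    obtain ⟨k, hk, hrl⟩ := hr i
    exact (f3 (i + 1) k hk _ _ hrl).2.1
  · intro i
    obtain ⟨k, hk, hrl⟩ := hr i
    exact (f3 (i + 1) k hk _ _ hrl).2.2

end Pool.Agent.Helper916.SymBil
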