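import Mathlib
import Pool.Agent.Helper916.SymBilPO

set_option autoImplicit false

namespace Pool.Agent.Helper916.SymBil

open Pool.Agent.Helper916.SymplecticSym

theorem inF_val {w h N c : ℝ} {E : Set ℝ} (hE : Cl w h N E)
    (hrd : ∀ t ∈ E, 0 < t → t < c → c - t ∈ E) {x : ℝ × ℝ} (hx : inF w h N c E x) {k : ℕ}
    (hr : Rl w h N c k x x) :
    (k = 0 → x.2 ∈ E) ∧ (k = 1 → x.1 ∈ E) ∧ (k = 2 → x.1 + x.2 ∈ E) := by
  rcases hr with ⟨f, _, h2, h3⟩ | ⟨f, _, h2, h3⟩ | ⟨f, _, h2, h3⟩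
  · refine ⟨fun _ => ?_, fun h => by omega, fun h => by omega⟩
    rcases hx with ⟨⟨a, b, d⟩, e⟩ | ⟨⟨a, b, d⟩, e⟩ | ⟨⟨a, b, d⟩, e⟩ | ⟨⟨a, b, d⟩, e⟩ |
      ⟨⟨a, b, d⟩, e⟩ | ⟨⟨a, b, d⟩, e⟩
    · linarith
    · exact e
    · exact e
    · linarith
    · have := hE.rf _ e b d
      have e2 : N - x.1 = x.2 := by linarith
      rwa [e2] at this
    · have := hrd _ e b d
      have e2 : c - x.1 = x.2 := by linarith
      rwa [e2] at this
  · refine ⟨fun h => by omega, fun _ => ?_, fun h => by omega⟩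
    rcases hx with ⟨⟨a, b, d⟩, e⟩ | ⟨⟨a, b, d⟩, e⟩ | ⟨⟨a, b, d⟩, e⟩ | ⟨⟨a, b, d⟩, e⟩ |
      ⟨⟨a, b, d⟩, e⟩ | ⟨⟨a, b, d⟩, e⟩
    · exact e
    · linarith
    · linarith
    · exact e
    · exact e
    · exact e
  · refine ⟨fun h => by omega, fun h => by omega, fun _ => ?_⟩
    rcases hx with ⟨⟨a, b, d⟩, e⟩ | ⟨⟨a, b, d⟩, e⟩ | ⟨⟨a, b, d⟩, e⟩ | ⟨⟨a, b, d⟩, e⟩ |
      ⟨⟨a, b, d⟩, e⟩ | ⟨⟨a, b, d⟩, e⟩
    · rw [a, add_zero]; exact e
    · rw [a, zero_add]; exact e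
    · have := hE.wp _ e b (by linarith)
      rw [a, add_comm]; exact this
    · have := hE.hp _ e b (by linarith)
      rw [a]; exact this
    · linarith
    · linarith

/-- finitely many states: some orbit is periodic -/
theorem finite_po {w h N c : ℝ} (P : Prm w h N c) {E : Set ℝ} (hfin : E.Finite)
    (hE : Cl w h N E) (hrd : ∀ t ∈ E, 0 < t → t < c → c - t ∈ E)
    (hav : ∀ s ∈ E, s ≠ c ∧ s ≠ N - w ∧ s ≠ N - h ∧ s ≠ h ∧ s ≠ w) {t : ℝ} (ht : t ∈ E)
    (htc : c < t) (hth : t < h) (htw : t < w) : PO (Hex w h N c) := by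
  obtain ⟨X, hXd⟩ : ∃ X : Set ((ℝ × ℝ) × (ℝ × ℝ)), X = {s | inF w h N c E s.1 ∧
    inF w h N c E s.2 ∧ ∃ k, Dk w h N c k s.2 ∧ Rl w h N c k s.1 s.1} := ⟨_, rfl⟩
  have hX : ∀ s, s ∈ X ↔ inF w h N c E s.1 ∧ inF w h N c E s.2 ∧
      ∃ k, Dk w h N c k s.2 ∧ Rl w h N c k s.1 s.1 := by intro s; rw [hXd]; rfl
  have hXf : X.Finite := by
    have hF := inF_finite w h N c hfin
    refine Set.Finite.subset (hF.prod hF) ?_
    intro s hs
    obtain ⟨h1, h2, _⟩ := (hX s).1 hs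
    exact ⟨h1, h2⟩
  have hnext : ∀ s : X, ∃ s' : X, s'.1.1 = s.1.2 ∧ s'.1.2 ≠ s.1.1 ∧
      ∃ k, Dk w h N c k s.1.2 ∧ Rl w h N c k s.1.1 s'.1.2 := by
    rintro ⟨⟨x, y⟩, hs⟩
    obtain ⟨h1, h2, k, hk, hrl⟩ := (hX _).1 hs
    simp only at h1 h2 hk hrl
    obtain ⟨v0, v1, v2⟩ := inF_val hE hrd h1 hrl
    obtain ⟨z, hz, hzr, hzne⟩ := exists_partner P hrl
      (fun e => ⟨(hav _ (v0 e)).1, (hav _ (v0 e)).2.1⟩)
      (fun e => ⟨(hav _ (v1 e)).1, (hav _ (v1 e)).2.2.1⟩)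
      (fun e => ⟨(hav _ (v2 e)).2.2.2.1, (hav _ (v2 e)).2.2.2.2⟩)
    have hzF := inF_step P hE hrd h1 hz hzr
    obtain ⟨k', hk'⟩ := BD_Dk hz
    have hkk : k' ≠ k := by
      rintro rfl
      exact Rl_not_Dk hzr hk'
    refine ⟨⟨(y, z), (hX _).2 ⟨h2, hzF, k', hk', Dk_inside P hk (Dk_lt hk') hkk⟩⟩, rfl, hzne,
      k, hk, hzr⟩
  choose F hF1 hF2 hF3 using hnext
  have hstart : ((((t, 0) : ℝ × ℝ), ((0, t) : ℝ × ℝ)) : (ℝ × ℝ) × (ℝ × ℝ)) ∈ X := by
    rw [hX]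
    refine ⟨Or.inl ⟨⟨rfl, htc, htw⟩, ht⟩, Or.inr (Or.inl ⟨⟨rfl, htc, hth⟩, ht⟩), 1,
      Or.inr (Or.inl ⟨rfl, Or.inl ⟨rfl, htc, hth⟩⟩), Or.inr (Or.inl ⟨rfl, rfl, ?_, htw⟩)⟩
    show 0 < t
    linarith [P.c0]
  obtain ⟨σ, hσ⟩ : ∃ σ : ℕ → X, σ = fun n => F^[n] ⟨_, hstart⟩ := ⟨_, rfl⟩
  have hσs : ∀ n, σ (n + 1) = F (σ n) := by
    intro n; rw [hσ]; exact Function.iterate_succ_apply' F n _
  have := hXf.to_subtype
  obtain ⟨m, n, hmn, he⟩ : ∃ m n : ℕ, m < n ∧ σ m = σ n := by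
    have := not_injective_infinite_finite σ
    rw [Function.not_injective_iff] at this
    obtain ⟨a, b, hab, hne⟩ := this
    rcases lt_or_gt_of_ne hne with h1 | h1
    · exact ⟨a, b, h1, hab⟩
    · exact ⟨b, a, h1, hab.symm⟩
  have hper : ∀ i, σ (m + i) = σ (n + i) := by
    intro i
    induction i with
    | zero => exact he
    | succ i ih => rw [← add_assoc, ← add_assoc, hσs, hσs, ih]
  have hsnd : ∀ i, (σ i).1.2 = (σ (i + 1)).1.1 := by
    intro i; rw [hσs, hF1]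
  have hB : ∀ i, BD w h N c (σ i).1.1 := fun i => inF_BD ((hX _).1 (σ i).2).1
  refine seq_po P (n - m) (by omega) (fun i => (σ (m + i)).1.1) ?_ (fun i => hB _) ?_ ?_
  · intro i
    have : m + (i + (n - m)) = n + i := by omega
    show (σ (m + (i + (n - m)))).1.1 = (σ (m + i)).1.1
    rw [this, hper]
  · intro i
    have h1 := hF2 (σ (m + i))
    rw [← hσs, hsnd] at h1
    exact h1
  · intro i
    have h1 := hF3 (σ (m + i))
    rw [← hσs, hsnd, hsnd] at h1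
    exact h1

/-- the tie case -/
theorem tie_po {w h N c : ℝ} (P : Prm w h N c) (hNc : N = c + w) (hhw : h ≤ w) (hch : c < h) :
    PO (Hex w h N c) := by
  -- a parameter outside the countable set of vertex parameters
  obtain ⟨t, ⟨htc, hth⟩, htZ⟩ : ∃ t ∈ Set.Ioo c h, ∀ i j m : ℤ, t ≠ i * w + j * h + m * c := by
    have hcount : (Set.range fun z : ℤ × ℤ × ℤ => (z.1 : ℝ) * w + z.2.1 * h + z.2.2 * c).Countable :=
      Set.countable_range _
    have hunc : ¬ (Set.Ioo c h).Countable := by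
      intro h1
      have h2 := h1.measure_zero MeasureTheory.volume
      rw [Real.volume_Ioo] at h2
      have h3 : h - c ≤ 0 := ENNReal.ofReal_eq_zero.1 h2
      linarith
    have : ¬ (Set.Ioo c h ⊆ Set.range fun z : ℤ × ℤ × ℤ => (z.1 : ℝ) * w + z.2.1 * h + z.2.2 * c) :=
      fun h1 => hunc (hcount.mono h1)
    rw [Set.not_subset] at this
    obtain ⟨t, ht, hnt⟩ := this
    refine ⟨t, ht, ?_⟩
    intro i j m he
    exact hnt ⟨(i, j, m), he.symm⟩
  have c0 := P.c0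
  have cN := P.cN
  obtain ⟨E, hE1, hE2, hE3, hE4, hE5⟩ := closed_tie w h N c t P.w0 P.h0 c0 hch hNc P.hN
    (by linarith) (by linarith)
  refine finite_po P hE1 hE3 hE4 ?_ hE2 htc hth (by linarith)
  intro s hs
  obtain ⟨_, _, i, l, m, h1⟩ := hE5 s hs
  have key : ∀ (a b d : ℤ), s ≠ a * w + b * h + d * c := by
    intro a b d he
    rcases h1 with h1 | h1
    · apply htZ (a - i) (b + l) d
      push_cast
      linarith
    · apply htZ (i - a) (-l - b) (m - d)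
      push_cast
      linarith
  refine ⟨?_, ?_, ?_, ?_, ?_⟩
  · have := key 0 0 1
    intro h0; apply this; push_cast; linarith
  · have := key 0 0 1
    intro h0; apply this; push_cast; linarith
  · have := key 1 (-1) 1
    intro h0; apply this; push_cast; linarith
  · have := key 0 1 0
    intro h0; apply this; push_cast; linarith
  · have := key 1 0 0
    intro h0; apply this; push_cast; linarith

/-- an orbit of period four -/
theorem four_po {w h N c : ℝ} (P : Prm w h N c) (h1 : h < N - c) (h2 : w < N - c) :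
    PO (Hex w h N c) := by
  have w0 := P.w0
  have h0 := P.h0
  have c0 := P.c0
  have cw := P.cw
  have ch := P.ch
  have wN := P.wN
  have hN := P.hN
  have Nw := P.Nw
  have cN := P.cN
  obtain ⟨t, ht⟩ : ∃ t : ℝ, t = (c + N - h) / 2 := ⟨_, rfl⟩
  obtain ⟨s, hs⟩ : ∃ s : ℝ, s = (c + N - w) / 2 := ⟨_, rfl⟩
  have t1 : c < t := by rw [ht]; linarith
  have t2 : t < w := by rw [ht]; linarith
  have t3 : t < N - h := by rw [ht]; linarith
  have s1 : c < s := by rw [hs]; linarith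
  have s2 : s < h := by rw [hs]; linarith
  have s3 : s < N - w := by rw [hs]; linarith
  obtain ⟨X, hX⟩ : ∃ X : ℕ → ℝ × ℝ, X = fun i => if i % 4 = 0 then (t, 0) else
    if i % 4 = 1 then (w, s) else if i % 4 = 2 then (t, h) else (0, s) := ⟨_, rfl⟩
  have X0 : ∀ i, i % 4 = 0 → X i = (t, 0) := by intro i h; rw [hX]; simp [h]
  have X1 : ∀ i, i % 4 = 1 → X i = (w, s) := by intro i h; rw [hX]; simp [h]
  have X2 : ∀ i, i % 4 = 2 → X i = (t, h) := by intro i h; rw [hX]; simp [h]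
  have X3 : ∀ i, i % 4 = 3 → X i = (0, s) := by intro i h; rw [hX]; simp [h]
  have hcase : ∀ i : ℕ, (i % 4 = 0 ∧ (i + 1) % 4 = 1 ∧ (i + 2) % 4 = 2) ∨
      (i % 4 = 1 ∧ (i + 1) % 4 = 2 ∧ (i + 2) % 4 = 3) ∨
      (i % 4 = 2 ∧ (i + 1) % 4 = 3 ∧ (i + 2) % 4 = 0) ∨
      (i % 4 = 3 ∧ (i + 1) % 4 = 0 ∧ (i + 2) % 4 = 1) := by
    intro i; omega
  refine seq_po P 4 (by norm_num) X ?_ ?_ ?_ ?_
  · intro i
    rw [hX]
    simp only [Nat.add_mod_right]
  · intro i
    rcases hcase i with g | g | g | g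
    · rw [X0 i g.1]; exact Or.inl ⟨rfl, t1, t2⟩
    · rw [X1 i g.1]; exact Or.inr (Or.inr (Or.inl ⟨rfl, by simp only; linarith, s3⟩))
    · rw [X2 i g.1]; exact Or.inr (Or.inr (Or.inr (Or.inl ⟨rfl, by simp only; linarith, t3⟩)))
    · rw [X3 i g.1]; exact Or.inr (Or.inl ⟨rfl, s1, s2⟩)
  · intro i
    rcases hcase i with g | g | g | g
    · rw [X0 i g.1, X2 _ g.2.2]; intro e; exact h0.ne' (congrArg Prod.snd e)
    · rw [X1 i g.1, X3 _ g.2.2]; intro e; exact w0.ne (congrArg Prod.fst e)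
    · rw [X2 i g.1, X0 _ g.2.2]; intro e; exact h0.ne (congrArg Prod.snd e)
    · rw [X3 i g.1, X1 _ g.2.2]; intro e; exact w0.ne' (congrArg Prod.fst e)
  · intro i
    rcases hcase i with g | g | g | g
    · rw [X0 i g.1, X1 _ g.2.1, X2 _ g.2.2]
      exact ⟨1, Or.inr (Or.inl ⟨rfl, Or.inr ⟨rfl, by simp only; linarith, s3⟩⟩),
        Or.inr (Or.inl ⟨rfl, rfl, by simp only; linarith, t2⟩)⟩
    · rw [X1 i g.1, X2 _ g.2.1, X3 _ g.2.2]
      exact ⟨0, Or.inl ⟨rfl, Or.inr ⟨rfl, by simp only; linarith, t3⟩⟩,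
        Or.inl ⟨rfl, rfl, by simp only; linarith, s2⟩⟩
    · rw [X2 i g.1, X3 _ g.2.1, X0 _ g.2.2]
      exact ⟨1, Or.inr (Or.inl ⟨rfl, Or.inl ⟨rfl, s1, s2⟩⟩),
        Or.inr (Or.inl ⟨rfl, rfl, by simp only; linarith, t2⟩)⟩
    · rw [X3 i g.1, X0 _ g.2.1, X1 _ g.2.2]
      exact ⟨0, Or.inl ⟨rfl, Or.inl ⟨rfl, t1, t2⟩⟩,
        Or.inl ⟨rfl, rfl, by simp only; linarith, s2⟩⟩

/-- periodic orbits are carried over by affine maps -/
theorem po_push (e : (ℝ × ℝ) ≃ᵃ[ℝ] (ℝ × ℝ)) (C : Set (ℝ × ℝ)) (hC : PO C) : PO (e '' C) := by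
  have hform : ∀ a b : ℝ, ∃ A B K : ℝ, (∀ p : ℝ × ℝ, a * (e.symm p).1 + b * (e.symm p).2 =
      A * p.1 + B * p.2 + K) ∧ ((a ≠ 0 ∨ b ≠ 0) → (A ≠ 0 ∨ B ≠ 0)) := by
    intro a b
    have hL : ∀ p : ℝ × ℝ, e.symm p = e.symm.linear p + e.symm 0 := by
      intro p
      have := e.symm.map_vadd (0 : ℝ × ℝ) p
      simpa using this
    have hlin : ∀ p : ℝ × ℝ, e.symm.linear p =
        p.1 • e.symm.linear (1, 0) + p.2 • e.symm.linear (0, 1) := by
      intro p
      have e1 : p = p.1 • ((1, 0) : ℝ × ℝ) + p.2 • ((0, 1) : ℝ × ℝ) := by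
        ext <;> simp
      conv_lhs => rw [e1]
      rw [map_add, map_smul, map_smul]
    refine ⟨a * (e.symm.linear (1, 0)).1 + b * (e.symm.linear (1, 0)).2,
      a * (e.symm.linear (0, 1)).1 + b * (e.symm.linear (0, 1)).2,
      a * (e.symm 0).1 + b * (e.symm 0).2, ?_, ?_⟩
    · intro p
      rw [hL p, hlin p]
      simp only [Prod.fst_add, Prod.snd_add, Prod.smul_fst, Prod.smul_snd, smul_eq_mul]
      ring
    · intro hab
      by_contra hcon
      rw [not_or, not_not, not_not] at hcon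
      obtain ⟨v, hv⟩ := e.symm.linear.surjective (a, b)
      have h1 := hlin v
      rw [hv] at h1
      have h2 : a = v.1 * (e.symm.linear (1, 0)).1 + v.2 * (e.symm.linear (0, 1)).1 := by
        have := congrArg Prod.fst h1
        simpa using this
      have h3 : b = v.1 * (e.symm.linear (1, 0)).2 + v.2 * (e.symm.linear (0, 1)).2 := by
        have := congrArg Prod.snd h1
        simpa using this
      have h4 : a * a + b * b = 0 := by
        linear_combination a * h2 + b * h3 + v.1 * hcon.1 + v.2 * hcon.2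
      have h5 : a = 0 := by nlinarith [mul_self_nonneg a, mul_self_nonneg b]
      have h6 : b = 0 := by nlinarith [mul_self_nonneg a, mul_self_nonneg b]
      rcases hab with h | h
      · exact h h5
      · exact h h6
  obtain ⟨n, hn, x, hper, hx⟩ := hC
  refine ⟨n, hn, fun i => e (x i), fun i => congrArg e (hper i), ?_⟩
  intro i
  obtain ⟨hf, he, hne, a, b, hab, hpar, hmax, hlt, p, hp, hlow⟩ := hx i
  obtain ⟨A, B, K, hAB, hnz⟩ := hform a b
  have hval : ∀ q : ℝ × ℝ, A * (e q).1 + B * (e q).2 + K = a * q.1 + b * q.2 := by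
    intro q
    rw [← hAB (e q), e.symm_apply_apply]
  refine ⟨?_, ?_, ?_, A, B, hnz hab, ?_, ?_, ?_, ?_⟩
  · have h1 := (e.toHomeomorphOfFiniteDimensional).image_frontier C
    have h2 : (e.toHomeomorphOfFiniteDimensional : ℝ × ℝ → ℝ × ℝ) = e := rfl
    rw [h2] at h1
    rw [← h1]
    exact ⟨x i, hf, rfl⟩
  · intro hext
    apply he
    rw [mem_extremePoints] at hext ⊢
    obtain ⟨⟨q, hq, hqe⟩, hext2⟩ := hext
    have hqx : q = x i := e.injective hqe
    rw [hqx] at hq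
    refine ⟨hq, ?_⟩
    intro u hu v hv hseg
    have h2 := image_openSegment ℝ (e : (ℝ × ℝ) →ᵃ[ℝ] (ℝ × ℝ)) u v
    have h3 : e (x i) ∈ openSegment ℝ (e u) (e v) := by
      have : e (x i) ∈ (e : (ℝ × ℝ) →ᵃ[ℝ] (ℝ × ℝ)) '' openSegment ℝ u v := ⟨x i, hseg, rfl⟩
      rw [h2] at this
      exact this
    have h5 := hext2 (e u) ⟨u, hu, rfl⟩ (e v) ⟨v, hv, rfl⟩ h3
    exact ⟨e.injective h5.1, e.injective h5.2⟩
  · intro h0
    exact hne (e.injective h0)
  · have v0 := hval (x i)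
    have v2 := hval (x (i + 2))
    linarith
  · rintro _ ⟨q, hq, rfl⟩
    have h1 := hmax q hq
    have v0 := hval q
    have v1 := hval (x (i + 1))
    linarith
  · have v0 := hval (x i)
    have v1 := hval (x (i + 1))
    linarith
  · refine ⟨e p, ⟨p, hp, rfl⟩, ?_⟩
    have v0 := hval (x i)
    have v1 := hval p
    linarith

/-- an affine involution of the plane as an equivalence -/
theorem po_inv (g : (ℝ × ℝ) →ᵃ[ℝ] (ℝ × ℝ)) (hg : ∀ p, g (g p) = p) (C D : Set (ℝ × ℝ))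
    (h1 : ∀ p ∈ C, g p ∈ D) (h2 : ∀ p ∈ D, g p ∈ C) (hC : PO C) : PO D := by
  have hbij : Function.Bijective g := by
    refine ⟨fun a b h => ?_, fun b => ⟨g b, hg b⟩⟩
    rw [← hg a, ← hg b, h]
  have h3 := po_push (AffineEquiv.ofBijective hbij) C hC
  have h4 : (AffineEquiv.ofBijective hbij : ℝ × ℝ → ℝ × ℝ) = g := rfl
  rw [h4] at h3
  have h5 : g '' C = D := by
    ext p
    constructor
    · rintro ⟨q, hq, rfl⟩
      exact h1 q hq
    · intro hp
      exact ⟨g p, h2 p hp, hg p⟩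
  rwa [h5] at h3

theorem po_swap {w h N c : ℝ} (hP : PO (Hex w h N c)) : PO (Hex h w N c) := by
  refine po_inv ((LinearMap.prod (LinearMap.snd ℝ ℝ ℝ) (LinearMap.fst ℝ ℝ ℝ)).toAffineMap) ?_
    (Hex w h N c) (Hex h w N c) ?_ ?_ hP
  · intro p; rfl
  · rintro p ⟨a1, a2, a3, a4, a5, a6⟩
    exact ⟨a3, a4, a1, a2, by show c ≤ p.2 + p.1; linarith, by show p.2 + p.1 ≤ N; linarith⟩
  · rintro p ⟨a1, a2, a3, a4, a5, a6⟩
    exact ⟨a3, a4, a1, a2, by show c ≤ p.2 + p.1; linarith, by show p.2 + p.1 ≤ N; linarith⟩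

theorem po_psi {w h N c : ℝ} (hP : PO (Hex w (N - c) N (N - h))) : PO (Hex w h N c) := by
  obtain ⟨g, hg⟩ : ∃ g : (ℝ × ℝ) →ᵃ[ℝ] (ℝ × ℝ), ∀ p, g p = (p.1, N - p.1 - p.2) := by
    refine ⟨(LinearMap.prod (LinearMap.fst ℝ ℝ ℝ)
      (-(LinearMap.fst ℝ ℝ ℝ) - LinearMap.snd ℝ ℝ ℝ)).toAffineMap +
      AffineMap.const ℝ (ℝ × ℝ) ((0, N) : ℝ × ℝ), ?_⟩
    intro p
    ext
    · simp
    · simp; ring
  refine po_inv g ?_ (Hex w (N - c) N (N - h)) (Hex w h N c) ?_ ?_ hP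
  · intro p
    rw [hg, hg]
    ext
    · rfl
    · simp
  · rintro p ⟨a1, a2, a3, a4, a5, a6⟩
    rw [hg]
    exact ⟨a1, a2, by simp only; linarith, by simp only; linarith, by simp only; linarith,
      by simp only; linarith⟩
  · rintro p ⟨a1, a2, a3, a4, a5, a6⟩
    rw [hg]
    exact ⟨a1, a2, by simp only; linarith, by simp only; linarith, by simp only; linarith,
      by simp only; linarith⟩

theorem po_chi {w h N c : ℝ} (hP : PO (Hex w h (w + h - c) (w + h - N))) : PO (Hex w h N c) := by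
  obtain ⟨g, hg⟩ : ∃ g : (ℝ × ℝ) →ᵃ[ℝ] (ℝ × ℝ), ∀ p, g p = (w - p.1, h - p.2) := by
    refine ⟨(LinearMap.prod (-(LinearMap.fst ℝ ℝ ℝ)) (-(LinearMap.snd ℝ ℝ ℝ))).toAffineMap +
      AffineMap.const ℝ (ℝ × ℝ) ((w, h) : ℝ × ℝ), ?_⟩
    intro p
    ext
    · simp; ring
    · simp; ring
  refine po_inv g ?_ (Hex w h (w + h - c) (w + h - N)) (Hex w h N c) ?_ ?_ hP
  · intro p
    rw [hg, hg]
    ext <;> simp
  · rintro p ⟨a1, a2, a3, a4, a5, a6⟩
    rw [hg]
    exact ⟨by simp only; linarith, by simp only; linarith, by simp only; linarith,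
      by simp only; linarith, by simp only; linarith, by simp only; linarith⟩
  · rintro p ⟨a1, a2, a3, a4, a5, a6⟩
    rw [hg]
    exact ⟨by simp only; linarith, by simp only; linarith, by simp only; linarith,
      by simp only; linarith, by simp only; linarith, by simp only; linarith⟩


theorem Prm.swap {w h N c : ℝ} (P : Prm w h N c) : Prm h w N c :=
  ⟨P.h0, P.w0, P.c0, P.ch, P.cw, P.hN, P.wN, by linarith [P.Nw], P.cN⟩

theorem Prm.psi {w h N c : ℝ} (P : Prm w h N c) : Prm w (N - c) N (N - h) :=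
  ⟨P.w0, by linarith [P.cN], by linarith [P.hN], by linarith [P.Nw], by linarith [P.ch], P.wN,
    by linarith [P.c0], by linarith [P.cw], by linarith [P.h0]⟩

theorem tie_full {w h N c : ℝ} (P : Prm w h N c) (hNc : N = c + w) (hhw : h ≤ w) :
    PO (Hex w h N c) := by
  rcases lt_or_eq_of_le P.ch with h1 | h1
  · exact tie_po P hNc hhw h1
  · apply po_chi
    have e1 : w + h - c = w := by rw [h1]; ring
    have e2 : w + h - N = 0 := by rw [hNc, h1]; ring
    rw [e1, e2]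
    exact tie_po ⟨P.w0, P.h0, le_refl _, P.w0.le, P.h0.le, le_refl _, hhw, by linarith [P.h0], P.w0⟩
      (by ring) hhw P.h0

theorem hmax_po {w h N c : ℝ} (P : Prm w h N c) (h1 : w < h) (h2 : N - c < h) :
    PO (Hex w h N c) := by
  apply po_psi
  exact four_po P.psi (by linarith) (by linarith)

/-- Every polygon with three side directions has a periodic orbit. -/
theorem three_po {w h N c : ℝ} (P : Prm w h N c) : PO (Hex w h N c) := by
  rcases lt_trichotomy w h with a | a | a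
  · -- w < h
    rcases lt_trichotomy h (N - c) with b | b | b
    · exact four_po P b (by linarith)
    · apply po_swap
      exact tie_full P.swap (by linarith) a.le
    · exact hmax_po P a b
  · -- w = h
    rcases lt_trichotomy w (N - c) with b | b | b
    · exact four_po P (by linarith) b
    · exact tie_full P (by linarith) (by linarith)
    · apply po_psi
      exact tie_full P.psi (by linarith) (by linarith)
  · -- h < w
    rcases lt_trichotomy w (N - c) with b | b | b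
    · exact four_po P (by linarith) b
    · exact tie_full P (by linarith) a.le
    · apply po_swap
      exact hmax_po P.swap a b

end Pool.Agent.Helper916.SymBil
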