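import Mathlib
import Pool.Agent.Helper916.SymBilThree

set_option autoImplicit false

namespace Pool.Agent.Helper916.SymBil

open Pool.Agent.Helper916.SymplecticSym

/-- integer combinations of the parameters -/
def Zs (w h N c s : ℝ) : Prop := ∃ i j k l : ℤ, s = i * w + j * h + k * N + l * c

/-- the set of all parameters `± t` plus integer combinations -/
def Et (w h N c t : ℝ) : Set ℝ := {s | Zs w h N c (s - t) ∨ Zs w h N c (s + t)}

theorem Zs.add {w h N c s : ℝ} (hs : Zs w h N c s) (i j k l : ℤ) :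
    Zs w h N c (s + (i * w + j * h + k * N + l * c)) := by
  obtain ⟨a, b, d, e, h1⟩ := hs
  exact ⟨a + i, b + j, d + k, e + l, by rw [h1]; push_cast; ring⟩

theorem Zs.neg {w h N c s : ℝ} (hs : Zs w h N c s) : Zs w h N c (-s) := by
  obtain ⟨a, b, d, e, h1⟩ := hs
  exact ⟨-a, -b, -d, -e, by rw [h1]; push_cast; ring⟩

theorem Et_add {w h N c t s s' : ℝ} (hs : s ∈ Et w h N c t) (i j k l : ℤ)
    (h1 : s' = s + (i * w + j * h + k * N + l * c)) : s' ∈ Et w h N c t := by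
  rcases hs with hs | hs
  · left
    have := hs.add i j k l
    have e : s' - t = s - t + (i * w + j * h + k * N + l * c) := by rw [h1]; ring
    rw [e]; exact this
  · right
    have := hs.add i j k l
    have e : s' + t = s + t + (i * w + j * h + k * N + l * c) := by rw [h1]; ring
    rw [e]; exact this

theorem Et_refl {w h N c t s s' : ℝ} (hs : s ∈ Et w h N c t) (i j k l : ℤ)
    (h1 : s' = -s + (i * w + j * h + k * N + l * c)) : s' ∈ Et w h N c t := by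
  rcases hs with hs | hs
  · right
    have := hs.neg.add i j k l
    have e : s' + t = -(s - t) + (i * w + j * h + k * N + l * c) := by rw [h1]; ring
    rw [e]; exact this
  · left
    have := hs.neg.add i j k l
    have e : s' - t = -(s + t) + (i * w + j * h + k * N + l * c) := by rw [h1]; ring
    rw [e]; exact this

theorem Et_cl (w h N c t : ℝ) : Cl w h N (Et w h N c t) ∧
    ∀ s ∈ Et w h N c t, 0 < s → s < c → c - s ∈ Et w h N c t := by
  refine ⟨⟨?_, ?_, ?_, ?_, ?_, ?_⟩, ?_⟩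
  · intro s hs _ _; exact Et_add hs 1 0 0 0 (by push_cast; ring)
  · intro s hs _ _; exact Et_add hs (-1) 0 0 0 (by push_cast; ring)
  · intro s hs _ _; exact Et_add hs 0 1 0 0 (by push_cast; ring)
  · intro s hs _ _; exact Et_add hs 0 (-1) 0 0 (by push_cast; ring)
  · intro s hs _ _; exact Et_refl hs 0 0 1 0 (by push_cast; ring)
  · intro s hs _ _; exact Et_refl hs 0 0 1 0 (by push_cast; ring)
  · intro s hs _ _; exact Et_refl hs 0 0 0 1 (by push_cast; ring)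

theorem Et_av {w h N c t : ℝ} (ht : ¬ Zs w h N c t) : ∀ s ∈ Et w h N c t, ¬ Zs w h N c s := by
  intro s hs hz
  apply ht
  obtain ⟨a, b, d, e, h1⟩ := hz
  rcases hs with hs | hs
  · have := hs.neg.add a b d e
    have e2 : t = -(s - t) + (a * w + b * h + d * N + e * c) := by linarith
    rw [e2]; exact this
  · have := hs.add (-a) (-b) (-d) (-e)
    have e2 : t = s + t + (((-a : ℤ) : ℝ) * w + ((-b : ℤ) : ℝ) * h + ((-d : ℤ) : ℝ) * N +
        ((-e : ℤ) : ℝ) * c) := by push_cast; linarith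
    rw [e2]; exact this

/-- Forward sequences starting from generic points of different directions. -/
theorem forward {w h N c : ℝ} (P : Prm w h N c) {t s : ℝ} (ht : ¬ Zs w h N c t)
    (hs : ¬ Zs w h N c s) (x y : ℝ × ℝ) (hx : inF w h N c (Et w h N c t) x)
    (hy : inF w h N c (Et w h N c s) y) (k0 : ℕ) (hk0 : Dk w h N c k0 y)
    (hr0 : Rl w h N c k0 x x) :
    ∃ a : ℕ → ℝ × ℝ, a 0 = x ∧ a 1 = y ∧ ∀ n, BD w h N c (a n) ∧ a (n + 2) ≠ a n ∧
      ∃ k, Dk w h N c k (a (n + 1)) ∧ Rl w h N c k (a n) (a (n + 2)) := by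
  obtain ⟨X, hXd⟩ : ∃ X : Set ((ℝ × ℝ) × (ℝ × ℝ)), X = {u |
    ((inF w h N c (Et w h N c t) u.1 ∨ inF w h N c (Et w h N c s) u.1) ∧
     (inF w h N c (Et w h N c t) u.2 ∨ inF w h N c (Et w h N c s) u.2)) ∧
    ∃ k, Dk w h N c k u.2 ∧ Rl w h N c k u.1 u.1} := ⟨_, rfl⟩
  have hX : ∀ u, u ∈ X ↔
    ((inF w h N c (Et w h N c t) u.1 ∨ inF w h N c (Et w h N c s) u.1) ∧
     (inF w h N c (Et w h N c t) u.2 ∨ inF w h N c (Et w h N c s) u.2)) ∧
    ∃ k, Dk w h N c k u.2 ∧ Rl w h N c k u.1 u.1 := by intro u; rw [hXd]; rfl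
  have hpart : ∀ r : ℝ, ¬ Zs w h N c r → ∀ (p : ℝ × ℝ) (k : ℕ),
      inF w h N c (Et w h N c r) p → Rl w h N c k p p →
      ∃ z, BD w h N c z ∧ Rl w h N c k p z ∧ z ≠ p ∧ inF w h N c (Et w h N c r) z := by
    intro r hr p k hp hrl
    obtain ⟨c1, c2⟩ := Et_cl w h N c r
    obtain ⟨v0, v1, v2⟩ := inF_val c1 c2 hp hrl
    have hav := Et_av hr
    have z1 : Zs w h N c c := ⟨0, 0, 0, 1, by push_cast; ring⟩
    have z2 : Zs w h N c (N - w) := ⟨-1, 0, 1, 0, by push_cast; ring⟩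
    have z3 : Zs w h N c (N - h) := ⟨0, -1, 1, 0, by push_cast; ring⟩
    have z4 : Zs w h N c h := ⟨0, 1, 0, 0, by push_cast; ring⟩
    have z5 : Zs w h N c w := ⟨1, 0, 0, 0, by push_cast; ring⟩
    obtain ⟨z, hz, hzr, hzne⟩ := exists_partner P hrl
      (fun e => ⟨fun h => hav _ (v0 e) (h ▸ z1), fun h => hav _ (v0 e) (h ▸ z2)⟩)
      (fun e => ⟨fun h => hav _ (v1 e) (h ▸ z1), fun h => hav _ (v1 e) (h ▸ z3)⟩)
      (fun e => ⟨fun h => hav _ (v2 e) (h ▸ z4), fun h => hav _ (v2 e) (h ▸ z5)⟩)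
    exact ⟨z, hz, hzr, hzne, inF_step P c1 c2 hp hz hzr⟩
  have hnext : ∀ u : X, ∃ u' : X, u'.1.1 = u.1.2 ∧ u'.1.2 ≠ u.1.1 ∧
      ∃ k, Dk w h N c k u.1.2 ∧ Rl w h N c k u.1.1 u'.1.2 := by
    rintro ⟨⟨p, q⟩, hu⟩
    obtain ⟨⟨h1, h2⟩, k, hk, hrl⟩ := (hX _).1 hu
    simp only at h1 h2 hk hrl
    obtain ⟨z, hz, hzr, hzne, hzF⟩ : ∃ z, BD w h N c z ∧ Rl w h N c k p z ∧ z ≠ p ∧
        (inF w h N c (Et w h N c t) z ∨ inF w h N c (Et w h N c s) z) := by
      rcases h1 with h1 | h1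
      · obtain ⟨z, e1, e2, e3, e4⟩ := hpart t ht p k h1 hrl
        exact ⟨z, e1, e2, e3, Or.inl e4⟩
      · obtain ⟨z, e1, e2, e3, e4⟩ := hpart s hs p k h1 hrl
        exact ⟨z, e1, e2, e3, Or.inr e4⟩
    obtain ⟨k', hk'⟩ := BD_Dk hz
    have hkk : k' ≠ k := by
      rintro rfl
      exact Rl_not_Dk hzr hk'
    exact ⟨⟨(q, z), (hX _).2 ⟨⟨h2, hzF⟩, k', hk', Dk_inside P hk (Dk_lt hk') hkk⟩⟩, rfl, hzne,
      k, hk, hzr⟩
  choose F hF1 hF2 hF3 using hnext
  have hstart : (x, y) ∈ X := (hX _).2 ⟨⟨Or.inl hx, Or.inr hy⟩, k0, hk0, hr0⟩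
  obtain ⟨σ, hσ⟩ : ∃ σ : ℕ → X, σ = fun n => F^[n] ⟨_, hstart⟩ := ⟨_, rfl⟩
  have hσs : ∀ n, σ (n + 1) = F (σ n) := by
    intro n; rw [hσ]; exact Function.iterate_succ_apply' F n _
  have hσ0 : (σ 0).1 = (x, y) := by rw [hσ]; rfl
  have hsnd : ∀ i, (σ i).1.2 = (σ (i + 1)).1.1 := by
    intro i; rw [hσs, hF1]
  have hB : ∀ i, BD w h N c (σ i).1.1 := by
    intro i
    rcases ((hX _).1 (σ i).2).1.1 with h1 | h1
    · exact inF_BD h1
    · exact inF_BD h1
  refine ⟨fun i => (σ i).1.1, by simp only [hσ0], ?_, ?_⟩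
  · simp only
    rw [← hsnd 0, hσ0]
  · intro n
    have h2 := hF2 (σ n)
    have h3 := hF3 (σ n)
    rw [← hσs, hsnd] at h2
    rw [← hσs, hsnd, hsnd] at h3
    exact ⟨hB n, h2, h3⟩

theorem BD_front {w h N c : ℝ} (P : Prm w h N c) {p : ℝ × ℝ} (hp : BD w h N c p) :
    p ∈ frontier (Hex w h N c) ∧ p ∉ Set.extremePoints ℝ (Hex w h N c) := by
  obtain ⟨k, hk⟩ := BD_Dk hp
  obtain ⟨f, f1, f2, _⟩ := side_form P hk
  refine ⟨⟨subset_closure (BD_mem P hp), not_int f1 f2⟩, ?_⟩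
  intro h
  rw [mem_extremePoints] at h
  obtain ⟨v, hv0, hv1, hv2⟩ := BD_move P hp
  have h2 := (h.2 _ hv1 _ hv2 ⟨1 / 2, 1 / 2, by norm_num, by norm_num, by norm_num, by module⟩).1
  exact hv0 (by simpa using h2)

/-- a bi-infinite orbit through generic points -/
theorem biinf {w h N c : ℝ} (P : Prm w h N c) {t s : ℝ} (ht : ¬ Zs w h N c t)
    (hs : ¬ Zs w h N c s) (x y : ℝ × ℝ) (hx : inF w h N c (Et w h N c t) x)
    (hy : inF w h N c (Et w h N c s) y) (k0 : ℕ) (hk0 : Dk w h N c k0 y)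
    (hr0 : Rl w h N c k0 x x) (k1 : ℕ) (hk1 : Dk w h N c k1 x) (hr1 : Rl w h N c k1 y y) :
    ∃ a : ℤ → ℝ × ℝ, IsOrbit (Hex w h N c) a ∧ a 0 = x ∧ a 1 = y := by
  obtain ⟨a, a0, a1, ha⟩ := forward P ht hs x y hx hy k0 hk0 hr0
  obtain ⟨b, b0, b1, hb⟩ := forward P hs ht y x hy hx k1 hk1 hr1
  obtain ⟨z, hz⟩ : ∃ z : ℤ → ℝ × ℝ, z = fun n => if 0 ≤ n then a n.toNat else b (1 - n).toNat :=
    ⟨_, rfl⟩
  have za : ∀ n : ℕ, z n = a n := by
    intro n; rw [hz]; simp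
  have zb : ∀ n : ℕ, z (1 - (n : ℤ)) = b n := by
    intro n
    rcases Nat.lt_or_ge n 2 with h1 | h1
    · have : n = 0 ∨ n = 1 := by omega
      rcases this with rfl | rfl
      · have := za 1
        push_cast at this ⊢
        rw [this, a1, b0]
      · have := za 0
        push_cast at this ⊢
        rw [this, a0, b1]
    · rw [hz]
      have h2 : ¬ (0 : ℤ) ≤ 1 - (n : ℤ) := by omega
      have h3 : (1 - (1 - (n : ℤ))).toNat = n := by omega
      simp only [h2, if_false, h3]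
  have mkStp : ∀ p q r : ℝ × ℝ, r ≠ p → (∃ k, Dk w h N c k q ∧ Rl w h N c k p r) →
      Stp (Hex w h N c) p q r := by
    rintro p q r hne ⟨k, hk, hrl⟩
    obtain ⟨f, f1, f2, f3⟩ := side_form P hk
    obtain ⟨g1, g2, u, hu, g3⟩ := f3 p r hrl
    refine ⟨hne, f.1, f.2, ?_, ?_, f2, g2, u, hu, g3⟩
    · by_contra hcon
      rw [not_or, not_not, not_not] at hcon
      exact f1 (Prod.ext hcon.1 hcon.2)
    · unfold lf at g1
      linarith
  refine ⟨z, ?_, by have := za 0; push_cast at this; rw [this, a0],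
    by have := za 1; push_cast at this; rw [this, a1]⟩
  intro i
  have hBDi : BD w h N c (z i) := by
    rcases le_or_gt 0 i with h1 | h1
    · obtain ⟨n, rfl⟩ := Int.eq_ofNat_of_zero_le h1
      rw [za]; exact (ha n).1
    · obtain ⟨n, hn⟩ := Int.eq_ofNat_of_zero_le (show 0 ≤ 1 - i by omega)
      have : i = 1 - (n : ℤ) := by omega
      rw [this, zb]; exact (hb n).1
  refine ⟨(BD_front P hBDi).1, (BD_front P hBDi).2, ?_⟩
  rcases le_or_gt 0 i with h1 | h1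
  · obtain ⟨n, rfl⟩ := Int.eq_ofNat_of_zero_le h1
    have e1 : z ((n : ℤ) + 1) = a (n + 1) := by have := za (n + 1); push_cast at this; exact this
    have e2 : z ((n : ℤ) + 2) = a (n + 2) := by have := za (n + 2); push_cast at this; exact this
    rw [za, e1, e2]
    exact mkStp _ _ _ (ha n).2.1 (ha n).2.2
  · obtain ⟨n, hn⟩ := Int.eq_ofNat_of_zero_le (show 0 ≤ -1 - i by omega)
    have e0 : z i = b (n + 2) := by
      have := zb (n + 2)
      have e : (1 : ℤ) - ((n + 2 : ℕ) : ℤ) = i := by push_cast; omega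
      rw [e] at this; exact this
    have e1 : z (i + 1) = b (n + 1) := by
      have := zb (n + 1)
      have e : (1 : ℤ) - ((n + 1 : ℕ) : ℤ) = i + 1 := by push_cast; omega
      rw [e] at this; exact this
    have e2 : z (i + 2) = b n := by
      have := zb n
      have e : (1 : ℤ) - (n : ℤ) = i + 2 := by omega
      rw [e] at this; exact this
    rw [e0, e1, e2]
    obtain ⟨k, hk, hrl⟩ := (hb n).2.2
    exact mkStp _ _ _ (Ne.symm (hb n).2.1) ⟨k, hk, hrl.symm⟩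

/-- the next point of an orbit, identified -/
theorem next_eq {w h N c : ℝ} (P : Prm w h N c) {x : ℤ → ℝ × ℝ} (hx : IsOrbit (Hex w h N c) x)
    (n : ℤ) (p q z : ℝ × ℝ) (hp : x n = p) (hq : x (n + 1) = q) (k : ℕ) (hk : Dk w h N c k q)
    (hz : BD w h N c z) (hr : Rl w h N c k p z) (hne : z ≠ p) : x (n + 2) = z := by
  have hBD : ∀ i, BD w h N c (x i) := fun i => side_of P (hx i).1 (hx i).2.1
  have huniq : ∀ {k k' : ℕ} {p : ℝ × ℝ}, Dk w h N c k p → Dk w h N c k' p → k = k' := by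
    intro k k' p h1 h2
    by_contra hne
    exact Rl_not_Dk (Dk_inside P h2 (Dk_lt h1) hne) h1
  have hrl : Rl w h N c k (x n) (x (n + 2)) := by
    have hst := (hx n).2.2
    have hd := step_dir P hst
    rw [hq] at hd
    rcases hk with ⟨e, hk⟩ | ⟨e, hk⟩ | ⟨e, hk⟩
    · exact Or.inl ⟨e, hd.1 hk⟩
    · exact Or.inr (Or.inl ⟨e, hd.2.1 hk⟩)
    · exact Or.inr (Or.inr ⟨e, hd.2.2 hk⟩)
  refine partner (hBD n) (hBD (n + 2)) hz hrl ?_ (hx n).2.2.1 ?_
  · rw [hp]; exact hr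
  · rw [hp]; exact hne

end Pool.Agent.Helper916.SymBil
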