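import Mathlib
import Pool.Agent.Helper916.SymBilNon

set_option autoImplicit false

namespace Pool.Agent.Helper916.SymBil

open Pool.Agent.Helper916.SymplecticSym

section
variable {w h N c : ℝ}

theorem dB (s : ℝ) (h1 : c < s) (h2 : s < w) : Dk w h N c 0 (s, 0) :=
  Or.inl ⟨rfl, Or.inl ⟨rfl, h1, h2⟩⟩
theorem dT (s : ℝ) (h1 : 0 < s) (h2 : s < N - h) : Dk w h N c 0 (s, h) :=
  Or.inl ⟨rfl, Or.inr ⟨rfl, h1, h2⟩⟩
theorem dL (s : ℝ) (h1 : c < s) (h2 : s < h) : Dk w h N c 1 (0, s) :=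
  Or.inr (Or.inl ⟨rfl, Or.inl ⟨rfl, h1, h2⟩⟩)
theorem dR (s : ℝ) (h1 : 0 < s) (h2 : s < N - w) : Dk w h N c 1 (w, s) :=
  Or.inr (Or.inl ⟨rfl, Or.inr ⟨rfl, h1, h2⟩⟩)
theorem dH (s u : ℝ) (hu : s + u = N) (h1 : N - h < s) (h2 : s < w) : Dk w h N c 2 (s, u) :=
  Or.inr (Or.inr ⟨rfl, Or.inl ⟨hu, h1, h2⟩⟩)
theorem dD (s u : ℝ) (hu : s + u = c) (h1 : 0 < s) (h2 : s < c) : Dk w h N c 2 (s, u) :=
  Or.inr (Or.inr ⟨rfl, Or.inr ⟨hu, h1, h2⟩⟩)

theorem Dk_BD {k : ℕ} {p : ℝ × ℝ} (hp : Dk w h N c k p) : BD w h N c p := by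
  rcases hp with ⟨_, hp | hp⟩ | ⟨_, hp | hp⟩ | ⟨_, hp | hp⟩
  · exact Or.inl hp
  · exact Or.inr (Or.inr (Or.inr (Or.inl hp)))
  · exact Or.inr (Or.inl hp)
  · exact Or.inr (Or.inr (Or.inl hp))
  · exact Or.inr (Or.inr (Or.inr (Or.inr (Or.inl hp))))
  · exact Or.inr (Or.inr (Or.inr (Or.inr (Or.inr hp))))

theorem q0 (a y a' y' : ℝ) (e : y' = y) (h1 : 0 < y) (h2 : y < h) :
    Rl w h N c 0 (a, y) (a', y') := Or.inl ⟨rfl, e, h1, h2⟩
theorem q1 (a y a' y' : ℝ) (e : a' = a) (h1 : 0 < a) (h2 : a < w) :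
    Rl w h N c 1 (a, y) (a', y') := Or.inr (Or.inl ⟨rfl, e, h1, h2⟩)
theorem q2 (a y a' y' : ℝ) (e : a' + y' = a + y) (h1 : c < a + y) (h2 : a + y < N) :
    Rl w h N c 2 (a, y) (a', y') := Or.inr (Or.inr ⟨rfl, e, h1, h2⟩)

theorem nf {a y a' y' : ℝ} (hh : a' < a ∨ a < a' ∨ y' < y ∨ y < y') :
    ((a', y') : ℝ × ℝ) ≠ (a, y) := by
  intro hc
  have h1 := congrArg Prod.fst hc
  have h2 := congrArg Prod.snd hc
  simp only at h1 h2
  rcases hh with hh | hh | hh | hh <;> linarith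

theorem nx (P : Prm w h N c) {x : ℤ → ℝ × ℝ} (hx : IsOrbit (Hex w h N c) x)
    (n n1 n2 : ℤ) (e1 : n1 = n + 1) (e2 : n2 = n + 2) {p q : ℝ × ℝ} (hp : x n = p)
    (hq : x n1 = q) (z : ℝ × ℝ) {k k' : ℕ} (hk : Dk w h N c k q)
    (hz : Dk w h N c k' z) (hr : Rl w h N c k p z) (hne : z ≠ p) : x n2 = z := by
  subst e1 e2
  exact next_eq P hx n p q z hp hq k hk (Dk_BD hz) hr hne

theorem dyn0 (P : Prm w h N c) (wh : w < h) (Nw : N < 2 * w) (d0 : 0 < N - c - w)
    (d1 : N - c - w ≤ N - h) (hc : N - h ≤ c) {x : ℤ → ℝ × ℝ} (hx : IsOrbit (Hex w h N c) x)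
    {t X : ℝ} (t0 : N - w < t) (t1 : t < w) (X0 : N - h < X) (X1 : X < N - w) (n : ℤ)
    (hn : x n = (X, N - X)) (hn1 : x (n + 1) = (t, 0)) :
    x (n + 6) = (X - (N - c - w), c - (X - (N - c - w))) ∧ x (n + 7) = (0, t) := by
  obtain ⟨w0, h0, c0, cw, ch, wN, hN, Nwh, cN⟩ := P
  have P : Prm w h N c := ⟨w0, h0, c0, cw, ch, wN, hN, Nwh, cN⟩
  have x2 := nx P hx n (n + 1) (n + 2) (by ring) (by ring) hn hn1 (0, N - X)
    (dB t (by linarith) (by linarith)) (dL _ (by linarith) (by linarith))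
    (q0 _ _ _ _ rfl (by linarith) (by linarith)) (nf (Or.inl (by linarith)))
  have x3 := nx P hx (n + 1) (n + 2) (n + 3) (by ring) (by ring) hn1 x2 (t, N - t)
    (dL _ (by linarith) (by linarith)) (dH _ _ (by ring) (by linarith) (by linarith))
    (q1 _ _ _ _ rfl (by linarith) (by linarith)) (nf (Or.inr (Or.inr (Or.inr (by linarith)))))
  have x4 := nx P hx (n + 2) (n + 3) (n + 4) (by ring) (by ring) x2 x3 (w, N - X - w)
    (dH _ _ (by ring) (by linarith) (by linarith)) (dR _ (by linarith) (by linarith))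
    (q2 _ _ _ _ (by ring) (by linarith) (by linarith)) (nf (Or.inr (Or.inl (by linarith))))
  have x5 := nx P hx (n + 3) (n + 4) (n + 5) (by ring) (by ring) x3 x4 (t, 0)
    (dR _ (by linarith) (by linarith)) (dB t (by linarith) (by linarith))
    (q1 _ _ _ _ rfl (by linarith) (by linarith)) (nf (Or.inr (Or.inr (Or.inl (by linarith)))))
  have x6 := nx P hx (n + 4) (n + 5) (n + 6) (by ring) (by ring) x4 x5
    (X - (N - c - w), c - (X - (N - c - w)))
    (dB t (by linarith) (by linarith)) (dD _ _ (by ring) (by linarith) (by linarith))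
    (q0 _ _ _ _ (by ring) (by linarith) (by linarith)) (nf (Or.inl (by linarith)))
  have x7 := nx P hx (n + 5) (n + 6) (n + 7) (by ring) (by ring) x5 x6 (0, t)
    (dD _ _ (by ring) (by linarith) (by linarith)) (dL _ (by linarith) (by linarith))
    (q2 _ _ _ _ (by ring) (by linarith) (by linarith)) (nf (Or.inl (by linarith)))
  exact ⟨x6, x7⟩

theorem dynA (P : Prm w h N c) (wh : w < h) (Nw : N < 2 * w) (d0 : 0 < N - c - w)
    (d1 : N - c - w ≤ N - h) (hc : N - h ≤ c) {x : ℤ → ℝ × ℝ} (hx : IsOrbit (Hex w h N c) x)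
    {t X : ℝ} (t0 : N - w < t) (t1 : t < w) (X0 : N - h < X) (X1 : X < N - w) (n : ℤ)
    (hn : x n = (X, N - X)) (hn1 : x (n + 1) = (t, 0)) (hA : N - h < X - (N - c - w)) :
    x (n + 8) = (X - (N - c - w), N - (X - (N - c - w))) ∧ x (n + 9) = (t, 0) := by
  obtain ⟨x6, x7⟩ := dyn0 P wh Nw d0 d1 hc hx t0 t1 X0 X1 n hn hn1
  obtain ⟨w0, h0, c0, cw, ch, wN, hN, Nwh, cN⟩ := P
  have P : Prm w h N c := ⟨w0, h0, c0, cw, ch, wN, hN, Nwh, cN⟩
  have x8 := nx P hx (n + 6) (n + 7) (n + 8) (by ring) (by ring) x6 x7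
    (X - (N - c - w), N - (X - (N - c - w)))
    (dL _ (by linarith) (by linarith)) (dH _ _ (by ring) (by linarith) (by linarith))
    (q1 _ _ _ _ rfl (by linarith) (by linarith)) (nf (Or.inr (Or.inr (Or.inr (by linarith)))))
  have x9 := nx P hx (n + 7) (n + 8) (n + 9) (by ring) (by ring) x7 x8 (t, 0)
    (dH _ _ (by ring) (by linarith) (by linarith)) (dB _ (by linarith) (by linarith))
    (q2 _ _ _ _ (by ring) (by linarith) (by linarith)) (nf (Or.inr (Or.inl (by linarith))))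
  exact ⟨x8, x9⟩

theorem dynB (P : Prm w h N c) (wh : w < h) (Nw : N < 2 * w) (d0 : 0 < N - c - w)
    (d1 : N - c - w ≤ N - h) (hc : N - h ≤ c) {x : ℤ → ℝ × ℝ} (hx : IsOrbit (Hex w h N c) x)
    {t X : ℝ} (t0 : N - w < t) (t1 : t < w) (X0 : N - h < X) (X1 : X < N - w) (n : ℤ)
    (hn : x n = (X, N - X)) (hn1 : x (n + 1) = (t, 0)) (hB : X - (N - c - w) < N - h) :
    x (n + 16) = (X - (N - c - w) + (h - w), N - (X - (N - c - w) + (h - w))) ∧
      x (n + 17) = (t, 0) := by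
  obtain ⟨x6, x7⟩ := dyn0 P wh Nw d0 d1 hc hx t0 t1 X0 X1 n hn hn1
  obtain ⟨w0, h0, c0, cw, ch, wN, hN, Nwh, cN⟩ := P
  have P : Prm w h N c := ⟨w0, h0, c0, cw, ch, wN, hN, Nwh, cN⟩
  obtain ⟨Y, hY⟩ : ∃ Y, Y = X - (N - c - w) := ⟨_, rfl⟩
  rw [← hY] at x6 hB ⊢
  obtain ⟨r, hr⟩ : ∃ r, r = Y + (h - w) := ⟨_, rfl⟩
  rw [← hr]
  have x8 := nx P hx (n + 6) (n + 7) (n + 8) (by ring) (by ring) x6 x7 (Y, h)
    (dL _ (by linarith) (by linarith)) (dT _ (by linarith) (by linarith))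
    (q1 _ _ _ _ rfl (by linarith) (by linarith)) (nf (Or.inr (Or.inr (Or.inr (by linarith)))))
  have x9 := nx P hx (n + 7) (n + 8) (n + 9) (by ring) (by ring) x7 x8 (N - t, t)
    (dT _ (by linarith) (by linarith)) (dH _ _ (by ring) (by linarith) (by linarith))
    (q0 _ _ _ _ rfl (by linarith) (by linarith)) (nf (Or.inr (Or.inl (by linarith))))
  have x10 := nx P hx (n + 8) (n + 9) (n + 10) (by ring) (by ring) x8 x9 (w, r)
    (dH _ _ (by ring) (by linarith) (by linarith)) (dR _ (by linarith) (by linarith))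
    (q2 _ _ _ _ (by rw [hr]; ring) (by linarith) (by linarith)) (nf (Or.inr (Or.inl (by linarith))))
  have x11 := nx P hx (n + 9) (n + 10) (n + 11) (by ring) (by ring) x9 x10 (N - t, 0)
    (dR _ (by linarith) (by linarith)) (dB _ (by linarith) (by linarith))
    (q1 _ _ _ _ rfl (by linarith) (by linarith)) (nf (Or.inr (Or.inr (Or.inl (by linarith)))))
  have x12 := nx P hx (n + 10) (n + 11) (n + 12) (by ring) (by ring) x10 x11 (0, r)
    (dB _ (by linarith) (by linarith)) (dL _ (by linarith) (by linarith))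
    (q0 _ _ _ _ rfl (by linarith) (by linarith)) (nf (Or.inl (by linarith)))
  have x13 := nx P hx (n + 11) (n + 12) (n + 13) (by ring) (by ring) x11 x12 (N - t, t)
    (dL _ (by linarith) (by linarith)) (dH _ _ (by ring) (by linarith) (by linarith))
    (q1 _ _ _ _ rfl (by linarith) (by linarith)) (nf (Or.inr (Or.inr (Or.inr (by linarith)))))
  have x14 := nx P hx (n + 12) (n + 13) (n + 14) (by ring) (by ring) x12 x13 (r, 0)
    (dH _ _ (by ring) (by linarith) (by linarith)) (dB _ (by linarith) (by linarith))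
    (q2 _ _ _ _ (by ring) (by linarith) (by linarith)) (nf (Or.inr (Or.inl (by linarith))))
  have x15 := nx P hx (n + 13) (n + 14) (n + 15) (by ring) (by ring) x13 x14 (0, t)
    (dB _ (by linarith) (by linarith)) (dL _ (by linarith) (by linarith))
    (q0 _ _ _ _ rfl (by linarith) (by linarith)) (nf (Or.inl (by linarith)))
  have x16 := nx P hx (n + 14) (n + 15) (n + 16) (by ring) (by ring) x14 x15 (r, N - r)
    (dL _ (by linarith) (by linarith)) (dH _ _ (by ring) (by linarith) (by linarith))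
    (q1 _ _ _ _ rfl (by linarith) (by linarith)) (nf (Or.inr (Or.inr (Or.inr (by linarith)))))
  have x17 := nx P hx (n + 15) (n + 16) (n + 17) (by ring) (by ring) x15 x16 (t, 0)
    (dH _ _ (by ring) (by linarith) (by linarith)) (dB _ (by linarith) (by linarith))
    (q2 _ _ _ _ (by ring) (by linarith) (by linarith)) (nf (Or.inr (Or.inl (by linarith))))
  exact ⟨x16, x17⟩

theorem Zs_countable (w h N c : ℝ) : {s : ℝ | Zs w h N c s}.Countable := by
  have : {s : ℝ | Zs w h N c s} ⊆ Set.range (fun q : ℤ × ℤ × ℤ × ℤ =>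
      (q.1 : ℝ) * w + q.2.1 * h + q.2.2.1 * N + q.2.2.2 * c) := by
    rintro s ⟨i, j, k, l, hs⟩
    exact ⟨(i, j, k, l), hs.symm⟩
  exact (Set.countable_range _).mono this

theorem Zs_avoid (w h N c : ℝ) {a b : ℝ} (hab : a < b) : ∃ s, a < s ∧ s < b ∧ ¬ Zs w h N c s := by
  obtain ⟨s, hs, h1, h2⟩ := ((Zs_countable w h N c).dense_compl ℝ).exists_between hab
  exact ⟨s, h1, h2, hs⟩

theorem nonper (w0 : 0 < w) (wh : w < h) (Nw : N < 2 * w) (d0 : 0 < N - c - w)
    (d1 : N - c - w ≤ N - h) (hc : N - h ≤ c)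
    (hirr : ∀ m l : ℤ, m ≠ 0 → (m : ℝ) * (N - c - w) ≠ l * (h - w)) :
    ∃ x : ℤ → ℝ × ℝ, IsOrbit (Hex w h N c) x ∧ ¬ ∃ K : ℤ, 0 < K ∧ ∀ i, x (i + K) = x i := by
  have P : Prm w h N c := ⟨w0, by linarith, by linarith, by linarith, by linarith, by linarith,
    by linarith, by linarith, by linarith⟩
  obtain ⟨t, t0, t1, htZ⟩ := Zs_avoid w h N c (show N - w < w by linarith)
  obtain ⟨X, X0, X1, hXZ⟩ := Zs_avoid w h N c (show N - h < N - w by linarith)
  have hself : ∀ s : ℝ, s ∈ Et w h N c s := by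
    intro s; left; exact ⟨0, 0, 0, 0, by push_cast; ring⟩
  obtain ⟨x, hx, hx0, hx1⟩ := biinf P hXZ htZ (X, N - X) (t, 0)
    (Or.inr (Or.inr (Or.inr (Or.inr (Or.inl ⟨⟨by simp, by simpa using X0, by simp; linarith⟩,
      hself X⟩)))))
    (Or.inl ⟨⟨rfl, by simp; linarith, by simp; linarith⟩, hself t⟩)
    0 (dB t (by linarith) (by linarith)) (q0 _ _ _ _ rfl (by linarith) (by linarith))
    2 (dH X (N - X) (by ring) (by linarith) (by linarith))
    (q2 _ _ _ _ rfl (by linarith) (by linarith))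
  refine ⟨x, hx, ?_⟩
  rintro ⟨K, hK, hper⟩
  have key : ∀ k : ℕ, ∃ n l : ℤ, N - h < X - k * (N - c - w) + l * (h - w) ∧
      X - k * (N - c - w) + l * (h - w) < N - w ∧
      x n = (X - k * (N - c - w) + l * (h - w), N - (X - k * (N - c - w) + l * (h - w))) ∧
      x (n + 1) = (t, 0) := by
    intro k
    induction k with
    | zero =>
      refine ⟨0, 0, by push_cast; linarith, by push_cast; linarith, ?_, ?_⟩
      · rw [hx0]; push_cast; ring_nf
      · exact hx1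
    | succ k ih =>
      obtain ⟨n, l, h1, h2, h3, h4⟩ := ih
      obtain ⟨Y, hY⟩ : ∃ Y, Y = X - k * (N - c - w) + l * (h - w) := ⟨_, rfl⟩
      rw [← hY] at h1 h2 h3
      have hYZ : ¬ Zs w h N c Y := by
        intro hz
        apply hXZ
        have := hz.add (-k + l) (-l) k (-k)
        have e : X = Y + (((-k + l : ℤ) : ℝ) * w + ((-l : ℤ) : ℝ) * h + ((k : ℤ) : ℝ) * N +
            ((-k : ℤ) : ℝ) * c) := by
          rw [hY]; push_cast; ring
        rw [e]; exact this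
      rcases lt_trichotomy (N - h) (Y - (N - c - w)) with hA | hA | hA
      · obtain ⟨h5, h6⟩ := dynA P wh Nw d0 d1 hc hx t0 t1 h1 h2 n h3 h4 hA
        have e : X - ((k + 1 : ℕ) : ℝ) * (N - c - w) + l * (h - w) = Y - (N - c - w) := by
          rw [hY]; push_cast; ring
        refine ⟨n + 8, l, ?_, ?_, ?_, ?_⟩
        · rw [e]; exact hA
        · rw [e]; linarith
        · rw [e]; exact h5
        · rw [show n + 8 + 1 = n + 9 by ring]; exact h6
      · exfalso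
        apply hYZ
        exact ⟨-1, -1, 2, -1, by push_cast; linarith⟩
      · obtain ⟨h5, h6⟩ := dynB P wh Nw d0 d1 hc hx t0 t1 h1 h2 n h3 h4 hA
        have e : X - ((k + 1 : ℕ) : ℝ) * (N - c - w) + ((l + 1 : ℤ) : ℝ) * (h - w) =
            Y - (N - c - w) + (h - w) := by
          rw [hY]; push_cast; ring
        refine ⟨n + 16, l + 1, ?_, ?_, ?_, ?_⟩
        · rw [e]; linarith
        · rw [e]; linarith
        · rw [e]; exact h5
        · rw [show n + 16 + 1 = n + 17 by ring]; exact h6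
  choose n l k1 k2 k3 k4 using key
  have hmod : ∀ i : ℤ, x (i % K) = x i := by
    intro i
    have hp : Function.Periodic x K := hper
    have h1 := (hp.int_mul (i / K)) (i % K)
    rw [← h1]
    congr 1
    have := Int.emod_add_mul_ediv i K
    push_cast
    linarith [mul_comm K (i / K)]
  have hinf : ∃ k k' : ℕ, k < k' ∧ n k % K = n k' % K := by
    by_contra hcon
    push Not at hcon
    have hinj : Function.Injective (fun k => n k % K) := by
      intro a b hab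
      rcases lt_trichotomy a b with h1 | h1 | h1
      · exact absurd hab (hcon a b h1)
      · exact h1
      · exact absurd hab.symm (hcon b a h1)
    have hfin : (Set.range (fun k => n k % K)).Finite :=
      (Set.finite_Ico (0 : ℤ) K).subset (by
        rintro _ ⟨k, rfl⟩
        exact ⟨Int.emod_nonneg _ hK.ne', Int.emod_lt_of_pos _ hK⟩)
    exact Set.infinite_range_of_injective hinj hfin
  obtain ⟨k, k', hkk, hn⟩ := hinf
  have e1 : x (n k) = x (n k') := by rw [← hmod (n k), ← hmod (n k'), hn]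
  rw [k3, k3] at e1
  have e2 := congrArg Prod.fst e1
  simp only at e2
  refine hirr ((k' : ℤ) - k) (l k' - l k) (by omega) ?_
  push_cast
  linarith

end

theorem nonper_image (e : (ℝ × ℝ) ≃ᵃ[ℝ] (ℝ × ℝ)) (w h N c : ℝ) (w0 : 0 < w) (wh : w < h)
    (Nw : N < 2 * w) (d0 : 0 < N - c - w) (d1 : N - c - w ≤ N - h) (hc : N - h ≤ c)
    (hirr : ∀ m l : ℤ, m ≠ 0 → (m : ℝ) * (N - c - w) ≠ l * (h - w)) :
    ∃ x : ℤ → ℝ × ℝ, IsOrbit (e '' Hex w h N c) x ∧
      ¬ ∃ K : ℤ, 0 < K ∧ ∀ i, x (i + K) = x i := by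
  obtain ⟨x, hx, hn⟩ := nonper w0 wh Nw d0 d1 hc hirr
  have himg : e.symm '' (e '' Hex w h N c) = Hex w h N c := by
    rw [← Set.image_comp]
    have : (e.symm ∘ e : ℝ × ℝ → ℝ × ℝ) = id := by
      funext p; simp
    rw [this, Set.image_id]
  have h1 := orbit_pull e.symm (e '' Hex w h N c) x (by rw [himg]; exact hx)
  refine ⟨_, h1, ?_⟩
  rintro ⟨K, hK, hp⟩
  exact hn ⟨K, hK, fun i => e.symm.symm.injective (hp i)⟩

end Pool.Agent.Helper916.SymBil
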