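import Mathlib
import Pool.Agent.Helper916.SymBilNon2

set_option autoImplicit false

namespace Pool.Agent.Helper916.SymBil

open Pool.Agent.Helper916.SymplecticSym

/-- a set of boundary points closed under taking partners -/
def CF (w h N c : ℝ) (F : Set (ℝ × ℝ)) : Prop :=
  ∀ p ∈ F, ∀ (k : ℕ) (z : ℝ × ℝ), BD w h N c z → Rl w h N c k p z → z ∈ F

theorem main_closed {w h N c : ℝ} (P : Prm w h N c)
    (hfin : ∀ p : ℝ × ℝ, BD w h N c p → ∃ F : Set (ℝ × ℝ), F.Finite ∧ p ∈ F ∧ CF w h N c F)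
    (x : ℤ → ℝ × ℝ) (hx : IsOrbit (Hex w h N c) x) : ∃ k : ℤ, 0 < k ∧ ∀ i, x (i + k) = x i := by
  have hBD : ∀ i, BD w h N c (x i) := fun i => side_of P (hx i).1 (hx i).2.1
  have hst : ∀ i, Stp (Hex w h N c) (x i) (x (i + 1)) (x (i + 2)) := fun i => (hx i).2.2
  obtain ⟨E0, f0, m0, c0⟩ := hfin _ (hBD 0)
  obtain ⟨E1, f1, m1, c1⟩ := hfin _ (hBD 1)
  have hstep : ∀ (E : Set (ℝ × ℝ)), CF w h N c E → ∀ i : ℤ, x i ∈ E → x (i + 2) ∈ E := by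
    intro E hE i hi
    obtain ⟨k, hk⟩ := step_rl P (hBD (i + 1))
    exact hE _ hi k _ (hBD _) (hk _ _ (hst i))
  have hev : ∀ n : ℕ, x (2 * n) ∈ E0 ∧ x (2 * n + 1) ∈ E1 := by
    intro n
    induction n with
    | zero => exact ⟨m0, m1⟩
    | succ n ih =>
      have e1 := hstep E0 c0 _ ih.1
      have e2 := hstep E1 c1 _ ih.2
      have g1 : (2 * (n : ℤ) + 2) = 2 * ((n + 1 : ℕ) : ℤ) := by push_cast; ring
      have g2 : (2 * (n : ℤ) + 1 + 2) = 2 * ((n + 1 : ℕ) : ℤ) + 1 := by push_cast; ring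
      rw [g1] at e1
      rw [g2] at e2
      exact ⟨e1, e2⟩
  obtain ⟨m, n, hmn, he⟩ : ∃ m n : ℕ, m < n ∧ (x (2 * m), x (2 * m + 1)) = (x (2 * n), x (2 * n + 1)) := by
    have hfinite := f0.prod f1
    have : ¬ Function.Injective (fun n : ℕ => ((⟨(x (2 * n), x (2 * n + 1)), hev n⟩ :
        (E0 ×ˢ E1 : Set ((ℝ × ℝ) × (ℝ × ℝ)))))) := by
      have := hfinite.to_subtype
      exact not_injective_infinite_finite _
    rw [Function.not_injective_iff] at this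
    obtain ⟨a, b, hab, hne⟩ := this
    have hab' := congrArg Subtype.val hab
    simp only at hab'
    rcases lt_or_gt_of_ne hne with h1 | h1
    · exact ⟨a, b, h1, hab'⟩
    · exact ⟨b, a, h1, hab'.symm⟩
  rw [Prod.mk.injEq] at he
  obtain ⟨k, hk⟩ : ∃ k : ℤ, k = 2 * (n : ℤ) - 2 * m := ⟨_, rfl⟩
  have hk0 : 0 < k := by omega
  have hfw : ∀ i : ℤ, (x (i + k) = x i ∧ x (i + 1 + k) = x (i + 1)) → x (i + 2 + k) = x (i + 2) := by
    rintro i ⟨e1, e2⟩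
    obtain ⟨d, hd⟩ := step_rl P (hBD (i + 1))
    have s1 := hst i
    have s2 := hst (i + k)
    have g1 : i + k + 1 = i + 1 + k := by ring
    have g2 : i + k + 2 = i + 2 + k := by ring
    rw [g1, g2, e1, e2] at s2
    exact partner (hBD i) (hBD _) (hBD _) (hd _ _ s2) (hd _ _ s1) s2.1 s1.1
  have hbw : ∀ i : ℤ, (x (i + 1 + k) = x (i + 1) ∧ x (i + 2 + k) = x (i + 2)) → x (i + k) = x i := by
    rintro i ⟨e1, e2⟩
    obtain ⟨d, hd⟩ := step_rl P (hBD (i + 1))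
    have s1 := hst i
    have s2 := hst (i + k)
    have g1 : i + k + 1 = i + 1 + k := by ring
    have g2 : i + k + 2 = i + 2 + k := by ring
    rw [g1, g2, e1, e2] at s2
    exact partner (hBD (i + 2)) (hBD _) (hBD _) (hd _ _ s2).symm (hd _ _ s1).symm
      (Ne.symm s2.1) (Ne.symm s1.1)
  refine ⟨k, hk0, ?_⟩
  have hall : ∀ i : ℤ, x (i + k) = x i ∧ x (i + 1 + k) = x (i + 1) := by
    intro i
    refine Int.inductionOn' (motive := fun i => x (i + k) = x i ∧ x (i + 1 + k) = x (i + 1)) i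
      (2 * (m : ℤ)) ?_ ?_ ?_
    · have g1 : 2 * (m : ℤ) + k = 2 * n := by rw [hk]; ring
      have g2 : 2 * (m : ℤ) + 1 + k = 2 * n + 1 := by rw [hk]; ring
      rw [g1, g2]
      exact ⟨he.1.symm, he.2.symm⟩
    · intro i _ ih
      refine ⟨ih.2, ?_⟩
      have := hfw i ih
      have g : i + 1 + 1 = i + 2 := by ring
      rw [g]
      exact this
    · intro i _ ih
      have g : i - 1 + 1 = i := by ring
      have g2 : i - 1 + 2 = i + 1 := by ring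
      have := hbw (i - 1) (by rw [g, g2]; exact ih)
      rw [g]
      exact ⟨this, ih.1⟩
  exact fun i => (hall i).1

section
variable {w h N c : ℝ}

/-- first kind of closed leaves -/
theorem closM1 (P : Prm w h N c) (wh : w < h) (Nw : N < 2 * w) (d0 : 0 < N - c - w)
    (t : ℝ) : CF w h N c {p | (p.2 = 0 ∧ (N - w ≤ p.1 ∧ p.1 < w) ∧ (p.1 = t ∨ p.1 = N - t)) ∨
      (p.1 + p.2 = N ∧ (N - w ≤ p.1 ∧ p.1 < w) ∧ (p.1 = t ∨ p.1 = N - t)) ∨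
      (p.1 = 0 ∧ (N - w ≤ p.2 ∧ p.2 ≤ w) ∧ (p.2 = t ∨ p.2 = N - t))} := by
  obtain ⟨w0, h0, c0, cw, ch, wN, hN, Nwh, cN⟩ := P
  rintro ⟨p1, p2⟩ hp k ⟨z1, z2⟩ hz hr
  simp only [Set.mem_ofPred_eq] at hp ⊢
  rcases hr with ⟨_, a1, a2, a3⟩ | ⟨_, a1, a2, a3⟩ | ⟨_, a1, a2, a3⟩ <;> simp only at a1 a2 a3 <;>
  rcases hp with ⟨b1, b2, b3 | b3⟩ | ⟨b1, b2, b3 | b3⟩ | ⟨b1, b2, b3 | b3⟩ <;>
  obtain ⟨b4, b5⟩ := b2 <;>
  rcases hz with ⟨g1, g2, g3⟩ | ⟨g1, g2, g3⟩ | ⟨g1, g2, g3⟩ | ⟨g1, g2, g3⟩ | ⟨g1, g2, g3⟩ |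
    ⟨g1, g2, g3⟩ <;> simp only at g1 g2 g3 <;>
  first
    | (exfalso; linarith)
    | exact Or.inl ⟨by linarith, ⟨by linarith, by linarith⟩, Or.inl (by linarith)⟩
    | exact Or.inl ⟨by linarith, ⟨by linarith, by linarith⟩, Or.inr (by linarith)⟩
    | exact Or.inr (Or.inl ⟨by linarith, ⟨by linarith, by linarith⟩, Or.inl (by linarith)⟩)
    | exact Or.inr (Or.inl ⟨by linarith, ⟨by linarith, by linarith⟩, Or.inr (by linarith)⟩)
    | exact Or.inr (Or.inr ⟨by linarith, ⟨by linarith, by linarith⟩, Or.inl (by linarith)⟩)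
    | exact Or.inr (Or.inr ⟨by linarith, ⟨by linarith, by linarith⟩, Or.inr (by linarith)⟩)

/-- second kind of closed leaves -/
theorem closM2 (P : Prm w h N c) (wh : w < h) (Nw : N < 2 * w) (d0 : 0 < N - c - w)
    (d1 : N - c - w ≤ N - h) (hc : N - h ≤ c)
    (t : ℝ) : CF w h N c {p | (p.1 + p.2 = c ∧ (0 < p.1 ∧ p.1 ≤ c + w - h) ∧
        (p.1 = t ∨ p.1 = c + w - h - t)) ∨
      (p.2 = h ∧ (0 < p.1 ∧ p.1 ≤ c + w - h) ∧ (p.1 = t ∨ p.1 = c + w - h - t)) ∨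
      (p.1 = w ∧ (h - w ≤ p.2 ∧ p.2 ≤ c) ∧ (p.2 - (h - w) = t ∨ p.2 - (h - w) = c + w - h - t))} := by
  obtain ⟨w0, h0, c0, cw, ch, wN, hN, Nwh, cN⟩ := P
  rintro ⟨p1, p2⟩ hp k ⟨z1, z2⟩ hz hr
  simp only [Set.mem_ofPred_eq] at hp ⊢
  rcases hr with ⟨_, a1, a2, a3⟩ | ⟨_, a1, a2, a3⟩ | ⟨_, a1, a2, a3⟩ <;> simp only at a1 a2 a3 <;>
  rcases hp with ⟨b1, b2, b3 | b3⟩ | ⟨b1, b2, b3 | b3⟩ | ⟨b1, b2, b3 | b3⟩ <;>
  obtain ⟨b4, b5⟩ := b2 <;>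
  rcases hz with ⟨g1, g2, g3⟩ | ⟨g1, g2, g3⟩ | ⟨g1, g2, g3⟩ | ⟨g1, g2, g3⟩ | ⟨g1, g2, g3⟩ |
    ⟨g1, g2, g3⟩ <;> simp only at g1 g2 g3 <;>
  first
    | (exfalso; linarith)
    | exact Or.inl ⟨by linarith, ⟨by linarith, by linarith⟩, Or.inl (by linarith)⟩
    | exact Or.inl ⟨by linarith, ⟨by linarith, by linarith⟩, Or.inr (by linarith)⟩
    | exact Or.inr (Or.inl ⟨by linarith, ⟨by linarith, by linarith⟩, Or.inl (by linarith)⟩)
    | exact Or.inr (Or.inl ⟨by linarith, ⟨by linarith, by linarith⟩, Or.inr (by linarith)⟩)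
    | exact Or.inr (Or.inr ⟨by linarith, ⟨by linarith, by linarith⟩, Or.inl (by linarith)⟩)
    | exact Or.inr (Or.inr ⟨by linarith, ⟨by linarith, by linarith⟩, Or.inr (by linarith)⟩)

/-- the lattice class -/
def La (r θ s : ℝ) : Prop := ∃ m : ℤ, s = θ + m * r

theorem La_sh {r θ s s' : ℝ} (hs : La r θ s) (i : ℤ) (e : s' = s + i * r) : La r θ s' := by
  obtain ⟨m, hm⟩ := hs
  exact ⟨m + i, by rw [e, hm]; push_cast; ring⟩

/-- the torus component -/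
theorem closT (P : Prm w h N c) (wh : w < h) (Nw : N < 2 * w) (d0 : 0 < N - c - w)
    (d1 : N - c - w ≤ N - h) (hc : N - h ≤ c) (r θ : ℝ) (I J : ℤ) (hI : N - c - w = I * r)
    (hJ : h - w = J * r) : CF w h N c {p |
      (p.2 = 0 ∧ (c < p.1 ∧ p.1 < N - w) ∧ La r θ p.1) ∨
      (p.1 + p.2 = N ∧ (N - h < p.1 ∧ p.1 < N - w) ∧ La r θ p.1) ∨
      (p.1 = 0 ∧ (c < p.2 ∧ p.2 < N - w) ∧ La r θ p.2) ∨
      (p.1 = 0 ∧ (w < p.2 ∧ p.2 < h) ∧ La r θ (N - p.2)) ∨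
      (p.1 = w ∧ (0 < p.2 ∧ p.2 < h - w) ∧ La r θ (N - w - p.2)) ∨
      (p.1 = w ∧ (c < p.2 ∧ p.2 < N - w) ∧ La r θ p.2) ∨
      (p.2 = h ∧ (c + w - h < p.1 ∧ p.1 < N - h) ∧ La r θ p.1) ∨
      (p.1 + p.2 = c ∧ (c + w - h < p.1 ∧ p.1 < c) ∧ La r θ p.1)} := by
  obtain ⟨w0, h0, c0, cw, ch, wN, hN, Nwh, cN⟩ := P
  have E1 : ((-I : ℤ) : ℝ) * r = -(N - c - w) := by rw [hI]; push_cast; ring
  have E2 : ((-J : ℤ) : ℝ) * r = -(h - w) := by rw [hJ]; push_cast; ring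
  have E3 : ((0 : ℤ) : ℝ) * r = 0 := by push_cast; ring
  rintro ⟨p1, p2⟩ hp k ⟨z1, z2⟩ hz hr
  simp only [Set.mem_ofPred_eq] at hp ⊢
  rcases hr with ⟨_, a1, a2, a3⟩ | ⟨_, a1, a2, a3⟩ | ⟨_, a1, a2, a3⟩ <;> simp only at a1 a2 a3 <;>
  rcases hp with ⟨b1, b2, b3⟩ | ⟨b1, b2, b3⟩ | ⟨b1, b2, b3⟩ | ⟨b1, b2, b3⟩ | ⟨b1, b2, b3⟩ |
    ⟨b1, b2, b3⟩ | ⟨b1, b2, b3⟩ | ⟨b1, b2, b3⟩ <;>
  obtain ⟨b4, b5⟩ := b2 <;>
  rcases hz with ⟨g1, g2, g3⟩ | ⟨g1, g2, g3⟩ | ⟨g1, g2, g3⟩ | ⟨g1, g2, g3⟩ | ⟨g1, g2, g3⟩ |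
    ⟨g1, g2, g3⟩ <;> simp only at g1 g2 g3 <;>
  first
    | (exfalso; linarith)
    | (refine Or.inl ⟨by linarith, ⟨by linarith, by linarith⟩, ?_⟩
       first | exact La_sh b3 0 (by linarith) | exact La_sh b3 I (by linarith)
             | exact La_sh b3 (-I) (by linarith) | exact La_sh b3 J (by linarith)
             | exact La_sh b3 (-J) (by linarith))
    | (refine Or.inr (Or.inl ⟨by linarith, ⟨by linarith, by linarith⟩, ?_⟩)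
       first | exact La_sh b3 0 (by linarith) | exact La_sh b3 I (by linarith)
             | exact La_sh b3 (-I) (by linarith) | exact La_sh b3 J (by linarith)
             | exact La_sh b3 (-J) (by linarith))
    | (refine Or.inr (Or.inr (Or.inl ⟨by linarith, ⟨by linarith, by linarith⟩, ?_⟩))
       first | exact La_sh b3 0 (by linarith) | exact La_sh b3 I (by linarith)
             | exact La_sh b3 (-I) (by linarith) | exact La_sh b3 J (by linarith)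
             | exact La_sh b3 (-J) (by linarith))
    | (refine Or.inr (Or.inr (Or.inr (Or.inl ⟨by linarith, ⟨by linarith, by linarith⟩, ?_⟩)))
       first | exact La_sh b3 0 (by linarith) | exact La_sh b3 I (by linarith)
             | exact La_sh b3 (-I) (by linarith) | exact La_sh b3 J (by linarith)
             | exact La_sh b3 (-J) (by linarith))
    | (refine Or.inr (Or.inr (Or.inr (Or.inr (Or.inl ⟨by linarith, ⟨by linarith, by linarith⟩, ?_⟩))))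
       first | exact La_sh b3 0 (by linarith) | exact La_sh b3 I (by linarith)
             | exact La_sh b3 (-I) (by linarith) | exact La_sh b3 J (by linarith)
             | exact La_sh b3 (-J) (by linarith))
    | (refine Or.inr (Or.inr (Or.inr (Or.inr (Or.inr (Or.inl
          ⟨by linarith, ⟨by linarith, by linarith⟩, ?_⟩)))))
       first | exact La_sh b3 0 (by linarith) | exact La_sh b3 I (by linarith)
             | exact La_sh b3 (-I) (by linarith) | exact La_sh b3 J (by linarith)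
             | exact La_sh b3 (-J) (by linarith))
    | (refine Or.inr (Or.inr (Or.inr (Or.inr (Or.inr (Or.inr (Or.inl
          ⟨by linarith, ⟨by linarith, by linarith⟩, ?_⟩))))))
       first | exact La_sh b3 0 (by linarith) | exact La_sh b3 I (by linarith)
             | exact La_sh b3 (-I) (by linarith) | exact La_sh b3 J (by linarith)
             | exact La_sh b3 (-J) (by linarith))
    | (refine Or.inr (Or.inr (Or.inr (Or.inr (Or.inr (Or.inr (Or.inr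
          ⟨by linarith, ⟨by linarith, by linarith⟩, ?_⟩))))))
       first | exact La_sh b3 0 (by linarith) | exact La_sh b3 I (by linarith)
             | exact La_sh b3 (-I) (by linarith) | exact La_sh b3 J (by linarith)
             | exact La_sh b3 (-J) (by linarith))

theorem La_fin (r θ M : ℝ) (hr : 0 < r) : {s : ℝ | La r θ s ∧ 0 < s ∧ s < M}.Finite := by
  refine ((Set.finite_Icc ⌊-θ / r⌋ ⌈(M - θ) / r⌉).image (fun m : ℤ => θ + m * r)).subset ?_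
  rintro s ⟨⟨m, hm⟩, h1, h2⟩
  refine ⟨m, ⟨?_, ?_⟩, hm.symm⟩
  · have h3 : -θ / r < m := by rw [div_lt_iff₀ hr]; linarith
    exact_mod_cast (Int.floor_le (-θ / r)).trans h3.le
  · have h3 : (m : ℝ) < (M - θ) / r := by rw [lt_div_iff₀ hr]; linarith
    exact_mod_cast h3.le.trans (Int.le_ceil _)

theorem rat_fin (P : Prm w h N c) (wh : w < h) (Nw : N < 2 * w) (d0 : 0 < N - c - w)
    (d1 : N - c - w ≤ N - h) (hc : N - h ≤ c) (r : ℝ) (hr : 0 < r) (I J : ℤ)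
    (hI : N - c - w = I * r) (hJ : h - w = J * r) (p : ℝ × ℝ) (hp : BD w h N c p) :
    ∃ F : Set (ℝ × ℝ), F.Finite ∧ p ∈ F ∧ CF w h N c F := by
  have cl1 := closM1 P wh Nw d0
  have cl2 := closM2 P wh Nw d0 d1 hc
  have cl3 := fun θ => closT P wh Nw d0 d1 hc r θ I J hI hJ
  obtain ⟨w0, h0, c0, cw, ch, wN, hN, Nwh, cN⟩ := P
  have fM1 : ∀ t : ℝ, (∃ q : Prop, q ∧ True) → ({p : ℝ × ℝ |
      (p.2 = 0 ∧ (N - w ≤ p.1 ∧ p.1 < w) ∧ (p.1 = t ∨ p.1 = N - t)) ∨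
      (p.1 + p.2 = N ∧ (N - w ≤ p.1 ∧ p.1 < w) ∧ (p.1 = t ∨ p.1 = N - t)) ∨
      (p.1 = 0 ∧ (N - w ≤ p.2 ∧ p.2 ≤ w) ∧ (p.2 = t ∨ p.2 = N - t))}).Finite := by
    intro t _
    refine (((Set.toFinite {0, t, N - t}).prod (Set.toFinite {0, t, N - t}))).subset ?_
    rintro ⟨p1, p2⟩ hp
    simp only [Set.mem_ofPred_eq] at hp
    simp only [Set.mem_prod, Set.mem_insert_iff, Set.mem_singleton_iff]
    rcases hp with ⟨b1, _, b3 | b3⟩ | ⟨b1, _, b3 | b3⟩ | ⟨b1, _, b3 | b3⟩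
    · exact ⟨Or.inr (Or.inl b3), Or.inl b1⟩
    · exact ⟨Or.inr (Or.inr b3), Or.inl b1⟩
    · exact ⟨Or.inr (Or.inl b3), Or.inr (Or.inr (by linarith))⟩
    · exact ⟨Or.inr (Or.inr b3), Or.inr (Or.inl (by linarith))⟩
    · exact ⟨Or.inl b1, Or.inr (Or.inl b3)⟩
    · exact ⟨Or.inl b1, Or.inr (Or.inr b3)⟩
  have fM2 : ∀ t : ℝ, ({p : ℝ × ℝ | (p.1 + p.2 = c ∧ (0 < p.1 ∧ p.1 ≤ c + w - h) ∧
        (p.1 = t ∨ p.1 = c + w - h - t)) ∨
      (p.2 = h ∧ (0 < p.1 ∧ p.1 ≤ c + w - h) ∧ (p.1 = t ∨ p.1 = c + w - h - t)) ∨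
      (p.1 = w ∧ (h - w ≤ p.2 ∧ p.2 ≤ c) ∧
        (p.2 - (h - w) = t ∨ p.2 - (h - w) = c + w - h - t))}).Finite := by
    intro t
    refine (((Set.toFinite {w, t, c + w - h - t}).prod
      (Set.toFinite {h, c - t, c - (c + w - h - t), t + (h - w),
        c + w - h - t + (h - w)}))).subset ?_
    rintro ⟨p1, p2⟩ hp
    simp only [Set.mem_ofPred_eq] at hp
    simp only [Set.mem_prod, Set.mem_insert_iff, Set.mem_singleton_iff]
    rcases hp with ⟨b1, _, b3 | b3⟩ | ⟨b1, _, b3 | b3⟩ | ⟨b1, _, b3 | b3⟩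
    · exact ⟨Or.inr (Or.inl b3), Or.inr (Or.inl (by linarith))⟩
    · exact ⟨Or.inr (Or.inr b3), Or.inr (Or.inr (Or.inl (by linarith)))⟩
    · exact ⟨Or.inr (Or.inl b3), Or.inl b1⟩
    · exact ⟨Or.inr (Or.inr b3), Or.inl b1⟩
    · exact ⟨Or.inl b1, Or.inr (Or.inr (Or.inr (Or.inl (by linarith))))⟩
    · exact ⟨Or.inl b1, Or.inr (Or.inr (Or.inr (Or.inr (by linarith))))⟩
  have fT : ∀ θ : ℝ, ({p : ℝ × ℝ |
      (p.2 = 0 ∧ (c < p.1 ∧ p.1 < N - w) ∧ La r θ p.1) ∨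
      (p.1 + p.2 = N ∧ (N - h < p.1 ∧ p.1 < N - w) ∧ La r θ p.1) ∨
      (p.1 = 0 ∧ (c < p.2 ∧ p.2 < N - w) ∧ La r θ p.2) ∨
      (p.1 = 0 ∧ (w < p.2 ∧ p.2 < h) ∧ La r θ (N - p.2)) ∨
      (p.1 = w ∧ (0 < p.2 ∧ p.2 < h - w) ∧ La r θ (N - w - p.2)) ∨
      (p.1 = w ∧ (c < p.2 ∧ p.2 < N - w) ∧ La r θ p.2) ∨
      (p.2 = h ∧ (c + w - h < p.1 ∧ p.1 < N - h) ∧ La r θ p.1) ∨
      (p.1 + p.2 = c ∧ (c + w - h < p.1 ∧ p.1 < c) ∧ La r θ p.1)}).Finite := by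
    intro θ
    have hL := La_fin r θ N hr
    refine ((hL.image (fun s : ℝ => (s, (0 : ℝ)))).union ((hL.image (fun s : ℝ => (s, N - s))).union
      ((hL.image (fun s : ℝ => ((0 : ℝ), s))).union ((hL.image (fun s : ℝ => ((0 : ℝ), N - s))).union
      ((hL.image (fun s : ℝ => (w, N - w - s))).union ((hL.image (fun s : ℝ => (w, s))).union
      ((hL.image (fun s : ℝ => (s, h))).union (hL.image (fun s : ℝ => (s, c - s)))))))))).subset ?_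
    rintro ⟨p1, p2⟩ hp
    simp only [Set.mem_ofPred_eq] at hp
    rcases hp with ⟨b1, b2, b3⟩ | ⟨b1, b2, b3⟩ | ⟨b1, b2, b3⟩ | ⟨b1, b2, b3⟩ | ⟨b1, b2, b3⟩ |
      ⟨b1, b2, b3⟩ | ⟨b1, b2, b3⟩ | ⟨b1, b2, b3⟩
    · exact Or.inl ⟨p1, ⟨b3, by linarith, by linarith⟩, Prod.ext rfl b1.symm⟩
    · exact Or.inr (Or.inl ⟨p1, ⟨b3, by linarith, by linarith⟩,
        Prod.ext rfl (show N - p1 = p2 by linarith)⟩)
    · exact Or.inr (Or.inr (Or.inl ⟨p2, ⟨b3, by linarith, by linarith⟩, Prod.ext b1.symm rfl⟩))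
    · exact Or.inr (Or.inr (Or.inr (Or.inl ⟨N - p2, ⟨b3, by linarith, by linarith⟩,
        Prod.ext b1.symm (show N - (N - p2) = p2 by ring)⟩)))
    · exact Or.inr (Or.inr (Or.inr (Or.inr (Or.inl ⟨N - w - p2, ⟨b3, by linarith, by linarith⟩,
        Prod.ext b1.symm (show N - w - (N - w - p2) = p2 by ring)⟩))))
    · exact Or.inr (Or.inr (Or.inr (Or.inr (Or.inr (Or.inl ⟨p2, ⟨b3, by linarith, by linarith⟩,
        Prod.ext b1.symm rfl⟩)))))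
    · exact Or.inr (Or.inr (Or.inr (Or.inr (Or.inr (Or.inr (Or.inl
        ⟨p1, ⟨b3, by linarith, by linarith⟩, Prod.ext rfl b1.symm⟩))))))
    · exact Or.inr (Or.inr (Or.inr (Or.inr (Or.inr (Or.inr (Or.inr
        ⟨p1, ⟨b3, by linarith, by linarith⟩, Prod.ext rfl (show c - p1 = p2 by linarith)⟩))))))
  have hself : ∀ s : ℝ, La r s s := fun s => ⟨0, by push_cast; ring⟩
  have htr : ∃ q : Prop, q ∧ True := ⟨True, trivial, trivial⟩
  rcases hp with ⟨g1, g2, g3⟩ | ⟨g1, g2, g3⟩ | ⟨g1, g2, g3⟩ | ⟨g1, g2, g3⟩ | ⟨g1, g2, g3⟩ |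
    ⟨g1, g2, g3⟩
  · rcases lt_or_ge p.1 (N - w) with h1 | h1
    · exact ⟨_, fT p.1, Or.inl ⟨g1, ⟨g2, h1⟩, hself _⟩, cl3 _⟩
    · exact ⟨_, fM1 p.1 htr, Or.inl ⟨g1, ⟨h1, g3⟩, Or.inl rfl⟩, cl1 _⟩
  · rcases lt_or_ge p.2 (N - w) with h1 | h1
    · exact ⟨_, fT p.2, Or.inr (Or.inr (Or.inl ⟨g1, ⟨g2, h1⟩, hself _⟩)), cl3 _⟩
    · rcases le_or_gt p.2 w with h2 | h2
      · exact ⟨_, fM1 p.2 htr, Or.inr (Or.inr ⟨g1, ⟨h1, h2⟩, Or.inl rfl⟩), cl1 _⟩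
      · exact ⟨_, fT (N - p.2), Or.inr (Or.inr (Or.inr (Or.inl ⟨g1, ⟨h2, g3⟩, hself _⟩))), cl3 _⟩
  · rcases lt_or_ge p.2 (h - w) with h1 | h1
    · exact ⟨_, fT (N - w - p.2), Or.inr (Or.inr (Or.inr (Or.inr (Or.inl
        ⟨g1, ⟨g2, h1⟩, hself _⟩)))), cl3 _⟩
    · rcases le_or_gt p.2 c with h2 | h2
      · exact ⟨_, fM2 (p.2 - (h - w)), Or.inr (Or.inr ⟨g1, ⟨h1, h2⟩, Or.inl rfl⟩), cl2 _⟩
      · exact ⟨_, fT p.2, Or.inr (Or.inr (Or.inr (Or.inr (Or.inr (Or.inl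
          ⟨g1, ⟨h2, g3⟩, hself _⟩))))), cl3 _⟩
  · rcases le_or_gt p.1 (c + w - h) with h1 | h1
    · exact ⟨_, fM2 p.1, Or.inr (Or.inl ⟨g1, ⟨g2, h1⟩, Or.inl rfl⟩), cl2 _⟩
    · exact ⟨_, fT p.1, Or.inr (Or.inr (Or.inr (Or.inr (Or.inr (Or.inr (Or.inl
        ⟨g1, ⟨h1, g3⟩, hself _⟩)))))), cl3 _⟩
  · rcases lt_or_ge p.1 (N - w) with h1 | h1
    · exact ⟨_, fT p.1, Or.inr (Or.inl ⟨g1, ⟨g2, h1⟩, hself _⟩), cl3 _⟩
    · exact ⟨_, fM1 p.1 htr, Or.inr (Or.inl ⟨g1, ⟨h1, g3⟩, Or.inl rfl⟩), cl1 _⟩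
  · rcases le_or_gt p.1 (c + w - h) with h1 | h1
    · exact ⟨_, fM2 p.1, Or.inl ⟨g1, ⟨g2, h1⟩, Or.inl rfl⟩, cl2 _⟩
    · exact ⟨_, fT p.1, Or.inr (Or.inr (Or.inr (Or.inr (Or.inr (Or.inr (Or.inr
        ⟨g1, ⟨h1, g3⟩, hself _⟩)))))), cl3 _⟩

/-- In this open family of hexagons, all orbits are periodic if the rotation number is rational. -/
theorem rat_periodic (P : Prm w h N c) (wh : w < h) (Nw : N < 2 * w) (d0 : 0 < N - c - w)
    (d1 : N - c - w ≤ N - h) (hc : N - h ≤ c) (hq : ∃ q : ℚ, (q : ℝ) = (N - c - w) / (h - w))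
    (x : ℤ → ℝ × ℝ) (hx : IsOrbit (Hex w h N c) x) : ∃ k : ℤ, 0 < k ∧ ∀ i, x (i + k) = x i := by
  obtain ⟨q, hq⟩ := hq
  have hh : 0 < h - w := by linarith
  have hden : (0 : ℝ) < q.den := by exact_mod_cast q.den_pos
  have hqd : (q : ℝ) = q.num / q.den := by exact_mod_cast (Rat.num_div_den q).symm
  refine main_closed P (fun p hp => rat_fin P wh Nw d0 d1 hc ((h - w) / q.den) (by positivity)
    q.num q.den ?_ ?_ p hp) x hx
  · rw [eq_div_iff hh.ne', hqd] at hq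
    rw [← hq]; ring
  · push_cast
    field_simp

end

end Pool.Agent.Helper916.SymBil
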