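import Mathlib
import Pool.Agent.Helper916.SymBilThree

set_option autoImplicit false

namespace Pool.Agent.Helper916.SymBil

open Pool.Agent.Helper916.SymplecticSym

theorem strip_le {K : Set (ℝ × ℝ)} (Φ : ℝ × ℝ) (m M l : ℝ) (p s : ℝ × ℝ)
    (ha : ∃ a ∈ K, lf Φ a = m) (hb : ∃ b ∈ K, lf Φ b = M) (h1 : m ≤ lf Φ p) (h2 : lf Φ p ≤ M)
    (hs : ∀ q ∈ K, l * lf Φ q ≤ l * lf Φ s) : l * lf Φ p ≤ l * lf Φ s := by
  obtain ⟨a, haK, ha⟩ := ha
  obtain ⟨b, hbK, hb⟩ := hb
  have k1 := hs a haK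
  have k2 := hs b hbK
  rw [ha] at k1
  rw [hb] at k2
  rcases le_total 0 l with hl | hl
  · exact le_trans (mul_le_mul_of_nonneg_left h2 hl) k2
  · exact le_trans (mul_le_mul_of_nonpos_left h1 hl) k1

theorem extrema {K : Set (ℝ × ℝ)} (hK : IsCompact K) (hne : K.Nonempty) (Φ : ℝ × ℝ) :
    ∃ m M : ℝ, (∃ a ∈ K, lf Φ a = m) ∧ (∃ b ∈ K, lf Φ b = M) ∧ ∀ p ∈ K, m ≤ lf Φ p ∧ lf Φ p ≤ M := by
  have hc : Continuous (fun p => lf Φ p) := by unfold lf; fun_prop
  obtain ⟨a, ha, h1⟩ := hK.exists_isMinOn hne hc.continuousOn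
  obtain ⟨b, hb, h2⟩ := hK.exists_isMaxOn hne hc.continuousOn
  exact ⟨lf Φ a, lf Φ b, ⟨a, ha, rfl⟩, ⟨b, hb, rfl⟩, fun p hp => ⟨h1 hp, h2 hp⟩⟩

/-- A polygon all of whose sides are parallel to one of three pairwise independent vectors has a
periodic orbit. -/
theorem dir_po (S : Finset (ℝ × ℝ)) (hint : (interior (convexHull ℝ (↑S : Set (ℝ × ℝ)))).Nonempty)
    (u v w : ℝ × ℝ) (huv : dt u v ≠ 0) (hvw : dt v w ≠ 0) (huw : dt u w ≠ 0)
    (hside : ∀ p q : ℝ × ℝ, p ≠ q → segment ℝ p q ⊆ frontier (convexHull ℝ (↑S : Set (ℝ × ℝ))) →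
      dt u (p - q) = 0 ∨ dt v (p - q) = 0 ∨ dt w (p - q) = 0) :
    PO (convexHull ℝ (↑S : Set (ℝ × ℝ))) := by
  obtain ⟨K, hKd⟩ : ∃ K, K = convexHull ℝ (↑S : Set (ℝ × ℝ)) := ⟨_, rfl⟩
  have hconv : Convex ℝ K := by rw [hKd]; exact convex_convexHull ℝ _
  have hcomp : IsCompact K := by rw [hKd]; exact (S.finite_toSet).isCompact_convexHull ℝ
  obtain ⟨o, ho⟩ := hint
  have hoK : o ∈ convexHull ℝ (↑S : Set (ℝ × ℝ)) := interior_subset ho
  have hne : K.Nonempty := ⟨o, by rw [hKd]; exact hoK⟩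
  -- the forms
  obtain ⟨F, hF⟩ : ∃ F : ℝ × ℝ, F = (dt w v / dt u v) • ((-u.2, u.1) : ℝ × ℝ) := ⟨_, rfl⟩
  obtain ⟨G, hG⟩ : ∃ G : ℝ × ℝ, G = (dt u w / dt u v) • ((-v.2, v.1) : ℝ × ℝ) := ⟨_, rfl⟩
  have hwv : dt w v ≠ 0 := by
    intro h
    apply hvw
    unfold dt at h ⊢
    linarith
  have hFu : ∀ p, lf F p = dt w v / dt u v * dt u p := by
    intro p; rw [hF]; unfold lf
    simp only [Prod.smul_fst, Prod.smul_snd, smul_eq_mul]
    unfold dt; ring
  have hGv : ∀ p, lf G p = dt u w / dt u v * dt v p := by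
    intro p; rw [hG]; unfold lf
    simp only [Prod.smul_fst, Prod.smul_snd, smul_eq_mul]
    unfold dt; ring
  have hFGw : ∀ p, lf (F + G) p = dt w p := by
    intro p
    rw [lf_add', hFu, hGv]
    field_simp
    unfold dt; ring
  have hFG : F.1 * G.2 - F.2 * G.1 ≠ 0 := by
    have e : F.1 * G.2 - F.2 * G.1 = (dt w v / dt u v) * (dt u w / dt u v) * dt u v := by
      rw [hF, hG]
      simp only [Prod.smul_fst, Prod.smul_snd, smul_eq_mul]
      unfold dt; ring
    rw [e]
    exact mul_ne_zero (mul_ne_zero (div_ne_zero hwv huv) (div_ne_zero huw huv)) huv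
  have hF0 : F ≠ 0 := by rintro h; apply hFG; rw [h]; simp
  have hG0 : G ≠ 0 := by rintro h; apply hFG; rw [h]; simp
  have hH0 : F + G ≠ 0 := by
    intro h
    apply hFG
    have e1 : F.1 + G.1 = 0 := congrArg Prod.fst h
    have e2 : F.2 + G.2 = 0 := congrArg Prod.snd h
    have e3 : G.1 = -F.1 := by linarith
    have e4 : G.2 = -F.2 := by linarith
    rw [e3, e4]; ring
  obtain ⟨mF, MF, aF, bF, cF⟩ := extrema hcomp hne F
  obtain ⟨mG, MG, aG, bG, cG⟩ := extrema hcomp hne G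
  obtain ⟨mH, MH, aH, bH, cH⟩ := extrema hcomp hne (F + G)
  have hstrict : ∀ (Φ : ℝ × ℝ) (m M : ℝ), Φ ≠ 0 → (∀ p ∈ K, m ≤ lf Φ p ∧ lf Φ p ≤ M) → m < M := by
    intro Φ m M hΦ hb
    by_contra hcon
    have hoK' : o ∈ K := by rw [hKd]; exact hoK
    refine not_int hΦ (K := K) (x := o) ?_ (by rw [hKd]; exact ho)
    intro p hp
    have h1 := (hb p hp).2
    have h2 := (hb o hoK').1
    linarith
  have P : Prm (MF - mF) (MG - mG) (MH - mF - mG) (mH - mF - mG) := by
    refine ⟨?_, ?_, ?_, ?_, ?_, ?_, ?_, ?_, ?_⟩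
    · have := hstrict F mF MF hF0 cF; linarith
    · have := hstrict G mG MG hG0 cG; linarith
    · obtain ⟨a, ha, hae⟩ := aH
      have h1 := (cF a ha).1
      have h2 := (cG a ha).1
      rw [lf_add'] at hae
      linarith
    · obtain ⟨a, ha, hae⟩ := aG
      have h1 := (cF a ha).2
      have h2 := (cH a ha).1
      rw [lf_add'] at h2
      linarith
    · obtain ⟨a, ha, hae⟩ := aF
      have h1 := (cG a ha).2
      have h2 := (cH a ha).1
      rw [lf_add'] at h2
      linarith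
    · obtain ⟨a, ha, hae⟩ := bF
      have h1 := (cG a ha).1
      have h2 := (cH a ha).2
      rw [lf_add'] at h2
      linarith
    · obtain ⟨a, ha, hae⟩ := bG
      have h1 := (cF a ha).1
      have h2 := (cH a ha).2
      rw [lf_add'] at h2
      linarith
    · obtain ⟨a, ha, hae⟩ := bH
      have h1 := (cF a ha).2
      have h2 := (cG a ha).2
      rw [lf_add'] at hae
      linarith
    · have := hstrict (F + G) mH MH hH0 cH; linarith
  -- membership in `K`
  have hmemK : ∀ p, (mF ≤ lf F p ∧ lf F p ≤ MF) → (mG ≤ lf G p ∧ lf G p ≤ MG) →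
      (mH ≤ lf (F + G) p ∧ lf (F + G) p ≤ MH) → p ∈ K := by
    intro p q1 q2 q3
    have hPc : IsCompact (Po S o) := Po_compact ho
    have h0 : (0 : ℝ × ℝ) ∈ Po S o := by
      intro s _
      unfold lf; simp
    have hcont : Continuous (fun h : ℝ × ℝ => lf (p - o) h) := by unfold lf; fun_prop
    obtain ⟨h₀, hh₀, hmax⟩ := hPc.exists_isMaxOn ⟨0, h0⟩ hcont.continuousOn
    obtain ⟨k, hk, hkd, s1, hs1, s2, hs2, hs12, hk1, hk2⟩ := face ho (p - o) h₀ hh₀
      (fun h hh => hmax hh)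
    have hcomm : ∀ a b : ℝ × ℝ, lf a b = lf b a := by intro a b; unfold lf; ring
    have hseg : segment ℝ s1 s2 ⊆ frontier (convexHull ℝ (↑S : Set (ℝ × ℝ))) := by
      have hk0 : k ≠ 0 := by
        rintro rfl
        unfold lf at hk1; simp at hk1
      intro z hz
      obtain ⟨a, b, ha, hb, hab, he⟩ := hz
      have hzK : z ∈ convexHull ℝ (↑S : Set (ℝ × ℝ)) := by
        rw [← he]
        exact (convex_convexHull ℝ _) (subset_convexHull ℝ _ hs1) (subset_convexHull ℝ _ hs2) ha hb hab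
      refine ⟨subset_closure hzK, not_int hk0 ?_⟩
      intro r hr
      have h3 := Po_le hk r hr
      have h4 : lf k z = lf k o + 1 := by
        rw [lf_sub] at hk1 hk2
        rw [← he, lf_add, lf_smul, lf_smul]
        have e1 : lf k s1 = lf k o + 1 := by linarith
        have e2 : lf k s2 = lf k o + 1 := by linarith
        rw [e1, e2]
        linear_combination (lf k o + 1) * hab
      rw [lf_sub] at h3
      linarith
    -- `k` is a multiple of one of the forms
    have hk12 : lf k (s1 - s2) = 0 := by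
      rw [lf_sub] at hk1 hk2 ⊢
      linarith
    have hd : s1 - s2 ≠ 0 := sub_ne_zero.2 hs12
    have hmul : ∀ Φ : ℝ × ℝ, Φ ≠ 0 → lf Φ (s1 - s2) = 0 → ∃ l : ℝ, k = l • Φ := by
      intro Φ hΦ h1
      obtain ⟨d, hdd⟩ : ∃ d, d = s1 - s2 := ⟨_, rfl⟩
      rw [← hdd] at h1 hk12 hd
      have hdet : k.1 * Φ.2 - k.2 * Φ.1 = 0 := by
        by_contra hcon
        apply hd
        unfold lf at h1 hk12
        have e1 : d.1 * (k.1 * Φ.2 - k.2 * Φ.1) = 0 := by
          linear_combination Φ.2 * hk12 - k.2 * h1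
        have e2 : d.2 * (k.1 * Φ.2 - k.2 * Φ.1) = 0 := by
          linear_combination k.1 * h1 - Φ.1 * hk12
        exact Prod.ext ((mul_eq_zero.1 e1).resolve_right hcon) ((mul_eq_zero.1 e2).resolve_right hcon)
      by_cases hx : Φ.1 = 0
      · have hy : Φ.2 ≠ 0 := by
          intro h
          exact hΦ (Prod.ext hx h)
        refine ⟨k.2 / Φ.2, Prod.ext ?_ ?_⟩
        · rw [hx] at hdet
          have : k.1 * Φ.2 = 0 := by linarith
          simp only [Prod.smul_fst, smul_eq_mul]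
          rw [hx, mul_zero]
          exact (mul_eq_zero.1 this).resolve_right hy
        · simp only [Prod.smul_snd, smul_eq_mul]
          field_simp
      · refine ⟨k.1 / Φ.1, Prod.ext ?_ ?_⟩
        · simp only [Prod.smul_fst, smul_eq_mul]
          field_simp
        · simp only [Prod.smul_snd, smul_eq_mul]
          field_simp
          linarith
    have hfin : ∀ (Φ : ℝ × ℝ) (m M : ℝ), Φ ≠ 0 → lf Φ (s1 - s2) = 0 → (∃ a ∈ K, lf Φ a = m) →
        (∃ b ∈ K, lf Φ b = M) → (m ≤ lf Φ p ∧ lf Φ p ≤ M) → lf k (p - o) ≤ 1 := by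
      intro Φ m M hΦ h1 ha hb hp
      obtain ⟨l, hl⟩ := hmul Φ hΦ h1
      have hs : ∀ q ∈ K, l * lf Φ q ≤ l * lf Φ s1 := by
        intro q hq
        have h2 := Po_le hk q (by rw [← hKd]; exact hq)
        rw [lf_sub] at h2 hk1
        rw [← lf_smul', ← lf_smul', ← hl]
        linarith
      have h3 := strip_le Φ m M l p s1 ha hb hp.1 hp.2 hs
      rw [← lf_smul', ← lf_smul', ← hl] at h3
      rw [lf_sub] at hk1 ⊢
      linarith
    have hle : lf k (p - o) ≤ 1 := by
      rcases hside s1 s2 hs12 hseg with h1 | h1 | h1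
      · exact hfin F mF MF hF0 (by rw [hFu, h1, mul_zero]) aF bF q1
      · exact hfin G mG MG hG0 (by rw [hGv, h1, mul_zero]) aG bG q2
      · exact hfin (F + G) mH MH hH0 (by rw [hFGw, h1]) aH bH q3
    have hall : ∀ h ∈ Po S o, lf h (p - o) ≤ 1 := by
      intro h hh
      have h1 : lf (p - o) h ≤ lf (p - o) h₀ := hmax hh
      rw [hcomm]
      rw [hcomm] at hle
      linarith
    have := bipolar hoK hall
    rw [hKd]
    have e : o + (p - o) = p := by abel
    rwa [e] at this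
  -- the affine map
  obtain ⟨g, hg⟩ : ∃ g : (ℝ × ℝ) →ᵃ[ℝ] (ℝ × ℝ), ∀ p, g p = (lf F p - mF, lf G p - mG) := by
    refine ⟨(LinearMap.prod (F.1 • LinearMap.fst ℝ ℝ ℝ + F.2 • LinearMap.snd ℝ ℝ ℝ)
      (G.1 • LinearMap.fst ℝ ℝ ℝ + G.2 • LinearMap.snd ℝ ℝ ℝ)).toAffineMap +
      AffineMap.const ℝ (ℝ × ℝ) ((-mF, -mG) : ℝ × ℝ), ?_⟩
    intro p
    unfold lf
    ext
    · simp; ring
    · simp; ring
  have hbij : Function.Bijective g := by
    constructor
    · intro a b hab
      rw [hg, hg, Prod.mk.injEq] at hab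
      obtain ⟨h1, h2⟩ := hab
      unfold lf at h1 h2
      have e1 : (F.1 * G.2 - F.2 * G.1) * (a.1 - b.1) = 0 := by
        linear_combination G.2 * h1 - F.2 * h2
      have e2 : (F.1 * G.2 - F.2 * G.1) * (a.2 - b.2) = 0 := by
        linear_combination F.1 * h2 - G.1 * h1
      have e3 := (mul_eq_zero.1 e1).resolve_left hFG
      have e4 := (mul_eq_zero.1 e2).resolve_left hFG
      exact Prod.ext (by linarith) (by linarith)
    · intro b
      refine ⟨(((b.1 + mF) * G.2 - (b.2 + mG) * F.2) / (F.1 * G.2 - F.2 * G.1),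
        (F.1 * (b.2 + mG) - G.1 * (b.1 + mF)) / (F.1 * G.2 - F.2 * G.1)), ?_⟩
      rw [hg]
      unfold lf
      refine Prod.ext ?_ ?_
      · simp only
        rw [← mul_div_assoc, ← mul_div_assoc, ← add_div, sub_eq_iff_eq_add, div_eq_iff hFG]
        ring
      · simp only
        rw [← mul_div_assoc, ← mul_div_assoc, ← add_div, sub_eq_iff_eq_add, div_eq_iff hFG]
        ring
  obtain ⟨e, he⟩ : ∃ e : (ℝ × ℝ) ≃ᵃ[ℝ] (ℝ × ℝ), ∀ p, e p = g p :=
    ⟨AffineEquiv.ofBijective hbij, fun p => rfl⟩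
  have h1 := po_push e.symm _ (three_po P)
  have h2 : e.symm '' (Hex (MF - mF) (MG - mG) (MH - mF - mG) (mH - mF - mG)) = K := by
    ext p
    constructor
    · rintro ⟨q, ⟨a1, a2, a3, a4, a5, a6⟩, rfl⟩
      have hq : g (e.symm q) = q := by rw [← he, e.apply_symm_apply]
      rw [hg] at hq
      have e1 : lf F (e.symm q) = q.1 + mF := by
        have := congrArg Prod.fst hq
        simp only at this
        linarith
      have e2 : lf G (e.symm q) = q.2 + mG := by
        have := congrArg Prod.snd hq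
        simp only at this
        linarith
      refine hmemK _ ⟨by linarith, by linarith⟩ ⟨by linarith, by linarith⟩ ?_
      rw [lf_add', e1, e2]
      exact ⟨by linarith, by linarith⟩
    · intro hp
      refine ⟨e p, ?_, e.symm_apply_apply p⟩
      rw [he, hg]
      have b1 := cF p hp
      have b2 := cG p hp
      have b3 := cH p hp
      rw [lf_add'] at b3
      exact ⟨by simp only; linarith, by simp only; linarith, by simp only; linarith,
        by simp only; linarith, by simp only; linarith, by simp only; linarith⟩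
  rw [h2] at h1
  rw [← hKd]
  exact h1

end Pool.Agent.Helper916.SymBil
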