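import Mathlib
import Pool.Agent.Helper916.SymBilRat

set_option autoImplicit false

namespace Pool.Agent.Helper916.SymBil

open Pool.Agent.Helper916.SymplecticSym

/-- the lattice class with reflection -/
def Ls (r c θ s : ℝ) : Prop := La r θ s ∨ La r (c - θ) s

theorem Ls_sh {r c θ s s' : ℝ} (hs : Ls r c θ s) (i : ℤ) (e : s' = s + i * r) : Ls r c θ s' := by
  rcases hs with hs | hs
  · exact Or.inl (La_sh hs i e)
  · exact Or.inr (La_sh hs i e)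

theorem Ls_rf {r c θ s s' : ℝ} (hs : Ls r c θ s) (i : ℤ) (e : s' = c - s + i * r) :
    Ls r c θ s' := by
  rcases hs with ⟨m, hm⟩ | ⟨m, hm⟩
  · exact Or.inr ⟨-m + i, by rw [e, hm]; push_cast; ring⟩
  · exact Or.inl ⟨-m + i, by rw [e, hm]; push_cast; ring⟩

section
variable {w h N c : ℝ}

/-- gap class -/
theorem closG (P : Prm w h N c) (Nw : N < 2 * w) (v0 : N - c < h) (v1 : c + w < h)
    (v2 : 2 * c + w ≤ N) (t : ℝ) : CF w h N c {p |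
      (p.2 = 0 ∧ (c < p.1 ∧ p.1 ≤ N - c - w) ∧ (p.1 = t ∨ p.1 = N - w - t)) ∨
      (p.1 + p.2 = N ∧ (c ≤ p.1 ∧ p.1 ≤ N - c - w) ∧ (p.1 = t ∨ p.1 = N - w - t)) ∨
      (p.1 = 0 ∧ (c < p.2 ∧ p.2 ≤ N - c - w) ∧ (p.2 = t ∨ p.2 = N - w - t)) ∨
      (p.1 = 0 ∧ (c + w ≤ p.2 ∧ p.2 ≤ N - c) ∧ (N - p.2 = t ∨ N - p.2 = N - w - t)) ∨
      (p.1 = w ∧ (c ≤ p.2 ∧ p.2 ≤ N - c - w) ∧ (p.2 = t ∨ p.2 = N - w - t))} := by
  obtain ⟨w0, h0, c0, cw, ch, wN, hN, Nwh, cN⟩ := P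
  rintro ⟨p1, p2⟩ hp k ⟨z1, z2⟩ hz hr
  simp only [Set.mem_ofPred_eq] at hp ⊢
  rcases hr with ⟨_, a1, a2, a3⟩ | ⟨_, a1, a2, a3⟩ | ⟨_, a1, a2, a3⟩ <;> simp only at a1 a2 a3 <;>
  rcases hp with ⟨b1, b2, b3⟩ | ⟨b1, b2, b3⟩ | ⟨b1, b2, b3⟩ | ⟨b1, b2, b3⟩ | ⟨b1, b2, b3⟩ <;>
  obtain ⟨b4, b5⟩ := b2 <;>
  rcases hz with ⟨g1, g2, g3⟩ | ⟨g1, g2, g3⟩ | ⟨g1, g2, g3⟩ | ⟨g1, g2, g3⟩ | ⟨g1, g2, g3⟩ |
    ⟨g1, g2, g3⟩ <;> simp only at g1 g2 g3 <;>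
  first
    | (exfalso; linarith)
    | (refine Or.inl ⟨by linarith, ⟨by linarith, by linarith⟩, ?_⟩
       rcases b3 with b3 | b3 <;> first | exact Or.inl (by linarith) | exact Or.inr (by linarith))
    | (refine Or.inr (Or.inl ⟨by linarith, ⟨by linarith, by linarith⟩, ?_⟩)
       rcases b3 with b3 | b3 <;> first | exact Or.inl (by linarith) | exact Or.inr (by linarith))
    | (refine Or.inr (Or.inr (Or.inl ⟨by linarith, ⟨by linarith, by linarith⟩, ?_⟩))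
       rcases b3 with b3 | b3 <;> first | exact Or.inl (by linarith) | exact Or.inr (by linarith))
    | (refine Or.inr (Or.inr (Or.inr (Or.inl ⟨by linarith, ⟨by linarith, by linarith⟩, ?_⟩)))
       rcases b3 with b3 | b3 <;> first | exact Or.inl (by linarith) | exact Or.inr (by linarith))
    | (refine Or.inr (Or.inr (Or.inr (Or.inr ⟨by linarith, ⟨by linarith, by linarith⟩, ?_⟩)))
       rcases b3 with b3 | b3 <;> first | exact Or.inl (by linarith) | exact Or.inr (by linarith))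

/-- the main class -/
theorem closV (P : Prm w h N c) (Nw : N < 2 * w) (v0 : N - c < h) (v1 : c + w < h)
    (v2 : 2 * c + w ≤ N) (θ : ℝ) : CF w h N c {p |
      (p.2 = 0 ∧ (N - c - w < p.1 ∧ p.1 < N - w) ∧ Ls (h - N + c) c θ (p.1 - (N - c - w))) ∨
      (p.1 + p.2 = N ∧ (N - h < p.1 ∧ p.1 < c) ∧ Ls (h - N + c) c θ p.1) ∨
      (p.1 + p.2 = N ∧ (N - c - w < p.1 ∧ p.1 < N - w) ∧
        Ls (h - N + c) c θ (p.1 - (N - c - w))) ∨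
      (p.1 = 0 ∧ (N - c - w < p.2 ∧ p.2 < N - w) ∧ Ls (h - N + c) c θ (p.2 - (N - c - w))) ∨
      (p.1 = 0 ∧ (N - c < p.2 ∧ p.2 < h) ∧ Ls (h - N + c) c θ (N - p.2)) ∨
      (p.1 = 0 ∧ (w < p.2 ∧ p.2 < c + w) ∧ Ls (h - N + c) c θ (c + w - p.2)) ∨
      (p.1 = w ∧ (0 < p.2 ∧ p.2 < c) ∧ Ls (h - N + c) c θ (c - p.2)) ∨
      (p.1 = w ∧ (N - c - w < p.2 ∧ p.2 < N - w) ∧ Ls (h - N + c) c θ (p.2 - (N - c - w))) ∨
      (p.2 = h ∧ (0 < p.1 ∧ p.1 < N - h) ∧ Ls (h - N + c) c θ p.1) ∨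
      (p.1 + p.2 = c ∧ (0 < p.1 ∧ p.1 < c) ∧ Ls (h - N + c) c θ p.1)} := by
  obtain ⟨w0, h0, c0, cw, ch, wN, hN, Nwh, cN⟩ := P
  have E0 : ((0 : ℤ) : ℝ) * (h - N + c) = 0 := by push_cast; ring
  have E1 : ((1 : ℤ) : ℝ) * (h - N + c) = h - N + c := by push_cast; ring
  have E2 : ((-1 : ℤ) : ℝ) * (h - N + c) = -(h - N + c) := by push_cast; ring
  rintro ⟨p1, p2⟩ hp k ⟨z1, z2⟩ hz hr
  simp only [Set.mem_ofPred_eq] at hp ⊢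
  rcases hr with ⟨_, a1, a2, a3⟩ | ⟨_, a1, a2, a3⟩ | ⟨_, a1, a2, a3⟩ <;> simp only at a1 a2 a3 <;>
  rcases hp with ⟨b1, b2, b3⟩ | ⟨b1, b2, b3⟩ | ⟨b1, b2, b3⟩ | ⟨b1, b2, b3⟩ | ⟨b1, b2, b3⟩ |
    ⟨b1, b2, b3⟩ | ⟨b1, b2, b3⟩ | ⟨b1, b2, b3⟩ | ⟨b1, b2, b3⟩ | ⟨b1, b2, b3⟩ <;>
  obtain ⟨b4, b5⟩ := b2 <;>
  rcases hz with ⟨g1, g2, g3⟩ | ⟨g1, g2, g3⟩ | ⟨g1, g2, g3⟩ | ⟨g1, g2, g3⟩ | ⟨g1, g2, g3⟩ |
    ⟨g1, g2, g3⟩ <;> simp only at g1 g2 g3 <;>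
  first
    | (exfalso; linarith)
    | (refine Or.inl ⟨by linarith, ⟨by linarith, by linarith⟩, ?_⟩
       first | exact Ls_sh b3 0 (by linarith) | exact Ls_rf b3 0 (by linarith)
             | exact Ls_sh b3 1 (by linarith) | exact Ls_sh b3 (-1) (by linarith))
    | (refine Or.inr (Or.inl ⟨by linarith, ⟨by linarith, by linarith⟩, ?_⟩)
       first | exact Ls_sh b3 0 (by linarith) | exact Ls_rf b3 0 (by linarith)
             | exact Ls_sh b3 1 (by linarith) | exact Ls_sh b3 (-1) (by linarith))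
    | (refine Or.inr (Or.inr (Or.inl ⟨by linarith, ⟨by linarith, by linarith⟩, ?_⟩))
       first | exact Ls_sh b3 0 (by linarith) | exact Ls_rf b3 0 (by linarith)
             | exact Ls_sh b3 1 (by linarith) | exact Ls_sh b3 (-1) (by linarith))
    | (refine Or.inr (Or.inr (Or.inr (Or.inl ⟨by linarith, ⟨by linarith, by linarith⟩, ?_⟩)))
       first | exact Ls_sh b3 0 (by linarith) | exact Ls_rf b3 0 (by linarith)
             | exact Ls_sh b3 1 (by linarith) | exact Ls_sh b3 (-1) (by linarith))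
    | (refine Or.inr (Or.inr (Or.inr (Or.inr (Or.inl ⟨by linarith, ⟨by linarith, by linarith⟩, ?_⟩))))
       first | exact Ls_sh b3 0 (by linarith) | exact Ls_rf b3 0 (by linarith)
             | exact Ls_sh b3 1 (by linarith) | exact Ls_sh b3 (-1) (by linarith))
    | (refine Or.inr (Or.inr (Or.inr (Or.inr (Or.inr (Or.inl
          ⟨by linarith, ⟨by linarith, by linarith⟩, ?_⟩)))))
       first | exact Ls_sh b3 0 (by linarith) | exact Ls_rf b3 0 (by linarith)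
             | exact Ls_sh b3 1 (by linarith) | exact Ls_sh b3 (-1) (by linarith))
    | (refine Or.inr (Or.inr (Or.inr (Or.inr (Or.inr (Or.inr (Or.inl
          ⟨by linarith, ⟨by linarith, by linarith⟩, ?_⟩))))))
       first | exact Ls_sh b3 0 (by linarith) | exact Ls_rf b3 0 (by linarith)
             | exact Ls_sh b3 1 (by linarith) | exact Ls_sh b3 (-1) (by linarith))
    | (refine Or.inr (Or.inr (Or.inr (Or.inr (Or.inr (Or.inr (Or.inr (Or.inl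
          ⟨by linarith, ⟨by linarith, by linarith⟩, ?_⟩)))))))
       first | exact Ls_sh b3 0 (by linarith) | exact Ls_rf b3 0 (by linarith)
             | exact Ls_sh b3 1 (by linarith) | exact Ls_sh b3 (-1) (by linarith))
    | (refine Or.inr (Or.inr (Or.inr (Or.inr (Or.inr (Or.inr (Or.inr (Or.inr (Or.inl
          ⟨by linarith, ⟨by linarith, by linarith⟩, ?_⟩))))))))
       first | exact Ls_sh b3 0 (by linarith) | exact Ls_rf b3 0 (by linarith)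
             | exact Ls_sh b3 1 (by linarith) | exact Ls_sh b3 (-1) (by linarith))
    | (refine Or.inr (Or.inr (Or.inr (Or.inr (Or.inr (Or.inr (Or.inr (Or.inr (Or.inr
          ⟨by linarith, ⟨by linarith, by linarith⟩, ?_⟩))))))))
       first | exact Ls_sh b3 0 (by linarith) | exact Ls_rf b3 0 (by linarith)
             | exact Ls_sh b3 1 (by linarith) | exact Ls_sh b3 (-1) (by linarith))

theorem finM1 (t : ℝ) : ({p : ℝ × ℝ |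
      (p.2 = 0 ∧ (N - w ≤ p.1 ∧ p.1 < w) ∧ (p.1 = t ∨ p.1 = N - t)) ∨
      (p.1 + p.2 = N ∧ (N - w ≤ p.1 ∧ p.1 < w) ∧ (p.1 = t ∨ p.1 = N - t)) ∨
      (p.1 = 0 ∧ (N - w ≤ p.2 ∧ p.2 ≤ w) ∧ (p.2 = t ∨ p.2 = N - t))}).Finite := by
  refine (((Set.toFinite {0, t, N - t}).prod (Set.toFinite {0, t, N - t}))).subset ?_
  rintro ⟨p1, p2⟩ hp
  simp only [Set.mem_ofPred_eq] at hp
  simp only [Set.mem_prod, Set.mem_insert_iff, Set.mem_singleton_iff]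
  rcases hp with ⟨b1, _, b3 | b3⟩ | ⟨b1, _, b3 | b3⟩ | ⟨b1, _, b3 | b3⟩
  · exact ⟨Or.inr (Or.inl b3), Or.inl b1⟩
  · exact ⟨Or.inr (Or.inr b3), Or.inl b1⟩
  · exact ⟨Or.inr (Or.inl b3), Or.inr (Or.inr (by linarith))⟩
  · exact ⟨Or.inr (Or.inr b3), Or.inr (Or.inl (by linarith))⟩
  · exact ⟨Or.inl b1, Or.inr (Or.inl b3)⟩
  · exact ⟨Or.inl b1, Or.inr (Or.inr b3)⟩

theorem finG (t : ℝ) : ({p : ℝ × ℝ |
      (p.2 = 0 ∧ (c < p.1 ∧ p.1 ≤ N - c - w) ∧ (p.1 = t ∨ p.1 = N - w - t)) ∨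
      (p.1 + p.2 = N ∧ (c ≤ p.1 ∧ p.1 ≤ N - c - w) ∧ (p.1 = t ∨ p.1 = N - w - t)) ∨
      (p.1 = 0 ∧ (c < p.2 ∧ p.2 ≤ N - c - w) ∧ (p.2 = t ∨ p.2 = N - w - t)) ∨
      (p.1 = 0 ∧ (c + w ≤ p.2 ∧ p.2 ≤ N - c) ∧ (N - p.2 = t ∨ N - p.2 = N - w - t)) ∨
      (p.1 = w ∧ (c ≤ p.2 ∧ p.2 ≤ N - c - w) ∧ (p.2 = t ∨ p.2 = N - w - t))}).Finite := by
  refine (((Set.toFinite {0, w, t, N - w - t}).prod
    (Set.toFinite {0, t, N - w - t, N - t, w + t}))).subset ?_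
  rintro ⟨p1, p2⟩ hp
  simp only [Set.mem_ofPred_eq] at hp
  simp only [Set.mem_prod, Set.mem_insert_iff, Set.mem_singleton_iff]
  rcases hp with ⟨b1, _, b3 | b3⟩ | ⟨b1, _, b3 | b3⟩ | ⟨b1, _, b3 | b3⟩ | ⟨b1, _, b3 | b3⟩ |
    ⟨b1, _, b3 | b3⟩
  · exact ⟨Or.inr (Or.inr (Or.inl b3)), Or.inl b1⟩
  · exact ⟨Or.inr (Or.inr (Or.inr b3)), Or.inl b1⟩
  · exact ⟨Or.inr (Or.inr (Or.inl b3)), Or.inr (Or.inr (Or.inr (Or.inl (by linarith))))⟩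
  · exact ⟨Or.inr (Or.inr (Or.inr b3)), Or.inr (Or.inr (Or.inr (Or.inr (by linarith))))⟩
  · exact ⟨Or.inl b1, Or.inr (Or.inl b3)⟩
  · exact ⟨Or.inl b1, Or.inr (Or.inr (Or.inl b3))⟩
  · exact ⟨Or.inl b1, Or.inr (Or.inr (Or.inr (Or.inl (by linarith))))⟩
  · exact ⟨Or.inl b1, Or.inr (Or.inr (Or.inr (Or.inr (by linarith))))⟩
  · exact ⟨Or.inr (Or.inl b1), Or.inr (Or.inl b3)⟩
  · exact ⟨Or.inr (Or.inl b1), Or.inr (Or.inr (Or.inl b3))⟩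

theorem Ls_fin (r c θ M : ℝ) (hr : 0 < r) : {s : ℝ | Ls r c θ s ∧ 0 < s ∧ s < M}.Finite := by
  refine ((La_fin r θ M hr).union (La_fin r (c - θ) M hr)).subset ?_
  rintro s ⟨h1 | h1, h2, h3⟩
  · exact Or.inl ⟨h1, h2, h3⟩
  · exact Or.inr ⟨h1, h2, h3⟩

theorem finV (P : Prm w h N c) (v0 : N - c < h) (θ : ℝ) : ({p : ℝ × ℝ |
      (p.2 = 0 ∧ (N - c - w < p.1 ∧ p.1 < N - w) ∧ Ls (h - N + c) c θ (p.1 - (N - c - w))) ∨
      (p.1 + p.2 = N ∧ (N - h < p.1 ∧ p.1 < c) ∧ Ls (h - N + c) c θ p.1) ∨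
      (p.1 + p.2 = N ∧ (N - c - w < p.1 ∧ p.1 < N - w) ∧
        Ls (h - N + c) c θ (p.1 - (N - c - w))) ∨
      (p.1 = 0 ∧ (N - c - w < p.2 ∧ p.2 < N - w) ∧ Ls (h - N + c) c θ (p.2 - (N - c - w))) ∨
      (p.1 = 0 ∧ (N - c < p.2 ∧ p.2 < h) ∧ Ls (h - N + c) c θ (N - p.2)) ∨
      (p.1 = 0 ∧ (w < p.2 ∧ p.2 < c + w) ∧ Ls (h - N + c) c θ (c + w - p.2)) ∨
      (p.1 = w ∧ (0 < p.2 ∧ p.2 < c) ∧ Ls (h - N + c) c θ (c - p.2)) ∨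
      (p.1 = w ∧ (N - c - w < p.2 ∧ p.2 < N - w) ∧ Ls (h - N + c) c θ (p.2 - (N - c - w))) ∨
      (p.2 = h ∧ (0 < p.1 ∧ p.1 < N - h) ∧ Ls (h - N + c) c θ p.1) ∨
      (p.1 + p.2 = c ∧ (0 < p.1 ∧ p.1 < c) ∧ Ls (h - N + c) c θ p.1)}).Finite := by
  obtain ⟨w0, h0, c0, cw, ch, wN, hN, Nwh, cN⟩ := P
  have hL := Ls_fin (h - N + c) c θ N (by linarith)
  refine ((hL.image (fun s : ℝ => (s + (N - c - w), (0 : ℝ)))).union
    ((hL.image (fun s : ℝ => (s, N - s))).union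
    ((hL.image (fun s : ℝ => (s + (N - c - w), N - (s + (N - c - w))))).union
    ((hL.image (fun s : ℝ => ((0 : ℝ), s + (N - c - w)))).union
    ((hL.image (fun s : ℝ => ((0 : ℝ), N - s))).union
    ((hL.image (fun s : ℝ => ((0 : ℝ), c + w - s))).union
    ((hL.image (fun s : ℝ => (w, c - s))).union
    ((hL.image (fun s : ℝ => (w, s + (N - c - w)))).union
    ((hL.image (fun s : ℝ => (s, h))).union
    (hL.image (fun s : ℝ => (s, c - s)))))))))))).subset ?_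
  rintro ⟨p1, p2⟩ hp
  simp only [Set.mem_ofPred_eq] at hp
  rcases hp with ⟨b1, b2, b3⟩ | ⟨b1, b2, b3⟩ | ⟨b1, b2, b3⟩ | ⟨b1, b2, b3⟩ | ⟨b1, b2, b3⟩ |
    ⟨b1, b2, b3⟩ | ⟨b1, b2, b3⟩ | ⟨b1, b2, b3⟩ | ⟨b1, b2, b3⟩ | ⟨b1, b2, b3⟩
  · exact Or.inl ⟨_, ⟨b3, by linarith, by linarith⟩,
      Prod.ext (show p1 - (N - c - w) + (N - c - w) = p1 by ring) b1.symm⟩
  · exact Or.inr (Or.inl ⟨_, ⟨b3, by linarith, by linarith⟩,
      Prod.ext rfl (show N - p1 = p2 by linarith)⟩)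
  · exact Or.inr (Or.inr (Or.inl ⟨_, ⟨b3, by linarith, by linarith⟩,
      Prod.ext (show p1 - (N - c - w) + (N - c - w) = p1 by ring)
        (show N - (p1 - (N - c - w) + (N - c - w)) = p2 by linarith)⟩))
  · exact Or.inr (Or.inr (Or.inr (Or.inl ⟨_, ⟨b3, by linarith, by linarith⟩,
      Prod.ext b1.symm (show p2 - (N - c - w) + (N - c - w) = p2 by ring)⟩)))
  · exact Or.inr (Or.inr (Or.inr (Or.inr (Or.inl ⟨_, ⟨b3, by linarith, by linarith⟩,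
      Prod.ext b1.symm (show N - (N - p2) = p2 by ring)⟩))))
  · exact Or.inr (Or.inr (Or.inr (Or.inr (Or.inr (Or.inl ⟨_, ⟨b3, by linarith, by linarith⟩,
      Prod.ext b1.symm (show c + w - (c + w - p2) = p2 by ring)⟩)))))
  · exact Or.inr (Or.inr (Or.inr (Or.inr (Or.inr (Or.inr (Or.inl
      ⟨_, ⟨b3, by linarith, by linarith⟩,
      Prod.ext b1.symm (show c - (c - p2) = p2 by ring)⟩))))))
  · exact Or.inr (Or.inr (Or.inr (Or.inr (Or.inr (Or.inr (Or.inr (Or.inl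
      ⟨_, ⟨b3, by linarith, by linarith⟩,
      Prod.ext b1.symm (show p2 - (N - c - w) + (N - c - w) = p2 by ring)⟩)))))))
  · exact Or.inr (Or.inr (Or.inr (Or.inr (Or.inr (Or.inr (Or.inr (Or.inr (Or.inl
      ⟨_, ⟨b3, by linarith, by linarith⟩, Prod.ext rfl b1.symm⟩))))))))
  · exact Or.inr (Or.inr (Or.inr (Or.inr (Or.inr (Or.inr (Or.inr (Or.inr (Or.inr
      ⟨_, ⟨b3, by linarith, by linarith⟩, Prod.ext rfl (show c - p1 = p2 by linarith)⟩))))))))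

theorem v_fin (P : Prm w h N c) (Nw : N < 2 * w) (v0 : N - c < h) (v1 : c + w < h)
    (v2 : 2 * c + w ≤ N) (p : ℝ × ℝ) (hp : BD w h N c p) :
    ∃ F : Set (ℝ × ℝ), F.Finite ∧ p ∈ F ∧ CF w h N c F := by
  have hc0 := P.c0
  have hhN := P.hN
  have cl1 := closM1 P (by linarith) Nw (by linarith)
  have cl2 := closG P Nw v0 v1 v2
  have cl3 := closV P Nw v0 v1 v2
  have fV := finV P v0
  have hself : ∀ s : ℝ, Ls (h - N + c) c s s := fun s => Or.inl ⟨0, by push_cast; ring⟩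
  rcases hp with ⟨g1, g2, g3⟩ | ⟨g1, g2, g3⟩ | ⟨g1, g2, g3⟩ | ⟨g1, g2, g3⟩ | ⟨g1, g2, g3⟩ |
    ⟨g1, g2, g3⟩
  · rcases le_or_gt p.1 (N - c - w) with h1 | h1
    · exact ⟨_, finG p.1, Or.inl ⟨g1, ⟨g2, h1⟩, Or.inl rfl⟩, cl2 _⟩
    · rcases lt_or_ge p.1 (N - w) with h2 | h2
      · exact ⟨_, fV _, Or.inl ⟨g1, ⟨h1, h2⟩, hself _⟩, cl3 _⟩
      · exact ⟨_, finM1 p.1, Or.inl ⟨g1, ⟨h2, g3⟩, Or.inl rfl⟩, cl1 _⟩
  · rcases le_or_gt p.2 (N - c - w) with h1 | h1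
    · exact ⟨_, finG p.2, Or.inr (Or.inr (Or.inl ⟨g1, ⟨g2, h1⟩, Or.inl rfl⟩)), cl2 _⟩
    · rcases lt_or_ge p.2 (N - w) with h2 | h2
      · exact ⟨_, fV _, Or.inr (Or.inr (Or.inr (Or.inl ⟨g1, ⟨h1, h2⟩, hself _⟩))), cl3 _⟩
      · rcases le_or_gt p.2 w with h3 | h3
        · exact ⟨_, finM1 p.2, Or.inr (Or.inr ⟨g1, ⟨h2, h3⟩, Or.inl rfl⟩), cl1 _⟩
        · rcases lt_or_ge p.2 (c + w) with h4 | h4
          · exact ⟨_, fV _, Or.inr (Or.inr (Or.inr (Or.inr (Or.inr (Or.inl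
              ⟨g1, ⟨h3, h4⟩, hself _⟩))))), cl3 _⟩
          · rcases le_or_gt p.2 (N - c) with h5 | h5
            · exact ⟨_, finG (N - p.2), Or.inr (Or.inr (Or.inr (Or.inl
                ⟨g1, ⟨h4, h5⟩, Or.inl rfl⟩))), cl2 _⟩
            · exact ⟨_, fV _, Or.inr (Or.inr (Or.inr (Or.inr (Or.inl
                ⟨g1, ⟨h5, g3⟩, hself _⟩)))), cl3 _⟩
  · rcases lt_or_ge p.2 c with h1 | h1
    · exact ⟨_, fV _, Or.inr (Or.inr (Or.inr (Or.inr (Or.inr (Or.inr (Or.inl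
        ⟨g1, ⟨g2, h1⟩, hself _⟩)))))), cl3 _⟩
    · rcases le_or_gt p.2 (N - c - w) with h2 | h2
      · exact ⟨_, finG p.2, Or.inr (Or.inr (Or.inr (Or.inr ⟨g1, ⟨h1, h2⟩, Or.inl rfl⟩))), cl2 _⟩
      · exact ⟨_, fV _, Or.inr (Or.inr (Or.inr (Or.inr (Or.inr (Or.inr (Or.inr (Or.inl
          ⟨g1, ⟨h2, g3⟩, hself _⟩))))))), cl3 _⟩
  · exact ⟨_, fV _, Or.inr (Or.inr (Or.inr (Or.inr (Or.inr (Or.inr (Or.inr (Or.inr (Or.inl
        ⟨g1, ⟨g2, g3⟩, hself _⟩)))))))), cl3 _⟩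
  · rcases lt_or_ge p.1 c with h1 | h1
    · exact ⟨_, fV _, Or.inr (Or.inl ⟨g1, ⟨g2, h1⟩, hself _⟩), cl3 _⟩
    · rcases le_or_gt p.1 (N - c - w) with h2 | h2
      · exact ⟨_, finG p.1, Or.inr (Or.inl ⟨g1, ⟨h1, h2⟩, Or.inl rfl⟩), cl2 _⟩
      · rcases lt_or_ge p.1 (N - w) with h3 | h3
        · exact ⟨_, fV _, Or.inr (Or.inr (Or.inl ⟨g1, ⟨h2, h3⟩, hself _⟩)), cl3 _⟩
        · exact ⟨_, finM1 p.1, Or.inr (Or.inl ⟨g1, ⟨h3, g3⟩, Or.inl rfl⟩), cl1 _⟩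
  · exact ⟨_, fV _, Or.inr (Or.inr (Or.inr (Or.inr (Or.inr (Or.inr (Or.inr (Or.inr (Or.inr
        ⟨g1, ⟨g2, g3⟩, hself _⟩)))))))), cl3 _⟩

end

end Pool.Agent.Helper916.SymBil
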